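import Pool.Agent.helper15.PB.E2a
import Pool.Agent.H48.OR.Defs

/-! # PB-E2b: the planar inequality in the form used by the 3D reduction -/

set_option autoImplicit false
open MeasureTheory Set

namespace Pool.Agent.helper15.PB

theorem planar_ineq_three_of (HG : PlanarGeneral) : Pool.Agent.H48.OR.PlanarIneq 3 := by
  intro n β γ F B ρ vF cF iF hb hB hB2 hρ0 hρ1 hA hc1 hc2
  have hne : Nonempty (Fin n) := by
    obtain ⟨⟨k, -⟩, -⟩ := hB 0
    exact ⟨k⟩
  have hdot : ∀ (k : Fin n) (z : P2), dot ((β k (1, 0), β k (0, 1)) : P2) z = β k z := by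
    intro k z
    have hz : z = z.1 • ((1, 0) : P2) + z.2 • ((0, 1) : P2) := by
      ext <;> simp
    conv_rhs => rw [hz]
    rw [map_add, map_smul, map_smul]
    simp only [dot, smul_eq_mul]
    ring
  have hFpos : 0 < area F := by
    unfold area
    exact ENNReal.toReal_pos (Measure.measure_pos_of_nonempty_interior volume iF).ne'
      cF.measure_lt_top.ne
  have hA' : area {z | z ∈ F ∧ B z ≤ 1} = ρ * area F := hA
  have hρ4 : ρ < 1 / 4 := by
    have : (1 : ℝ) / (1 + 3) = 1 / 4 := by norm_num
    rwa [this] at hρ1
  have key := planar_final_of HG (F := F) (G := {z | z ∈ F ∧ B z ≤ 1}) cF vF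
    (fun k => ((β k (1, 0), β k (0, 1)) : P2)) γ
    (fun y hy k => by
      rw [hdot]
      have := hb k y hy
      linarith) B
    (fun y => by
      have := hB y
      have e : (fun k => γ k + dot ((β k (1, 0), β k (0, 1)) : P2) y) =
          fun k => β k y + γ k := by
        funext k
        rw [hdot, add_comm]
      rw [e]
      exact this) hB2 rfl
    (by rw [hA', hc1]; ring) (by rw [hA', hc2]; ring)
    (by rw [hA']; positivity)
    (by rw [hA']; nlinarith)
  simp only [one_div] at key
  exact key

end Pool.Agent.helper15.PB
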