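import Pool.Agent.helper15.PB.E1
import Pool.Agent.helper15.PB.E2b

/-! # PB-E2: the planar theorem in the form used by the 3D reduction -/

set_option autoImplicit false
open MeasureTheory Set

namespace Pool.Agent.helper15.PB

theorem planarGeneral : PlanarGeneral := fun _ _ _ _ cF vF cB vB neg hGt hG F01 F02 G01 G02 hpos F4 =>
  planar_general cF vF cB vB neg hGt hG F01 F02 G01 G02 hpos F4

/-- final interface used by the 3D reduction -/
theorem planar_final {ι : Type} [Fintype ι] [Nonempty ι] {F G : Set P2} (cF : IsCompact F) (vF : Convex ℝ F)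
    (p : ι → P2) (β : ι → ℝ)
    (hb : ∀ y ∈ F, ∀ k, 0 ≤ β k + dot (p k) y)
    (Bf : P2 → ℝ) (hB : ∀ y, IsGreatest (Set.range fun k => β k + dot (p k) y) (Bf y))
    (hB2 : ∀ y ∈ F, 1 / 2 < Bf y)
    (hG : G = {y | y ∈ F ∧ Bf y ≤ 1})
    (hc1 : area F * ∫ y in G, y.1 = area G * ∫ y in F, y.1)
    (hc2 : area F * ∫ y in G, y.2 = area G * ∫ y in F, y.2)
    (hpos : 0 < area G) (h4 : 4 * area G < area F) :
    ∫ y in G, (1 / (2 * Bf y - 1) ^ 3) ≤ 3 * area G :=
  planar_final_of planarGeneral cF vF p β hb Bf hB hB2 hG hc1 hc2 hpos h4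

/-- the same, against the definition of the 3D reduction -/
theorem planar_ineq_three : Pool.Agent.H48.OR.PlanarIneq 3 :=
  planar_ineq_three_of planarGeneral

end Pool.Agent.helper15.PB
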