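import Pool.Agent.helper15.PB.Defs

set_option autoImplicit false
open MeasureTheory Set
open scoped Pointwise

namespace Pool.Agent.helper15.PB

theorem sec_nonneg (K : Set P2) (u : ℝ) : 0 ≤ sec K u := ENNReal.toReal_nonneg

theorem area_nonneg (K : Set P2) : 0 ≤ area K := ENNReal.toReal_nonneg

theorem A1a_isCompact_section {K : Set P2} (hK : IsCompact K) (u : ℝ) :
    IsCompact {x : ℝ | ((x, u) : P2) ∈ K} :=
  IsCompact.of_isClosed_subset (hK.image continuous_fst)
    (hK.isClosed.preimage (by fun_prop : Continuous fun x : ℝ => ((x, u) : P2)))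
    (fun x hx => ⟨((x, u) : P2), hx, rfl⟩)

theorem sec_mono {K L : Set P2} (hL : IsCompact L) (h : K ⊆ L) (u : ℝ) :
    sec K u ≤ sec L u :=
  ENNReal.toReal_mono (A1a_isCompact_section hL u).measure_lt_top.ne
    (measure_mono fun _ hx => h hx)

theorem sec_eq_zero_of_empty {K : Set P2} {u : ℝ} (h : ∀ x, ((x, u) : P2) ∉ K) :
    sec K u = 0 := by
  have : {x : ℝ | ((x, u) : P2) ∈ K} = ∅ := by
    ext x; simp [h x]
  rw [sec, this]; simp

theorem sec_bound {K : Set P2} (hK : IsCompact K) : ∃ M : ℝ, ∀ u, sec K u ≤ M :=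
  ⟨(volume (Prod.fst '' K)).toReal, fun u =>
    ENNReal.toReal_mono (hK.image continuous_fst).measure_lt_top.ne
      (measure_mono fun x hx => ⟨((x, u) : P2), hx, rfl⟩)⟩

theorem sec_bdd_support {K : Set P2} (hK : IsCompact K) :
    ∃ R : ℝ, 0 < R ∧ ∀ u, R < |u| → sec K u = 0 := by
  obtain ⟨C, hC⟩ := hK.exists_bound_of_continuousOn (f := fun y : P2 => y.2)
    continuous_snd.continuousOn
  refine ⟨max C 1, by positivity, fun u hu => sec_eq_zero_of_empty fun x hx => ?_⟩
  have h1 := hC _ hx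
  simp only [Real.norm_eq_abs] at h1
  exact absurd (lt_of_le_of_lt (le_max_left C 1) hu) (not_lt.mpr h1)

/-- 1D Brunn-Minkowski for scaled compact sets. -/
theorem A1a_bm1 {S T Z : Set ℝ} (hS : IsCompact S) (hT : IsCompact T) (hSn : S.Nonempty)
    (hTn : T.Nonempty) {a b : ℝ} (ha : 0 ≤ a) (hb : 0 ≤ b)
    (h : ∀ x ∈ S, ∀ y ∈ T, a * x + b * y ∈ Z) :
    ENNReal.ofReal a * volume S + ENNReal.ofReal b * volume T ≤ volume Z := by
  obtain ⟨x1, hx1, hx1'⟩ := hS.exists_isMaxOn hSn continuousOn_id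
  obtain ⟨y0, hy0, hy0'⟩ := hT.exists_isMinOn hTn continuousOn_id
  have hX : ∀ x ∈ S, x ≤ x1 := fun x hx => hx1' hx
  have hY : ∀ y ∈ T, y0 ≤ y := fun y hy => hy0' hy
  set c := a * x1 + b * y0 with hc
  have e1 : volume (a • S) = ENNReal.ofReal a * volume S := by
    rw [Measure.addHaar_smul]; simp [abs_of_nonneg ha]
  have e2 : volume (b • T) = ENNReal.ofReal b * volume T := by
    rw [Measure.addHaar_smul]; simp [abs_of_nonneg hb]
  have i1 : volume (a • S) ≤ volume (Z ∩ Iic c) := by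
    rw [← measure_preimage_add_right volume (b * y0) (Z ∩ Iic c)]
    refine measure_mono ?_
    rintro _ ⟨x, hx, rfl⟩
    refine ⟨?_, ?_⟩
    · simpa using h x hx y0 hy0
    · show a • x + b * y0 ≤ c
      rw [hc, smul_eq_mul]
      have := mul_le_mul_of_nonneg_left (hX x hx) ha
      linarith
  have i2 : volume (b • T) ≤ volume (Z \ Iic c) := by
    rw [← measure_preimage_add_right volume (a * x1) (Z \ Iic c),
      ← measure_sdiff_null (s := b • T) (measure_singleton (b * y0))]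
    refine measure_mono ?_
    rintro _ ⟨⟨y, hy, rfl⟩, hne⟩
    refine ⟨?_, ?_⟩
    · have := h x1 hx1 y hy
      show b • y + a * x1 ∈ Z
      rw [smul_eq_mul, add_comm]; exact this
    · show ¬ (b • y + a * x1 ≤ c)
      have hne' : b * y ≠ b * y0 := hne
      have h1 : b * y0 ≤ b * y := mul_le_mul_of_nonneg_left (hY y hy) hb
      have h2 : b * y0 < b * y := lt_of_le_of_ne h1 (Ne.symm hne')
      rw [hc, smul_eq_mul]; linarith
  calc ENNReal.ofReal a * volume S + ENNReal.ofReal b * volume T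
      = volume (a • S) + volume (b • T) := by rw [e1, e2]
    _ ≤ volume (Z ∩ Iic c) + volume (Z \ Iic c) := add_le_add i1 i2
    _ = volume Z := measure_inter_add_sdiff Z measurableSet_Iic

theorem sec_add {K L M : Set P2} (hK : IsCompact K) (hL : IsCompact L) (hM : IsCompact M)
    (s t a b : ℝ) (ha : 0 ≤ a) (hb : 0 ≤ b)
    (hKs : ∃ x, ((x, s) : P2) ∈ K) (hLt : ∃ x, ((x, t) : P2) ∈ L)
    (h : ∀ x ∈ K, ∀ y ∈ L, a • x + b • y ∈ M) :
    a * sec K s + b * sec L t ≤ sec M (a * s + b * t) := by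
  have key := A1a_bm1 (A1a_isCompact_section hK s) (A1a_isCompact_section hL t) hKs hLt ha hb
    (Z := {x : ℝ | ((x, a * s + b * t) : P2) ∈ M}) (by
      intro x hx y hy
      have := h _ hx _ hy
      simpa using this)
  have h2 := ENNReal.toReal_mono (A1a_isCompact_section hM (a * s + b * t)).measure_lt_top.ne key
  rw [ENNReal.toReal_add
    (ENNReal.mul_ne_top ENNReal.ofReal_ne_top (A1a_isCompact_section hK s).measure_lt_top.ne)
    (ENNReal.mul_ne_top ENNReal.ofReal_ne_top (A1a_isCompact_section hL t).measure_lt_top.ne),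
    ENNReal.toReal_mul, ENNReal.toReal_mul, ENNReal.toReal_ofReal ha,
    ENNReal.toReal_ofReal hb] at h2
  exact h2

theorem A1a_sec_neg (L : Set P2) (t : ℝ) : sec (-L) (-t) = sec L t := by
  unfold sec
  have : {x : ℝ | ((x, -t) : P2) ∈ -L} = -{x : ℝ | ((x, t) : P2) ∈ L} := by
    ext x
    simp only [mem_setOf_eq, Set.mem_neg, Prod.neg_mk, neg_neg]
  rw [this, Measure.measure_neg]

theorem sec_sub {K L M : Set P2} (hK : IsCompact K) (hL : IsCompact L) (hM : IsCompact M)
    (s t a b : ℝ) (ha : 0 ≤ a) (hb : 0 ≤ b)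
    (hKs : ∃ x, ((x, s) : P2) ∈ K) (hLt : ∃ x, ((x, t) : P2) ∈ L)
    (h : ∀ x ∈ K, ∀ y ∈ L, a • x - b • y ∈ M) :
    a * sec K s + b * sec L t ≤ sec M (a * s - b * t) := by
  have key := sec_add hK hL.neg hM s (-t) a b ha hb hKs
    (by
      obtain ⟨x, hx⟩ := hLt
      exact ⟨-x, by simpa using hx⟩)
    (by
      intro x hx y hy
      have := h x hx (-y) hy
      simpa [sub_eq_add_neg] using this)
  rw [A1a_sec_neg] at key
  have e : a * s + b * -t = a * s - b * t := by ring
  rw [e] at key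
  exact key

theorem sec_concave {K : Set P2} (hK : IsCompact K) (hv : Convex ℝ K) :
    ConcaveOn ℝ {u | ∃ x, ((x, u) : P2) ∈ K} (sec K) := by
  refine ⟨?_, ?_⟩
  · rintro s ⟨x, hx⟩ t ⟨y, hy⟩ a b ha hb hab
    refine ⟨a * x + b * y, ?_⟩
    have := hv hx hy ha hb hab
    simpa using this
  · rintro s hs t ht a b ha hb hab
    have := sec_add hK hK hK s t a b ha hb hs ht
      (fun x hx y hy => hv hx hy ha hb hab)
    simpa using this

end Pool.Agent.helper15.PB
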