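import Pool.Agent.helper15.PB.Defs

/-! # A1b: area, sections and Fubini (planar half of MP_0069fb_gt) -/

set_option autoImplicit false
open MeasureTheory Set
open scoped Pointwise

namespace Pool.Agent.helper15.PB

theorem area_mono {K L : Set P2} (hL : IsCompact L) (h : K ⊆ L) : area K ≤ area L :=
  ENNReal.toReal_mono hL.measure_lt_top.ne (measure_mono h)

theorem A1b_meas_fun {K : Set P2} (hK : MeasurableSet K) :
    Measurable fun u : ℝ => volume {x : ℝ | ((x, u) : P2) ∈ K} :=
  measurable_measure_prodMk_right hK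

theorem measurable_sec {K : Set P2} (hK : IsCompact K) : Measurable (sec K) :=
  (A1b_meas_fun hK.measurableSet).ennreal_toReal

theorem A1b_volume_eq {K : Set P2} (hK : MeasurableSet K) :
    volume K = ∫⁻ u, volume {x : ℝ | ((x, u) : P2) ∈ K} := by
  rw [Measure.volume_eq_prod, Measure.prod_apply_symm hK]
  rfl

theorem A1b_sec_lt_top {K L : Set P2} (hL : IsCompact L) (h : K ⊆ L) (u : ℝ) :
    volume {x : ℝ | ((x, u) : P2) ∈ K} < ⊤ := by
  have hc : IsCompact (Prod.fst '' L) := hL.image continuous_fst
  have hsub : {x : ℝ | ((x, u) : P2) ∈ K} ⊆ Prod.fst '' L := fun x hx => ⟨(x, u), h hx, rfl⟩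
  exact lt_of_le_of_lt (measure_mono hsub) hc.measure_lt_top

theorem A1b_area_eq {K L : Set P2} (hK : MeasurableSet K) (hL : IsCompact L) (h : K ⊆ L) :
    area K = ∫ u, sec K u := by
  unfold area sec
  rw [integral_toReal (A1b_meas_fun hK).aemeasurable
    (Filter.Eventually.of_forall fun u => A1b_sec_lt_top hL h u), A1b_volume_eq hK]

theorem area_eq {K : Set P2} (hK : IsCompact K) : area K = ∫ u, sec K u :=
  A1b_area_eq hK.measurableSet hK Subset.rfl

theorem A1b_inter {K : Set P2} (hK : IsCompact K) {s : Set ℝ} (hs : MeasurableSet s) :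
    area (K ∩ {y | y.2 ∈ s}) = ∫ u in s, sec K u := by
  have hm : MeasurableSet (K ∩ {y : P2 | y.2 ∈ s}) :=
    hK.measurableSet.inter (measurable_snd hs)
  rw [A1b_area_eq hm hK inter_subset_left, ← integral_indicator hs]
  congr 1
  funext u
  by_cases hu : u ∈ s
  · rw [indicator_of_mem hu]
    unfold sec
    congr 2
    ext x
    simp [hu]
  · rw [indicator_of_notMem hu]
    unfold sec
    have : {x : ℝ | ((x, u) : P2) ∈ K ∩ {y | y.2 ∈ s}} = ∅ := by
      ext x
      simp [hu]
    rw [this]
    simp

theorem area_inter_gt {K : Set P2} (hK : IsCompact K) (a : ℝ) :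
    area (K ∩ {y | a < y.2}) = ∫ u in Ioi a, sec K u :=
  A1b_inter hK measurableSet_Ioi

theorem area_inter_le {K : Set P2} (hK : IsCompact K) (a : ℝ) :
    area (K ∩ {y | y.2 ≤ a}) = ∫ u in Iic a, sec K u :=
  A1b_inter hK measurableSet_Iic

theorem integral_snd {K : Set P2} (hK : IsCompact K) :
    ∫ y in K, y.2 = ∫ u, u * sec K u := by
  have hint : IntegrableOn (fun y : P2 => y.2) K volume :=
    (continuous_snd.continuousOn).integrableOn_compact hK
  rw [← integral_indicator hK.measurableSet, Measure.volume_eq_prod, integral_prod_symm]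
  · congr 1
    funext u
    have hmS : MeasurableSet {x : ℝ | ((x, u) : P2) ∈ K} :=
      (measurable_id.prodMk measurable_const) hK.measurableSet
    have h1 : (fun x : ℝ => K.indicator (fun y : P2 => y.2) (x, u)) =
        {x : ℝ | ((x, u) : P2) ∈ K}.indicator (fun _ => u) := by
      funext x
      by_cases hx : ((x, u) : P2) ∈ K
      · rw [indicator_of_mem hx, indicator_of_mem (by exact hx)]
      · rw [indicator_of_notMem hx, indicator_of_notMem (by exact hx)]
    rw [h1, integral_indicator_const _ hmS, smul_eq_mul, mul_comm]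
    rfl
  · rw [← Measure.volume_eq_prod]
    exact hint.integrable_indicator hK.measurableSet

end Pool.Agent.helper15.PB
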