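import Pool.Agent.helper15.PB.Defs
import Pool.Agent.helper63.PL

/-!
# Planar Brunn–Minkowski inequality (module A2)

Derived from the landed file `Pool.Agent.helper63.PL`.
-/

set_option autoImplicit false
open MeasureTheory Set
open scoped Pointwise

namespace Pool.Agent.helper15.PB

/-- planar Brunn–Minkowski without convexity -/
theorem bm2_sqrt {K L M : Set P2} (hK : IsCompact K) (hL : IsCompact L) (hM : IsCompact M)
    (hKn : K.Nonempty) (hLn : L.Nonempty) (h : ∀ x ∈ K, ∀ y ∈ L, x + y ∈ M) :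
    Real.sqrt (area K) + Real.sqrt (area L) ≤ Real.sqrt (area M) :=
  Pool.Agent.helper63.PL.bm_plane hK.measurableSet hL.measurableSet hM.measurableSet hKn hLn
    hM.measure_lt_top.ne h

/-- planar Brunn–Minkowski -/
theorem bm2 {K L M : Set P2} (hK : IsCompact K) (hL : IsCompact L) (hM : IsCompact M)
    (hKv : Convex ℝ K) (hLv : Convex ℝ L) (hKn : K.Nonempty) (hLn : L.Nonempty)
    (h : ∀ x ∈ K, ∀ y ∈ L, x + y ∈ M) :
    (Real.sqrt (area K) + Real.sqrt (area L)) ^ 2 ≤ area M := by
  have _ := hKv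
  have _ := hLv
  have h1 := bm2_sqrt hK hL hM hKn hLn h
  have h0 : (0 : ℝ) ≤ area M := ENNReal.toReal_nonneg
  calc (Real.sqrt (area K) + Real.sqrt (area L)) ^ 2 ≤ (Real.sqrt (area M)) ^ 2 :=
        pow_le_pow_left₀ (by positivity) h1 2
    _ = area M := Real.sq_sqrt h0

end Pool.Agent.helper15.PB
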