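import Pool.Agent.helper15.PB.A1a
import Pool.Agent.helper15.PB.A1b

/-!
# Module A3: the path inequality (helper47)
-/

set_option autoImplicit false
open MeasureTheory Set
open scoped Pointwise

namespace Pool.Agent.helper15.PB

theorem integrable_sec {K : Set P2} (hK : IsCompact K) : Integrable (sec K) := by
  obtain ⟨M, hM⟩ := sec_bound hK
  obtain ⟨R, hR0, hR⟩ := sec_bdd_support hK
  have h1 : IntegrableOn (sec K) (Icc (-R) R) := by
    refine Measure.integrableOn_of_bounded (M := M) (by simp) (measurable_sec hK).aestronglyMeasurable ?_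
    refine Filter.Eventually.of_forall fun u => ?_
    rw [Real.norm_of_nonneg (sec_nonneg K u)]
    exact hM u
  rw [← integrableOn_univ]
  refine h1.of_forall_sdiff_eq_zero MeasurableSet.univ ?_
  intro u hu
  apply hR
  by_contra h
  apply hu.2
  exact abs_le.mp (not_lt.mp h)

/-- nonemptiness of intermediate levels -/
theorem level_nonempty {K : Set P2} (hv : Convex ℝ K) {a b u : ℝ} (hau : a ≤ u) (hub : u ≤ b)
    (ha : ∃ x, ((x, a) : P2) ∈ K) (hb : ∃ x, ((x, b) : P2) ∈ K) : ∃ x, ((x, u) : P2) ∈ K := by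
  rcases eq_or_lt_of_le (hau.trans hub) with h | h
  · have : u = a := le_antisymm (h ▸ hub) hau
    rw [this]; exact ha
  · obtain ⟨x, hx⟩ := ha
    obtain ⟨y, hy⟩ := hb
    have hne : b - a ≠ 0 := by linarith
    have hpos : 0 < b - a := by linarith
    have := hv hx hy (a := (b - u) / (b - a)) (b := (u - a) / (b - a))
      (div_nonneg (by linarith) hpos.le) (div_nonneg (by linarith) hpos.le)
      (by field_simp; ring)
    refine ⟨(b - u) / (b - a) * x + (u - a) / (b - a) * y, ?_⟩
    convert this using 1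
    ext
    · simp
    · simp
      field_simp
      ring

theorem path_area {A F D : Set P2} (hA : IsCompact A) (hF : IsCompact F) (hD : IsCompact D)
    (hAv : Convex ℝ A) (hFv : Convex ℝ F) {η T e σ q0 : ℝ} (hη : 0 ≤ η) (he : 0 < e) (hq0 : 0 ≤ q0) (hqT : q0 < T)
    (hD2 : ∀ a ∈ A, ∀ y ∈ F, a - η • y ∈ D)
    (hFT : ∃ x, ((x, 1 - T) : P2) ∈ F) (hF1 : ∃ x, ((x, 1) : P2) ∈ F)
    (hAσ : ∃ x, ((x, σ) : P2) ∈ A) (hAe : ∃ x, ((x, σ - e) : P2) ∈ A)
    (x q x' q' : ℝ → ℝ) (hx : ∀ τ ∈ Icc (0:ℝ) 1, HasDerivAt x (x' τ) τ)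
    (hq : ∀ τ ∈ Icc (0:ℝ) 1, HasDerivAt q (q' τ) τ)
    (hx'c : Continuous x') (hq'c : Continuous q')
    (hx' : ∀ τ ∈ Icc (0:ℝ) 1, 0 ≤ x' τ) (hq' : ∀ τ ∈ Icc (0:ℝ) 1, 0 < q' τ)
    (hx0 : x 0 = 0) (hx1 : x 1 = e) (hq00 : q 0 = q0) (hq1 : q 1 = T) :
    area A + η * (q0 * sec A σ + ∫ τ in (0:ℝ)..1, (sec A (σ - x τ) * q' τ + sec F (1 - T + q τ) * x' τ))
      ≤ area D := by
  -- sections
  have key : ∀ s v : ℝ, (∃ a, ((a, s) : P2) ∈ A) → (∃ y, ((y, v) : P2) ∈ F) →
      sec A s + η * sec F v ≤ sec D (s - η * v) := by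
    intro s v hs hv
    have := sec_sub hA hF hD s v 1 η zero_le_one hη hs hv (by
      intro a ha y hy; simpa using hD2 a ha y hy)
    simpa using this
  have key0 : ∀ s v : ℝ, (∃ y, ((y, v) : P2) ∈ F) → sec A s ≤ sec D (s - η * v) := by
    intro s v hv
    by_cases hs : ∃ a, ((a, s) : P2) ∈ A
    · have := key s v hs hv
      have h2 := mul_nonneg hη (sec_nonneg F v)
      linarith
    · push Not at hs
      rw [sec_eq_zero_of_empty hs]
      exact sec_nonneg _ _
  have hIA := integrable_sec hA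
  have hID := integrable_sec hD
  -- levels
  set b0 : ℝ := σ - e - η with hb0
  set b1 : ℝ := σ - η * (1 - T + q0) with hb1
  set b2 : ℝ := σ - η * (1 - T) with hb2
  have h01 : b0 ≤ b1 := by
    have : 0 ≤ η * (T - q0) := mul_nonneg hη (by linarith)
    rw [hb0, hb1]; nlinarith
  have h12 : b1 ≤ b2 := by
    have : 0 ≤ η * q0 := mul_nonneg hη hq0
    rw [hb1, hb2]; nlinarith
  -- piece above
  have P1 : ∫ s in Ioi σ, sec A s ≤ ∫ u in Ioi b2, sec D u := by
    rw [← integral_indicator measurableSet_Ioi, ← integral_indicator measurableSet_Ioi]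
    rw [← integral_sub_right_eq_self (fun u => (Ioi b2).indicator (sec D) u) (η * (1 - T))]
    refine integral_mono (hIA.indicator measurableSet_Ioi)
      ((hID.indicator measurableSet_Ioi).comp_sub_right (η * (1 - T))) ?_
    intro s
    by_cases hs : σ < s
    · have h1 : s - η * (1 - T) ∈ Ioi b2 := by
        simp only [mem_Ioi, hb2]; linarith
      simp only [indicator_of_mem (show s ∈ Ioi σ from hs), indicator_of_mem h1]
      exact key0 s (1 - T) hFT
    · simp only [indicator_of_notMem (show s ∉ Ioi σ from hs)]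
      exact indicator_nonneg (fun u _ => sec_nonneg _ _) _
  -- piece below
  have P4 : ∫ s in Iio (σ - e), sec A s ≤ ∫ u in Iio b0, sec D u := by
    rw [← integral_indicator measurableSet_Iio, ← integral_indicator measurableSet_Iio]
    rw [← integral_sub_right_eq_self (fun u => (Iio b0).indicator (sec D) u) η]
    refine integral_mono (hIA.indicator measurableSet_Iio)
      ((hID.indicator measurableSet_Iio).comp_sub_right η) ?_
    intro s
    by_cases hs : s < σ - e
    · have h1 : s - η ∈ Iio b0 := by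
        simp only [mem_Iio, hb0]; linarith
      simp only [indicator_of_mem (show s ∈ Iio (σ - e) from hs), indicator_of_mem h1]
      simpa using key0 s 1 hF1
    · simp only [indicator_of_notMem (show s ∉ Iio (σ - e) from hs)]
      exact indicator_nonneg (fun u _ => sec_nonneg _ _) _
  -- vertical piece
  have P3 : η * (q0 * sec A σ) ≤ ∫ u in Icc b1 b2, sec D u := by
    have h1 : ∀ u ∈ Icc b1 b2, sec A σ ≤ sec D u := by
      intro u hu
      obtain ⟨r, hr0, hr1, hr⟩ : ∃ r, 0 ≤ r ∧ r ≤ q0 ∧ u = σ - η * (1 - T + r) := by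
        rcases hη.eq_or_lt with h | h
        · refine ⟨0, le_rfl, hq0, ?_⟩
          have h3 := hu.1
          have h4 := hu.2
          rw [hb1, ← h] at h3
          rw [hb2, ← h] at h4
          rw [← h]
          linarith
        · refine ⟨(σ - u) / η - (1 - T), ?_, ?_, ?_⟩
          · have h4 := hu.2
            rw [hb2] at h4
            have : (1 - T) ≤ (σ - u) / η := by
              rw [le_div_iff₀ h]; linarith
            linarith
          · have h3 := hu.1
            rw [hb1] at h3
            have : (σ - u) / η ≤ 1 - T + q0 := by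
              rw [div_le_iff₀ h]; linarith
            linarith
          · field_simp
            ring
      rw [hr]
      exact key0 σ _ (level_nonempty hFv (by linarith) (by linarith) hFT hF1)
    have h2 : ∫ u in Icc b1 b2, sec A σ ≤ ∫ u in Icc b1 b2, sec D u :=
      setIntegral_mono_on (integrableOn_const (by simp)) hID.integrableOn measurableSet_Icc h1
    rw [setIntegral_const] at h2
    have h3 : volume.real (Icc b1 b2) = η * q0 := by
      rw [Real.volume_real_Icc_of_le h12, hb1, hb2]; ring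
    rw [h3] at h2
    simp only [smul_eq_mul] at h2
    linarith
  -- path piece
  set Λ : ℝ → ℝ := fun τ => σ - x τ - η * (1 - T + q τ) with hΛ
  have hΛd : ∀ τ ∈ Icc (0:ℝ) 1, HasDerivAt Λ (-(x' τ + η * q' τ)) τ := by
    intro τ hτ
    have h1 := ((hx τ hτ).const_sub σ).sub (((hq τ hτ).const_add (1 - T)).const_mul η)
    exact h1.congr_deriv (by ring)
  have hΛ0 : Λ 0 = b1 := by simp only [hΛ, hx0, hq00, hb1]; ring
  have hΛ1 : Λ 1 = b0 := by simp only [hΛ, hx1, hq1, hb0]; ring
  have hΛc : ContinuousOn Λ (Icc 0 1) := fun τ hτ => (hΛd τ hτ).continuousAt.continuousWithinAt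
  have hxc : ContinuousOn x (Icc 0 1) := fun τ hτ => (hx τ hτ).continuousAt.continuousWithinAt
  have hqc : ContinuousOn q (Icc 0 1) := fun τ hτ => (hq τ hτ).continuousAt.continuousWithinAt
  have hIΛ : IntegrableOn (fun τ => (-(x' τ + η * q' τ)) • sec D (Λ τ)) (Icc 0 1) := by
    rw [integrableOn_Icc_deriv_smul_iff_of_deriv_nonpos hΛc (fun τ hτ => hΛd τ (Ioo_subset_Icc_self hτ))
      (fun τ hτ => ?_) zero_le_one]
    · exact hID.integrableOn
    · have h1 := hx' τ (Ioo_subset_Icc_self hτ)
      have h2 := mul_nonneg hη (hq' τ (Ioo_subset_Icc_self hτ)).le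
      linarith
  have hIΛe : ∫ τ in Icc (0:ℝ) 1, (-(x' τ + η * q' τ)) • sec D (Λ τ) = - ∫ u in Icc b0 b1, sec D u := by
    rw [integral_Icc_deriv_smul_of_deriv_nonpos hΛc (fun τ hτ => hΛd τ (Ioo_subset_Icc_self hτ))
      (fun τ hτ => ?_) zero_le_one, hΛ0, hΛ1]
    have h1 := hx' τ (Ioo_subset_Icc_self hτ)
    have h2 := mul_nonneg hη (hq' τ (Ioo_subset_Icc_self hτ)).le
    linarith
  -- the same for A along x
  have hxd : ∀ τ ∈ Icc (0:ℝ) 1, HasDerivAt (fun τ => σ - x τ) (-(x' τ)) τ := fun τ hτ =>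
    (hx τ hτ).const_sub σ
  have hsc : ContinuousOn (fun τ => σ - x τ) (Icc 0 1) := fun τ hτ =>
    (hxd τ hτ).continuousAt.continuousWithinAt
  have hIx : IntegrableOn (fun τ => (-(x' τ)) • sec A (σ - x τ)) (Icc 0 1) := by
    rw [integrableOn_Icc_deriv_smul_iff_of_deriv_nonpos (f := fun τ => σ - x τ) (f' := fun τ => -(x' τ))
      (g := sec A) hsc (fun τ hτ => hxd τ (Ioo_subset_Icc_self hτ))
      (fun τ hτ => by have := hx' τ (Ioo_subset_Icc_self hτ); linarith) zero_le_one]
    exact hIA.integrableOn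
  have hIxe : ∫ τ in Icc (0:ℝ) 1, (-(x' τ)) • sec A (σ - x τ) = - ∫ u in Icc (σ - e) σ, sec A u := by
    rw [integral_Icc_deriv_smul_of_deriv_nonpos (f := fun τ => σ - x τ) (f' := fun τ => -(x' τ))
      (g := sec A) hsc (fun τ hτ => hxd τ (Ioo_subset_Icc_self hτ))
      (fun τ hτ => by have := hx' τ (Ioo_subset_Icc_self hτ); linarith) zero_le_one]
    simp only [hx0, hx1, sub_zero]
  -- integrability of the integrand of the statement
  have hmA : AEStronglyMeasurable (fun τ => sec A (σ - x τ)) (volume.restrict (Icc (0:ℝ) 1)) :=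
    ((measurable_sec hA).comp_aemeasurable (hsc.aemeasurable measurableSet_Icc)).aestronglyMeasurable
  have hmF : AEStronglyMeasurable (fun τ => sec F (1 - T + q τ)) (volume.restrict (Icc (0:ℝ) 1)) :=
    ((measurable_sec hF).comp_aemeasurable
      ((continuousOn_const.add hqc).aemeasurable measurableSet_Icc)).aestronglyMeasurable
  obtain ⟨MA, hMA⟩ := sec_bound hA
  obtain ⟨MF, hMF⟩ := sec_bound hF
  have hI1 : IntegrableOn (fun τ => sec A (σ - x τ) * q' τ) (Icc 0 1) := by
    refine (hq'c.integrableOn_Icc (μ := volume)).bdd_mul hmA (c := MA) ?_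
    exact Filter.Eventually.of_forall fun τ => by
      rw [Real.norm_of_nonneg (sec_nonneg _ _)]; exact hMA _
  have hI2 : IntegrableOn (fun τ => sec F (1 - T + q τ) * x' τ) (Icc 0 1) := by
    refine (hx'c.integrableOn_Icc (μ := volume)).bdd_mul hmF (c := MF) ?_
    exact Filter.Eventually.of_forall fun τ => by
      rw [Real.norm_of_nonneg (sec_nonneg _ _)]; exact hMF _
  have P2' : (∫ u in Icc (σ - e) σ, sec A u) +
      η * (∫ τ in (0:ℝ)..1, (sec A (σ - x τ) * q' τ + sec F (1 - T + q τ) * x' τ)) ≤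
      ∫ u in Icc b0 b1, sec D u := by
    have e1 : ∫ u in Icc b0 b1, sec D u = ∫ τ in Icc (0:ℝ) 1, (x' τ + η * q' τ) * sec D (Λ τ) := by
      have := hIΛe
      simp only [smul_eq_mul, neg_mul, integral_neg] at this
      linarith
    have e2 : ∫ u in Icc (σ - e) σ, sec A u = ∫ τ in Icc (0:ℝ) 1, x' τ * sec A (σ - x τ) := by
      have := hIxe
      simp only [smul_eq_mul, neg_mul, integral_neg] at this
      linarith
    have hI3 : IntegrableOn (fun τ => x' τ * sec A (σ - x τ)) (Icc 0 1) := by
      have := hIx.neg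
      refine this.congr_fun (fun τ _ => ?_) measurableSet_Icc
      simp
    have hI4 : IntegrableOn (fun τ => (x' τ + η * q' τ) * sec D (Λ τ)) (Icc 0 1) := by
      have := hIΛ.neg
      refine this.congr_fun (fun τ _ => ?_) measurableSet_Icc
      simp only [Pi.neg_apply, smul_eq_mul]
      ring
    have hI5 : IntegrableOn (fun τ => η * (sec A (σ - x τ) * q' τ + sec F (1 - T + q τ) * x' τ)) (Icc 0 1) :=
      (hI1.add hI2).const_mul η
    rw [intervalIntegral.integral_of_le zero_le_one, ← integral_Icc_eq_integral_Ioc, e1, e2,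
      ← integral_const_mul, ← integral_add hI3 hI5]
    refine setIntegral_mono_on (hI3.add hI5) hI4 measurableSet_Icc ?_
    intro τ hτ
    have hxm : 0 ≤ x τ ∧ x τ ≤ e := by
      have M : MonotoneOn x (Icc 0 1) := by
        apply monotoneOn_of_deriv_nonneg (convex_Icc 0 1) hxc
        · rw [interior_Icc]
          exact fun z hz => (hx z (Ioo_subset_Icc_self hz)).differentiableAt.differentiableWithinAt
        · rw [interior_Icc]
          intro z hz
          rw [(hx z (Ioo_subset_Icc_self hz)).deriv]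
          exact hx' z (Ioo_subset_Icc_self hz)
      constructor
      · rw [← hx0]; exact M (left_mem_Icc.mpr zero_le_one) hτ hτ.1
      · rw [← hx1]; exact M hτ (right_mem_Icc.mpr zero_le_one) hτ.2
    have hqm : q0 ≤ q τ ∧ q τ ≤ T := by
      have M : MonotoneOn q (Icc 0 1) := by
        apply monotoneOn_of_deriv_nonneg (convex_Icc 0 1) hqc
        · rw [interior_Icc]
          exact fun z hz => (hq z (Ioo_subset_Icc_self hz)).differentiableAt.differentiableWithinAt
        · rw [interior_Icc]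
          intro z hz
          rw [(hq z (Ioo_subset_Icc_self hz)).deriv]
          exact (hq' z (Ioo_subset_Icc_self hz)).le
      constructor
      · rw [← hq00]; exact M (left_mem_Icc.mpr zero_le_one) hτ hτ.1
      · rw [← hq1]; exact M hτ (right_mem_Icc.mpr zero_le_one) hτ.2
    have hk := key (σ - x τ) (1 - T + q τ)
      (level_nonempty hAv (by linarith) (by linarith) hAe hAσ)
      (level_nonempty hFv (by linarith) (by linarith) hFT hF1)
    have hk' : sec A (σ - x τ) + η * sec F (1 - T + q τ) ≤ sec D (Λ τ) := hk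
    have hx'τ := hx' τ hτ
    have hq'τ := (hq' τ hτ).le
    have h5 : (x' τ + η * q' τ) * (sec A (σ - x τ) + η * sec F (1 - T + q τ)) ≤
        (x' τ + η * q' τ) * sec D (Λ τ) :=
      mul_le_mul_of_nonneg_left hk' (add_nonneg hx'τ (mul_nonneg hη hq'τ))
    have h6 : 0 ≤ η * q' τ * (η * sec F (1 - T + q τ)) :=
      mul_nonneg (mul_nonneg hη hq'τ) (mul_nonneg hη (sec_nonneg _ _))
    show x' τ * sec A (σ - x τ) + η * (sec A (σ - x τ) * q' τ + sec F (1 - T + q τ) * x' τ) ≤
      (x' τ + η * q' τ) * sec D (Λ τ)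
    nlinarith [h5, h6]
  -- assembly
  have hDsplit : area D = (∫ u in Iio b0, sec D u) + (∫ u in Icc b0 b1, sec D u) +
      (∫ u in Icc b1 b2, sec D u) + ∫ u in Ioi b2, sec D u := by
    rw [area_eq hD]
    have s1 := integral_add_compl (μ := volume) (measurableSet_Iio (a := b0)) hID
    have s2 : ∫ u in (Iio b0)ᶜ, sec D u = (∫ u in Icc b0 b1, sec D u) + ∫ u in Ioi b1, sec D u := by
      rw [compl_Iio, ← Icc_union_Ioi_eq_Ici h01, setIntegral_union ?_ measurableSet_Ioi
        hID.integrableOn hID.integrableOn]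
      rw [disjoint_left]
      intro u hu hu'
      exact absurd hu.2 (not_le.mpr hu')
    have s3 : ∫ u in Ioi b1, sec D u = (∫ u in Icc b1 b2, sec D u) + ∫ u in Ioi b2, sec D u := by
      rw [← Ioc_union_Ioi_eq_Ioi h12, setIntegral_union ?_ measurableSet_Ioi
        hID.integrableOn hID.integrableOn, integral_Icc_eq_integral_Ioc]
      rw [disjoint_left]
      intro u hu hu'
      exact absurd hu.2 (not_le.mpr hu')
    linarith
  have hAsplit : area A = (∫ u in Iio (σ - e), sec A u) + (∫ u in Icc (σ - e) σ, sec A u) +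
      ∫ u in Ioi σ, sec A u := by
    rw [area_eq hA]
    have s1 := integral_add_compl (μ := volume) (measurableSet_Iio (a := σ - e)) hIA
    have s2 : ∫ u in (Iio (σ - e))ᶜ, sec A u = (∫ u in Icc (σ - e) σ, sec A u) + ∫ u in Ioi σ, sec A u := by
      rw [compl_Iio, ← Icc_union_Ioi_eq_Ici (by linarith : σ - e ≤ σ), setIntegral_union ?_ measurableSet_Ioi
        hIA.integrableOn hIA.integrableOn]
      rw [disjoint_left]
      intro u hu hu'
      exact absurd hu.2 (not_le.mpr hu')
    linarith
  rw [hDsplit, hAsplit, mul_add]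
  linarith

end Pool.Agent.helper15.PB
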