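import Pool.Agent.helper15.PB.Defs
import Pool.Agent.helper15.PB.A1a
import Pool.Agent.helper15.PB.A1b
import Pool.Agent.helper15.PB.A2
import Pool.Agent.helper15.PB.A3

/-! # PB-A4a: the general mixed area inequality from a path -/

set_option autoImplicit false
open MeasureTheory Set
open scoped Pointwise

namespace Pool.Agent.helper15.PB

variable {F G Gt : Set P2} {B : Set (P2 × ℝ)} {ω H e T c : ℝ}

/-- `G` is compact -/
theorem Win.a4a_compactG (w : Win F G Gt B ω H e T c) : IsCompact G := by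
  rw [w.hG]
  apply w.cF.inter_right
  rw [w.hGt]
  exact w.cB.isClosed.preimage (by fun_prop)

theorem Win.a4a_epos (w : Win F G Gt B ω H e T c) : 0 < e := by
  by_contra hcon
  have hGc := w.a4a_compactG
  have h1 : ∀ y ∈ G, (1:ℝ) ≤ y.2 := fun y hy => by have := w.e2 y hy; linarith
  have hfin : volume G ≠ ⊤ := hGc.measure_lt_top.ne
  have hint : IntegrableOn (fun y : P2 => y.2) G :=
    (continuous_snd.continuousOn).integrableOn_compact hGc
  have h2 : ∫ _y in G, (1:ℝ) ≤ ∫ y in G, y.2 := by
    apply setIntegral_mono_on (integrableOn_const hfin) hint hGc.measurableSet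
    exact h1
  rw [w.G02] at h2
  have h3 : ∫ _y in G, (1:ℝ) = 1 := by
    have := w.G1
    unfold area at this
    simp [Measure.real, this]
  linarith

theorem a4a_intervalIntegrable_sec {K : Set P2} (hK : IsCompact K) {f g : ℝ → ℝ}
    (hf : ContinuousOn f (Icc (0:ℝ) 1)) (hg : Continuous g) :
    IntervalIntegrable (fun τ => sec K (f τ) * g τ) volume 0 1 := by
  rw [intervalIntegrable_iff_integrableOn_Icc_of_le (by norm_num)]
  obtain ⟨M, hM⟩ := sec_bound hK
  have hfm : AEMeasurable f (volume.restrict (Icc (0:ℝ) 1)) :=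
    hf.aemeasurable measurableSet_Icc
  have hsm : AEStronglyMeasurable (fun τ => sec K (f τ)) (volume.restrict (Icc (0:ℝ) 1)) :=
    ((measurable_sec hK).comp_aemeasurable hfm).aestronglyMeasurable
  have hgi : IntegrableOn g (Icc (0:ℝ) 1) := hg.continuousOn.integrableOn_Icc
  refine Integrable.bdd_mul (c := M) hgi hsm ?_
  filter_upwards with τ
  rw [Real.norm_eq_abs, abs_of_nonneg (sec_nonneg _ _)]
  exact hM _

/-- general mixed area inequality from a path -/
theorem Win.path_gen (w : Win F G Gt B ω H e T c) {q0 : ℝ} (hq0 : 0 ≤ q0) (hqT : q0 < T)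
    (x q x' q' : ℝ → ℝ) (hx : ∀ τ ∈ Icc (0:ℝ) 1, HasDerivAt x (x' τ) τ)
    (hq : ∀ τ ∈ Icc (0:ℝ) 1, HasDerivAt q (q' τ) τ)
    (hx'c : Continuous x') (hq'c : Continuous q')
    (hx' : ∀ τ ∈ Icc (0:ℝ) 1, 0 ≤ x' τ) (hq' : ∀ τ ∈ Icc (0:ℝ) 1, 0 < q' τ)
    (hx0 : x 0 = 0) (hx1 : x 1 = e) (hq00 : q 0 = q0) (hq1 : q 1 = T)
    {Y Z : Set P2} {h : ℝ} (hh : 0 ≤ h) (hYv : Convex ℝ Y) (hY : IsCompact Y)
    (hZv : Convex ℝ Z) (hZ : IsCompact Z) (hZn : Z.Nonempty)
    (hYZ : ∀ z ∈ Z, ∀ y ∈ F, ∃ w ∈ Y, z - h • y = (1 + h) • w)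
    (hGY : ∀ y ∈ G, y.2 ≤ 1 → y ∈ Y) :
    Real.sqrt (area Y * area Z) + h * ((1 / 2) * (q0 * ω +
        ∫ τ in (0:ℝ)..1, (sec G (1 - x τ) * q' τ + sec F (1 - T + q τ) * x' τ)))
      ≤ (1 + h) * area Y := by
  have hGc := w.a4a_compactG
  have he := w.a4a_epos
  obtain ⟨z0, hz0⟩ := hZn
  -- continuity and positivity of the path
  have hxc : ContinuousOn x (Icc (0:ℝ) 1) := fun τ hτ => (hx τ hτ).continuousAt.continuousWithinAt
  have hqc : ContinuousOn q (Icc (0:ℝ) 1) := fun τ hτ => (hq τ hτ).continuousAt.continuousWithinAt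
  have hxmono : MonotoneOn x (Icc (0:ℝ) 1) := by
    apply monotoneOn_of_deriv_nonneg (convex_Icc 0 1) hxc
    · intro τ hτ
      rw [interior_Icc] at hτ
      exact (hx τ (Ioo_subset_Icc_self hτ)).differentiableAt.differentiableWithinAt
    · intro τ hτ
      rw [interior_Icc] at hτ
      rw [(hx τ (Ioo_subset_Icc_self hτ)).deriv]
      exact hx' τ (Ioo_subset_Icc_self hτ)
  have hxnn : ∀ τ ∈ Icc (0:ℝ) 1, 0 ≤ x τ := by
    intro τ hτ
    have := hxmono (left_mem_Icc.mpr zero_le_one) hτ hτ.1
    rwa [hx0] at this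
  -- points
  have hw1F : ∀ t : ℝ, 0 ≤ t → t ≤ ω → ((t, 1) : P2) ∈ G := by
    intro t h0 h1
    rw [w.hG]
    exact ⟨w.winF t h0 h1, (w.win t).2 ⟨h0, h1⟩⟩
  set C : ℝ := q0 * ω +
        ∫ τ in (0:ℝ)..1, (sec G (1 - x τ) * q' τ + sec F (1 - T + q τ) * x' τ) with hC
  -- the inequality for each ε
  have key : ∀ ε : ℝ, 0 < ε → Real.sqrt (area Y * area Z) + h * ((1 / 2) * C)
      ≤ (1 + h) * area Y + ε / 2 * ((1 + h) ^ 2 * area Y) := by
    intro ε hε
    set A : Set P2 := Y + ε • Z with hA
    set D : Set P2 := (1 + ε * (1 + h)) • Y with hD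
    have hpos : 0 < 1 + ε * (1 + h) := by positivity
    have hAc : IsCompact A := hY.add (hZ.smul ε)
    have hAv : Convex ℝ A := hYv.add (hZv.smul ε)
    have hDc : IsCompact D := hY.smul _
    have harea_smul : ∀ (r : ℝ) (K : Set P2), area (r • K) = r ^ 2 * area K := by
      intro r K
      unfold area
      rw [Measure.addHaar_smul, ENNReal.toReal_mul, ENNReal.toReal_ofReal (abs_nonneg _)]
      have : Module.finrank ℝ P2 = 2 := by simp [P2]
      rw [this, abs_of_nonneg (sq_nonneg r)]
    have hbm : (Real.sqrt (area Y) + Real.sqrt (area (ε • Z))) ^ 2 ≤ area A := by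
      apply bm2 hY (hZ.smul ε) hAc hYv (hZv.smul ε)
      · exact ⟨(0, 1), hGY _ (hw1F 0 le_rfl w.ω0.le) le_rfl⟩
      · exact ⟨ε • z0, smul_mem_smul_set hz0⟩
      · intro a ha b hb
        exact add_mem_add ha hb
    have hsq : Real.sqrt (area (ε • Z)) = ε * Real.sqrt (area Z) := by
      rw [harea_smul, Real.sqrt_mul (sq_nonneg ε), Real.sqrt_sq hε.le]
    have hbm2 : area Y + 2 * ε * Real.sqrt (area Y * area Z) ≤ area A := by
      rw [hsq] at hbm
      have h1 : Real.sqrt (area Y) ^ 2 = area Y := Real.sq_sqrt (area_nonneg _)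
      have h2 : Real.sqrt (area Y * area Z) = Real.sqrt (area Y) * Real.sqrt (area Z) :=
        Real.sqrt_mul (area_nonneg _) _
      rw [h2]
      nlinarith [sq_nonneg (ε * Real.sqrt (area Z))]
    -- level
    set σ : ℝ := 1 + ε * z0.2 with hσ
    have hmemA : ∀ y ∈ Y, y + ε • z0 ∈ A := fun y hy => add_mem_add hy (smul_mem_smul_set hz0)
    have hsecA : ∀ v : ℝ, sec Y v ≤ sec A (v + ε * z0.2) := by
      intro v
      unfold sec
      apply ENNReal.toReal_mono
      · -- finiteness
        have hb : IsCompact {x : ℝ | ((x, v + ε * z0.2) : P2) ∈ A} := by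
          have : IsCompact (A ∩ {y : P2 | y.2 = v + ε * z0.2}) :=
            hAc.inter_right (isClosed_eq continuous_snd continuous_const)
          have h2 := this.image continuous_fst
          have h3 : Prod.fst '' (A ∩ {y : P2 | y.2 = v + ε * z0.2})
              = {x : ℝ | ((x, v + ε * z0.2) : P2) ∈ A} := by
            ext t
            constructor
            · rintro ⟨⟨a, b⟩, ⟨h1, h2⟩, rfl⟩
              simp only [mem_ofPred_eq] at h2 ⊢
              rwa [← h2]
            · intro ht
              exact ⟨(t, v + ε * z0.2), ⟨ht, rfl⟩, rfl⟩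
          rwa [h3] at h2
        exact hb.measure_lt_top.ne
      · have h1 : volume {x : ℝ | ((x, v) : P2) ∈ Y}
            = volume ((fun t => t + ε * z0.1) '' {x : ℝ | ((x, v) : P2) ∈ Y}) := by
          rw [image_add_right, measure_preimage_add_right]
        rw [h1]
        apply measure_mono
        rintro _ ⟨t, ht, rfl⟩
        exact hmemA _ ht
    have hsecYG : ∀ v : ℝ, v ≤ 1 → sec G v ≤ sec Y v := by
      intro v hv
      unfold sec
      apply ENNReal.toReal_mono
      · have : IsCompact {x : ℝ | ((x, v) : P2) ∈ Y} := by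
          have : IsCompact (Y ∩ {y : P2 | y.2 = v}) :=
            hY.inter_right (isClosed_eq continuous_snd continuous_const)
          have h2 := this.image continuous_fst
          have h3 : Prod.fst '' (Y ∩ {y : P2 | y.2 = v})
              = {x : ℝ | ((x, v) : P2) ∈ Y} := by
            ext t
            constructor
            · rintro ⟨⟨a, b⟩, ⟨h1, h2⟩, rfl⟩
              simp only [mem_ofPred_eq] at h2 ⊢
              rwa [← h2]
            · intro ht
              exact ⟨(t, v), ⟨ht, rfl⟩, rfl⟩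
          rwa [h3] at h2
        exact this.measure_lt_top.ne
      · apply measure_mono
        intro t ht
        exact hGY _ ht hv
    have hsecG1 : ω ≤ sec G 1 := by
      have : ω = (volume (Icc (0:ℝ) ω)).toReal := by
        rw [Real.volume_Icc, ENNReal.toReal_ofReal (by linarith [w.ω0])]; ring
      rw [this]
      unfold sec
      apply ENNReal.toReal_mono
      · have : IsCompact {x : ℝ | ((x, (1:ℝ)) : P2) ∈ G} := by
          have : IsCompact (G ∩ {y : P2 | y.2 = 1}) :=
            hGc.inter_right (isClosed_eq continuous_snd continuous_const)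
          have h2 := this.image continuous_fst
          have h3 : Prod.fst '' (G ∩ {y : P2 | y.2 = 1})
              = {x : ℝ | ((x, (1:ℝ)) : P2) ∈ G} := by
            ext t
            constructor
            · rintro ⟨⟨a, b⟩, ⟨h1, h2⟩, rfl⟩
              simp only [mem_ofPred_eq] at h2 ⊢
              rwa [← h2]
            · intro ht
              exact ⟨(t, 1), ⟨ht, rfl⟩, rfl⟩
          rwa [h3] at h2
        exact this.measure_lt_top.ne
      · apply measure_mono
        intro t ht
        exact hw1F t ht.1 ht.2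
    -- path_area
    have hD2 : ∀ a ∈ A, ∀ y ∈ F, a - (ε * h) • y ∈ D := by
      rintro a ha y hy
      obtain ⟨y', hy', _, ⟨z, hz, rfl⟩, rfl⟩ := ha
      obtain ⟨u, hu, huz⟩ := hYZ z hz y hy
      refine ⟨(1 / (1 + ε * (1 + h))) • y' + (ε * (1 + h) / (1 + ε * (1 + h))) • u, ?_, ?_⟩
      · apply hYv hy' hu
        · positivity
        · positivity
        · field_simp
      · simp only
        have e1 : ε • z - (ε * h) • y = (ε * (1 + h)) • u := by
          rw [mul_smul, ← smul_sub, huz, smul_smul]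
        rw [add_sub_assoc, e1, smul_add, smul_smul, smul_smul]
        congr 1
        · rw [mul_one_div_cancel hpos.ne', one_smul]
        · congr 1
          field_simp
    obtain ⟨yT, hyT, hyT2⟩ := w.T1
    obtain ⟨ye, hye, hye2⟩ := w.e1
    have hpath := path_area (A := A) (F := F) (D := D) hAc w.cF hDc hAv w.vF
      (η := ε * h) (T := T) (e := e) (σ := σ) (q0 := q0) (by positivity) he hq0 hqT hD2
      ⟨yT.1, by rw [← hyT2]; exact hyT⟩
      ⟨0, w.winF 0 le_rfl w.ω0.le⟩
      ⟨(0:ℝ) + ε * z0.1, hmemA _ (hGY _ (hw1F 0 le_rfl w.ω0.le) le_rfl)⟩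
      ⟨ye.1 + ε * z0.1, by
        have h1 : ye.2 ≤ 1 := by rw [hye2]; linarith
        have := hmemA _ (hGY _ hye h1)
        have h2 : ye + ε • z0 = ((ye.1 + ε * z0.1, σ - e) : P2) := by
          ext
          · simp
          · simp [hσ, hye2]; ring
        rwa [h2] at this⟩
      x q x' q' hx hq hx'c hq'c hx' hq' hx0 hx1 hq00 hq1
    -- comparison of integrals
    have hI : ∫ τ in (0:ℝ)..1, (sec G (1 - x τ) * q' τ + sec F (1 - T + q τ) * x' τ)
        ≤ ∫ τ in (0:ℝ)..1, (sec A (σ - x τ) * q' τ + sec F (1 - T + q τ) * x' τ) := by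
      apply intervalIntegral.integral_mono_on (by norm_num)
      · exact (a4a_intervalIntegrable_sec hGc (continuousOn_const.sub hxc) hq'c).add
          (a4a_intervalIntegrable_sec w.cF (continuousOn_const.add hqc) hx'c)
      · exact (a4a_intervalIntegrable_sec hAc (continuousOn_const.sub hxc) hq'c).add
          (a4a_intervalIntegrable_sec w.cF (continuousOn_const.add hqc) hx'c)
      · intro τ hτ
        have h1 : sec G (1 - x τ) ≤ sec A (σ - x τ) := by
          calc sec G (1 - x τ) ≤ sec Y (1 - x τ) := hsecYG _ (by linarith [hxnn τ hτ])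
            _ ≤ sec A (1 - x τ + ε * z0.2) := hsecA _
            _ = sec A (σ - x τ) := by rw [hσ]; congr 1; ring
        have h2 := mul_le_mul_of_nonneg_right h1 (hq' τ hτ).le
        linarith
    have hσA : ω ≤ sec A σ := hsecG1.trans ((hsecYG 1 le_rfl).trans (hsecA 1))
    have hCle : C ≤ q0 * sec A σ + ∫ τ in (0:ℝ)..1,
        (sec A (σ - x τ) * q' τ + sec F (1 - T + q τ) * x' τ) := by
      rw [hC]
      have := mul_le_mul_of_nonneg_left hσA hq0
      linarith
    have hDarea : area D = (1 + ε * (1 + h)) ^ 2 * area Y := harea_smul _ _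
    have hfin : area Y + 2 * ε * Real.sqrt (area Y * area Z) + ε * h * C
        ≤ (1 + ε * (1 + h)) ^ 2 * area Y := by
      rw [← hDarea]
      have := mul_le_mul_of_nonneg_left hCle (show 0 ≤ ε * h by positivity)
      linarith
    have h3 : (2 * ε) * (Real.sqrt (area Y * area Z) + h * ((1 / 2) * C))
        ≤ (2 * ε) * ((1 + h) * area Y + ε / 2 * ((1 + h) ^ 2 * area Y)) := by
      nlinarith
    exact le_of_mul_le_mul_left h3 (by positivity)
  -- limit
  apply le_of_forall_pos_le_add
  intro δ hδ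
  set M : ℝ := (1 + h) ^ 2 * area Y with hM
  have hM0 : 0 ≤ M := mul_nonneg (by positivity) (area_nonneg _)
  have := key (δ / (M + 1)) (by positivity)
  refine this.trans ?_
  have h4 : δ / (M + 1) / 2 * M ≤ δ := by
    rw [div_div, div_mul_eq_mul_div, div_le_iff₀ (by positivity)]
    nlinarith
  linarith

end Pool.Agent.helper15.PB
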