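import Pool.Agent.helper15.PB.Defs2
import Pool.Agent.helper15.PB.A1a
import Pool.Agent.helper15.PB.A1b

/-! # A5a: one-variable facts for `G` (planar half of MP_0069fb_gt) -/

set_option autoImplicit false
open MeasureTheory Set
open scoped Pointwise

namespace Pool.Agent.helper15.PB

variable {F G Gt : Set P2} {B : Set (P2 × ℝ)} {ω H e T c : ℝ}

theorem A5a_int {K : Set P2} (hK : IsCompact K) {φ : ℝ → ℝ} (hφ : Continuous φ) :
    Integrable (fun u => φ u * sec K u) := by
  obtain ⟨M, hM⟩ := sec_bound hK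
  obtain ⟨R, hR, hRs⟩ := sec_bdd_support hK
  obtain ⟨C, hC⟩ := (isCompact_Icc (a := -R) (b := R)).exists_bound_of_continuousOn hφ.continuousOn
  have h1 : IntegrableOn (fun u => φ u * sec K u) (Icc (-R) R) := by
    refine Measure.integrableOn_of_bounded (M := C * M) measure_Icc_lt_top.ne
      ((hφ.measurable.mul (measurable_sec hK)).aestronglyMeasurable) ?_
    filter_upwards [ae_restrict_mem measurableSet_Icc] with u hu
    rw [norm_mul]
    have h2 : ‖sec K u‖ ≤ M := by
      rw [Real.norm_of_nonneg (sec_nonneg K u)]; exact hM u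
    exact mul_le_mul (hC u hu) h2 (norm_nonneg _) ((norm_nonneg _).trans (hC u hu))
  refine (integrableOn_iff_integrable_of_support_subset ?_).1 h1
  intro u hu
  by_contra h3
  apply hu
  have h4 : R < |u| := by
    rw [lt_abs]
    rw [mem_Icc, not_and_or, not_le, not_le] at h3
    rcases h3 with h3 | h3
    · right; linarith
    · left; exact h3
  simp [hRs u h4]

/-- the polynomial part of Lemma G -/
theorem A5a_poly (e d a b s t : ℝ) :
    (∫ x in (0:ℝ)..d, (4 * e + 2 * d - 6 * x) * (a + s * x)) +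
      ∫ x in d..e, (4 * e + 2 * d - 6 * x) * (b + t * (x - d)) =
    a * (4 * e * d - d ^ 2) + s * (2 * e * d ^ 2 - d ^ 3) + b * (e ^ 2 - 2 * e * d + d ^ 2) := by
  have h1 : ∀ x : ℝ, HasDerivAt (fun x : ℝ => (4 * e + 2 * d) * a * x + ((4 * e + 2 * d) * s - 6 * a) * (x ^ 2 / 2)
      - 6 * s * (x ^ 3 / 3)) ((4 * e + 2 * d - 6 * x) * (a + s * x)) x := by
    intro x
    have h2 := (((hasDerivAt_id x).const_mul ((4 * e + 2 * d) * a)).add
      (((hasDerivAt_pow 2 x).div_const 2).const_mul ((4 * e + 2 * d) * s - 6 * a))).sub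
      (((hasDerivAt_pow 3 x).div_const 3).const_mul (6 * s))
    refine h2.congr_deriv ?_
    norm_num
    ring
  have h3 : ∀ x : ℝ, HasDerivAt (fun x : ℝ => (4 * (e - d)) * b * (x - d) + ((4 * (e - d)) * t - 6 * b) * ((x - d) ^ 2 / 2)
      - 6 * t * ((x - d) ^ 3 / 3)) ((4 * e + 2 * d - 6 * x) * (b + t * (x - d))) x := by
    intro x
    have hx : HasDerivAt (fun x : ℝ => x - d) 1 x := (hasDerivAt_id x).sub_const d
    have h2 := ((hx.const_mul ((4 * (e - d)) * b)).add
      (((hx.pow 2).div_const 2).const_mul ((4 * (e - d)) * t - 6 * b))).sub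
      (((hx.pow 3).div_const 3).const_mul (6 * t))
    refine h2.congr_deriv ?_
    norm_num
    ring
  rw [intervalIntegral.integral_eq_sub_of_hasDerivAt (fun x _ => h1 x)
      ((by fun_prop : Continuous fun x : ℝ => (4 * e + 2 * d - 6 * x) * (a + s * x)).intervalIntegrable _ _),
    intervalIntegral.integral_eq_sub_of_hasDerivAt (fun x _ => h3 x)
      ((by fun_prop : Continuous fun x : ℝ => (4 * e + 2 * d - 6 * x) * (b + t * (x - d))).intervalIntegrable _ _)]
  ring

/-- concavity: a chord from below -/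
theorem A5a_chord {g : ℝ → ℝ} {s : Set ℝ} (hg : ConcaveOn ℝ s g) {a b x : ℝ} (ha : a ∈ s) (hb : b ∈ s)
    (hax : a ≤ x) (hxb : x ≤ b) (hab : a < b) :
    g a + (g b - g a) / (b - a) * (x - a) ≤ g x := by
  have h1 : 0 < b - a := sub_pos.2 hab
  have h0 : (b - x) / (b - a) + (x - a) / (b - a) = 1 := by
    rw [← add_div, div_eq_one_iff_eq h1.ne']; ring
  have h2 := hg.2 ha hb (div_nonneg (by linarith : 0 ≤ b - x) h1.le)
    (div_nonneg (by linarith : 0 ≤ x - a) h1.le) h0
  have h3 : ((b - x) / (b - a)) • a + ((x - a) / (b - a)) • b = x := by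
    simp only [smul_eq_mul]
    field_simp
    ring
  rw [h3] at h2
  simp only [smul_eq_mul] at h2
  have h4 : (b - x) / (b - a) * g a + (x - a) / (b - a) * g b = g a + (g b - g a) / (b - a) * (x - a) := by
    field_simp
    ring
  linarith

/-- concavity: beyond the chord -/
theorem A5a_beyond {g : ℝ → ℝ} {s : Set ℝ} (hg : ConcaveOn ℝ s g) {a b x : ℝ} (ha : a ∈ s) (hx : x ∈ s)
    (hab : a < b) (hbx : b ≤ x) :
    g x ≤ g a + (g b - g a) / (b - a) * (x - a) := by
  have h1 : 0 < b - a := sub_pos.2 hab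
  have h2 := A5a_chord hg ha hx hab.le hbx (hab.trans_le hbx)
  have h3 : 0 < x - a := by linarith
  have h4 : (g x - g a) / (x - a) ≤ (g b - g a) / (b - a) := by
    rw [le_div_iff₀ h1]
    linarith
  have h5 : (g x - g a) / (x - a) * (x - a) = g x - g a := by field_simp
  nlinarith [mul_le_mul_of_nonneg_right h4 h3.le]

/-- Lemma G -/
theorem lemma_G {g : ℝ → ℝ} {e d : ℝ} (he : 0 < e) (hd : 0 ≤ d) (hde : d ≤ e)
    (hg : ConcaveOn ℝ (Icc 0 e) g) (hgi : IntegrableOn g (Icc 0 e)) :
    e ^ 2 * g d + 2 * d * e * g 0 ≤ ∫ x in (0:ℝ)..e, (4 * e + 2 * d - 6 * x) * g x := by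
  have hgI : ∀ a b : ℝ, 0 ≤ a → b ≤ e → a ≤ b → IntervalIntegrable g volume a b := by
    intro a b ha hb hab
    refine (intervalIntegrable_iff_integrableOn_Icc_of_le hab).2 (hgi.mono_set (Icc_subset_Icc ha hb))
  have hwI : ∀ a b : ℝ, 0 ≤ a → b ≤ e → a ≤ b →
      IntervalIntegrable (fun x => (4 * e + 2 * d - 6 * x) * g x) volume a b := by
    intro a b ha hb hab
    exact (hgI a b ha hb hab).continuousOn_mul (by fun_prop)
  have h0 : (0:ℝ) ∈ Icc 0 e := ⟨le_rfl, he.le⟩
  have hdm : d ∈ Icc 0 e := ⟨hd, hde⟩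
  set z : ℝ := (2 * e + d) / 3 with hz
  have hdz : d ≤ z := by rw [hz]; linarith
  have hze : z ≤ e := by rw [hz]; linarith
  have hzm : z ∈ Icc 0 e := ⟨hd.trans hdz, hze⟩
  set t : ℝ := (g z - g d) / (z - d) with ht
  -- the first piece
  obtain ⟨s, hs1, hs2⟩ : ∃ s : ℝ, (∀ x ∈ Icc (0:ℝ) d, g 0 + s * x ≤ g x) ∧ d * (g 0 + s * d) = d * g d := by
    rcases hd.eq_or_lt with h | h
    · refine ⟨0, fun x hx => ?_, ?_⟩
      · rw [← h] at hx
        have : x = 0 := le_antisymm hx.2 hx.1
        rw [this]; simp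
      · rw [← h]; simp
    · refine ⟨(g d - g 0) / (d - 0), fun x hx => ?_, ?_⟩
      · have := A5a_chord hg h0 hdm hx.1 hx.2 h
        rwa [sub_zero x] at this
      · rw [sub_zero, div_mul_cancel₀ _ h.ne']; ring
  have k1 : ∫ x in (0:ℝ)..d, (4 * e + 2 * d - 6 * x) * (g 0 + s * x) ≤
      ∫ x in (0:ℝ)..d, (4 * e + 2 * d - 6 * x) * g x := by
    refine intervalIntegral.integral_mono_on hd
      ((by fun_prop : Continuous fun x : ℝ => (4 * e + 2 * d - 6 * x) * (g 0 + s * x)).intervalIntegrable _ _)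
      (hwI 0 d le_rfl hde hd) fun x hx => ?_
    exact mul_le_mul_of_nonneg_left (hs1 x hx) (by have := hx.2; linarith)
  have k2 : ∫ x in d..e, (4 * e + 2 * d - 6 * x) * (g d + t * (x - d)) ≤
      ∫ x in d..e, (4 * e + 2 * d - 6 * x) * g x := by
    refine intervalIntegral.integral_mono_on hde
      ((by fun_prop : Continuous fun x : ℝ => (4 * e + 2 * d - 6 * x) * (g d + t * (x - d))).intervalIntegrable _ _)
      (hwI d e hd le_rfl hde) fun x hx => ?_
    rcases hdz.eq_or_lt with h | h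
    · -- d = z = e
      have he' : d = e := by rw [hz] at h; linarith
      have hxd : x = d := le_antisymm (by rw [he']; exact hx.2) hx.1
      rw [hxd]
      simp
    · rcases le_total x z with hxz | hxz
      · refine mul_le_mul_of_nonneg_left (A5a_chord hg hdm hzm hx.1 hxz h) ?_
        rw [hz] at hxz; linarith
      · refine mul_le_mul_of_nonpos_left (A5a_beyond hg hdm ⟨hd.trans hx.1, hx.2⟩ h hxz) ?_
        rw [hz] at hxz; linarith
  have k3 := A5a_poly e d (g 0) (g d) s t
  have k4 := intervalIntegral.integral_add_adjacent_intervals (hwI 0 d le_rfl hde hd) (hwI d e hd le_rfl hde)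
  have k5 : g 0 * (4 * e * d - d ^ 2) + s * (2 * e * d ^ 2 - d ^ 3) + g d * (e ^ 2 - 2 * e * d + d ^ 2)
      = e ^ 2 * g d + 2 * d * e * g 0 := by
    linear_combination (2 * e - d) * hs2
  linarith

theorem Win.c_nonneg (w : Win F G Gt B ω H e T c) : 0 ≤ c := by
  rw [w.hc]; exact area_nonneg _

theorem Win.secGt_one (w : Win F G Gt B ω H e T c) : sec Gt 1 = ω := by
  have h1 : {x : ℝ | ((x, 1) : P2) ∈ Gt} = Icc 0 ω := by
    ext x
    exact w.win x
  unfold sec
  rw [h1, Real.volume_Icc, sub_zero, ENNReal.toReal_ofReal w.ω0.le]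

theorem Win.secG_one (w : Win F G Gt B ω H e T c) : sec G 1 = ω := by
  have h1 : {x : ℝ | ((x, 1) : P2) ∈ G} = Icc 0 ω := by
    ext x
    constructor
    · intro hx
      have hx' : ((x, 1) : P2) ∈ F ∩ Gt := by rw [← w.hG]; exact hx
      exact (w.win x).1 hx'.2
    · intro hx
      show ((x, 1) : P2) ∈ G
      rw [w.hG]
      exact ⟨w.winF x hx.1 hx.2, (w.win x).2 hx⟩
  unfold sec
  rw [h1, Real.volume_Icc, sub_zero, ENNReal.toReal_ofReal w.ω0.le]

theorem Win.A5a_closedGt (w : Win F G Gt B ω H e T c) : IsClosed Gt := by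
  rw [w.hGt]
  exact w.cB.isClosed.preimage (by fun_prop : Continuous fun y : P2 => ((y, 0) : P2 × ℝ))

theorem Win.A5a_convexGt (w : Win F G Gt B ω H e T c) : Convex ℝ Gt := by
  rw [w.hGt]
  intro x hx y hy a b ha hb hab
  have := w.vB hx hy ha hb hab
  have h2 : a • ((x, 0) : P2 × ℝ) + b • ((y, 0) : P2 × ℝ) = ((a • x + b • y, 0) : P2 × ℝ) := by
    ext <;> simp
  rw [h2] at this
  exact this

theorem Win.A5a_cG (w : Win F G Gt B ω H e T c) : IsCompact G := by
  rw [w.hG]
  exact w.cF.inter_right w.A5a_closedGt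

theorem Win.A5a_vG (w : Win F G Gt B ω H e T c) : Convex ℝ G := by
  rw [w.hG]
  exact w.vF.inter w.A5a_convexGt

theorem Win.A5a_one_mem (w : Win F G Gt B ω H e T c) : ((0, 1) : P2) ∈ G := by
  rw [w.hG]
  exact ⟨w.winF 0 le_rfl w.ω0.le, (w.win 0).2 ⟨le_rfl, w.ω0.le⟩⟩

theorem Win.A5a_e_nonneg (w : Win F G Gt B ω H e T c) : 0 ≤ e := by
  have := w.e2 _ w.A5a_one_mem
  simp only at this
  linarith

/-- integrals over the levels below the chord -/
theorem Win.A5a_Iic (w : Win F G Gt B ω H e T c) {φ : ℝ → ℝ} :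
    ∫ u in Iic (1:ℝ), φ u * sec G u = ∫ u in (1 - e)..1, φ u * sec G u := by
  have he := w.A5a_e_nonneg
  rw [intervalIntegral.integral_of_le (by linarith), ← integral_Icc_eq_integral_Ioc]
  refine setIntegral_eq_of_subset_of_forall_sdiff_eq_zero measurableSet_Iic
    (fun u hu => hu.2) ?_
  intro u hu
  have h1 : u < 1 - e := by
    by_contra h
    exact hu.2 ⟨not_lt.1 h, hu.1⟩
  rw [sec_eq_zero_of_empty (fun x hx => ?_), mul_zero]
  have := w.e2 _ hx
  simp only at this
  linarith

theorem Win.A5a_area (w : Win F G Gt B ω H e T c) : ∫ u in Iic (1:ℝ), sec G u = 1 - c := by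
  have hI : Integrable (sec G) := by
    have := A5a_int w.A5a_cG (φ := fun _ => (1:ℝ)) continuous_const
    simpa using this
  have h1 := integral_add_compl (s := Iic (1:ℝ)) measurableSet_Iic hI
  rw [compl_Iic, ← area_eq w.A5a_cG, w.G1, ← area_inter_gt w.A5a_cG, ← w.hc] at h1
  linarith

theorem Win.A5a_moment (w : Win F G Gt B ω H e T c) : ∫ u in Iic (1:ℝ), u * sec G u ≤ - c := by
  have hI : Integrable (fun u => u * sec G u) := A5a_int w.A5a_cG (φ := fun u => u) continuous_id
  have hI1 : Integrable (sec G) := by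
    have := A5a_int w.A5a_cG (φ := fun _ => (1:ℝ)) continuous_const
    simpa using this
  have h1 := integral_add_compl (s := Iic (1:ℝ)) measurableSet_Iic hI
  rw [compl_Iic, ← integral_snd w.A5a_cG, w.G02] at h1
  have h2 : c ≤ ∫ u in Ioi (1:ℝ), u * sec G u := by
    rw [w.hc, area_inter_gt w.A5a_cG]
    refine setIntegral_mono_on hI1.integrableOn hI.integrableOn measurableSet_Ioi fun u hu => ?_
    have h3 : (1:ℝ) ≤ u := le_of_lt hu
    nlinarith [sec_nonneg G u]
  linarith

theorem Win.A5a_e_pos (w : Win F G Gt B ω H e T c) : 0 < e := by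
  rcases w.A5a_e_nonneg.eq_or_lt with h | h
  · exfalso
    have h1 := w.A5a_Iic (φ := fun _ => (1:ℝ))
    have h2 := w.A5a_Iic (φ := fun u => u)
    rw [← h] at h1 h2
    simp only [sub_zero, intervalIntegral.integral_same, one_mul] at h1 h2
    have h3 := w.A5a_area
    have h4 := w.A5a_moment
    linarith
  · exact h

theorem Win.g_bound (w : Win F G Gt B ω H e T c) {d : ℝ} (hd : 0 ≤ d) (hde : d ≤ e) :
    e ^ 2 * sec G (1 - d) + 2 * d * e * ω ≤ (4 * e + 2 * d) * (1 - c) - 6 := by
  have he := w.A5a_e_pos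
  have hcG := w.A5a_cG
  have hconc := sec_concave hcG w.A5a_vG
  have hI1 : Integrable (sec G) := by
    have := A5a_int w.A5a_cG (φ := fun _ => (1:ℝ)) continuous_const
    simpa using this
  have hI : Integrable (fun u => u * sec G u) := A5a_int w.A5a_cG (φ := fun u => u) continuous_id
  have hlev : ∀ x ∈ Icc (0:ℝ) e, 1 - x ∈ {u | ∃ x, ((x, u) : P2) ∈ G} := by
    intro x hx
    obtain ⟨y, hy, hy2⟩ := w.e1
    have h1 := w.A5a_vG w.A5a_one_mem hy (a := (e - x) / e) (b := x / e) (div_nonneg (by linarith [hx.2]) he.le)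
      (div_nonneg hx.1 he.le) (by field_simp; ring)
    refine ⟨(((e - x) / e) • ((0, 1) : P2) + (x / e) • y).1, ?_⟩
    have h2 : ((((e - x) / e) • ((0, 1) : P2) + (x / e) • y).1, 1 - x) = ((e - x) / e) • ((0, 1) : P2) + (x / e) • y := by
      refine Prod.ext rfl ?_
      simp only [Prod.snd_add, Prod.smul_snd, smul_eq_mul, hy2]
      field_simp
      ring
    rw [h2]
    exact h1
  have hg : ConcaveOn ℝ (Icc 0 e) (fun x => sec G (1 - x)) := by
    refine ⟨convex_Icc _ _, fun x hx y hy a b ha hb hab => ?_⟩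
    have h1 := hconc.2 (hlev x hx) (hlev y hy) ha hb hab
    have h2 : a • (1 - x) + b • (1 - y) = 1 - (a • x + b • y) := by
      simp only [smul_eq_mul]
      linear_combination hab
    rw [h2] at h1
    exact h1
  have hgi : IntegrableOn (fun x => sec G (1 - x)) (Icc 0 e) := (hI1.comp_sub_left 1).integrableOn
  have h1 := lemma_G he hd hde hg hgi
  simp only [sub_zero, w.secG_one] at h1
  have h2 : ∫ x in (0:ℝ)..e, (4 * e + 2 * d - 6 * x) * sec G (1 - x) =
      ∫ u in (1 - e)..1, (4 * e + 2 * d - 6 * (1 - u)) * sec G u := by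
    have := intervalIntegral.integral_comp_sub_left (a := 0) (b := e)
      (fun u => (4 * e + 2 * d - 6 * (1 - u)) * sec G u) 1
    rw [sub_zero] at this
    rw [← this]
    refine intervalIntegral.integral_congr fun x _ => ?_
    simp only [sub_sub_cancel]
  rw [h2, ← w.A5a_Iic (φ := fun u => 4 * e + 2 * d - 6 * (1 - u))] at h1
  have h3 : ∫ u in Iic (1:ℝ), (4 * e + 2 * d - 6 * (1 - u)) * sec G u =
      (4 * e + 2 * d - 6) * (∫ u in Iic (1:ℝ), sec G u) + 6 * (∫ u in Iic (1:ℝ), u * sec G u) := by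
    rw [← integral_const_mul, ← integral_const_mul, ← integral_add (hI1.integrableOn.const_mul _)
      (hI.integrableOn.const_mul _)]
    refine integral_congr_ae (Filter.Eventually.of_forall fun u => ?_)
    simp only
    ring
  rw [h3, w.A5a_area] at h1
  have h4 := w.A5a_moment
  linarith

theorem Win.e_gt (w : Win F G Gt B ω H e T c) : 3 / 2 < e := by
  have he := w.A5a_e_pos
  have h1 := w.g_bound le_rfl he.le
  rw [sub_zero, w.secG_one] at h1
  have h2 : 0 < e ^ 2 * ω := mul_pos (by positivity) w.ω0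
  have h3 := w.c_nonneg
  nlinarith

end Pool.Agent.helper15.PB
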