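import Pool.Agent.helper15.PB.A1b

/-! # MP_0069fb_gt, planar theorem: module A6a, wedge bounds for F (helper31) -/

set_option autoImplicit false

open MeasureTheory Set

namespace Pool.Agent.helper15.PB

variable {F G Gt : Set P2} {B : Set (P2 × ℝ)} {ω H e T c : ℝ}

/-- Lemma A (trick): `∫ (q - μ) φ ≤ 0` over `[0, 3μ/2]` for concave `φ` with `φ 0 ≥ 0`. -/
theorem lemma_A {φ : ℝ → ℝ} {μ : ℝ} (hμ : 0 < μ) (hφ : ConcaveOn ℝ (Icc 0 (3 * μ / 2)) φ)
    (hφi : IntegrableOn φ (Icc 0 (3 * μ / 2))) (h0 : 0 ≤ φ 0) :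
    ∫ q in (0:ℝ)..(3 * μ / 2), (q - μ) * φ q ≤ 0 := by
  have ha : (0:ℝ) ≤ 3 * μ / 2 := by linarith
  have hint : IntervalIntegrable φ volume 0 (3 * μ / 2) := by
    rw [intervalIntegrable_iff_integrableOn_Icc_of_le ha]
    exact hφi
  set α : ℝ := (φ μ - φ 0) / μ with hα
  have hαμ : α * μ = φ μ - φ 0 := by
    rw [hα]
    field_simp
  have h0m : (0:ℝ) ∈ Icc (0:ℝ) (3 * μ / 2) := ⟨le_rfl, ha⟩
  have hμm : μ ∈ Icc (0:ℝ) (3 * μ / 2) := ⟨hμ.le, by linarith⟩
  have key : ∀ q ∈ Icc (0:ℝ) (3 * μ / 2), (q - μ) * φ q ≤ (q - μ) * (φ 0 + α * q) := by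
    intro q hq
    rcases le_total q μ with h | h
    · have h1 : φ 0 + α * q ≤ φ q := by
        have h2 := hφ.2 h0m hμm (show 0 ≤ 1 - q / μ by rw [sub_nonneg, div_le_one hμ]; exact h)
          (show 0 ≤ q / μ from div_nonneg hq.1 hμ.le) (by ring)
        simp only [smul_eq_mul, mul_zero, zero_add] at h2
        have h3 : q / μ * μ = q := by field_simp
        rw [h3] at h2
        have h4 : φ 0 + α * q = (1 - q / μ) * φ 0 + q / μ * φ μ := by
          rw [hα]
          field_simp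
          ring
        rw [h4]
        exact h2
      nlinarith
    · have hq0 : 0 < q := lt_of_lt_of_le hμ h
      have h1 : φ q ≤ φ 0 + α * q := by
        have h2 := hφ.2 h0m hq (show 0 ≤ 1 - μ / q by rw [sub_nonneg, div_le_one hq0]; exact h)
          (show 0 ≤ μ / q from div_nonneg hμ.le hq0.le) (by ring)
        simp only [smul_eq_mul, mul_zero, zero_add] at h2
        have h3 : μ / q * q = μ := by field_simp
        rw [h3] at h2
        have h5 : q * ((1 - μ / q) * φ 0 + μ / q * φ q) = (q - μ) * φ 0 + μ * φ q := by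
          field_simp
        have h6 : (q - μ) * φ 0 + μ * φ q ≤ q * φ μ := by
          rw [← h5]
          exact mul_le_mul_of_nonneg_left h2 hq0.le
        have h7 : μ * (φ 0 + α * q) = μ * φ 0 + q * (φ μ - φ 0) := by
          rw [← hαμ]
          ring
        have h8 : μ * φ q ≤ μ * (φ 0 + α * q) := by
          rw [h7]
          linarith
        exact le_of_mul_le_mul_left h8 hμ
      exact mul_le_mul_of_nonneg_left h1 (by linarith)
  have hc : Continuous fun q : ℝ => q - μ := by fun_prop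
  have hc2 : Continuous fun q : ℝ => (q - μ) * (φ 0 + α * q) := by fun_prop
  have h1 : ∫ q in (0:ℝ)..(3 * μ / 2), (q - μ) * φ q ≤
      ∫ q in (0:ℝ)..(3 * μ / 2), (q - μ) * (φ 0 + α * q) :=
    intervalIntegral.integral_mono_on ha (hint.continuousOn_mul hc.continuousOn)
      (hc2.intervalIntegrable _ _) key
  have hder : ∀ q : ℝ, HasDerivAt (fun q : ℝ => α * q ^ 3 / 3 + (φ 0 - α * μ) * q ^ 2 / 2 - μ * φ 0 * q)
      ((q - μ) * (φ 0 + α * q)) q := by
    intro q
    have := ((((hasDerivAt_pow 3 q).const_mul α).div_const 3).add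
      (((hasDerivAt_pow 2 q).const_mul (φ 0 - α * μ)).div_const 2)).sub
      ((hasDerivAt_id q).const_mul (μ * φ 0))
    refine (this.congr_deriv ?_)
    simp
    ring
  have h2 : ∫ q in (0:ℝ)..(3 * μ / 2), (q - μ) * (φ 0 + α * q) =
      (α * (3 * μ / 2) ^ 3 / 3 + (φ 0 - α * μ) * (3 * μ / 2) ^ 2 / 2 - μ * φ 0 * (3 * μ / 2)) -
      (α * 0 ^ 3 / 3 + (φ 0 - α * μ) * 0 ^ 2 / 2 - μ * φ 0 * 0) :=
    intervalIntegral.integral_eq_sub_of_hasDerivAt (fun q _ => hder q) (hc2.intervalIntegrable _ _)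
  rw [h2] at h1
  nlinarith [mul_nonneg h0 (sq_nonneg μ)]

private theorem a6a_nonneg (K : Set P2) (u : ℝ) : 0 ≤ sec K u := ENNReal.toReal_nonneg

private theorem a6a_mono {K L : Set P2} (hL : IsCompact L) (h : K ⊆ L) (u : ℝ) : sec K u ≤ sec L u :=
  ENNReal.toReal_mono (A1b_sec_lt_top hL Subset.rfl u).ne (measure_mono fun _ hx => h hx)

private theorem a6a_zero {K : Set P2} {u : ℝ} (h : ∀ x, ((x, u) : P2) ∉ K) : sec K u = 0 := by
  have : {x : ℝ | (x, u) ∈ K} = ∅ := by
    ext x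
    simpa using h x
  unfold sec
  rw [this]
  simp

private theorem a6a_bound {K : Set P2} (hK : IsCompact K) : ∃ M : ℝ, ∀ u, sec K u ≤ M := by
  have hc : IsCompact (Prod.fst '' K) := hK.image continuous_fst
  refine ⟨(volume (Prod.fst '' K)).toReal, fun u => ?_⟩
  exact ENNReal.toReal_mono hc.measure_lt_top.ne (measure_mono fun x hx => ⟨(x, u), hx, rfl⟩)

private theorem a6a_int {K : Set P2} (hK : IsCompact K) (a b : ℝ) :
    IntervalIntegrable (sec K) volume a b := by
  obtain ⟨M, hM⟩ := a6a_bound hK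
  refine IntervalIntegrable.mono_fun' (g := fun _ => M) intervalIntegrable_const
    (measurable_sec hK).aestronglyMeasurable ?_
  refine Filter.Eventually.of_forall fun u => ?_
  show ‖sec K u‖ ≤ M
  rw [Real.norm_eq_abs, abs_of_nonneg (a6a_nonneg K u)]
  exact hM u

private theorem a6a_red {K : Set P2} {f : ℝ → ℝ} {H : ℝ} (hH : 0 ≤ H) (htop : ∀ y ∈ K, y.2 ≤ 1 + H) :
    ∫ u in Ioi (1:ℝ), f u * sec K u = ∫ u in (1:ℝ)..(1 + H), f u * sec K u := by
  rw [intervalIntegral.integral_of_le (by linarith)]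
  refine setIntegral_eq_of_subset_of_forall_sdiff_eq_zero measurableSet_Ioi
    (fun u hu => hu.1) ?_
  intro u hu
  have h1 : 1 + H < u := by
    by_contra hcon
    exact hu.2 ⟨hu.1, not_lt.1 hcon⟩
  have h2 : sec K u = 0 := by
    apply a6a_zero
    intro x hx
    have := htop _ hx
    simp only at this
    linarith
  simp only [h2, mul_zero]

private theorem a6a_key (w : Win F G Gt B ω H e T c) (f : ℝ → ℝ) (hf : Continuous f)
    (hf0 : ∀ u, 1 ≤ u → 0 ≤ f u) :
    H * ∫ u in Ioi (1:ℝ), f u * sec F u ≤ ∫ u in (1:ℝ)..(1 + H), f u * (ω * (1 + H - u)) := by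
  have hH := w.H0
  rw [a6a_red hH w.top, ← intervalIntegral.integral_const_mul]
  refine intervalIntegral.integral_mono_on (by linarith) ?_ ?_ ?_
  · exact ((a6a_int w.cF _ _).continuousOn_mul hf.continuousOn).const_mul H
  · exact (by fun_prop : Continuous fun u => f u * (ω * (1 + H - u))).intervalIntegrable _ _
  · intro u hu
    have h1 := w.wedge u hu.2
    have h2 := mul_le_mul_of_nonneg_left h1 (hf0 u hu.1)
    nlinarith

private theorem a6a_i1 (ω H : ℝ) : ∫ u in (1:ℝ)..(1 + H), (1:ℝ) * (ω * (1 + H - u)) = ω * H ^ 2 / 2 := by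
  have hder : ∀ u : ℝ, HasDerivAt (fun u : ℝ => ω * ((1 + H) * u - u ^ 2 / 2))
      ((1:ℝ) * (ω * (1 + H - u))) u := by
    intro u
    have := (((hasDerivAt_id u).const_mul (1 + H)).sub ((hasDerivAt_pow 2 u).div_const 2)).const_mul ω
    refine (this.congr_deriv ?_)
    simp
  rw [intervalIntegral.integral_eq_sub_of_hasDerivAt (fun u _ => hder u)
    ((by fun_prop : Continuous fun u => (1:ℝ) * (ω * (1 + H - u))).intervalIntegrable _ _)]
  ring

private theorem a6a_i2 (ω H : ℝ) :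
    ∫ u in (1:ℝ)..(1 + H), (u - 1) * (ω * (1 + H - u)) = ω * H ^ 3 / 6 := by
  have hder : ∀ u : ℝ, HasDerivAt (fun u : ℝ => ω * (-(u ^ 3) / 3 + (2 + H) * u ^ 2 / 2 - (1 + H) * u))
      ((u - 1) * (ω * (1 + H - u))) u := by
    intro u
    have := (((((hasDerivAt_pow 3 u).neg).div_const 3).add
      (((hasDerivAt_pow 2 u).const_mul (2 + H)).div_const 2)).sub
      ((hasDerivAt_id u).const_mul (1 + H))).const_mul ω
    refine (this.congr_deriv ?_)
    simp
    ring
  rw [intervalIntegral.integral_eq_sub_of_hasDerivAt (fun u _ => hder u)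
    ((by fun_prop : Continuous fun u => (u - 1) * (ω * (1 + H - u))).intervalIntegrable _ _)]
  ring

theorem Win.cF_le (w : Win F G Gt B ω H e T c) :
    ∫ u in Ioi (1:ℝ), sec F u ≤ ω * H / 2 := by
  have e1 : ∫ u in Ioi (1:ℝ), sec F u = ∫ u in Ioi (1:ℝ), (1:ℝ) * sec F u := by simp
  rcases eq_or_lt_of_le w.H0 with h | h
  · rw [e1, a6a_red (f := fun _ => (1:ℝ)) w.H0 w.top, ← h]
    simp
  · have h1 := a6a_key w (fun _ => (1:ℝ)) continuous_const (fun _ _ => zero_le_one)
    rw [a6a_i1, ← e1] at h1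
    have h2 : H * ∫ u in Ioi (1:ℝ), sec F u ≤ H * (ω * H / 2) := by
      refine h1.trans_eq ?_
      ring
    exact le_of_mul_le_mul_left h2 h

theorem Win.mF_le (w : Win F G Gt B ω H e T c) :
    ∫ u in Ioi (1:ℝ), (u - 1) * sec F u ≤ ω * H ^ 2 / 6 := by
  rcases eq_or_lt_of_le w.H0 with h | h
  · rw [a6a_red (f := fun u => u - 1) w.H0 w.top, ← h]
    simp
  · have h1 := a6a_key w (fun u => u - 1) (by fun_prop) (fun u hu => by linarith)
    rw [a6a_i2] at h1
    have h2 : H * ∫ u in Ioi (1:ℝ), (u - 1) * sec F u ≤ H * (ω * H ^ 2 / 6) := by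
      refine h1.trans_eq ?_
      ring
    exact le_of_mul_le_mul_left h2 h

theorem Win.c_le (w : Win F G Gt B ω H e T c) : c ≤ ω * H / 2 := by
  have hGF : G ⊆ F := by
    rw [w.hG]
    exact inter_subset_left
  have hGt : IsClosed Gt := by
    rw [w.hGt]
    exact w.cB.isClosed.preimage (by fun_prop : Continuous fun y : P2 => ((y, 0) : P2 × ℝ))
  have hGc : IsCompact G := by
    rw [w.hG]
    exact w.cF.inter_right hGt
  have hGtop : ∀ y ∈ G, y.2 ≤ 1 + H := fun y hy => w.top y (hGF hy)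
  refine le_trans ?_ w.cF_le
  rw [w.hc, area_inter_gt hGc]
  have e1 : ∀ K : Set P2, ∫ u in Ioi (1:ℝ), sec K u = ∫ u in Ioi (1:ℝ), (1:ℝ) * sec K u := by
    intro K
    simp
  rw [e1 G, e1 F, a6a_red (f := fun _ => (1:ℝ)) w.H0 hGtop, a6a_red (f := fun _ => (1:ℝ)) w.H0 w.top]
  refine intervalIntegral.integral_mono_on (by linarith [w.H0]) ?_ ?_ ?_
  · exact (a6a_int hGc _ _).const_mul 1
  · exact (a6a_int w.cF _ _).const_mul 1
  · intro u _
    have := a6a_mono w.cF hGF u
    linarith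

end Pool.Agent.helper15.PB
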