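import Pool.Agent.helper15.PB.NumDefs
import Pool.Agent.helper15.PB.A1a
import Pool.Agent.helper15.PB.A1b
import Pool.Agent.helper15.PB.A4a
import Pool.Agent.helper15.PB.A5a
import Pool.Agent.helper15.PB.A6a

set_option autoImplicit false
open MeasureTheory Set
open scoped Pointwise

/-! # A4b: the path inequality for the candidate `C3 t` (helper51) -/

namespace Pool.Agent.helper15.PB

variable {F G Gt : Set P2} {B : Set (P2 × ℝ)} {ω H e T c : ℝ}

theorem a4b_int {K : Set P2} (hK : IsCompact K) {p : ℝ → ℝ} (hp : Continuous p) :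
    Integrable (fun u => p u * sec K u) := by
  obtain ⟨M, hM⟩ := sec_bound hK
  obtain ⟨R, _, hR⟩ := sec_bdd_support hK
  have hi : Integrable ((Icc (-R) R).indicator (fun u => |p u| * M)) :=
    (integrable_indicator_iff measurableSet_Icc).2
      ((hp.abs.mul continuous_const).continuousOn.integrableOn_compact isCompact_Icc)
  refine hi.mono' ((hp.measurable.mul (measurable_sec hK)).aestronglyMeasurable) ?_
  refine Filter.Eventually.of_forall fun u => ?_
  by_cases hu : u ∈ Icc (-R) R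
  · rw [indicator_of_mem hu, norm_mul, Real.norm_eq_abs, Real.norm_eq_abs,
      abs_of_nonneg (sec_nonneg K u)]
    exact mul_le_mul_of_nonneg_left (hM u) (abs_nonneg _)
  · have : R < |u| := by
      by_contra hcon
      push Not at hcon
      exact hu (abs_le.1 hcon)
    rw [indicator_of_notMem hu, hR u this, mul_zero, norm_zero]

/-- the sections of a compact convex set are concave between two levels that meet it -/
theorem a4b_concave {K : Set P2} (hK : IsCompact K) (hv : Convex ℝ K) {a b : ℝ}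
    (ha : ∃ x, ((x, a) : P2) ∈ K) (hb : ∃ x, ((x, b) : P2) ∈ K) :
    ConcaveOn ℝ (Icc a b) (sec K) := by
  have hc := sec_concave hK hv
  refine hc.subset ?_ (convex_Icc a b)
  intro u hu
  have := hc.1.ordConnected
  exact this.out ha hb hu

theorem Win.a4b_F0 (w : Win F G Gt B ω H e T c) (s : ℝ) :
    ∫ v, (v - s) * sec F v = -s * area F := by
  have h1 : ∫ v, v * sec F v = 0 := by rw [← integral_snd w.cF, w.F02]
  have i1 : Integrable (fun v => v * sec F v) := a4b_int w.cF (by fun_prop)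
  have i2 : Integrable (fun v => s * sec F v) := a4b_int w.cF (by fun_prop)
  have h2 : ∫ v, (v - s) * sec F v = (∫ v, v * sec F v) - ∫ v, s * sec F v := by
    rw [← integral_sub i1 i2]
    congr 1
    funext v
    ring
  rw [h2, h1, integral_const_mul, ← area_eq w.cF]
  ring

theorem Win.a4b_F1 (w : Win F G Gt B ω H e T c) {s : ℝ} (hs : 0 ≤ s) :
    ∫ v in Ioi (1:ℝ), (v - (1 - s)) * sec F v ≤ ω * H ^ 2 / 6 + s * (ω * H / 2) := by
  have i1 : IntegrableOn (fun v => (v - 1) * sec F v) (Ioi (1:ℝ)) :=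
    (a4b_int w.cF (p := fun v => v - 1) (by fun_prop)).integrableOn
  have i2 : IntegrableOn (fun v => s * sec F v) (Ioi (1:ℝ)) :=
    (a4b_int w.cF (p := fun _ => s) (by fun_prop)).integrableOn
  have h2 : ∫ v in Ioi (1:ℝ), (v - (1 - s)) * sec F v =
      (∫ v in Ioi (1:ℝ), (v - 1) * sec F v) + ∫ v in Ioi (1:ℝ), s * sec F v := by
    rw [← integral_add i1 i2]
    congr 1
    funext v
    ring
  rw [h2, integral_const_mul]
  have := mul_le_mul_of_nonneg_left w.cF_le hs
  linarith [w.mF_le]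

theorem Win.a4b_F2 (w : Win F G Gt B ω H e T c) (s : ℝ) :
    (∫ v in Iic (1:ℝ), (v - s) * sec F v) + ∫ v in Ioi (1:ℝ), (v - s) * sec F v =
      -s * area F := by
  have i1 : Integrable (fun v => (v - s) * sec F v) :=
    a4b_int w.cF (p := fun v => v - s) (by fun_prop)
  rw [← w.a4b_F0 s, ← integral_add_compl (measurableSet_Iic (a := (1:ℝ))) i1, compl_Iic]

theorem Win.a4b_F (w : Win F G Gt B ω H e T c) {t : ℝ} (ht : 0 < t) :
    4 * (t - 1) - (ω * H / 2) * t - ω * H ^ 2 / 6 ≤
      ∫ v in (1 - t)..1, (v - (1 - t)) * sec F v := by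
  have i1 : Integrable (fun v => (v - (1 - t)) * sec F v) :=
    a4b_int w.cF (p := fun v => v - (1 - t)) (by fun_prop)
  have hF := w.F4
  have h2 := w.a4b_F2 (1 - t)
  have h3 := w.a4b_F1 ht.le
  have hD : 0 ≤ ∫ v in Ioi (1:ℝ), (v - (1 - t)) * sec F v := by
    refine setIntegral_nonneg measurableSet_Ioi fun v hv => ?_
    have hv1 : (1:ℝ) < v := hv
    exact mul_nonneg (by linarith) (sec_nonneg _ _)
  have hJ0 : 0 ≤ ∫ v in (1 - t)..1, (v - (1 - t)) * sec F v := by
    refine intervalIntegral.integral_nonneg (by linarith) fun v hv => ?_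
    exact mul_nonneg (by linarith [hv.1]) (sec_nonneg _ _)
  have h4 : (∫ v in Iic (1:ℝ), (v - (1 - t)) * sec F v) -
      ∫ v in Iic (1 - t), (v - (1 - t)) * sec F v =
      ∫ v in (1 - t)..1, (v - (1 - t)) * sec F v :=
    intervalIntegral.integral_Iic_sub_Iic i1.integrableOn i1.integrableOn
  have h5 : ∫ v in Iic (1 - t), (v - (1 - t)) * sec F v ≤ 0 := by
    refine setIntegral_nonpos measurableSet_Iic fun v hv => ?_
    have hv1 : v ≤ 1 - t := hv
    exact mul_nonpos_of_nonpos_of_nonneg (by linarith) (sec_nonneg _ _)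
  set J := ∫ v in (1 - t)..1, (v - (1 - t)) * sec F v with hJ
  set D := ∫ v in Ioi (1:ℝ), (v - (1 - t)) * sec F v with hDdef
  -- `J ≥ (t-1)|F| - D`, `J ≥ 0`, `|F| > 4`
  have h6 : (t - 1) * area F - D ≤ J := by linarith
  by_cases h7 : 1 ≤ t
  · have : (t - 1) * 4 ≤ (t - 1) * area F := mul_le_mul_of_nonneg_left hF.le (by linarith)
    linarith
  · push Not at h7
    have h8 : 0 ≤ ω * H / 2 * t := by
      have := w.ω0; have := w.H0; positivity
    have h9 : 0 ≤ ω * H ^ 2 / 6 := by
      have := w.ω0; have := w.H0; positivity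
    linarith

/-- the one-variable inequality for `g` -/
theorem a4b_G {g : ℝ → ℝ} {e M : ℝ} (he : 0 < e) (hg : ConcaveOn ℝ (Icc 0 e) g)
    (hgm : Measurable g) (hM : ∀ x, |g x| ≤ M) :
    (2 / (3 * e)) * (∫ x in (0:ℝ)..e, g x) + g 0 / 3 ≤ ∫ τ in (0:ℝ)..1, g (e * τ ^ 2) := by
  have hbi : ∀ p : ℝ → ℝ, Continuous p →
      IntervalIntegrable (fun τ => p τ * g (e * τ ^ 2)) volume 0 1 := by
    intro p hp
    have h1 : IntervalIntegrable (fun τ => |p τ| * M) volume 0 1 :=
      (hp.abs.mul continuous_const).intervalIntegrable _ _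
    refine h1.mono_fun (Measurable.aestronglyMeasurable ?_) ?_
    · exact hp.measurable.mul (hgm.comp (by fun_prop))
    · refine Filter.Eventually.of_forall fun τ => ?_
      have hM0 : 0 ≤ M := (abs_nonneg _).trans (hM 0)
      simp only [norm_mul, Real.norm_eq_abs, abs_abs, abs_of_nonneg hM0]
      exact mul_le_mul_of_nonneg_left (hM _) (abs_nonneg _)
  -- substitution
  have hsub : ∫ x in (0:ℝ)..e, g x = ∫ τ in (0:ℝ)..1, (2 * e * τ) * g (e * τ ^ 2) := by
    have himg : (fun τ : ℝ => e * τ ^ 2) '' Icc 0 1 = Icc 0 e := by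
      ext x
      constructor
      · rintro ⟨τ, hτ, rfl⟩
        refine ⟨by positivity, ?_⟩
        have : τ ^ 2 ≤ 1 := by nlinarith [hτ.1, hτ.2]
        calc e * τ ^ 2 ≤ e * 1 := mul_le_mul_of_nonneg_left this he.le
          _ = e := mul_one e
      · rintro ⟨h0, h1⟩
        refine ⟨Real.sqrt (x / e), ⟨Real.sqrt_nonneg _, ?_⟩, ?_⟩
        · exact Real.sqrt_le_one.2 ((div_le_one he).2 h1)
        · simp only
          rw [Real.sq_sqrt (div_nonneg h0 he.le)]
          field_simp
    have hinj : InjOn (fun τ : ℝ => e * τ ^ 2) (Icc 0 1) := by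
      intro a ha b hb hab
      have h1 : a ^ 2 = b ^ 2 := mul_left_cancel₀ he.ne' hab
      exact (sq_eq_sq₀ ha.1 hb.1).1 h1
    have hder : ∀ τ ∈ Icc (0:ℝ) 1, HasDerivWithinAt (fun τ : ℝ => e * τ ^ 2) (2 * e * τ)
        (Icc 0 1) τ := by
      intro τ _
      have h7 : HasDerivAt (fun τ : ℝ => e * τ ^ 2) (e * (((2 : ℕ) : ℝ) * τ ^ (2 - 1))) τ :=
        (hasDerivAt_pow 2 τ).const_mul e
      have h8 : e * (((2 : ℕ) : ℝ) * τ ^ (2 - 1)) = 2 * e * τ := by push_cast; ring
      rw [h8] at h7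
      exact h7.hasDerivWithinAt
    have := integral_image_eq_integral_abs_deriv_smul measurableSet_Icc hder hinj g
    rw [himg] at this
    rw [intervalIntegral.integral_of_le he.le, intervalIntegral.integral_of_le zero_le_one,
      ← integral_Icc_eq_integral_Ioc, ← integral_Icc_eq_integral_Ioc, this]
    refine setIntegral_congr_fun measurableSet_Icc fun τ hτ => ?_
    simp only [smul_eq_mul]
    rw [abs_of_nonneg (by have := hτ.1; positivity)]
  -- the chord through `0` and `x0 = 9e/16`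
  set x0 := 9 * e / 16 with hx0
  have hx0p : 0 < x0 := by positivity
  have hx0e : x0 < e := by rw [hx0]; linarith
  set r := (g x0 - g 0) / x0 with hr
  have hr' : r * x0 = g x0 - g 0 := by rw [hr]; field_simp
  have hpt : ∀ τ ∈ Icc (0:ℝ) 1, (1 - 4 * τ / 3) * (g 0 + e * τ ^ 2 * r) ≤
      (1 - 4 * τ / 3) * g (e * τ ^ 2) := by
    intro τ hτ
    have hxI : e * τ ^ 2 ∈ Icc 0 e := by
      refine ⟨by positivity, ?_⟩
      have : τ ^ 2 ≤ 1 := by nlinarith [hτ.1, hτ.2]
      calc e * τ ^ 2 ≤ e * 1 := mul_le_mul_of_nonneg_left this he.le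
        _ = e := mul_one e
    rcases le_or_gt τ (3 / 4) with h34 | h34
    · refine mul_le_mul_of_nonneg_left ?_ (by linarith)
      -- `x ≤ x0`
      have hxx : e * τ ^ 2 ≤ x0 := by
        have : τ ^ 2 ≤ 9 / 16 := by nlinarith [hτ.1]
        rw [hx0]
        nlinarith
      set x := e * τ ^ 2 with hx
      have hl0 : 0 ≤ x / x0 := div_nonneg hxI.1 hx0p.le
      have hl1 : x / x0 ≤ 1 := (div_le_one hx0p).2 hxx
      have hcon := hg.2 (left_mem_Icc.2 he.le) (show x0 ∈ Icc 0 e from ⟨hx0p.le, hx0e.le⟩)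
        (show 0 ≤ 1 - x / x0 by linarith) hl0 (by ring)
      simp only [smul_eq_mul] at hcon
      have e1 : (1 - x / x0) * 0 + x / x0 * x0 = x := by field_simp; ring
      rw [e1] at hcon
      have e2 : g 0 + x * r = (1 - x / x0) * g 0 + x / x0 * g x0 := by
        rw [hr]; field_simp; ring
      rw [e2]
      exact hcon
    · refine mul_le_mul_of_nonpos_left ?_ (by linarith)
      -- `x0 < x`
      have hxx : x0 < e * τ ^ 2 := by
        have : 9 / 16 < τ ^ 2 := by nlinarith [hτ.1]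
        rw [hx0]
        nlinarith
      set x := e * τ ^ 2 with hx
      have hxp : 0 < x := by linarith
      have hl0 : 0 ≤ x0 / x := by positivity
      have hl1 : x0 / x ≤ 1 := (div_le_one hxp).2 hxx.le
      have hcon := hg.2 (left_mem_Icc.2 he.le) hxI
        (show 0 ≤ 1 - x0 / x by linarith) hl0 (by ring)
      simp only [smul_eq_mul] at hcon
      have e1 : (1 - x0 / x) * 0 + x0 / x * x = x0 := by field_simp; ring
      rw [e1] at hcon
      have e3 : (1 - x0 / x) * g 0 + x0 / x * g x = g 0 + (x0 / x) * (g x - g 0) := by ring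
      rw [e3] at hcon
      have e4 : (x0 / x) * (g x - g 0) ≤ r * x0 := by rw [hr']; linarith
      have e5 : (x0 / x) * (g x - g 0) = x0 * ((g x - g 0) / x) := by ring
      rw [e5, mul_comm r x0] at e4
      have e6 : (g x - g 0) / x ≤ r := le_of_mul_le_mul_left e4 hx0p
      rw [div_le_iff₀ hxp] at e6
      linarith
  have hint1 : IntervalIntegrable (fun τ => (1 - 4 * τ / 3) * (g 0 + e * τ ^ 2 * r)) volume 0 1 := by
    apply Continuous.intervalIntegrable; fun_prop
  have hint2 := hbi (fun τ => 1 - 4 * τ / 3) (by fun_prop)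
  have hmono := intervalIntegral.integral_mono_on zero_le_one hint1 hint2 hpt
  have hleft : ∫ τ in (0:ℝ)..1, (1 - 4 * τ / 3) * (g 0 + e * τ ^ 2 * r) = g 0 / 3 := by
    have h6 : ∀ τ ∈ uIcc (0:ℝ) 1, HasDerivAt
        (fun τ => g 0 * (τ - 2 * τ ^ 2 / 3) + e * r * (τ ^ 3 - τ ^ 4) / 3)
        ((1 - 4 * τ / 3) * (g 0 + e * τ ^ 2 * r)) τ := by
      intro τ _
      have h7 : HasDerivAt (fun τ => g 0 * (τ - 2 * τ ^ 2 / 3) + e * r * (τ ^ 3 - τ ^ 4) / 3)
          (g 0 * (1 - 2 * (((2 : ℕ) : ℝ) * τ ^ (2 - 1)) / 3) +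
            e * r * (((3 : ℕ) : ℝ) * τ ^ (3 - 1) - ((4 : ℕ) : ℝ) * τ ^ (4 - 1)) / 3) τ :=
        (((hasDerivAt_id τ).sub (((hasDerivAt_pow 2 τ).const_mul 2).div_const 3)).const_mul _).add
          ((((hasDerivAt_pow 3 τ).sub (hasDerivAt_pow 4 τ)).const_mul _).div_const 3)
      convert h7 using 1
      push_cast
      ring
    rw [intervalIntegral.integral_eq_sub_of_hasDerivAt h6 hint1]
    ring
  have hright : ∫ τ in (0:ℝ)..1, (1 - 4 * τ / 3) * g (e * τ ^ 2) =
      (∫ τ in (0:ℝ)..1, g (e * τ ^ 2)) - (2 / (3 * e)) * ∫ x in (0:ℝ)..e, g x := by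
    rw [hsub, ← intervalIntegral.integral_const_mul, ← intervalIntegral.integral_sub]
    · congr 1
      funext τ
      field_simp
      ring
    · have := hbi (fun _ => 1) (by fun_prop)
      simpa using this
    · exact (hbi (fun τ => 2 * e * τ) (by fun_prop)).const_mul _
  rw [hleft, hright] at hmono
  linarith

theorem Win.a4b_T (w : Win F G Gt B ω H e T c) : T ≤ 3 * e := by
  have he := w.e_gt
  have hω := w.ω0
  have hH := w.H0
  have hH1 := w.H1
  have hc := w.c_nonneg
  have hF := w.F4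
  have hT1 : 1 ≤ T := by
    by_contra hT
    push Not at hT
    obtain ⟨y, hyG, hy⟩ := w.e1
    have hyF : y ∈ F := by
      have := hyG
      rw [w.hG] at this
      exact this.1
    have := w.T2 y hyF
    linarith
  -- `ω ≤ 2/3`
  have hω1 : ω ≤ 2 / 3 := by
    have h1 := w.g_bound (d := 0) le_rfl (by linarith)
    rw [sub_zero, w.secG_one] at h1
    have h2 : e ^ 2 * ω ≤ 4 * e - 6 := by nlinarith
    have h3 : e ^ 2 * ω ≤ e ^ 2 * (2 / 3) := by nlinarith [sq_nonneg (e - 3)]
    exact le_of_mul_le_mul_left h3 (by positivity)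
  -- lemma A on `[0,T]`
  have hlev1 : ∃ x, ((x, 1) : P2) ∈ F := ⟨0, w.winF 0 le_rfl hω.le⟩
  have hlevT : ∃ x, ((x, 1 - T) : P2) ∈ F := by
    obtain ⟨⟨y1, y2⟩, hy, hy2⟩ := w.T1
    simp only at hy2
    exact ⟨y1, by rw [← hy2]; exact hy⟩
  have hcon : ConcaveOn ℝ (Icc 0 T) (fun q => sec F (1 - T + q)) := by
    have h1 := a4b_concave w.cF w.vF hlevT hlev1
    have h2 := h1.translate_right (1 - T)
    refine h2.subset ?_ (convex_Icc _ _)
    intro q hq
    exact ⟨by linarith [hq.1], by linarith [hq.2]⟩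
  have h3 : 3 * (2 * T / 3) / 2 = T := by ring
  have hA := lemma_A (φ := fun q => sec F (1 - T + q)) (μ := 2 * T / 3) (by linarith)
    (by rw [h3]; exact hcon) (by
      rw [h3]
      have h4 : Integrable (fun u => sec F u) := by
        simpa using a4b_int w.cF (p := fun _ => (1:ℝ)) (by fun_prop)
      exact (h4.comp_add_left (1 - T)).integrableOn) (sec_nonneg _ _)
  rw [h3] at hA
  have h5 : ∫ q in (0:ℝ)..T, (q - 2 * T / 3) * sec F (1 - T + q) =
      ∫ v in (1 - T)..1, (v - (1 - T / 3)) * sec F v := by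
    have := intervalIntegral.integral_comp_add_left (a := (0:ℝ)) (b := T)
      (fun v => (v - (1 - T / 3)) * sec F v) (1 - T)
    rw [show (1 - T + 0 : ℝ) = 1 - T by ring, show (1 - T + T : ℝ) = 1 by ring] at this
    rw [← this]
    congr 1
    funext q
    ring
  have h6 : ∫ v in Iic (1 - T), (v - (1 - T / 3)) * sec F v = 0 := by
    refine setIntegral_eq_zero_of_ae_eq_zero ?_
    have h7 : ∀ᵐ v : ℝ, v ≠ 1 - T := by
      rw [ae_iff]; simp
    filter_upwards [h7] with v hv hvI
    have hv' : v < 1 - T := lt_of_le_of_ne hvI hv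
    rw [sec_eq_zero_of_empty, mul_zero]
    intro x hx
    have := w.T2 _ hx
    simp only at this
    linarith
  have i1 : Integrable (fun v => (v - (1 - T / 3)) * sec F v) :=
    a4b_int w.cF (p := fun v => v - (1 - T / 3)) (by fun_prop)
  have h8 : (∫ v in Iic (1:ℝ), (v - (1 - T / 3)) * sec F v) -
      ∫ v in Iic (1 - T), (v - (1 - T / 3)) * sec F v =
      ∫ v in (1 - T)..1, (v - (1 - T / 3)) * sec F v :=
    intervalIntegral.integral_Iic_sub_Iic i1.integrableOn i1.integrableOn
  have h9 := w.a4b_F2 (1 - T / 3)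
  have h10 := w.a4b_F1 (s := T / 3) (by linarith)
  rw [h5] at hA
  have h11 : (T / 3 - 1) * area F ≤ ω * H ^ 2 / 6 + T / 3 * (ω * H / 2) := by linarith
  have h12 : ω * H ≤ 2 / 9 := by nlinarith
  have h13 : ω * H ^ 2 ≤ 2 / 27 := by nlinarith
  by_contra hcon
  push Not at hcon
  have hT3 : 9 / 2 < T := by linarith
  have h14 : (T / 3 - 1) * 4 ≤ (T / 3 - 1) * area F :=
    mul_le_mul_of_nonneg_left hF.le (by linarith)
  have h15 : T / 3 * (ω * H / 2) ≤ T / 3 * (1 / 9) :=
    mul_le_mul_of_nonneg_left (by linarith) (by linarith)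
  linarith

theorem Win.a4b_Gint (w : Win F G Gt B ω H e T c) :
    ∫ x in (0:ℝ)..e, sec G (1 - x) = 1 - c := by
  have he := w.e_gt
  have hGc : IsCompact G := by
    rw [w.hG]
    refine w.cF.inter_right ?_
    rw [w.hGt]
    exact w.cB.isClosed.preimage (by fun_prop)
  have i1 : Integrable (fun v => sec G v) := by
    simpa using a4b_int hGc (p := fun _ => (1:ℝ)) (by fun_prop)
  have h1 : ∫ x in (0:ℝ)..e, sec G (1 - x) = ∫ v in (1 - e)..1, sec G v := by
    rw [intervalIntegral.integral_comp_sub_left (fun v => sec G v) 1, sub_zero]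
  have h2 : (∫ v in Iic (1:ℝ), sec G v) - ∫ v in Iic (1 - e), sec G v =
      ∫ v in (1 - e)..1, sec G v :=
    intervalIntegral.integral_Iic_sub_Iic i1.integrableOn i1.integrableOn
  have h3 : ∫ v in Iic (1 - e), sec G v = 0 := by
    refine setIntegral_eq_zero_of_ae_eq_zero ?_
    have h7 : ∀ᵐ v : ℝ, v ≠ 1 - e := by
      rw [ae_iff]; simp
    filter_upwards [h7] with v hv hvI
    have hv' : v < 1 - e := lt_of_le_of_ne hvI hv
    rw [sec_eq_zero_of_empty]
    intro x hx
    have := w.e2 _ hx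
    simp only at this
    linarith
  have h4 := integral_add_compl (measurableSet_Iic (a := (1:ℝ))) i1
  rw [compl_Iic, ← area_eq hGc, w.G1, ← area_inter_gt hGc, ← w.hc] at h4
  rw [h1, ← h2, h3]
  linarith

theorem Win.path_C3 (w : Win F G Gt B ω H e T c) {t : ℝ} (ht : 0 < t) (htT : t ≤ T) :
    PathIneq F G (0, 1) (C3 e T ω H t) := by
  intro Y Z h hh hYv hY hZv hZ hZn hYZ hGY
  have he := w.e_gt
  have he0 : 0 < e := by linarith
  have hω := w.ω0
  have hGc : IsCompact G := by
    rw [w.hG]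
    refine w.cF.inter_right ?_
    rw [w.hGt]
    exact w.cB.isClosed.preimage (by fun_prop)
  have hGv : Convex ℝ G := by
    rw [w.hG]
    refine w.vF.inter ?_
    rw [w.hGt]
    intro a ha b hb s r hs hr hsr
    have := w.vB ha hb hs hr hsr
    simpa using this
  have hdot : ∀ y : P2, dot (0, 1) y = y.2 := by
    intro y; simp [dot]
  have hp := w.path_gen (q0 := T - t) (by linarith) (by linarith)
    (fun τ => e * τ ^ 2) (fun τ => T - t + t * τ) (fun τ => 2 * e * τ) (fun _ => t)
    (fun τ _ => by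
      have h7 : HasDerivAt (fun τ : ℝ => e * τ ^ 2) (e * (((2 : ℕ) : ℝ) * τ ^ (2 - 1))) τ :=
        (hasDerivAt_pow 2 τ).const_mul e
      convert h7 using 1
      push_cast; ring)
    (fun τ _ => by
      have h7 : HasDerivAt (fun τ : ℝ => T - t + t * τ) (t * 1) τ :=
        ((hasDerivAt_id τ).const_mul t).const_add _
      convert h7 using 1
      ring)
    (by fun_prop) (by fun_prop) (fun τ hτ => by have := hτ.1; positivity) (fun τ _ => ht)
    (by ring) (by ring) (by ring) (by ring) hh hYv hY hZv hZ hZn hYZ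
    (fun y hy hy1 => hGY y hy (by rw [hdot]; exact hy1))
  -- the constant
  have hset : G ∩ {y | 1 < dot (0, 1) y} = G ∩ {y | 1 < y.2} := by
    ext y
    simp [hdot]
  rw [hset, ← w.hc]
  refine le_trans ?_ hp
  gcongr
  -- split the integral
  obtain ⟨M, hM⟩ := sec_bound hGc
  have hMabs : ∀ x, |sec G (1 - x)| ≤ M := fun x => by
    rw [abs_of_nonneg (sec_nonneg _ _)]; exact hM _
  have hlev1 : ∃ x, ((x, 1) : P2) ∈ G := by
    refine ⟨0, ?_⟩
    rw [w.hG]
    exact ⟨w.winF 0 le_rfl hω.le, (w.win 0).2 ⟨le_rfl, hω.le⟩⟩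
  have hleve : ∃ x, ((x, 1 - e) : P2) ∈ G := by
    obtain ⟨⟨y1, y2⟩, hy, hy2⟩ := w.e1
    simp only at hy2
    exact ⟨y1, by rw [← hy2]; exact hy⟩
  have hcon : ConcaveOn ℝ (Icc 0 e) (fun x => sec G (1 - x)) := by
    have h1 := a4b_concave hGc hGv hleve hlev1
    refine ⟨convex_Icc _ _, ?_⟩
    intro a ha b hb s r hs hr hsr
    have h2 := h1.2 (x := 1 - a) ⟨by linarith [ha.2], by linarith [ha.1]⟩
      (y := 1 - b) ⟨by linarith [hb.2], by linarith [hb.1]⟩ hs hr hsr
    have h3 : s • (1 - a) + r • (1 - b) = 1 - (s • a + r • b) := by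
      simp only [smul_eq_mul]
      linear_combination hsr
    rw [h3] at h2
    exact h2
  have hG := a4b_G (M := M) he0 hcon ((measurable_sec hGc).comp (by fun_prop)) hMabs
  rw [w.a4b_Gint, sub_zero, w.secG_one] at hG
  have hF := w.a4b_F ht
  have hFi : ∫ τ in (0:ℝ)..1, sec F (1 - T + (T - t + t * τ)) * (2 * e * τ) =
      (2 * e / t ^ 2) * ∫ v in (1 - t)..1, (v - (1 - t)) * sec F v := by
    have h1 := intervalIntegral.integral_comp_add_mul (a := (0:ℝ)) (b := 1)
      (fun v => (v - (1 - t)) * sec F v) ht.ne' (1 - t)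
    rw [show (1 - t + t * 0 : ℝ) = 1 - t by ring, show (1 - t + t * 1 : ℝ) = 1 by ring,
      smul_eq_mul] at h1
    have h2 : ∫ v in (1 - t)..1, (v - (1 - t)) * sec F v =
        t * ∫ τ in (0:ℝ)..1, (1 - t + t * τ - (1 - t)) * sec F (1 - t + t * τ) := by
      rw [h1]; field_simp
    rw [h2, ← intervalIntegral.integral_const_mul, ← intervalIntegral.integral_const_mul]
    congr 1
    funext τ
    rw [show 1 - T + (T - t + t * τ) = 1 - t + t * τ by ring]
    field_simp
    ring
  have hsplit : ∫ τ in (0:ℝ)..1, (sec G (1 - e * τ ^ 2) * t +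
      sec F (1 - T + (T - t + t * τ)) * (2 * e * τ)) =
      t * (∫ τ in (0:ℝ)..1, sec G (1 - e * τ ^ 2)) +
      ∫ τ in (0:ℝ)..1, sec F (1 - T + (T - t + t * τ)) * (2 * e * τ) := by
    rw [intervalIntegral.integral_add, intervalIntegral.integral_mul_const, mul_comm t]
    · have h1 : IntervalIntegrable (fun _ : ℝ => M * t) volume 0 1 :=
        continuous_const.intervalIntegrable _ _
      refine h1.mono_fun (Measurable.aestronglyMeasurable ?_) ?_
      · exact ((measurable_sec hGc).comp (by fun_prop)).mul_const t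
      · refine Filter.Eventually.of_forall fun τ => ?_
        have hM0 : 0 ≤ M := (abs_nonneg _).trans (hMabs 0)
        simp only [norm_mul, Real.norm_eq_abs, abs_of_nonneg hM0, abs_of_nonneg (sec_nonneg G _)]
        exact mul_le_mul_of_nonneg_right (hM _) (abs_nonneg _)
    · obtain ⟨M', hM'⟩ := sec_bound w.cF
      have h1 : IntervalIntegrable (fun τ : ℝ => M' * (2 * e * τ)) volume 0 1 := by
        apply Continuous.intervalIntegrable; fun_prop
      refine h1.mono_fun (Measurable.aestronglyMeasurable ?_) ?_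
      · exact ((measurable_sec w.cF).comp (by fun_prop)).mul (by fun_prop)
      · refine Filter.Eventually.of_forall fun τ => ?_
        have hM0 : 0 ≤ M' := (sec_nonneg F 0).trans (hM' 0)
        simp only [norm_mul, Real.norm_eq_abs, abs_of_nonneg hM0, abs_of_nonneg (sec_nonneg F _)]
        exact mul_le_mul_of_nonneg_right (hM' _) (by positivity)
  rw [hsplit, hFi, C3]
  have h1 : t * (2 / (3 * e) * (1 - c) + ω / 3) ≤
      t * ∫ τ in (0:ℝ)..1, sec G (1 - e * τ ^ 2) := mul_le_mul_of_nonneg_left hG ht.le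
  have h2 : (2 * e / t ^ 2) * (4 * (t - 1) - (ω * H / 2) * t - ω * H ^ 2 / 6) ≤
      (2 * e / t ^ 2) * ∫ v in (1 - t)..1, (v - (1 - t)) * sec F v :=
    mul_le_mul_of_nonneg_left hF (by positivity)
  have h3 : t / (3 * e) ≤ 1 := by
    rw [div_le_one (by positivity)]
    linarith [w.a4b_T]
  have h4 : t / (3 * e) * c ≤ 1 * c := mul_le_mul_of_nonneg_right h3 w.c_nonneg
  have h5 : t * (2 / (3 * e) * (1 - c) + ω / 3) =
      2 * t / (3 * e) - 2 * (t / (3 * e) * c) + t * ω / 3 := by ring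
  rw [h5] at h1
  linarith

end Pool.Agent.helper15.PB
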