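import Pool.Agent.helper15.PB.A6m
import Pool.Agent.helper15.PB.A5a

/-! # A6b: the inequality `8H ≤ ω (T+H) (3+2H-T)`, `T ≤ 3` and `NK` (helper54) -/

set_option autoImplicit false
open MeasureTheory Set
open scoped Pointwise

namespace Pool.Agent.helper15.PB

variable {F G Gt : Set P2} {B : Set (P2 × ℝ)} {ω H e T c : ℝ}

/-- the trick on `[0,a]`, for every `a` -/
theorem Win.trick0 (w : Win F G Gt B ω H e T c) {a : ℝ} (ha : 0 < a) :
    ∫ q in (0:ℝ)..a, (q - 2 * a / 3) * fb F T q ≤ 0 := by
  have hT := w.T_pos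
  obtain ⟨t, hTt, -, -, htop, hconc⟩ := w.exists_top
  have ht0 : 0 < t := by linarith
  have hfi : ∀ s r : ℝ, IntervalIntegrable (fb F T) volume s r := fun s r =>
    w.fb_int.intervalIntegrable
  have hfi1 : ∀ s r : ℝ, IntervalIntegrable (fun q => q * fb F T q) volume s r := fun s r =>
    w.mul_fb_int.intervalIntegrable
  have hw : ∀ μ s r : ℝ, IntervalIntegrable (fun q => (q - μ) * fb F T q) volume s r := by
    intro μ s r
    refine ((hfi1 s r).sub ((hfi s r).const_mul μ)).congr fun q _ => ?_
    ring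
  -- the case `b ≤ t`
  have key : ∀ b : ℝ, 0 < b → b ≤ t → ∫ q in (0:ℝ)..b, (q - 2 * b / 3) * fb F T q ≤ 0 := by
    intro b hb hbt
    have h1 : 3 * (2 * b / 3) / 2 = b := by ring
    have h := lemma_A (φ := fb F T) (μ := 2 * b / 3) (by positivity)
      (by rw [h1]; exact hconc.subset (Icc_subset_Icc le_rfl hbt) (convex_Icc _ _))
      (by
        rw [h1, integrableOn_Icc_iff_integrableOn_Ioc,
          ← intervalIntegrable_iff_integrableOn_Ioc_of_le hb.le]
        exact hfi 0 b) (w.fb_nonneg 0)
    rw [h1] at h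
    exact h
  by_cases hat : a ≤ t
  · exact key a ha hat
  · have hta : t < a := not_le.1 hat
    have h1 := intervalIntegral.integral_add_adjacent_intervals (hw (2 * a / 3) 0 t)
      (hw (2 * a / 3) t a)
    have h2 : ∫ q in t..a, (q - 2 * a / 3) * fb F T q = 0 := by
      rw [intervalIntegral.integral_of_le hta.le]
      rw [setIntegral_congr_fun (g := fun _ => 0) measurableSet_Ioc
        (fun q hq => by simp only [htop q hq.1, mul_zero])]
      simp
    have h3 : ∫ q in (0:ℝ)..t, (q - 2 * a / 3) * fb F T q ≤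
        ∫ q in (0:ℝ)..t, (q - 2 * t / 3) * fb F T q := by
      refine intervalIntegral.integral_mono_on ht0.le (hw _ 0 t) (hw _ 0 t) fun q _ => ?_
      refine mul_le_mul_of_nonneg_right ?_ (w.fb_nonneg q)
      linarith
    have h4 := key t ht0 le_rfl
    linarith

/-- the total moment about `μ` split at `a`, `L = T + H` -/
theorem Win.moment_split (w : Win F G Gt B ω H e T c) {a μ : ℝ} (_haL : a ≤ T + H) :
    4 * (T - 1 - μ) = (∫ q in (0:ℝ)..a, (q - μ) * fb F T q) +
      ∫ q in a..(T + H), (q - μ) * fb F T q := by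
  have hfi : ∀ s r : ℝ, IntervalIntegrable (fb F T) volume s r := fun s r =>
    w.fb_int.intervalIntegrable
  have hfi1 : ∀ s r : ℝ, IntervalIntegrable (fun q => q * fb F T q) volume s r := fun s r =>
    w.mul_fb_int.intervalIntegrable
  have hw : ∀ s r : ℝ, IntervalIntegrable (fun q => (q - μ) * fb F T q) volume s r := by
    intro s r
    refine ((hfi1 s r).sub ((hfi s r).const_mul μ)).congr fun q _ => ?_
    ring
  have hwi : Integrable (fun q => (q - μ) * fb F T q) := by
    refine (w.mul_fb_int.sub (w.fb_int.const_mul μ)).congr (Filter.Eventually.of_forall fun q => ?_)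
    simp only [Pi.sub_apply]
    ring
  have h1 : ∫ q, (q - μ) * fb F T q = 4 * (T - 1 - μ) := by
    have e1 : ∀ q, (q - μ) * fb F T q = q * fb F T q - μ * fb F T q := fun q => by ring
    simp_rw [e1]
    rw [integral_sub w.mul_fb_int (w.fb_int.const_mul μ), integral_const_mul, w.int_fb,
      w.int_mul_fb]
    ring
  have h2 := split_integral hwi (fun q hq => by rw [w.fb_neg hq, mul_zero]) (T + H)
  have h3 : ∫ q in Ioi (T + H), (q - μ) * fb F T q = 0 := by
    rw [setIntegral_congr_fun (g := fun _ => 0) measurableSet_Ioi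
      (fun q hq => by simp only [w.fb_top hq, mul_zero])]
    simp
  have h4 := intervalIntegral.integral_add_adjacent_intervals (hw 0 a) (hw a (T + H))
  rw [h1, h3] at h2
  linarith

theorem Win.fb_wedge (w : Win F G Gt B ω H e T c) (hH : 0 < H) {q : ℝ} (hq : q ≤ T + H) :
    fb F T q ≤ ω / H * (T + H - q) := by
  have h1 := w.wedge (1 - T + q) (by linarith)
  have h2 := w.fb_le q
  have h3 : ω / H * (T + H - q) = ω * (1 + H - (1 - T + q)) / H := by ring
  rw [h3, le_div_iff₀ hH]
  nlinarith

theorem Win.basic_H (w : Win F G Gt B ω H e T c) (hH : 0 < H) {D : ℝ} (hD : 0 ≤ D)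
    (hDL : D ≤ T + H) :
    4 * (T - 1 - 2 * (T + H - D) / 3) ≤ ω / H * (T + H) * D ^ 2 / 6 := by
  have hT := w.T_pos
  have hk : 0 < ω / H := div_pos w.ω0 hH
  set L := T + H with hL
  set a := L - D with ha
  set μ := 2 * a / 3 with hμ
  have ha0 : 0 ≤ a := by linarith
  have h1 := w.moment_split (a := a) (μ := μ) (by linarith)
  rw [← hL] at h1
  have h2 : ∫ q in (0:ℝ)..a, (q - μ) * fb F T q ≤ 0 := by
    rcases ha0.lt_or_eq with h | h
    · exact w.trick0 h
    · rw [← h]
      simp
  have hfi : ∀ s r : ℝ, IntervalIntegrable (fb F T) volume s r := fun s r =>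
    w.fb_int.intervalIntegrable
  have hfi1 : ∀ s r : ℝ, IntervalIntegrable (fun q => q * fb F T q) volume s r := fun s r =>
    w.mul_fb_int.intervalIntegrable
  have hw : IntervalIntegrable (fun q => (q - μ) * fb F T q) volume a L := by
    refine ((hfi1 a L).sub ((hfi a L).const_mul μ)).congr fun q _ => ?_
    ring
  have h3 : ∫ q in a..L, (q - μ) * fb F T q ≤ ∫ q in a..L, (q - μ) * (ω / H * (L - q)) := by
    refine intervalIntegral.integral_mono_on (by linarith) hw
      (Continuous.intervalIntegrable (by fun_prop) _ _) fun q hq => ?_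
    refine mul_le_mul_of_nonneg_left (w.fb_wedge hH hq.2) ?_
    have := hq.1
    rw [hμ]
    linarith
  have h4 : ∫ q in a..L, (q - μ) * (ω / H * (L - q)) = ω / H * L * D ^ 2 / 6 := by
    have hc : ∀ f : ℝ → ℝ, Continuous f → IntervalIntegrable f volume a L :=
      fun f hf => hf.intervalIntegrable a L
    have e1 : ∀ q, (q - μ) * (ω / H * (L - q)) =
        (-(ω / H * μ * L) + ω / H * (L + μ) * q) - ω / H * q ^ 2 := fun q => by ring
    simp_rw [e1]
    rw [intervalIntegral.integral_sub (hc _ (by fun_prop)) (hc _ (by fun_prop)),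
      intervalIntegral.integral_add (hc _ (by fun_prop)) (hc _ (by fun_prop)),
      intervalIntegral.integral_const_mul, intervalIntegral.integral_const_mul, integral_pow,
      integral_id, intervalIntegral.integral_const]
    simp only [smul_eq_mul, hμ, ha]
    norm_num
    ring
  linarith

/-- `8 ≤ k L²` -/
theorem Win.kL (w : Win F G Gt B ω H e T c) (hH : 0 < H) : 8 ≤ ω / H * (T + H) ^ 2 := by
  have hT := w.T_pos
  have hk : 0 < ω / H := div_pos w.ω0 hH
  have hfi : IntervalIntegrable (fb F T) volume 0 (T + H) := w.fb_int.intervalIntegrable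
  have h2 := split_integral w.fb_int (fun q hq => w.fb_neg hq) (T + H)
  have h3 : ∫ q in Ioi (T + H), fb F T q = 0 := by
    rw [setIntegral_congr_fun (g := fun _ => 0) measurableSet_Ioi
      (fun q hq => by simp only [w.fb_top hq])]
    simp
  rw [w.int_fb, h3] at h2
  have h4 : ∫ q in (0:ℝ)..(T + H), fb F T q ≤ ∫ q in (0:ℝ)..(T + H), ω / H * (T + H - q) := by
    refine intervalIntegral.integral_mono_on (by linarith) hfi
      (Continuous.intervalIntegrable (by fun_prop) _ _) fun q hq => ?_
    exact w.fb_wedge hH hq.2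
  have h5 : ∫ q in (0:ℝ)..(T + H), ω / H * (T + H - q) = ω / H * (T + H) ^ 2 / 2 := by
    rw [intervalIntegral.integral_const_mul, intervalIntegral.integral_sub
      (Continuous.intervalIntegrable (by fun_prop) _ _)
      (Continuous.intervalIntegrable (by fun_prop) _ _), integral_id,
      intervalIntegral.integral_const]
    simp only [smul_eq_mul]
    ring
  linarith

/-- `8H ≤ ω (T+H)(3+2H-T)` -/
theorem Win.HT (w : Win F G Gt B ω H e T c) : 8 * H ≤ ω * (T + H) * (3 + 2 * H - T) := by
  have hT := w.T_pos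
  have hω := w.ω0
  rcases w.H0.lt_or_eq with hH | hH
  · have hk : 0 < ω / H := div_pos w.ω0 hH
    have hL : 0 < T + H := by linarith
    have h1 := w.kL hH
    have hD : 8 / (ω / H * (T + H)) ≤ T + H := by
      rw [div_le_iff₀ (by positivity)]
      nlinarith
    have h2 := w.basic_H hH (D := 8 / (ω / H * (T + H))) (by positivity) hD
    have h3 : ω / H * (T + H) * (8 / (ω / H * (T + H))) ^ 2 / 6 =
        (4 / 3) * (8 / (ω / H * (T + H))) := by
      field_simp
      ring
    rw [h3] at h2
    -- `(4/3) D ≥ 4(T-1) - 8L/3 + 8D/3`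
    have h4 : (8 / (ω / H * (T + H))) ≤ 2 * (T + H) - 3 * (T - 1) := by linarith
    rw [div_le_iff₀ (by positivity)] at h4
    have h5 : (2 * (T + H) - 3 * (T - 1)) * (ω / H * (T + H)) =
        ω * (T + H) * (3 + 2 * H - T) / H := by
      field_simp
      ring
    rw [h5, le_div_iff₀ hH] at h4
    exact h4
  · -- `H = 0`
    rw [← hH]
    have h1 := w.moment_split (a := T) (μ := 2 * T / 3) (by linarith)
    rw [← hH] at h1
    simp only [add_zero, intervalIntegral.integral_same] at h1
    have h2 := w.trick0 hT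
    have h3 : T ≤ 3 := by linarith
    have : 0 ≤ ω * T * (3 - T) := by
      have : 0 ≤ 3 - T := by linarith
      positivity
    linarith

theorem Win.ωe (w : Win F G Gt B ω H e T c) : ω * e ^ 2 ≤ 4 * e * (1 - c) - 6 := by
  have h0 := w.e_gt
  have h := w.g_bound (d := 0) le_rfl (by linarith)
  rw [sub_zero, w.secG_one] at h
  linarith

theorem Win.T_le (w : Win F G Gt B ω H e T c) : T ≤ 3 := by
  have hT := w.T_pos
  have hω := w.ω0
  have hHT := w.HT
  rcases w.H0.lt_or_eq with hH | hH
  · have h1 := w.ωe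
    have hc := w.c_nonneg
    have he := w.e_gt
    have hω2 : ω ≤ 2 / 3 := by
      have h2 : ω * e ^ 2 ≤ 4 * e - 6 := by nlinarith
      have h3 : 4 * e - 6 ≤ 2 / 3 * e ^ 2 := by nlinarith [sq_nonneg (e - 3)]
      have h4 : 0 < e ^ 2 := by positivity
      nlinarith
    by_contra hcon
    have hs : 3 < T := not_le.1 hcon
    have hH1 := w.H1
    by_cases h5 : 3 + 2 * H - T ≤ 0
    · have : ω * (T + H) * (3 + 2 * H - T) ≤ 0 :=
        mul_nonpos_of_nonneg_of_nonpos (by positivity) h5
      linarith
    · have h6 : 0 < 3 + 2 * H - T := not_le.1 h5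
      have h7 : (T + H) * (3 + 2 * H - T) ≤ (3 + H) * (2 * H) := by nlinarith
      have h8 : ω * ((T + H) * (3 + 2 * H - T)) ≤ 2 / 3 * ((3 + H) * (2 * H)) := by
        refine mul_le_mul hω2 h7 (by positivity) (by norm_num)
      nlinarith
  · rw [← hH] at hHT
    have : 0 ≤ (ω * T) * (3 - T) := by linarith
    have h2 : 0 < ω * T := by positivity
    have := nonneg_of_mul_nonneg_right this h2
    linarith

theorem Win.nk (w : Win F G Gt B ω H e T c) : NK e T ω H c where
  e0 := w.e_gt
  eT := by
    obtain ⟨y, hy, hye⟩ := w.e1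
    have h1 : y ∈ F := by
      have := w.hG
      rw [this] at hy
      exact hy.1
    have := w.T2 y h1
    linarith
  T3 := w.T_le
  ω0 := w.ω0
  H0 := w.H0
  H1 := w.H1
  HT := w.HT
  c0 := w.c_nonneg
  cH := w.c_le
  ωe := w.ωe

end Pool.Agent.helper15.PB
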