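import Pool.Agent.helper15.PB.Defs2
import Pool.Agent.helper15.PB.A1a
import Pool.Agent.helper15.PB.A1b
import Pool.Agent.helper15.PB.A6a

/-! # Moments of the normalised chord function of `F` (helper54, for A6b and A6c) -/

set_option autoImplicit false
open MeasureTheory Set
open scoped Pointwise

namespace Pool.Agent.helper15.PB

variable {F G Gt : Set P2} {B : Set (P2 × ℝ)} {ω H e T c : ℝ}

theorem sec_integrable {K : Set P2} (hK : IsCompact K) : Integrable (sec K) := by
  obtain ⟨M, hM⟩ := sec_bound hK
  obtain ⟨R, hR, hR0⟩ := sec_bdd_support hK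
  have h1 : IntegrableOn (sec K) (Icc (-R) R) := by
    refine Measure.integrableOn_of_bounded (M := M) (by simp) (measurable_sec hK).aestronglyMeasurable ?_
    refine Filter.Eventually.of_forall fun u => ?_
    rw [Real.norm_eq_abs, abs_of_nonneg (sec_nonneg K u)]
    exact hM u
  refine (integrableOn_iff_integrable_of_support_subset ?_).1 h1
  intro u hu
  by_contra hcon
  apply hu
  refine hR0 u ?_
  by_contra h2
  exact hcon (abs_le.1 (not_lt.1 h2))

theorem mul_sec_integrable {K : Set P2} (hK : IsCompact K) : Integrable (fun u => u * sec K u) := by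
  obtain ⟨R, hR, hR0⟩ := sec_bdd_support hK
  have h1 : IntegrableOn (fun u => u * sec K u) (Icc (-R) R) := by
    refine ((sec_integrable hK).integrableOn (s := Icc (-R) R)).bdd_mul (c := R)
      measurable_id.aestronglyMeasurable ?_
    refine (ae_restrict_iff' measurableSet_Icc).2 (Filter.Eventually.of_forall fun u hu => ?_)
    rw [Real.norm_eq_abs]
    exact abs_le.2 hu
  refine (integrableOn_iff_integrable_of_support_subset ?_).1 h1
  intro u hu
  by_contra hcon
  apply hu
  have : sec K u = 0 := by
    refine hR0 u ?_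
    by_contra h2
    exact hcon (abs_le.1 (not_lt.1 h2))
  simp [this]

/-- normalised chord function of `F`, as a function of the height over the bottom of `F` -/
noncomputable def fb (F : Set P2) (T q : ℝ) : ℝ := 4 / area F * sec F (1 - T + q)

theorem Win.areaF_pos (w : Win F G Gt B ω H e T c) : 0 < area F := by
  have := w.F4
  linarith

theorem Win.fb_nonneg (w : Win F G Gt B ω H e T c) (q : ℝ) : 0 ≤ fb F T q := by
  have h1 := w.areaF_pos
  have h2 := sec_nonneg F (1 - T + q)
  unfold fb
  positivity

theorem Win.fb_le (w : Win F G Gt B ω H e T c) (q : ℝ) : fb F T q ≤ sec F (1 - T + q) := by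
  have h1 := w.areaF_pos
  have h2 := sec_nonneg F (1 - T + q)
  have h3 : 4 / area F ≤ 1 := by
    rw [div_le_one h1]
    exact w.F4.le
  unfold fb
  nlinarith

theorem Win.fb_neg (w : Win F G Gt B ω H e T c) {q : ℝ} (hq : q < 0) : fb F T q = 0 := by
  unfold fb
  rw [sec_eq_zero_of_empty, mul_zero]
  intro x hx
  have := w.T2 _ hx
  simp only at this
  linarith

theorem Win.fb_top (w : Win F G Gt B ω H e T c) {q : ℝ} (hq : T + H < q) : fb F T q = 0 := by
  unfold fb
  rw [sec_eq_zero_of_empty, mul_zero]
  intro x hx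
  have := w.top _ hx
  simp only at this
  linarith

theorem Win.fb_int (w : Win F G Gt B ω H e T c) : Integrable (fb F T) := by
  have h := sec_integrable w.cF
  exact (h.comp_add_left (1 - T)).const_mul _

theorem Win.mul_fb_int (w : Win F G Gt B ω H e T c) : Integrable (fun q => q * fb F T q) := by
  have h := ((mul_sec_integrable w.cF).comp_add_left (1 - T)).const_mul (4 / area F)
  have h2 := w.fb_int.const_mul (1 - T)
  refine (h.sub h2).congr (Filter.Eventually.of_forall fun q => ?_)
  simp only [fb, Pi.sub_apply]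
  ring

theorem Win.int_fb (w : Win F G Gt B ω H e T c) : ∫ q, fb F T q = 4 := by
  have h1 := w.areaF_pos
  unfold fb
  rw [integral_const_mul, integral_add_left_eq_self (fun u => sec F u), ← area_eq w.cF]
  field_simp

theorem Win.int_mul_fb (w : Win F G Gt B ω H e T c) : ∫ q, q * fb F T q = 4 * (T - 1) := by
  have h1 := w.areaF_pos
  have h0 : ∫ u, u * sec F u = 0 := by rw [← integral_snd w.cF]; exact w.F02
  have h2 : ∀ q, q * fb F T q = 4 / area F * ((1 - T + q) * sec F (1 - T + q)) - (1 - T) * fb F T q := by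
    intro q
    unfold fb
    ring
  have h3 : Integrable fun q => 4 / area F * ((1 - T + q) * sec F (1 - T + q)) :=
    ((mul_sec_integrable w.cF).comp_add_left (1 - T)).const_mul (4 / area F)
  simp_rw [h2]
  rw [integral_sub h3 (w.fb_int.const_mul _), integral_const_mul, integral_const_mul, w.int_fb,
    integral_add_left_eq_self (fun u => u * sec F u), h0]
  ring

theorem Win.T_pos (w : Win F G Gt B ω H e T c) : 0 < T := by
  by_contra hcon
  have hT : T ≤ 0 := not_lt.1 hcon
  have h0 : ∫ u, u * sec F u = 0 := by rw [← integral_snd w.cF]; exact w.F02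
  have h1 : ∫ u, sec F u ≤ ∫ u, u * sec F u := by
    refine integral_mono (sec_integrable w.cF) (mul_sec_integrable w.cF) fun u => ?_
    have h2 := sec_nonneg F u
    by_cases hu : 1 ≤ u
    · simp only
      nlinarith
    · have : sec F u = 0 := by
        refine sec_eq_zero_of_empty fun x hx => ?_
        have := w.T2 _ hx
        simp only at this
        linarith
      simp [this]
  rw [← area_eq w.cF, h0] at h1
  have := w.F4
  linarith

/-- splitting an integral over the line, for integrands vanishing below `0` -/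
theorem split_integral {f : ℝ → ℝ} (hf : Integrable f) (h0 : ∀ q, q < 0 → f q = 0) (a : ℝ) :
    ∫ q, f q = (∫ q in (0:ℝ)..a, f q) + ∫ q in Ioi a, f q := by
  have h1 : ∫ q in Iic (0:ℝ), f q = 0 := by
    rw [integral_Iic_eq_integral_Iio]
    rw [setIntegral_congr_fun (g := fun _ => 0) measurableSet_Iio (fun q hq => h0 q hq)]
    simp
  have h2 := intervalIntegral.integral_Iic_sub_Iic (hf.integrableOn (s := Iic 0))
    (hf.integrableOn (s := Iic a))
  have h3 := intervalIntegral.integral_Iic_add_Ioi (hf.integrableOn (s := Iic a))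
    (hf.integrableOn (s := Ioi a))
  linarith

/-- mass above level `1` -/
noncomputable def cb (F : Set P2) (T : ℝ) : ℝ := ∫ q in Ioi T, fb F T q

/-- first moment above level `1` -/
noncomputable def mb (F : Set P2) (T : ℝ) : ℝ := ∫ q in Ioi T, (q - T) * fb F T q

theorem Win.cb_nonneg (w : Win F G Gt B ω H e T c) : 0 ≤ cb F T :=
  setIntegral_nonneg measurableSet_Ioi fun q _ => w.fb_nonneg q

theorem Win.mb_nonneg (w : Win F G Gt B ω H e T c) : 0 ≤ mb F T :=
  setIntegral_nonneg measurableSet_Ioi fun q hq =>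
    mul_nonneg (sub_nonneg.2 (le_of_lt hq)) (w.fb_nonneg q)

/-- translation of a half line integral -/
theorem Ioi_translate (f : ℝ → ℝ) (T : ℝ) :
    ∫ q in Ioi T, f (1 - T + q) = ∫ u in Ioi (1:ℝ), f u := by
  have h := (measurePreserving_add_left (volume : Measure ℝ) (1 - T)).setIntegral_preimage_emb
    (measurableEmbedding_addLeft (1 - T)) f (Ioi 1)
  have h2 : (fun x => (1 - T) + x) ⁻¹' (Ioi (1:ℝ)) = Ioi T := by
    ext x
    simp only [mem_preimage, mem_Ioi]
    constructor <;> intro h <;> linarith
  rw [h2] at h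
  exact h

theorem Win.cb_le (w : Win F G Gt B ω H e T c) : cb F T ≤ ω * H / 2 := by
  have h1 : cb F T ≤ ∫ q in Ioi T, sec F (1 - T + q) :=
    setIntegral_mono w.fb_int.integrableOn ((sec_integrable w.cF).comp_add_left (1 - T)).integrableOn
      fun q => w.fb_le q
  rw [Ioi_translate (sec F)] at h1
  exact h1.trans w.cF_le

theorem Win.mb_le (w : Win F G Gt B ω H e T c) : mb F T ≤ ω * H ^ 2 / 6 := by
  have hi : Integrable fun q => (q - T) * sec F (1 - T + q) := by
    have h1 := (mul_sec_integrable w.cF).comp_add_left (1 - T)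
    have h2 := ((sec_integrable w.cF).comp_add_left (1 - T))
    refine (h1.sub h2).congr (Filter.Eventually.of_forall fun q => ?_)
    simp only [Pi.sub_apply]
    ring
  have hi2 : Integrable fun q => (q - T) * fb F T q := by
    refine (w.mul_fb_int.sub (w.fb_int.const_mul T)).congr (Filter.Eventually.of_forall fun q => ?_)
    simp only [Pi.sub_apply]
    ring
  have h1 : mb F T ≤ ∫ q in Ioi T, (q - T) * sec F (1 - T + q) := by
    refine setIntegral_mono_on hi2.integrableOn hi.integrableOn measurableSet_Ioi fun q hq => ?_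
    exact mul_le_mul_of_nonneg_left (w.fb_le q) (sub_nonneg.2 (le_of_lt hq))
  have h2 : ∫ q in Ioi T, (q - T) * sec F (1 - T + q) = ∫ u in Ioi (1:ℝ), (u - 1) * sec F u := by
    rw [← Ioi_translate (fun u => (u - 1) * sec F u) T]
    refine setIntegral_congr_fun measurableSet_Ioi fun q _ => ?_
    ring_nf
  rw [h2] at h1
  exact h1.trans w.mF_le

theorem Win.I0 (w : Win F G Gt B ω H e T c) : ∫ q in (0:ℝ)..T, fb F T q = 4 - cb F T := by
  have h := split_integral w.fb_int (fun q hq => w.fb_neg hq) T
  rw [w.int_fb] at h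
  unfold cb
  linarith

theorem Win.I1 (w : Win F G Gt B ω H e T c) :
    ∫ q in (0:ℝ)..T, q * fb F T q = T * (4 - cb F T) - 4 - mb F T := by
  have h := split_integral w.mul_fb_int (fun q hq => by rw [w.fb_neg hq, mul_zero]) T
  rw [w.int_mul_fb] at h
  have h2 : ∫ q in Ioi T, q * fb F T q = mb F T + T * cb F T := by
    unfold mb cb
    rw [← integral_const_mul, ← integral_add]
    · refine setIntegral_congr_fun measurableSet_Ioi fun q _ => ?_
      ring
    · refine Integrable.integrableOn ?_
      refine (w.mul_fb_int.sub (w.fb_int.const_mul T)).congr (Filter.Eventually.of_forall fun q => ?_)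
      simp only [Pi.sub_apply]
      ring
    · exact (w.fb_int.const_mul T).integrableOn
  rw [h2] at h
  linarith

/-- `F` has a highest point, of level at least `1` -/
theorem Win.exists_top (w : Win F G Gt B ω H e T c) :
    ∃ t : ℝ, T ≤ t ∧ t ≤ T + H ∧ (∃ x : ℝ, ((x, 1 - T + t) : P2) ∈ F) ∧
      (∀ q, t < q → fb F T q = 0) ∧ ConcaveOn ℝ (Icc 0 t) (fb F T) := by
  have h1 : ((0, 1) : P2) ∈ F := w.winF 0 le_rfl w.ω0.le
  obtain ⟨p, hp, hmax⟩ := w.cF.exists_isMaxOn ⟨_, h1⟩ (continuous_snd.continuousOn (s := F))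
  obtain ⟨b, hb, hbT⟩ := w.T1
  have h2 : 1 ≤ p.2 := hmax h1
  have hpF : ((p.1, 1 - T + (p.2 - 1 + T)) : P2) ∈ F := by
    have : ((p.1, 1 - T + (p.2 - 1 + T)) : P2) = p := by
      ext
      · rfl
      · simp
    rw [this]
    exact hp
  refine ⟨p.2 - 1 + T, by linarith, by linarith [w.top p hp], ⟨p.1, hpF⟩, ?_, ?_⟩
  · intro q hq
    unfold fb
    rw [sec_eq_zero_of_empty, mul_zero]
    intro x hx
    have : (1 - T + q) ≤ p.2 := hmax hx
    linarith
  · have hc := sec_concave w.cF w.vF
    have hb0 : (1 - T + 0) ∈ {u | ∃ x, ((x, u) : P2) ∈ F} := by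
      refine ⟨b.1, ?_⟩
      have : ((b.1, 1 - T + 0) : P2) = b := by
        ext
        · rfl
        · simp [hbT]
      rw [this]
      exact hb
    have hlev : ∀ q ∈ Icc 0 (p.2 - 1 + T), (1 - T + q) ∈ {u | ∃ x, ((x, u) : P2) ∈ F} := by
      intro q hq
      have hord := hc.1.ordConnected
      exact hord.out hb0 (show (1 - T + (p.2 - 1 + T)) ∈ {u | ∃ x, ((x, u) : P2) ∈ F} from ⟨p.1, hpF⟩)
        ⟨by linarith [hq.1], by linarith [hq.2]⟩
    refine ⟨convex_Icc _ _, ?_⟩
    intro x hx y hy a b' ha hb' hab
    have h3 := hc.2 (hlev x hx) (hlev y hy) ha hb' hab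
    have h4 : a • (1 - T + x) + b' • (1 - T + y) = 1 - T + (a • x + b' • y) := by
      simp only [smul_eq_mul]
      have : b' = 1 - a := by linarith
      subst this
      ring
    rw [h4] at h3
    unfold fb
    have h5 : (0:ℝ) ≤ 4 / area F := by
      have := w.areaF_pos
      positivity
    have h6 := mul_le_mul_of_nonneg_left h3 h5
    simp only [smul_eq_mul] at h6 ⊢
    calc a * (4 / area F * sec F (1 - T + x)) + b' * (4 / area F * sec F (1 - T + y))
        = 4 / area F * (a * sec F (1 - T + x) + b' * sec F (1 - T + y)) := by ring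
      _ ≤ _ := h6

end Pool.Agent.helper15.PB
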