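import Pool.Agent.helper15.PB.Defs2
import Pool.Agent.helper15.PB.A1a
import Pool.Agent.helper15.PB.A1b
import Pool.Agent.helper15.PB.A4a
import Pool.Agent.helper15.PB.A5a
import Pool.Agent.helper15.PB.A6a
import Pool.Agent.helper15.PB.A6b
import Pool.Agent.helper15.PB.A6m

/-! # PB-A4c: the path inequality with constant `CB` (helper17) -/

set_option autoImplicit false
open MeasureTheory Set

namespace Pool.Agent.helper15.PB

variable {F G Gt : Set P2} {B : Set (P2 × ℝ)} {ω H e T c : ℝ}

/-- if `K` lives in levels `≥ 1 - a`, then the area of `K ∩ {u ≤ 1}` is the interval integral. -/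
theorem A4c_int_sec {K : Set P2} (hK : IsCompact K) {a : ℝ} (ha : 0 < a)
    (h : ∀ y ∈ K, 1 - a ≤ y.2) :
    ∫ u in (1 - a)..1, sec K u = area K - ∫ u in Ioi (1:ℝ), sec K u := by
  have hi := sec_integrable hK
  have h2 : ∫ u in (1 - a)..1, sec K u = ∫ u in Iic 1, sec K u := by
    rw [intervalIntegral.integral_of_le (by linarith)]
    refine (setIntegral_eq_of_subset_of_ae_sdiff_eq_zero measurableSet_Iic.nullMeasurableSet ?_ ?_).symm
    · intro u hu; exact hu.2
    · have hz : ∀ᵐ u ∂(volume : Measure ℝ), u ≠ 1 - a := by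
        simp [ae_iff, measure_singleton]
      filter_upwards [hz] with u hu0 hu
      apply sec_eq_zero_of_empty
      intro x hx
      have h3 := h _ hx
      simp only at h3
      apply hu.2
      exact ⟨lt_of_le_of_ne h3 (Ne.symm hu0), hu.1⟩
  rw [h2, area_eq hK]
  have h3 := integral_add_compl (f := sec K) (μ := volume) (measurableSet_Iic (a := (1:ℝ))) hi
  rw [compl_Iic] at h3
  linarith

theorem Win.path_CB (w : Win F G Gt B ω H e T c) : PathIneq F G (0, 1) (CB e T ω H) := by
  intro Y Z h hh hYv hY hZv hZ hZn hYZ hGY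
  have he : 3 / 2 < e := w.e_gt
  have hT3 : T ≤ 3 := w.T_le
  have hc0 : 0 ≤ c := w.c_nonneg
  have heT : e ≤ T := by
    obtain ⟨y, hy, hy2⟩ := w.e1
    rw [w.hG] at hy
    have := w.T2 y hy.1
    linarith
  have he0 : 0 < e := by linarith
  have hT0 : 0 < T := by linarith
  have hGt : IsClosed Gt := by
    rw [w.hGt]
    have hcont : Continuous (fun y : P2 => ((y, 0) : P2 × ℝ)) := by fun_prop
    exact w.cB.isClosed.preimage hcont
  have hGc : IsCompact G := by
    rw [w.hG]
    exact w.cF.inter_right hGt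
  -- the two integrals
  have hcG : ∫ u in Ioi (1:ℝ), sec G u = c := by
    rw [w.hc, area_inter_gt hGc]
  have hIG : ∫ u in (1 - e)..1, sec G u = 1 - c := by
    rw [A4c_int_sec hGc he0 w.e2, w.G1, hcG]
  have hIF : 4 - ω * H / 2 ≤ ∫ u in (1 - T)..1, sec F u := by
    rw [A4c_int_sec w.cF hT0 w.T2]
    have := w.cF_le
    have := w.F4
    linarith
  have hJG : ∫ τ in (0:ℝ)..1, sec G (1 - e * τ) = e⁻¹ * (1 - c) := by
    have := intervalIntegral.integral_comp_sub_mul (a := 0) (b := 1) (fun u => sec G u) he0.ne' 1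
    rw [this, smul_eq_mul]
    simp only [mul_one, mul_zero, sub_zero]
    rw [hIG]
  have hJF : T⁻¹ * (4 - ω * H / 2) ≤ ∫ τ in (0:ℝ)..1, sec F (1 - T + T * τ) := by
    have := intervalIntegral.integral_comp_add_mul (a := 0) (b := 1) (fun u => sec F u) hT0.ne' (1 - T)
    rw [this, smul_eq_mul]
    simp only [mul_one, mul_zero, add_zero, sub_add_cancel]
    exact mul_le_mul_of_nonneg_left hIF (inv_nonneg.2 hT0.le)
  have hintG : IntervalIntegrable (fun τ => sec G (1 - e * τ) * T) volume 0 1 := by
    have h1 : Integrable (fun τ => sec G (1 - e * τ)) := by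
      have h2 := (sec_integrable hGc).comp_sub_left 1
      have h3 := h2.comp_mul_left' he0.ne'
      exact h3
    exact (h1.mul_const T).intervalIntegrable
  have hintF : IntervalIntegrable (fun τ => sec F (1 - T + T * τ) * e) volume 0 1 := by
    have h1 : Integrable (fun τ => sec F (1 - T + T * τ)) := by
      have h2 := (sec_integrable w.cF).comp_add_left (1 - T)
      have h3 := h2.comp_mul_left' hT0.ne'
      exact h3
    exact (h1.mul_const e).intervalIntegrable
  have hI : ∫ τ in (0:ℝ)..1, (sec G (1 - e * τ) * T + sec F (1 - T + T * τ) * e) =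
      (∫ τ in (0:ℝ)..1, sec G (1 - e * τ)) * T + (∫ τ in (0:ℝ)..1, sec F (1 - T + T * τ)) * e := by
    rw [intervalIntegral.integral_add hintG hintF, intervalIntegral.integral_mul_const,
      intervalIntegral.integral_mul_const]
  have hlow : T * (e⁻¹ * (1 - c)) + e * (T⁻¹ * (4 - ω * H / 2)) ≤
      ∫ τ in (0:ℝ)..1, (sec G (1 - e * τ) * T + sec F (1 - T + T * τ) * e) := by
    rw [hI, hJG]
    have := mul_le_mul_of_nonneg_left hJF he0.le
    linarith
  have key := w.path_gen (q0 := 0) le_rfl hT0 (fun τ => e * τ) (fun τ => T * τ)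
    (fun _ => e) (fun _ => T) (fun τ _ => by simpa using (hasDerivAt_id τ).const_mul e)
    (fun τ _ => by simpa using (hasDerivAt_id τ).const_mul T) continuous_const continuous_const
    (fun _ _ => he0.le) (fun _ _ => hT0) (by simp) (by simp) (by simp) (by simp)
    hh hYv hY hZv hZ hZn hYZ (fun y hy hy1 => hGY y hy (by simpa [dot] using hy1))
  have hset : area (G ∩ {y | 1 < dot (0, 1) y}) = c := by
    rw [w.hc]
    congr 1
    ext y
    simp [dot]
  rw [hset]
  refine le_trans ?_ key
  have hfin : CB e T ω H - c ≤ (1 / 2) * (0 * ω +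
      ∫ τ in (0:ℝ)..1, (sec G (1 - e * τ) * T + sec F (1 - T + T * τ) * e)) := by
    have h1 : CB e T ω H - c ≤ (1 / 2) * (T * (e⁻¹ * (1 - c)) + e * (T⁻¹ * (4 - ω * H / 2))) := by
      have h2 : (1 / 2) * (T * (e⁻¹ * (1 - c)) + e * (T⁻¹ * (4 - ω * H / 2))) =
          CB e T ω H - (T / (2 * e)) * c := by
        unfold CB
        field_simp
        ring
      rw [h2]
      have h3 : T / (2 * e) ≤ 1 := by
        rw [div_le_one (by linarith)]
        linarith
      have h4 := mul_le_mul_of_nonneg_right h3 hc0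
      linarith
    linarith
  have := mul_le_mul_of_nonneg_left hfin hh
  linarith

end Pool.Agent.helper15.PB
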