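import Pool.Agent.helper15.PB.A5a

/-! # A5b : sections of `Gt` near and above the chord (blueprint of helper15, section 2) -/

set_option autoImplicit false
open MeasureTheory Set
open scoped Pointwise

namespace Pool.Agent.helper15.PB

variable {F G Gt : Set P2} {B : Set (P2 × ℝ)} {ω H e T c : ℝ}

namespace A5baux

theorem cGt (w : Win F G Gt B ω H e T c) : IsCompact Gt := by
  have h : Gt = Prod.fst '' (B ∩ {p : P2 × ℝ | p.2 = 0}) := by
    rw [w.hGt]
    ext y
    constructor
    · intro hy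
      exact ⟨(y, 0), ⟨hy, rfl⟩, rfl⟩
    · rintro ⟨⟨y', t⟩, ⟨h1, h2⟩, rfl⟩
      have h3 : t = 0 := h2
      subst h3
      exact h1
  rw [h]
  exact (w.cB.inter_right (isClosed_eq continuous_snd continuous_const)).image continuous_fst

theorem vGt (w : Win F G Gt B ω H e T c) : Convex ℝ Gt := by
  rw [w.hGt]
  intro x hx y hy a b ha hb hab
  have h := w.vB hx hy ha hb hab
  have h2 : a • ((x, 0) : P2 × ℝ) + b • ((y, 0) : P2 × ℝ) = ((a • x + b • y, 0) : P2 × ℝ) := by
    ext <;> simp
  rw [h2] at h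
  exact h

theorem cG (w : Win F G Gt B ω H e T c) : IsCompact G := by
  rw [w.hG]
  exact w.cF.inter (cGt w)

theorem vG (w : Win F G Gt B ω H e T c) : Convex ℝ G := by
  rw [w.hG]
  exact w.vF.inter (vGt w)

theorem one_mem (w : Win F G Gt B ω H e T c) : ((0, 1) : P2) ∈ G := by
  rw [w.hG]
  exact ⟨w.winF 0 le_rfl w.ω0.le, (w.win 0).2 ⟨le_rfl, w.ω0.le⟩⟩

theorem lev (w : Win F G Gt B ω H e T c) {d : ℝ} (hd : 0 ≤ d) (hde : d ≤ e) :
    ∃ x : ℝ, ((x, 1 - d) : P2) ∈ G := by
  have he : 0 < e := by have := w.e_gt; linarith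
  obtain ⟨y0, hy0, hy1⟩ := w.e1
  have hv := vG w hy0 (one_mem w) (div_nonneg hd he.le)
    (by rw [sub_nonneg]; exact (div_le_one he).2 hde : 0 ≤ 1 - d / e) (by ring)
  refine ⟨((d / e) • y0 + (1 - d / e) • ((0, 1) : P2)).1, ?_⟩
  convert hv using 1
  ext
  · rfl
  · simp only [Prod.snd_add, Prod.smul_snd, smul_eq_mul, hy1]
    field_simp
    ring

theorem subG (w : Win F G Gt B ω H e T c) : G ⊆ Gt := by
  rw [w.hG]; exact inter_subset_right

theorem sec_eq (w : Win F G Gt B ω H e T c) {u : ℝ} (h1 : -(1 / 8) ≤ u) (h2 : u ≤ 1) :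
    sec Gt u = sec G u := by
  unfold sec
  congr 2
  ext x
  constructor
  · intro hx
    show ((x, u) : P2) ∈ G
    rw [w.hG]
    exact ⟨w.gap _ hx h1 h2, hx⟩
  · intro hx
    exact subG w hx

theorem integrable_sec {K : Set P2} (hK : IsCompact K) : Integrable (sec K) := by
  obtain ⟨M, hM⟩ := sec_bound hK
  obtain ⟨R, hR, hR2⟩ := sec_bdd_support hK
  have h1 : IntegrableOn (sec K) (Icc (-R) R) := by
    refine Measure.integrableOn_of_bounded (M := M) (by simp) ?_ ?_
    · exact (measurable_sec hK).aestronglyMeasurable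
    · refine Filter.Eventually.of_forall fun u => ?_
      rw [Real.norm_eq_abs, abs_of_nonneg (sec_nonneg K u)]
      exact hM u
  rwa [integrableOn_iff_integrable_of_support_subset] at h1
  intro u hu
  by_contra hn
  apply hu
  apply hR2
  rw [mem_Icc, not_and_or] at hn
  rcases hn with hn | hn
  · rw [abs_of_neg (by linarith)]; linarith
  · rw [abs_of_pos (by linarith)]; linarith

/-- `∫_0^e g = 1 - c` in the depth variable -/
theorem int_g (w : Win F G Gt B ω H e T c) :
    ∫ x in (0:ℝ)..e, sec G (1 - x) = 1 - c := by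
  have hi := integrable_sec (cG w)
  have h1 : ∫ x in (0:ℝ)..e, sec G (1 - x) = ∫ u in (1 - e)..1, sec G u := by
    have := intervalIntegral.integral_comp_sub_left (a := 0) (b := e) (fun u => sec G u) 1
    simp
  have h2 : (∫ u in Iic (1:ℝ), sec G u) - ∫ u in Iic (1 - e), sec G u =
      ∫ u in (1 - e)..1, sec G u :=
    intervalIntegral.integral_Iic_sub_Iic hi.integrableOn hi.integrableOn
  have h3 : ∫ u in Iic (1 - e), sec G u = 0 := by
    rw [integral_Iic_eq_integral_Iio]
    refine setIntegral_eq_zero_of_forall_eq_zero fun u hu => ?_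
    refine sec_eq_zero_of_empty fun x hx => ?_
    have := w.e2 _ hx
    have h4 : u < 1 - e := hu
    simp only at this
    linarith
  have h4 : (∫ u in Iic (1:ℝ), sec G u) + ∫ u in Ioi (1:ℝ), sec G u = ∫ u, sec G u :=
    intervalIntegral.integral_Iic_add_Ioi hi.integrableOn hi.integrableOn
  have h5 := w.hc
  rw [area_inter_gt (cG w)] at h5
  have h6 := w.G1
  rw [area_eq (cG w)] at h6
  rw [h1, ← h2, h3]
  linarith

theorem e2pos (w : Win F G Gt B ω H e T c) : 0 < e ^ 2 := by
  have := w.e_gt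
  positivity

end A5baux

open A5baux

theorem Win.gt_mid (w : Win F G Gt B ω H e T c) {d : ℝ} (hd : 0 ≤ d) (hd8 : d ≤ 9 / 8) :
    sec Gt (1 - d) ≤ wL e c + gam e ω c * d := by
  have he := w.e_gt
  rw [sec_eq w (by linarith) (by linarith)]
  have hb := w.g_bound hd (by linarith : d ≤ e)
  have h1 : wL e c + gam e ω c * d =
      ((4 * e + 2 * d) * (1 - c) - 6 - 2 * d * e * ω) / e ^ 2 := by
    unfold wL gam
    field_simp
    ring
  rw [h1, le_div_iff₀ (e2pos w)]
  linarith

theorem Win.gt_above (w : Win F G Gt B ω H e T c) {u : ℝ} (hu : 1 ≤ u)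
    (hne : ∃ x : ℝ, ((x, u) : P2) ∈ Gt) : sec Gt u ≤ ω + gam e ω c * (1 - u) := by
  have he := w.e_gt
  rcases hu.eq_or_lt with h1 | hu1
  · rw [← h1, w.secGt_one]; linarith
  by_contra hcon
  rw [not_le] at hcon
  set γ := gam e ω c with hγ
  have hcG := sec_concave (cG w) (vG w)
  have hcGt := sec_concave (cGt w) (vGt w)
  have hlev1 : (1:ℝ) ∈ {u : ℝ | ∃ x, ((x, u) : P2) ∈ Gt} := ⟨0, subG w (one_mem w)⟩
  have key1 : ∀ d : ℝ, 0 < d → d ≤ 9 / 8 → sec G (1 - d) < ω + γ * d := by
    intro d hd hd8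
    rw [← sec_eq w (by linarith) (by linarith)]
    obtain ⟨x, hx⟩ := lev w hd.le (by linarith : d ≤ e)
    have hD : 0 < u - 1 + d := by linarith
    have hc := hcGt.2 (x := 1 - d) (y := u) ⟨x, subG w hx⟩ hne
      (div_nonneg (by linarith : 0 ≤ u - 1) hD.le) (div_nonneg hd.le hD.le)
      (by rw [← add_div]; exact div_self hD.ne')
    have h2 : ((u - 1) / (u - 1 + d)) • (1 - d) + (d / (u - 1 + d)) • u = 1 := by
      simp only [smul_eq_mul]
      field_simp
      ring
    rw [h2, w.secGt_one] at hc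
    simp only [smul_eq_mul] at hc
    have h3 : (u - 1) * sec Gt (1 - d) + d * sec Gt u ≤ ω * (u - 1 + d) := by
      have h4 : (u - 1) / (u - 1 + d) * sec Gt (1 - d) + d / (u - 1 + d) * sec Gt u =
          ((u - 1) * sec Gt (1 - d) + d * sec Gt u) / (u - 1 + d) := by ring
      rw [h4, div_le_iff₀ hD] at hc
      exact hc
    have h5 : (u - 1) * sec Gt (1 - d) < (u - 1) * (ω + γ * d) := by nlinarith
    exact lt_of_mul_lt_mul_left h5 (by linarith)
  have h9 := key1 (9 / 8) (by norm_num) le_rfl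
  set κ : ℝ := (ω + γ * (9 / 8) - sec G (1 - 9 / 8)) / (9 / 8) with hκ
  have hκ0 : 0 < κ := div_pos (by linarith) (by norm_num)
  have hκ1 : sec G (1 - 9 / 8) = ω + (γ - κ) * (9 / 8) := by
    rw [hκ]; ring
  have key2 : ∀ x : ℝ, 9 / 8 ≤ x → x ≤ e → sec G (1 - x) ≤ ω + (γ - κ) * x := by
    intro x hx hxe
    have hx0 : 0 < x := by linarith
    have hc := hcG.2 (x := 1 - x) (y := 1) (lev w hx0.le hxe) ⟨0, one_mem w⟩
      (by positivity : 0 ≤ (9 / 8) / x)
      (by rw [sub_nonneg]; exact (div_le_one hx0).2 hx : 0 ≤ 1 - (9 / 8) / x) (by ring)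
    have h2 : ((9 / 8) / x) • (1 - x) + (1 - (9 / 8) / x) • (1:ℝ) = 1 - 9 / 8 := by
      simp only [smul_eq_mul]
      field_simp
      ring
    rw [h2, w.secG_one, hκ1] at hc
    simp only [smul_eq_mul] at hc
    have h3 : (9 / 8) / x * sec G (1 - x) ≤ (9 / 8) / x * (ω + (γ - κ) * x) := by
      have h4 : (9 / 8) / x * (ω + (γ - κ) * x) = (9 / 8) / x * ω + (γ - κ) * (9 / 8) := by
        field_simp
      rw [h4]
      linarith
    exact le_of_mul_le_mul_left h3 (by positivity)
  have hint : Integrable (fun x => sec G (1 - x)) := (integrable_sec (cG w)).comp_sub_left 1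
  have i1 : ∫ x in (0:ℝ)..(9 / 8), sec G (1 - x) ≤ ∫ x in (0:ℝ)..(9 / 8), (ω + γ * x) := by
    refine intervalIntegral.integral_mono_on (by norm_num) hint.intervalIntegrable
      (by apply Continuous.intervalIntegrable; fun_prop) fun x hx => ?_
    rcases hx.1.eq_or_lt with h0 | h0
    · rw [← h0]; simp [w.secG_one]
    · exact (key1 x h0 hx.2).le
  have i2 : ∫ x in (9 / 8 : ℝ)..e, sec G (1 - x) ≤ ∫ x in (9 / 8 : ℝ)..e, (ω + (γ - κ) * x) := by
    refine intervalIntegral.integral_mono_on (by linarith) hint.intervalIntegrable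
      (by apply Continuous.intervalIntegrable; fun_prop) fun x hx => ?_
    exact key2 x hx.1 hx.2
  have i3 : ∫ x in (0:ℝ)..(9 / 8), (ω + γ * x) = ω * (9 / 8) + γ * ((9 / 8) ^ 2 / 2) := by
    rw [intervalIntegral.integral_add (by simp) (by apply Continuous.intervalIntegrable; fun_prop),
      intervalIntegral.integral_const_mul, integral_id]
    simp
    ring
  have i4 : ∫ x in (9 / 8 : ℝ)..e, (ω + (γ - κ) * x) =
      ω * (e - 9 / 8) + (γ - κ) * ((e ^ 2 - (9 / 8) ^ 2) / 2) := by
    rw [intervalIntegral.integral_add (by simp) (by apply Continuous.intervalIntegrable; fun_prop),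
      intervalIntegral.integral_const_mul, integral_id]
    simp
    ring
  have i5 := int_g w
  rw [← intervalIntegral.integral_add_adjacent_intervals (b := 9 / 8)
    hint.intervalIntegrable hint.intervalIntegrable] at i5
  have hγ2 : γ * (e ^ 2 / 2) = 1 - c - e * ω := by
    rw [hγ]; unfold gam
    have := e2pos w
    field_simp
  have hpos : 0 < κ * ((e ^ 2 - (9 / 8) ^ 2) / 2) := by
    apply mul_pos hκ0
    nlinarith
  rw [i3] at i1
  rw [i4] at i2
  nlinarith

theorem Win.area_tip (w : Win F G Gt B ω H e T c) (hg : 0 < gam e ω c) :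
    area (Gt ∩ {y | 1 < dot (0, 1) y}) ≤ ω ^ 2 / (2 * gam e ω c) := by
  set γ := gam e ω c with hγ
  have hs : (Gt ∩ {y | 1 < dot (0, 1) y}) = Gt ∩ {y : P2 | 1 < y.2} := by
    ext y
    simp [dot]
  rw [hs, area_inter_gt (cGt w)]
  have hω := w.ω0
  set b : ℝ := 1 + ω / γ with hb
  have hb1 : 1 ≤ b := by
    rw [hb]
    have : 0 ≤ ω / γ := by positivity
    linarith
  have hi := integrable_sec (cGt w)
  have hsec : ∀ u : ℝ, 1 ≤ u → u ≤ b → sec Gt u ≤ ω + γ * (1 - u) := by
    intro u hu hub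
    by_cases hne : ∃ x : ℝ, ((x, u) : P2) ∈ Gt
    · exact w.gt_above hu hne
    · rw [sec_eq_zero_of_empty (fun x hx => hne ⟨x, hx⟩)]
      have : γ * (u - 1) ≤ ω := by
        have h1 : u - 1 ≤ ω / γ := by rw [hb] at hub; linarith
        calc γ * (u - 1) ≤ γ * (ω / γ) := mul_le_mul_of_nonneg_left h1 hg.le
          _ = ω := by field_simp
      linarith
  have hzero : ∀ u : ℝ, b < u → sec Gt u = 0 := by
    intro u hu
    by_cases hne : ∃ x : ℝ, ((x, u) : P2) ∈ Gt
    · have h1 := w.gt_above (by linarith : 1 ≤ u) hne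
      have h2 : ω < γ * (u - 1) := by
        have h3 : ω / γ < u - 1 := by rw [hb] at hu; linarith
        calc ω = γ * (ω / γ) := by field_simp
          _ < γ * (u - 1) := mul_lt_mul_of_pos_left h3 hg
      have h4 := sec_nonneg Gt u
      apply le_antisymm _ h4
      rw [← hγ] at h1
      linarith
    · exact sec_eq_zero_of_empty (fun x hx => hne ⟨x, hx⟩)
  have h1 : (∫ u in Ioi (1:ℝ), sec Gt u) = ∫ u in (1:ℝ)..b, sec Gt u := by
    have h2 : (∫ u in Ioi (1:ℝ), sec Gt u) - ∫ u in Ioi b, sec Gt u = ∫ u in (1:ℝ)..b, sec Gt u :=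
      intervalIntegral.integral_Ioi_sub_Ioi hi.integrableOn hb1
    have h3 : ∫ u in Ioi b, sec Gt u = 0 :=
      setIntegral_eq_zero_of_forall_eq_zero fun u hu => hzero u hu
    rw [← h2, h3, sub_zero]
  rw [h1]
  have h2 : ∫ u in (1:ℝ)..b, sec Gt u ≤ ∫ u in (1:ℝ)..b, (ω + γ - γ * u) := by
    refine intervalIntegral.integral_mono_on hb1 hi.intervalIntegrable
      (by apply Continuous.intervalIntegrable; fun_prop) fun u hu => ?_
    have := hsec u hu.1 hu.2
    linarith
  refine h2.trans (le_of_eq ?_)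
  rw [intervalIntegral.integral_sub (by simp) (by apply Continuous.intervalIntegrable; fun_prop),
    intervalIntegral.integral_const_mul, integral_id, intervalIntegral.integral_const, hb]
  simp only [smul_eq_mul]
  field_simp
  ring

end Pool.Agent.helper15.PB
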