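import Pool.Agent.helper15.PB.A6m

/-! # A6c: existence of a long chord of `F` (helper54) -/

set_option autoImplicit false
open MeasureTheory Set
open scoped Pointwise

namespace Pool.Agent.helper15.PB

variable {F G Gt : Set P2} {B : Set (P2 × ℝ)} {ω H e T c : ℝ}

/-- the trick with a general breakpoint `μ` -/
theorem Win.trick (w : Win F G Gt B ω H e T c) {g A μ : ℝ} (hμ : 0 < μ) (hμT : 3 * μ / 2 < T)
    (hlt : ∀ q, 0 ≤ q → q ≤ T → fb F T q - g * q < A) :
    (T * (4 - cb F T) - 4 - mb F T - g * T ^ 3 / 3) - μ * (4 - cb F T - g * T ^ 2 / 2) <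
      A * ((T ^ 2 - (3 * μ / 2) ^ 2) / 2 - μ * (T - 3 * μ / 2)) := by
  have hT := w.T_pos
  set a := 3 * μ / 2 with ha
  have ha0 : 0 < a := by positivity
  obtain ⟨t, hTt, -, -, -, hconc⟩ := w.exists_top
  have hconcT : ConcaveOn ℝ (Icc 0 a) (fb F T) :=
    hconc.subset (Icc_subset_Icc le_rfl (by linarith)) (convex_Icc _ _)
  have hlin : ConcaveOn ℝ (Icc 0 a) (fun q : ℝ => -(g * q)) := by
    refine ⟨convex_Icc _ _, fun x _ y _ p r _ _ _ => ?_⟩
    simp only [smul_eq_mul]
    apply le_of_eq
    ring
  have hψ : ConcaveOn ℝ (Icc 0 a) (fun q => fb F T q - g * q) := by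
    have := hconcT.add hlin
    refine this.congr fun q _ => ?_
    simp [sub_eq_add_neg]
  have hfi : ∀ s r : ℝ, IntervalIntegrable (fb F T) volume s r := fun s r =>
    w.fb_int.intervalIntegrable
  have hfi1 : ∀ s r : ℝ, IntervalIntegrable (fun q => q * fb F T q) volume s r := fun s r =>
    w.mul_fb_int.intervalIntegrable
  have hcont : ∀ (f : ℝ → ℝ) (s r : ℝ), Continuous f → IntervalIntegrable f volume s r :=
    fun f s r hf => hf.intervalIntegrable s r
  have hψi : ∀ s r : ℝ, IntervalIntegrable (fun q => fb F T q - g * q) volume s r := fun s r =>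
    (hfi s r).sub (hcont _ s r (by fun_prop))
  have hw : ∀ s r : ℝ, IntervalIntegrable (fun q => (q - μ) * (fb F T q - g * q)) volume s r := by
    intro s r
    have h1 := ((hfi1 s r).sub ((hfi s r).const_mul μ)).sub
      (hcont (fun q => (q - μ) * (g * q)) s r (by fun_prop))
    refine h1.congr fun q _ => ?_
    ring
  -- the part below `a`
  have h1 : ∫ q in (0:ℝ)..a, (q - μ) * (fb F T q - g * q) ≤ 0 := by
    refine lemma_A hμ hψ ?_ ?_
    · rw [← ha, integrableOn_Icc_iff_integrableOn_Ioc,
        ← intervalIntegrable_iff_integrableOn_Ioc_of_le ha0.le]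
      exact hψi 0 a
    · simp only [mul_zero, sub_zero]
      exact w.fb_nonneg 0
  -- the part above `a`
  have h2 : 0 < ∫ q in a..T, (q - μ) * (A - (fb F T q - g * q)) := by
    refine intervalIntegral.intervalIntegral_pos_of_pos_on ?_ ?_ hμT
    · have := (hcont (fun q => (q - μ) * A) a T (by fun_prop)).sub (hw a T)
      refine this.congr fun q _ => ?_
      ring
    · intro q hq
      have h3 : 0 < q - μ := by
        have := hq.1
        have : μ < a := by rw [ha]; linarith
        linarith
      have h4 := hlt q (by linarith [hq.1]) hq.2.le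
      exact mul_pos h3 (by linarith)
  have h3 : ∫ q in a..T, (q - μ) * (A - (fb F T q - g * q)) =
      (∫ q in a..T, (q - μ) * A) - ∫ q in a..T, (q - μ) * (fb F T q - g * q) := by
    rw [← intervalIntegral.integral_sub (hcont _ a T (by fun_prop)) (hw a T)]
    congr 1
    ext q
    ring
  have h4 : ∫ q in a..T, (q - μ) * A = A * ((T ^ 2 - a ^ 2) / 2 - μ * (T - a)) := by
    rw [intervalIntegral.integral_mul_const,
      intervalIntegral.integral_sub (hcont _ a T (by fun_prop)) (hcont _ a T (by fun_prop)),
      integral_id, intervalIntegral.integral_const]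
    simp only [smul_eq_mul]
    ring
  have h5 : ∫ q in (0:ℝ)..T, (q - μ) * (fb F T q - g * q) =
      (T * (4 - cb F T) - 4 - mb F T - g * T ^ 3 / 3) - μ * (4 - cb F T - g * T ^ 2 / 2) := by
    have e1 : ∀ q, (q - μ) * (fb F T q - g * q) =
        (q * fb F T q - μ * fb F T q) - (g * q ^ 2 - μ * g * q) := by
      intro q
      ring
    simp_rw [e1]
    rw [intervalIntegral.integral_sub ((hfi1 0 T).sub ((hfi 0 T).const_mul μ))
        (hcont _ 0 T (by fun_prop)),
      intervalIntegral.integral_sub (hfi1 0 T) ((hfi 0 T).const_mul μ),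
      intervalIntegral.integral_sub (hcont _ 0 T (by fun_prop)) (hcont _ 0 T (by fun_prop)),
      intervalIntegral.integral_const_mul, intervalIntegral.integral_const_mul,
      intervalIntegral.integral_const_mul, integral_pow, integral_id, w.I0, w.I1]
    norm_num
    ring
  have h6 := intervalIntegral.integral_add_adjacent_intervals (hw 0 a) (hw a T)
  rw [h5] at h6
  rw [h3, h4] at h2
  linarith

/-- existence of a long chord of `F` -/
theorem Win.long_chord (w : Win F G Gt B ω H e T c) {g A : ℝ} (hA : IsA T ω H g A) :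
    ∃ q : ℝ, 0 ≤ q ∧ q ≤ T ∧ A + g * q ≤ sec F (1 - T + q) := by
  by_contra hcon
  push Not at hcon
  have hlt : ∀ q, 0 ≤ q → q ≤ T → fb F T q - g * q < A := by
    intro q h0 h1
    have h2 := hcon q h0 h1
    have h3 := w.fb_le q
    linarith
  have hT := w.T_pos
  have hc0 := w.cb_le
  have hm0 := w.mb_le
  have hmn := w.mb_nonneg
  have hfi : IntervalIntegrable (fb F T) volume 0 T := w.fb_int.intervalIntegrable
  have hfi1 : IntervalIntegrable (fun q => q * fb F T q) volume 0 T :=
    w.mul_fb_int.intervalIntegrable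
  have hcont : ∀ (f : ℝ → ℝ), Continuous f → IntervalIntegrable f volume 0 T :=
    fun f hf => hf.intervalIntegrable 0 T
  rcases hA with hA | hA | hA | hA
  · -- weight `q`
    have h1 : 0 < ∫ q in (0:ℝ)..T, q * (A - (fb F T q - g * q)) := by
      refine intervalIntegral.intervalIntegral_pos_of_pos_on ?_ ?_ hT
      · have := ((hcont (fun q => q * A) (by fun_prop)).sub hfi1).add
          (hcont (fun q => g * q ^ 2) (by fun_prop))
        refine this.congr fun q _ => ?_
        ring
      · intro q hq
        exact mul_pos hq.1 (by linarith [hlt q hq.1.le hq.2.le])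
    have h2 : ∫ q in (0:ℝ)..T, q * (A - (fb F T q - g * q)) =
        A * (T ^ 2 / 2) - (T * (4 - cb F T) - 4 - mb F T) + g * T ^ 3 / 3 := by
      have e1 : ∀ q, q * (A - (fb F T q - g * q)) = (A * q - q * fb F T q) + g * q ^ 2 := by
        intro q
        ring
      simp_rw [e1]
      rw [intervalIntegral.integral_add ((hcont _ (by fun_prop)).sub hfi1) (hcont _ (by fun_prop)),
        intervalIntegral.integral_sub (hcont _ (by fun_prop)) hfi1,
        intervalIntegral.integral_const_mul, intervalIntegral.integral_const_mul, integral_pow,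
        integral_id, w.I1]
      norm_num
      ring
    rw [h2, hA] at h1
    have h3 : (T * (4 - ω * H / 2) - 4 - ω * H ^ 2 / 6 - g * T ^ 3 / 3) / (T ^ 2 / 2) * (T ^ 2 / 2) =
        T * (4 - ω * H / 2) - 4 - ω * H ^ 2 / 6 - g * T ^ 3 / 3 := by
      field_simp
    rw [h3] at h1
    nlinarith
  · have h := w.trick (g := g) (A := A) (μ := T / 3) (by positivity) (by linarith) hlt
    rw [hA] at h
    have h3 : ((2 / 3) * T * (4 - ω * H / 2) - 4 - ω * H ^ 2 / 6 - g * T ^ 3 / 6) / (5 * T ^ 2 / 24) *
        ((T ^ 2 - (3 * (T / 3) / 2) ^ 2) / 2 - T / 3 * (T - 3 * (T / 3) / 2)) =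
        (2 / 3) * T * (4 - ω * H / 2) - 4 - ω * H ^ 2 / 6 - g * T ^ 3 / 6 := by
      field_simp
      ring
    rw [h3] at h
    nlinarith
  · have h := w.trick (g := g) (A := A) (μ := T / 2) (by positivity) (by linarith) hlt
    rw [hA] at h
    have h3 : ((1 / 2) * T * (4 - ω * H / 2) - 4 - ω * H ^ 2 / 6 - g * T ^ 3 / 12) / (3 * T ^ 2 / 32) *
        ((T ^ 2 - (3 * (T / 2) / 2) ^ 2) / 2 - T / 2 * (T - 3 * (T / 2) / 2)) =
        (1 / 2) * T * (4 - ω * H / 2) - 4 - ω * H ^ 2 / 6 - g * T ^ 3 / 12 := by
      field_simp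
      ring
    rw [h3] at h
    nlinarith
  · -- weight `2/T - 2q/T²`
    have h1 : 0 < ∫ q in (0:ℝ)..T, (2 / T - 2 / T ^ 2 * q) * (A - (fb F T q - g * q)) := by
      refine intervalIntegral.intervalIntegral_pos_of_pos_on ?_ ?_ hT
      · have := ((hcont (fun q => (2 / T - 2 / T ^ 2 * q) * (A + g * q)) (by fun_prop)).sub
          (hfi.const_mul (2 / T))).add (hfi1.const_mul (2 / T ^ 2))
        refine this.congr fun q _ => ?_
        ring
      · intro q hq
        refine mul_pos ?_ (by linarith [hlt q hq.1.le hq.2.le])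
        have : 2 / T - 2 / T ^ 2 * q = 2 / T ^ 2 * (T - q) := by
          field_simp
        rw [this]
        have := hq.2
        have : 0 < T - q := by linarith
        positivity
    have h2 : ∫ q in (0:ℝ)..T, (2 / T - 2 / T ^ 2 * q) * (A - (fb F T q - g * q)) =
        A - (8 / T ^ 2 + 2 * mb F T / T ^ 2 - g * T / 3) := by
      have e1 : ∀ q, (2 / T - 2 / T ^ 2 * q) * (A - (fb F T q - g * q)) =
          (((2 / T * A) + (2 / T * g - 2 / T ^ 2 * A) * q) - 2 / T ^ 2 * g * q ^ 2) -
            (2 / T * fb F T q - 2 / T ^ 2 * (q * fb F T q)) := by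
        intro q
        ring
      simp_rw [e1]
      rw [intervalIntegral.integral_sub (hcont _ (by fun_prop))
          ((hfi.const_mul _).sub (hfi1.const_mul _)),
        intervalIntegral.integral_sub (hfi.const_mul _) (hfi1.const_mul _),
        intervalIntegral.integral_sub (hcont _ (by fun_prop)) (hcont _ (by fun_prop)),
        intervalIntegral.integral_add (hcont _ (by fun_prop)) (hcont _ (by fun_prop)),
        intervalIntegral.integral_const_mul, intervalIntegral.integral_const_mul,
        intervalIntegral.integral_const_mul, intervalIntegral.integral_const_mul,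
        intervalIntegral.integral_const_mul, integral_pow,
        integral_id, w.I0, w.I1, intervalIntegral.integral_const]
      simp only [smul_eq_mul]
      field_simp
      ring
    rw [h2, hA] at h1
    have h3 : 0 ≤ 2 * mb F T / T ^ 2 := by positivity
    linarith

end Pool.Agent.helper15.PB
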