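import Pool.Agent.helper15.PB.Defs2
import Pool.Agent.helper15.PB.A1a
import Pool.Agent.helper15.PB.A5a
import Pool.Agent.helper15.PB.A5b

set_option autoImplicit false
open MeasureTheory Set
open scoped Pointwise

namespace Pool.Agent.helper15.PB

variable {F G Gt : Set P2} {B : Set (P2 × ℝ)} {ω H e T c : ℝ}

/-! A7a: inclusion of `X⁺`, section inequality, first section bound -/

theorem Win.Xp_sub (w : Win F G Gt B ω H e T c) : Xp F B (0, 1) ⊆ Xp1 F B T ∪ Xcap F B := by
  rintro p ⟨hp, y, hy, h1⟩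
  by_cases hc : p.1.2 ≤ 1 + 2 * p.2
  · left
    refine ⟨hp, ?_, hc⟩
    have h2 := w.T2 y hy
    have h3 : 0 ≤ p.2 := hp.2.1
    simp only [dot, Prod.fst_sub, Prod.snd_sub, Prod.smul_fst, Prod.smul_snd, smul_eq_mul] at h1
    nlinarith [mul_nonneg h3 (sub_nonneg.2 h2)]
  · right
    exact ⟨hp, not_le.1 hc⟩

/-- the slice is compact -/
theorem slice_compact (cF : IsCompact F) (cB : IsCompact B) (h : ℝ) :
    IsCompact (slice F B h) := by
  have h1 : IsCompact ((fun y : P2 => (1 + 2 * h) • y) '' F) :=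
    cF.image (by fun_prop)
  refine h1.of_isClosed_subset ?_ ?_
  · by_cases hh : 0 ≤ h
    · have h2 : slice F B h = {y | ((y, h) : P2 × ℝ) ∈ B} ∩ ((fun y : P2 => (1 + 2 * h) • y) '' F) := by
        ext y
        constructor
        · rintro ⟨a, b, z, hz, hy⟩
          exact ⟨a, z, hz, hy.symm⟩
        · rintro ⟨a, z, hz, hy⟩
          exact ⟨a, hh, z, hz, hy.symm⟩
      rw [h2]
      refine IsClosed.inter ?_ h1.isClosed
      exact cB.isClosed.preimage (by fun_prop : Continuous (fun y : P2 => ((y, h) : P2 × ℝ)))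
    · have h2 : slice F B h = ∅ := by
        ext y
        constructor
        · rintro ⟨a, b, z, hz, hy⟩
          exact absurd b hh
        · intro hy
          exact absurd hy (by simp)
      rw [h2]
      exact isClosed_empty
  · rintro y ⟨a, b, z, hz, hy⟩
    exact ⟨z, hz, hy.symm⟩

theorem Gt_compact (cB : IsCompact B) (hGt : Gt = {y | ((y, 0) : P2 × ℝ) ∈ B}) :
    IsCompact Gt := by
  have h1 : IsCompact ((fun p : P2 × ℝ => p.1) '' B) := cB.image (by fun_prop)
  refine h1.of_isClosed_subset ?_ ?_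
  · rw [hGt]
    exact cB.isClosed.preimage (by fun_prop : Continuous (fun y : P2 => ((y, 0) : P2 × ℝ)))
  · intro y hy
    rw [hGt] at hy
    exact ⟨(y, 0), hy, rfl⟩

/-- key inclusion -/
theorem key_incl (vB : Convex ℝ B) (neg : ∀ y ∈ F, ((-y, -1) : P2 × ℝ) ∈ B)
    (hGt : Gt = {y | ((y, 0) : P2 × ℝ) ∈ B}) {h : ℝ} (hh : 0 ≤ h) {x y : P2}
    (hx : ((x, h) : P2 × ℝ) ∈ B) (hy : y ∈ F) :
    (1 / (1 + h)) • x - (h / (1 + h)) • y ∈ Gt := by
  have h0 : (0 : ℝ) < 1 + h := by linarith
  have h1 := vB hx (neg y hy) (by positivity : (0 : ℝ) ≤ 1 / (1 + h))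
    (by positivity : (0 : ℝ) ≤ h / (1 + h)) (by field_simp)
  rw [hGt]
  have h2 : (1 / (1 + h)) • ((x, h) : P2 × ℝ) + (h / (1 + h)) • ((-y, -1) : P2 × ℝ)
      = ((1 / (1 + h)) • x - (h / (1 + h)) • y, 0) := by
    refine Prod.ext ?_ ?_
    · simp [sub_eq_add_neg]
    · simp only [Prod.smul_mk, Prod.mk_add_mk, smul_eq_mul]
      field_simp
      ring
  rw [h2] at h1
  exact h1

theorem Win.F_level (w : Win F G Gt B ω H e T c) {q : ℝ} (hq0 : 0 ≤ q) (hqT : q ≤ T) :
    ∃ x : ℝ, ((x, 1 - T + q) : P2) ∈ F := by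
  obtain ⟨y, hy, hy2⟩ := w.T1
  have h1 : ((0, 1) : P2) ∈ F := w.winF 0 le_rfl w.ω0.le
  rcases eq_or_lt_of_le (hq0.trans hqT) with hT | hT
  · have hq : q = 0 := by linarith
    refine ⟨y.1, ?_⟩
    have : ((y.1, 1 - T + q) : P2) = y := Prod.ext rfl (by simp [hy2, hq])
    rw [this]
    exact hy
  · have h2 := w.vF hy h1 (by rw [sub_nonneg]; exact (div_le_one hT).2 hqT : (0 : ℝ) ≤ 1 - q / T)
      (by positivity : (0 : ℝ) ≤ q / T) (by ring)
    refine ⟨((1 - q / T) • y + (q / T) • ((0, 1) : P2)).1, ?_⟩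
    have h3 : ((((1 - q / T) • y + (q / T) • ((0, 1) : P2)).1, 1 - T + q) : P2)
        = (1 - q / T) • y + (q / T) • ((0, 1) : P2) := by
      refine Prod.ext rfl ?_
      simp only [Prod.snd_add, Prod.smul_snd, smul_eq_mul, hy2]
      field_simp
      ring
    rw [h3]
    exact h2

/-- the section inequality -/
theorem Win.slice_ineq (w : Win F G Gt B ω H e T c) {h u q : ℝ} (hh : 0 ≤ h) (hq0 : 0 ≤ q) (hqT : q ≤ T)
    (hne : ∃ x : ℝ, ((x, u) : P2) ∈ slice F B h) :
    (∃ x : ℝ, ((x, (u - h * (1 - T + q)) / (1 + h)) : P2) ∈ Gt) ∧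
    sec (slice F B h) u + h * sec F (1 - T + q) ≤ (1 + h) * sec Gt ((u - h * (1 - T + q)) / (1 + h)) := by
  have h0 : (0 : ℝ) < 1 + h := by linarith
  obtain ⟨y, hy⟩ := w.F_level hq0 hqT
  constructor
  · obtain ⟨x, hx⟩ := hne
    have h1 := key_incl w.vB w.neg w.hGt hh hx.1 hy
    refine ⟨(1 / (1 + h)) * x - (h / (1 + h)) * y, ?_⟩
    have h2 : (((1 / (1 + h)) * x - (h / (1 + h)) * y, (u - h * (1 - T + q)) / (1 + h)) : P2)
        = (1 / (1 + h)) • ((x, u) : P2) - (h / (1 + h)) • ((y, 1 - T + q) : P2) := by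
      refine Prod.ext ?_ ?_
      · simp
      · simp only [Prod.snd_sub, Prod.smul_snd, smul_eq_mul]
        field_simp
    rw [h2]
    exact h1
  · have h1 := sec_sub (slice_compact w.cF w.cB h) w.cF (Gt_compact w.cB w.hGt) u (1 - T + q)
      (1 / (1 + h)) (h / (1 + h)) (by positivity) (by positivity) hne ⟨y, hy⟩
      (fun x hx z hz => key_incl w.vB w.neg w.hGt hh hx.1 hz)
    have h2 : 1 / (1 + h) * u - h / (1 + h) * (1 - T + q) = (u - h * (1 - T + q)) / (1 + h) := by
      field_simp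
    rw [h2] at h1
    have h3 := mul_le_mul_of_nonneg_left h1 h0.le
    have h4 : (1 + h) * (1 / (1 + h) * sec (slice F B h) u + h / (1 + h) * sec F (1 - T + q))
        = sec (slice F B h) u + h * sec F (1 - T + q) := by
      field_simp
    rw [h4] at h3
    exact h3

theorem Win.om_le (w : Win F G Gt B ω H e T c) : ω ≤ wL e c := by
  have he := w.e_gt
  have h1 := w.g_bound le_rfl (by linarith : (0 : ℝ) ≤ e)
  rw [sub_zero, w.secG_one] at h1
  unfold wL
  rw [le_div_iff₀ (by positivity)]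
  linarith

/-- (L1) when the depth is at most `9/8` -/
theorem Win.ell1_aux (w : Win F G Gt B ω H e T c) {q A : ℝ} (hq0 : 0 ≤ q) (hqT : q ≤ T)
    (hq : A + gam e ω c * q ≤ sec F (1 - T + q))
    {h s : ℝ} (hh : 0 ≤ h) (hd : h * q - s ≤ 9 / 8 * (1 + h))
    (hne : ∃ x : ℝ, ((x, 1 + 2 * h - h * T + s) : P2) ∈ slice F B h) :
    sec (slice F B h) (1 + 2 * h - h * T + s) ≤ (1 + h) * wL e c - h * A - gam e ω c * s := by
  have h0 : (0 : ℝ) < 1 + h := by linarith
  obtain ⟨h1, h2⟩ := w.slice_ineq hh hq0 hqT hne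
  have h3 : (1 + 2 * h - h * T + s - h * (1 - T + q)) / (1 + h) = 1 - (h * q - s) / (1 + h) := by
    field_simp
    ring
  rw [h3] at h1 h2
  have h5 : (1 + h) * ((h * q - s) / (1 + h)) = h * q - s := by field_simp
  have h6 : h * (A + gam e ω c * q) ≤ h * sec F (1 - T + q) := mul_le_mul_of_nonneg_left hq hh
  have h4 : sec Gt (1 - (h * q - s) / (1 + h)) ≤ wL e c + gam e ω c * ((h * q - s) / (1 + h)) := by
    by_cases hs : 0 ≤ h * q - s
    · exact w.gt_mid (by positivity) ((div_le_iff₀ h0).2 hd)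
    · have h7 : (h * q - s) / (1 + h) ≤ 0 := div_nonpos_of_nonpos_of_nonneg (not_le.1 hs).le h0.le
      have h8 := w.gt_above (by linarith : 1 ≤ 1 - (h * q - s) / (1 + h)) h1
      have h9 : (1 : ℝ) - (1 - (h * q - s) / (1 + h)) = (h * q - s) / (1 + h) := by ring
      rw [h9] at h8
      linarith [w.om_le]
  have h7 : (1 + h) * sec Gt (1 - (h * q - s) / (1 + h))
      ≤ (1 + h) * wL e c + gam e ω c * ((1 + h) * ((h * q - s) / (1 + h))) := by
    have := mul_le_mul_of_nonneg_left h4 h0.le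
    linarith [this, mul_add (1 + h) (wL e c) (gam e ω c * ((h * q - s) / (1 + h))),
      mul_left_comm (1 + h) (gam e ω c) ((h * q - s) / (1 + h))]
  rw [h5] at h7
  linarith

/-- convexity of `X` -/
theorem Xs_convex (vF : Convex ℝ F) (vB : Convex ℝ B) : Convex ℝ (Xs F B) := by
  intro p hp p' hp' a b ha hb hab
  obtain ⟨h1, h2, y, hy, h3⟩ := hp
  obtain ⟨h1', h2', y', hy', h3'⟩ := hp'
  refine ⟨vB h1 h1' ha hb hab, ?_, ?_⟩
  · simp only [Prod.snd_add, Prod.smul_snd, smul_eq_mul]
    positivity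
  · have hk : 0 < 1 + 2 * (a * p.2 + b * p'.2) := by positivity
    have hk1 : 0 ≤ a * (1 + 2 * p.2) / (1 + 2 * (a * p.2 + b * p'.2)) := by positivity
    have hk2 : 0 ≤ b * (1 + 2 * p'.2) / (1 + 2 * (a * p.2 + b * p'.2)) := by positivity
    have hk3 : a * (1 + 2 * p.2) / (1 + 2 * (a * p.2 + b * p'.2))
        + b * (1 + 2 * p'.2) / (1 + 2 * (a * p.2 + b * p'.2)) = 1 := by
      rw [← add_div, div_eq_one_iff_eq hk.ne']
      linear_combination hab
    refine ⟨_, vF hy hy' hk1 hk2 hk3, ?_⟩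
    simp only [Prod.fst_add, Prod.smul_fst, Prod.snd_add, Prod.smul_snd, smul_eq_mul, h3, h3']
    rw [smul_add, smul_smul, smul_smul, smul_smul, smul_smul]
    congr 2 <;> field_simp

/-- section bound (L1), valid at every height -/
theorem Win.ell1 (w : Win F G Gt B ω H e T c) {q A : ℝ} (hq0 : 0 ≤ q) (hqT : q ≤ T)
    (hq : A + gam e ω c * q ≤ sec F (1 - T + q))
    (h1 : (8 / 9) * T * wL e c ≤ A) (h2 : (8 / 9) * T * wL e c ≤ A + gam e ω c * T)
    {h s : ℝ} (hh : 0 ≤ h) (hs : 0 < s) (hsT : s ≤ h * T)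
    (hne : ∃ x : ℝ, ((x, 1 + 2 * h - h * T + s) : P2) ∈ slice F B h) :
    sec (slice F B h) (1 + 2 * h - h * T + s) ≤ (1 + h) * wL e c - h * A - gam e ω c * s ∧
    0 ≤ (1 + h) * wL e c - h * A - gam e ω c * s := by
  have hT0 : 0 ≤ T := hq0.trans hqT
  have hTe : 3 / 2 < T := by
    obtain ⟨y, hy, hy2⟩ := w.e1
    have h3 : y ∈ F := by
      rw [w.hG] at hy
      exact hy.1
    have := w.T2 y h3
    linarith [w.e_gt]
  have hgood : h * T ≤ 9 / 8 * (1 + h) := by
    by_contra hcon
    push Not at hcon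
    -- the critical height
    have hD : 0 < 8 * T - 9 := by linarith
    obtain ⟨k, hk⟩ : ∃ k : ℝ, k = 9 / (8 * T - 9) := ⟨_, rfl⟩
    have hk0 : 0 < k := by rw [hk]; positivity
    have hkT : k * T = 9 / 8 * (1 + k) := by
      rw [hk]
      field_simp
      ring
    have hkh : k < h := by
      rw [hk, div_lt_iff₀ hD]
      nlinarith
    have hh0 : 0 < h := hk0.trans hkh
    obtain ⟨x, hx⟩ := hne
    -- points at height k
    have hpt : ∀ x0 : ℝ, 0 ≤ x0 → x0 ≤ ω →
        (((1 - k / h) * x0 + k / h * x, 1 + 2 * k - k * T + k / h * s) : P2) ∈ slice F B k := by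
      intro x0 hx0 hx0'
      have ha : (((x0, 1), 0) : P2 × ℝ) ∈ Xs F B := by
        refine ⟨?_, le_rfl, (x0, 1), w.winF x0 hx0 hx0', ?_⟩
        · have := (w.win x0).2 ⟨hx0, hx0'⟩
          rw [w.hGt] at this
          exact this
        · simp
      have hb := Xs_convex w.vF w.vB ha hx
        (by rw [sub_nonneg]; exact (div_le_one hh0).2 hkh.le : (0 : ℝ) ≤ 1 - k / h)
        (by positivity : (0 : ℝ) ≤ k / h) (by ring)
      have hc : (1 - k / h) • (((x0, 1), 0) : P2 × ℝ) + (k / h) • (((x, 1 + 2 * h - h * T + s), h) : P2 × ℝ)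
          = ((((1 - k / h) * x0 + k / h * x, 1 + 2 * k - k * T + k / h * s), k) : P2 × ℝ) := by
        refine Prod.ext (Prod.ext ?_ ?_) ?_
        · simp
        · simp only [Prod.fst_add, Prod.snd_add, Prod.smul_fst, Prod.smul_snd, smul_eq_mul]
          field_simp
          ring
        · simp only [Prod.snd_add, Prod.smul_snd, smul_eq_mul]
          field_simp
          ring
      rw [hc] at hb
      exact hb
    have hk1 := w.ell1_aux hq0 hqT hq hk0.le (s := k / h * s)
      (by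
        have : 0 ≤ k / h * s := by positivity
        nlinarith [mul_le_mul_of_nonneg_left hqT hk0.le])
      ⟨_, hpt 0 le_rfl w.ω0.le⟩
    -- lower bound of the section
    have hlow : (1 - k / h) * ω ≤ sec (slice F B k) (1 + 2 * k - k * T + k / h * s) := by
      have hlam : 0 < 1 - k / h := by
        rw [sub_pos]
        exact (div_lt_one hh0).2 hkh
      have hsub : Icc (k / h * x) (k / h * x + (1 - k / h) * ω)
          ⊆ {z : ℝ | ((z, 1 + 2 * k - k * T + k / h * s) : P2) ∈ slice F B k} := by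
        rintro z ⟨hz1, hz2⟩
        have := hpt ((z - k / h * x) / (1 - k / h)) (by apply div_nonneg <;> linarith)
          ((div_le_iff₀ hlam).2 (by linarith))
        have hz : (1 - k / h) * ((z - k / h * x) / (1 - k / h)) + k / h * x = z := by
          rw [mul_div_cancel₀ _ hlam.ne']
          ring
        rw [hz] at this
        exact this
      have hfin : volume {z : ℝ | ((z, 1 + 2 * k - k * T + k / h * s) : P2) ∈ slice F B k} ≠ ⊤ := by
        have hb : Bornology.IsBounded {z : ℝ | ((z, 1 + 2 * k - k * T + k / h * s) : P2) ∈ slice F B k} := by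
          have := ((slice_compact w.cF w.cB k).image (continuous_fst : Continuous (Prod.fst : P2 → ℝ))).isBounded
          refine this.subset ?_
          intro z hz
          exact ⟨_, hz, rfl⟩
        exact hb.measure_lt_top.ne
      have hm := ENNReal.toReal_mono hfin (measure_mono hsub)
      rw [Real.volume_Icc, ENNReal.toReal_ofReal (by nlinarith [w.ω0, hlam])] at hm
      unfold sec
      linarith
    have hlam : 0 < 1 - k / h := by
      rw [sub_pos]
      exact (div_lt_one hh0).2 hkh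
    have hpos : 0 < (1 - k / h) * ω := mul_pos hlam w.ω0
    -- upper bound is nonpositive
    have hs1 : 0 < k / h * s := by positivity
    have hs2 : k / h * s ≤ k * T := by
      have : k / h * s ≤ k / h * (h * T) := mul_le_mul_of_nonneg_left hsT (by positivity)
      have h5 : k / h * (h * T) = k * T := by field_simp
      linarith
    have hup : (1 + k) * wL e c - k * A - gam e ω c * (k / h * s) ≤ 0 := by
      obtain ⟨r, hr⟩ : ∃ r : ℝ, r = k / h * s := ⟨_, rfl⟩
      rw [← hr] at hs1 hs2 ⊢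
      have h5 : (1 + k) * wL e c = k * (8 / 9 * T * wL e c) := by
        linear_combination (-(8 / 9) * wL e c) * hkT
      rw [h5]
      have hTpos : 0 < T := by linarith
      -- `A + g r / k` is between `A` and `A + g T`
      have h6 : k * T * (8 / 9 * T * wL e c) ≤ k * T * A + T * (gam e ω c * r) := by
        nlinarith [mul_le_mul_of_nonneg_left h1 (by linarith : (0 : ℝ) ≤ k * T - r),
          mul_le_mul_of_nonneg_left h2 hs1.le]
      have h7 : T * (k * (8 / 9 * T * wL e c) - k * A - gam e ω c * r) ≤ 0 := by nlinarith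
      by_contra h8
      push Not at h8
      linarith [mul_pos hTpos h8]
    linarith
  have hfirst := w.ell1_aux hq0 hqT hq hh (s := s)
    (by nlinarith [mul_le_mul_of_nonneg_left hqT hh]) hne
  exact ⟨hfirst, (ENNReal.toReal_nonneg.trans hfirst)⟩

end Pool.Agent.helper15.PB
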