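import Pool.Agent.helper15.PB.Defs2
import Pool.Agent.helper15.PB.A1a
import Pool.Agent.helper15.PB.A5a
import Pool.Agent.helper15.PB.A5b
import Pool.Agent.helper15.PB.A7a

/-! # `Win.ell2` (module PB-A7b, helper52 for helper15) -/

set_option autoImplicit false
open MeasureTheory Set
open scoped Pointwise

namespace Pool.Agent.helper15.PB

variable {F G Gt : Set P2} {B : Set (P2 × ℝ)} {ω H e T c : ℝ}

/-- second section bound for `γ ≥ 0` -/
theorem Win.ell2 (w : Win F G Gt B ω H e T c) {q A : ℝ} (hq0 : 0 ≤ q) (hqT : q ≤ T)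
    (hq : A + gam e ω c * q ≤ sec F (1 - T + q)) (hg : 0 ≤ gam e ω c)
    (h1 : (8 / 9) * T * wL e c ≤ A) (h2 : (8 / 9) * T * wL e c ≤ A + gam e ω c * T) (h3 : wL e c < A)
    {h s : ℝ} (hh : 0 ≤ h) (hs : 0 < s) (hsT : s ≤ h * T)
    (hne : ∃ x : ℝ, ((x, 1 + 2 * h - h * T + s) : P2) ∈ slice F B h) :
    sec (slice F B h) (1 + 2 * h - h * T + s) ≤ (1 + h) * ω - (A / T + gam e ω c) * s ∧
    0 ≤ (1 + h) * ω - (A / T + gam e ω c) * s ∧
    h * A ≤ (1 + h) * wL e c := by
  -- positivity facts
  have hTpos : 0 < T := by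
    by_contra hcon
    push Not at hcon
    have : h * T ≤ 0 := mul_nonpos_of_nonneg_of_nonpos hh hcon
    linarith
  have hhpos : 0 < h := by
    rcases hh.lt_or_eq with h' | h'
    · exact h'
    · exfalso; rw [← h'] at hsT; linarith
  have h1h : 0 < 1 + h := by linarith
  have hwL : 0 ≤ wL e c := by
    have h0 := w.gt_mid (d := 0) le_rfl (by norm_num)
    have h0' := sec_nonneg Gt (1 - 0)
    linarith
  have hApos : 0 < A := lt_of_le_of_lt hwL h3
  -- the third claim
  have hthird : h * A ≤ (1 + h) * wL e c := by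
    have h0 := (w.ell1 hq0 hqT hq h1 h2 hh hs hsT hne).2
    have : 0 ≤ gam e ω c * s := mul_nonneg hg hs.le
    linarith
  -- the main bound
  have hmain : sec (slice F B h) (1 + 2 * h - h * T + s) ≤ (1 + h) * ω - (A / T + gam e ω c) * s := by
    rcases le_total (s / h) q with hc | hc
    · -- `q' = s / h ≤ q`
      set q' := s / h with hq'
      have hq'pos : 0 < q' := div_pos hs hhpos
      have hqpos : 0 < q := lt_of_lt_of_le hq'pos hc
      have hhq' : h * q' = s := by rw [hq']; field_simp
      obtain ⟨hne1, hin⟩ := w.slice_ineq (q := q') hh hq'pos.le (hc.trans hqT) hne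
      have hlev : (1 + 2 * h - h * T + s - h * (1 - T + q')) / (1 + h) = 1 := by
        rw [div_eq_one_iff_eq h1h.ne']
        linarith
      rw [hlev] at hne1 hin
      have hG1 := w.gt_above le_rfl hne1
      -- concavity
      have hconc := sec_concave w.cF w.vF
      have hlevT : (1 - T) ∈ {u | ∃ x, ((x, u) : P2) ∈ F} := by
        obtain ⟨y, hy, hy2⟩ := w.T1
        exact ⟨y.1, by rw [← hy2]; exact hy⟩
      have hlev1 : (1 : ℝ) ∈ {u | ∃ x, ((x, u) : P2) ∈ F} :=
        ⟨0, w.winF 0 le_rfl w.ω0.le⟩
      have hlevq : (1 - T + q) ∈ {u | ∃ x, ((x, u) : P2) ∈ F} := by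
        have hc1 := hconc.1 hlevT hlev1 (show 0 ≤ 1 - q / T by
          rw [sub_nonneg, div_le_one hTpos]; exact hqT) (show 0 ≤ q / T by positivity) (by ring)
        have : (1 - q / T) • (1 - T) + (q / T) • (1 : ℝ) = 1 - T + q := by
          simp only [smul_eq_mul]; field_simp; ring
        rwa [this] at hc1
      have hcc := hconc.2 hlevT hlevq (show 0 ≤ 1 - q' / q by
        rw [sub_nonneg, div_le_one hqpos]; exact hc) (show 0 ≤ q' / q by positivity) (by ring)
      have hpt : (1 - q' / q) • (1 - T) + (q' / q) • (1 - T + q) = 1 - T + q' := by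
        simp only [smul_eq_mul]; field_simp; ring
      rw [hpt] at hcc
      simp only [smul_eq_mul] at hcc
      have hnn : 0 ≤ (1 - q' / q) * sec F (1 - T) :=
        mul_nonneg (by rw [sub_nonneg, div_le_one hqpos]; exact hc) (sec_nonneg _ _)
      have hb : (q' / q) * (A + gam e ω c * q) ≤ (q' / q) * sec F (1 - T + q) :=
        mul_le_mul_of_nonneg_left hq (by positivity)
      have hb2 : (A / T + gam e ω c) * q' ≤ (q' / q) * (A + gam e ω c * q) := by
        have e1 : (q' / q) * (A + gam e ω c * q) = (A / q + gam e ω c) * q' := by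
          field_simp
        rw [e1]
        apply mul_le_mul_of_nonneg_right _ hq'pos.le
        have : A / T ≤ A / q := div_le_div_of_nonneg_left hApos.le hqpos hqT
        linarith
      have hb3 : h * ((A / T + gam e ω c) * q') ≤ h * sec F (1 - T + q') :=
        mul_le_mul_of_nonneg_left (by linarith) hh
      have hb4 : h * ((A / T + gam e ω c) * q') = (A / T + gam e ω c) * s := by
        rw [← hhq']; ring
      have hb5 : (1 + h) * sec Gt 1 ≤ (1 + h) * ω :=
        mul_le_mul_of_nonneg_left (by linarith) h1h.le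
      linarith
    · -- `q ≤ s / h`
      have hhq : h * q ≤ s := by
        rw [le_div_iff₀ hhpos] at hc
        linarith
      obtain ⟨hne1, hin⟩ := w.slice_ineq (q := q) hh hq0 hqT hne
      have hlev : (1 + 2 * h - h * T + s - h * (1 - T + q)) / (1 + h) = 1 + (s - h * q) / (1 + h) := by
        field_simp; ring
      rw [hlev] at hne1 hin
      have hge : (1 : ℝ) ≤ 1 + (s - h * q) / (1 + h) := by
        have : 0 ≤ (s - h * q) / (1 + h) := div_nonneg (by linarith) h1h.le
        linarith
      have hG1 := w.gt_above hge hne1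
      have hb5 := mul_le_mul_of_nonneg_left hG1 h1h.le
      have e1 : (1 + h) * (ω + gam e ω c * (1 - (1 + (s - h * q) / (1 + h)))) =
          (1 + h) * ω - gam e ω c * (s - h * q) := by
        field_simp; ring
      rw [e1] at hb5
      have hb := mul_le_mul_of_nonneg_left hq hh
      have hAT : (A / T) * s ≤ h * A := by
        have := mul_le_mul_of_nonneg_left hsT (div_nonneg hApos.le hTpos.le)
        have e2 : A / T * (h * T) = h * A := by field_simp
        linarith
      nlinarith [hin, hb5, hb, hAT]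
  exact ⟨hmain, le_trans (sec_nonneg _ _) hmain, hthird⟩

end Pool.Agent.helper15.PB
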