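import Mathlib

/-! # The final numerical inequality for MP_0069fb_gt: definitions (helper15) -/

set_option autoImplicit false

namespace Pool.Agent.helper15.PB

/-- the constraints on `(e,T,ω,H,c)` -/
structure NK (e T ω H c : ℝ) : Prop where
  e0 : 3 / 2 < e
  eT : e ≤ T
  T3 : T ≤ 3
  ω0 : 0 < ω
  H0 : 0 ≤ H
  H1 : H ≤ 1 / 3
  HT : 8 * H ≤ ω * (T + H) * (3 + 2 * H - T)
  c0 : 0 ≤ c
  cH : c ≤ ω * H / 2
  ωe : ω * e ^ 2 ≤ 4 * e * (1 - c) - 6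

/-- path constant `C3(t)` -/
noncomputable def C3 (e T ω H t : ℝ) : ℝ :=
  (1 / 2) * ((2 * e / t ^ 2) * (4 * (t - 1) - (ω * H / 2) * t - ω * H ^ 2 / 6)
    + 2 * t / (3 * e) + ω * (T - 2 * t / 3))

/-- path constant `B2` -/
noncomputable def CB (e T ω H : ℝ) : ℝ := (1 / 2) * (T / e + (4 - ω * H / 2) * e / T)

/-- `C` is one of the three candidates -/
def IsC (e T ω H C : ℝ) : Prop :=
  C = C3 e T ω H T ∨ (2 ≤ T ∧ C = C3 e T ω H 2) ∨ C = CB e T ω H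

/-- the slope `γ` -/
noncomputable def gam (e ω c : ℝ) : ℝ := 2 * (1 - c - e * ω) / e ^ 2

/-- `ω_L` -/
noncomputable def wL (e c : ℝ) : ℝ := (4 * e * (1 - c) - 6) / e ^ 2

/-- `A` is one of the four candidates -/
def IsA (T ω H g A : ℝ) : Prop :=
  A = (T * (4 - ω * H / 2) - 4 - ω * H ^ 2 / 6 - g * T ^ 3 / 3) / (T ^ 2 / 2) ∨
  A = ((2 / 3) * T * (4 - ω * H / 2) - 4 - ω * H ^ 2 / 6 - g * T ^ 3 / 6) / (5 * T ^ 2 / 24) ∨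
  A = ((1 / 2) * T * (4 - ω * H / 2) - 4 - ω * H ^ 2 / 6 - g * T ^ 3 / 12) / (3 * T ^ 2 / 32) ∨
  A = 8 / T ^ 2 - g * T / 3

/-- bound `U` for the volume of `X⁺` below the cap -/
def IsU (T ω wl g A U : ℝ) : Prop :=
  U = T * wl ^ 3 / (6 * (A - wl) * (A + g * T - wl)) ∨
  (0 ≤ g ∧ U = ω ^ 2 / (6 * (A / T + g)) * (1 / (1 - wl / A) ^ 3 - 1))

/-- `θ` -/
noncomputable def theta (ω H g : ℝ) : ℝ := (max 0 (-g) * H) / (ω + max 0 (-g) * H)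

/-- `R*` -/
noncomputable def Rst (T ω H g A : ℝ) : ℝ :=
  (1 - theta ω H g) * ((A + g * T) / ω - 1) - 2 * theta ω H g

/-- bound for the volume of the cap part of `X⁺` -/
def IsCap (T ω H c g A V : ℝ) : Prop :=
  ((H = 0 ∨ c = 0) ∧ V = 0) ∨
  (0 < Rst T ω H g A ∧ V = c * ((1 + 2 / Rst T ω H g A) ^ 3 - 1) / 6) ∨
  (0 < Rst T ω H g A ∧ V = (ω * H / 3) * (1 + Rst T ω H g A) / (Rst T ω H g A) ^ 2)

/-- small-window condition -/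
def ECond (e T ω H : ℝ) : Prop :=
  0 < 1 - ω * H / 2 - e * ω ∧ ∃ C ε : ℝ, IsC e T ω H C ∧
    ε = ω ^ 2 * e ^ 2 / (4 * (1 - ω * H / 2 - e * ω)) ∧ ε ≤ 0.08 ∧ 1 + ε < C ∧
    (1 + ε) ^ 2 ≤ (1 - 3.3 * ε) * (C - 1 - ε)

/-- larger-window condition -/
def SCond (e T ω H c : ℝ) : Prop :=
  ∃ C A U V : ℝ, IsC e T ω H C ∧ 2.05 ≤ C ∧ IsA T ω H (gam e ω c) A ∧
    (8 / 9) * T * wL e c ≤ A ∧ (8 / 9) * T * wL e c ≤ A + gam e ω c * T ∧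
    wL e c < A ∧ wL e c < A + gam e ω c * T ∧
    IsU T ω (wL e c) (gam e ω c) A U ∧ IsCap T ω H c (gam e ω c) A V ∧
    (1 / 6) / (C - 1) + (U + V) ≤ 1 / 6

end Pool.Agent.helper15.PB
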