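import Pool.Agent.helper15.PB.Defs2
import Pool.Agent.helper15.PB.NumDefs
import Pool.Agent.helper15.PB.A1a
import Pool.Agent.helper15.PB.A1b
import Pool.Agent.helper15.PB.A5a
import Pool.Agent.helper15.PB.A7b

set_option autoImplicit false
open MeasureTheory Set
open scoped Pointwise

/-! # A7c: Tonelli bound and the volume of the part of `X⁺` below the cap (helper51) -/

namespace Pool.Agent.helper15.PB

variable {F G Gt : Set P2} {B : Set (P2 × ℝ)} {ω H e T c : ℝ}

/-- Tonelli bound -/
theorem volume_le_lintegral_sec {X : Set (P2 × ℝ)} (hX : MeasurableSet X) (φ : ℝ → ℝ → ENNReal)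
    (hφ : Measurable (Function.uncurry φ))
    (h : ∀ t u : ℝ, volume {x : ℝ | (((x, u), t) : P2 × ℝ) ∈ X} ≤ φ t u) :
    volume X ≤ ∫⁻ t, ∫⁻ u, φ t u := by
  have h1 : volume X = ∫⁻ t, volume ((fun y : P2 => ((y, t) : P2 × ℝ)) ⁻¹' X) := by
    rw [show (volume : Measure (P2 × ℝ)) = (volume : Measure P2).prod (volume : Measure ℝ) from rfl,
      Measure.prod_apply_symm hX]
  rw [h1]
  refine lintegral_mono fun t => ?_
  have hm : MeasurableSet ((fun y : P2 => ((y, t) : P2 × ℝ)) ⁻¹' X) := hX.preimage measurable_prodMk_right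
  have h2 : volume ((fun y : P2 => ((y, t) : P2 × ℝ)) ⁻¹' X) =
      ∫⁻ u, volume ((fun x : ℝ => ((x, u) : P2)) ⁻¹' ((fun y : P2 => ((y, t) : P2 × ℝ)) ⁻¹' X)) := by
    rw [show (volume : Measure P2) = (volume : Measure ℝ).prod (volume : Measure ℝ) from rfl,
      Measure.prod_apply_symm hm]
  rw [h2]
  exact lintegral_mono fun u => h t u

/-! ### tools -/

theorem a7_lint_Ioc {f : ℝ → ℝ} {a b : ℝ} (hab : a ≤ b) (hf : ContinuousOn f (Icc a b))
    (h0 : ∀ x ∈ Icc a b, 0 ≤ f x) :
    ∫⁻ x in Ioc a b, ENNReal.ofReal (f x) = ENNReal.ofReal (∫ x in a..b, f x) := by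
  rw [intervalIntegral.integral_of_le hab, ofReal_integral_eq_lintegral_ofReal]
  · exact hf.integrableOn_Icc.mono_set Ioc_subset_Icc_self
  · exact (ae_restrict_iff' measurableSet_Ioc).2 (ae_of_all _ fun x hx => h0 x (Ioc_subset_Icc_self hx))

/-- substitution `u = a + κ r` -/
theorem a7_lint_sub {f : ℝ → ENNReal} {a κ : ℝ} (hκ : 0 < κ) (hf : Measurable f) :
    ∫⁻ u in Ioc a (a + κ), f u = ENNReal.ofReal κ * ∫⁻ r in Ioc (0:ℝ) 1, f (a + κ * r) := by
  have h1 : ∫⁻ u in Ioc a (a + κ), f u = ∫⁻ u, (Ioc a (a + κ)).indicator f u := by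
    rw [lintegral_indicator measurableSet_Ioc]
  have h2 : ∫⁻ r in Ioc (0:ℝ) 1, f (a + κ * r) =
      ∫⁻ r, (Ioc a (a + κ)).indicator f (a + κ * r) := by
    rw [← lintegral_indicator measurableSet_Ioc]
    refine lintegral_congr fun r => ?_
    by_cases hr : r ∈ Ioc (0:ℝ) 1
    · rw [indicator_of_mem hr, indicator_of_mem]
      constructor
      · have := mul_pos hκ hr.1; linarith
      · have := mul_le_mul_of_nonneg_left hr.2 hκ.le; linarith
    · rw [indicator_of_notMem hr, indicator_of_notMem]
      rintro ⟨h3, h4⟩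
      apply hr
      constructor
      · by_contra h5
        push Not at h5
        have := mul_nonpos_of_nonneg_of_nonpos hκ.le h5
        linarith
      · by_contra h5
        push Not at h5
        have := mul_lt_mul_of_pos_left h5 hκ
        linarith
  have hg : Measurable ((Ioc a (a + κ)).indicator f) := hf.indicator measurableSet_Ioc
  have h3 : ∫⁻ r, (Ioc a (a + κ)).indicator f (a + κ * r) =
      ∫⁻ y, (Ioc a (a + κ)).indicator f (a + y) ∂(Measure.map (κ * ·) volume) := by
    rw [lintegral_map (f := fun y => (Ioc a (a + κ)).indicator f (a + y)) (hg.comp (measurable_const_add a))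
      (measurable_const_mul κ)]
  rw [h1, h2, h3, Real.map_volume_mul_left hκ.ne', lintegral_smul_measure,
    lintegral_add_left_eq_self (fun y => (Ioc a (a + κ)).indicator f y) a, smul_eq_mul, ← mul_assoc,
    ← ENNReal.ofReal_mul hκ.le, abs_of_pos (inv_pos.2 hκ), mul_inv_cancel₀ hκ.ne', ENNReal.ofReal_one,
    one_mul]

/-- integral of the positive part of a linear function -/
theorem a7_lint_tri {v κ a : ℝ} (hv : 0 ≤ v) (hκ : 0 < κ) :
    ∫⁻ u in Ioi a, ENNReal.ofReal (v - κ * (u - a)) = ENNReal.ofReal (v ^ 2 / (2 * κ)) := by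
  have hvk : 0 ≤ v / κ := div_nonneg hv hκ.le
  have h1 : ∫⁻ u in Ioi a, ENNReal.ofReal (v - κ * (u - a)) =
      ∫⁻ u in Ioc a (a + v / κ), ENNReal.ofReal (v - κ * (u - a)) := by
    rw [← lintegral_indicator measurableSet_Ioi, ← lintegral_indicator measurableSet_Ioc]
    refine lintegral_congr fun u => ?_
    by_cases hu : u ∈ Ioc a (a + v / κ)
    · rw [indicator_of_mem hu, indicator_of_mem (show u ∈ Ioi a from hu.1)]
    · rw [indicator_of_notMem hu]
      by_cases hu2 : u ∈ Ioi a
      · rw [indicator_of_mem hu2]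
        apply ENNReal.ofReal_of_nonpos
        have h3 : a + v / κ < u := by
          by_contra h4
          push Not at h4
          exact hu ⟨hu2, h4⟩
        have h4 : v / κ < u - a := by linarith
        rw [div_lt_iff₀ hκ] at h4
        nlinarith
      · rw [indicator_of_notMem hu2]
  rw [h1, a7_lint_Ioc (by linarith) (by fun_prop)]
  · congr 1
    have h2 : ∀ u ∈ uIcc a (a + v / κ), HasDerivAt (fun u => v * (u - a) - κ * (u - a) ^ 2 / 2)
        (v - κ * (u - a)) u := by
      intro u _
      have h3 : HasDerivAt (fun u => v * (u - a) - κ * (u - a) ^ 2 / 2)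
          (v * 1 - κ * (2 * (u - a) ^ 1 * 1) / 2) u :=
        (((hasDerivAt_id u).sub_const a).const_mul v).sub
          (((((hasDerivAt_id u).sub_const a).pow 2).const_mul κ).div_const 2)
      convert h3 using 1
      ring
    rw [intervalIntegral.integral_eq_sub_of_hasDerivAt h2 (by
      apply Continuous.intervalIntegrable; fun_prop)]
    field_simp
    ring
  · intro x hx
    have h3 : x - a ≤ v / κ := by linarith [hx.2]
    rw [le_div_iff₀ hκ] at h3
    linarith [mul_comm κ (x - a)]

/-- `∫_0^∞ (h T)(v - h b)_+ dh` -/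
theorem a7_lint_hT {v b T : ℝ} (hv : 0 ≤ v) (hb : 0 < b) (hT : 0 ≤ T) :
    ∫⁻ h in Ioi (0:ℝ), ENNReal.ofReal (h * T) * ENNReal.ofReal (v - h * b) =
      ENNReal.ofReal (T * v ^ 3 / (6 * b ^ 2)) := by
  have hvk : 0 ≤ v / b := div_nonneg hv hb.le
  have h1 : ∫⁻ h in Ioi (0:ℝ), ENNReal.ofReal (h * T) * ENNReal.ofReal (v - h * b) =
      ∫⁻ h in Ioc 0 (v / b), ENNReal.ofReal (h * T * (v - h * b)) := by
    rw [← lintegral_indicator measurableSet_Ioi, ← lintegral_indicator measurableSet_Ioc]
    refine lintegral_congr fun u => ?_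
    by_cases hu : u ∈ Ioc 0 (v / b)
    · rw [indicator_of_mem hu, indicator_of_mem (show u ∈ Ioi (0:ℝ) from hu.1),
        ENNReal.ofReal_mul (mul_nonneg hu.1.le hT)]
    · rw [indicator_of_notMem hu]
      by_cases hu2 : u ∈ Ioi (0:ℝ)
      · rw [indicator_of_mem hu2]
        have h3 : v / b < u := by
          by_contra h4
          push Not at h4
          exact hu ⟨hu2, h4⟩
        rw [div_lt_iff₀ hb] at h3
        rw [ENNReal.ofReal_of_nonpos (by linarith : v - u * b ≤ 0), mul_zero]
      · rw [indicator_of_notMem hu2]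
  rw [h1, a7_lint_Ioc hvk (by fun_prop)]
  · congr 1
    have h2 : ∀ u ∈ uIcc 0 (v / b), HasDerivAt (fun u => T * v * u ^ 2 / 2 - T * b * u ^ 3 / 3)
        (u * T * (v - u * b)) u := by
      intro u _
      have h3 : HasDerivAt (fun u => T * v * u ^ 2 / 2 - T * b * u ^ 3 / 3)
          (T * v * (((2 : ℕ) : ℝ) * u ^ (2 - 1)) / 2 - T * b * (((3 : ℕ) : ℝ) * u ^ (3 - 1)) / 3) u :=
        (((hasDerivAt_pow 2 u).const_mul (T * v)).div_const 2).sub
          (((hasDerivAt_pow 3 u).const_mul (T * b)).div_const 3)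
      convert h3 using 1
      push_cast
      ring
    rw [intervalIntegral.integral_eq_sub_of_hasDerivAt h2 (by
      apply Continuous.intervalIntegrable; fun_prop)]
    field_simp
    ring
  · intro x hx
    have h3 : x ≤ v / b := hx.2
    rw [le_div_iff₀ hb] at h3
    exact mul_nonneg (mul_nonneg hx.1 hT) (by linarith)

/-- `∫_0^1 dr / (b0 + d r)^2` -/
theorem a7_int_inv {K b0 b1 : ℝ} (h0 : 0 < b0) (h1 : 0 < b1) :
    ∫ r in (0:ℝ)..1, K / (b0 + (b1 - b0) * r) ^ 2 = K / (b0 * b1) := by
  have hpos : ∀ r ∈ uIcc (0:ℝ) 1, 0 < b0 + (b1 - b0) * r := by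
    intro r hr
    rw [uIcc_of_le zero_le_one] at hr
    have e1 : b0 + (b1 - b0) * r = (1 - r) * b0 + r * b1 := by ring
    rw [e1]
    rcases eq_or_lt_of_le hr.1 with h | h
    · rw [← h]; simpa using h0
    · have := mul_pos h h1
      have := mul_nonneg (sub_nonneg.2 hr.2) h0.le
      linarith
  have h2 : ∀ r ∈ uIcc (0:ℝ) 1, HasDerivAt (fun r => K / b0 * (r / (b0 + (b1 - b0) * r)))
      (K / (b0 + (b1 - b0) * r) ^ 2) r := by
    intro r hr
    have hp := hpos r hr
    have hd : HasDerivAt (fun r => b0 + (b1 - b0) * r) (b1 - b0) r := by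
      have := ((hasDerivAt_id r).const_mul (b1 - b0)).const_add b0
      simpa using this
    have h3 : HasDerivAt (fun r => K / b0 * (r / (b0 + (b1 - b0) * r)))
        (K / b0 * ((1 * (b0 + (b1 - b0) * r) - r * (b1 - b0)) / (b0 + (b1 - b0) * r) ^ 2)) r :=
      (((hasDerivAt_id r).div hd hp.ne').const_mul (K / b0))
    convert h3 using 1
    have e2 : 1 * (b0 + (b1 - b0) * r) - r * (b1 - b0) = b0 := by ring
    rw [e2, div_mul_div_comm, mul_comm b0, mul_div_mul_right _ _ h0.ne']
  rw [intervalIntegral.integral_eq_sub_of_hasDerivAt h2]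
  · have e : b0 + (b1 - b0) * 1 = b1 := by ring
    rw [e, zero_div, mul_zero, sub_zero, div_mul_div_comm, mul_one]
  · apply ContinuousOn.intervalIntegrable
    apply ContinuousOn.div continuousOn_const (by fun_prop)
    intro r hr
    exact pow_ne_zero 2 (hpos r hr).ne'

/-! ### measurability -/

theorem Win.xs_meas (w : Win F G Gt B ω H e T c) : MeasurableSet (Xs F B) := by
  have h1 : Xs F B = B ∩ ({p | 0 ≤ p.2} ∩ (fun p : P2 × ℝ => (1 + 2 * p.2)⁻¹ • p.1) ⁻¹' F) := by
    ext p
    constructor
    · rintro ⟨hB, h0, y, hy, hp⟩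
      refine ⟨hB, h0, ?_⟩
      have : (1 + 2 * p.2) ≠ 0 := by positivity
      simp only [mem_preimage]
      rw [hp, smul_smul, inv_mul_cancel₀ this, one_smul]
      exact hy
    · rintro ⟨hB, h0, hp⟩
      have h0' : 0 ≤ p.2 := h0
      have : (1 + 2 * p.2) ≠ 0 := by positivity
      refine ⟨hB, h0, _, hp, ?_⟩
      rw [smul_smul, mul_inv_cancel₀ this, one_smul]
  rw [h1]
  refine w.cB.isClosed.measurableSet.inter ((measurableSet_le measurable_const measurable_snd).inter ?_)
  refine w.cF.isClosed.measurableSet.preimage ?_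
  exact ((measurable_const.add (measurable_snd.const_mul 2)).inv).smul measurable_fst

theorem Win.sec_fin (w : Win F G Gt B ω H e T c) (h u : ℝ) :
    volume {x : ℝ | ((x, u) : P2) ∈ slice F B h} ≠ ⊤ := by
  have h1 : IsCompact ((fun p : P2 × ℝ => p.1.1) '' B) := w.cB.image (by fun_prop)
  refine ne_top_of_le_ne_top h1.measure_lt_top.ne (measure_mono ?_)
  intro x hx
  exact ⟨((x, u), h), hx.1, rfl⟩

theorem Win.sec_vol (w : Win F G Gt B ω H e T c) {h u b : ℝ} (hb : sec (slice F B h) u ≤ b) :
    volume {x : ℝ | ((x, u) : P2) ∈ slice F B h} ≤ ENNReal.ofReal b := by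
  rw [← ENNReal.ofReal_toReal (w.sec_fin h u)]
  exact ENNReal.ofReal_le_ofReal hb

/-! ### facts on `wL` -/

theorem Win.wL_ge (w : Win F G Gt B ω H e T c) : ω ≤ wL e c := by
  have he := w.e_gt
  have h1 := w.g_bound le_rfl (by linarith : (0:ℝ) ≤ e)
  have h2 := w.secG_one
  rw [sub_zero, h2] at h1
  unfold wL
  rw [le_div_iff₀ (by positivity)]
  linarith

theorem Win.T_pos (w : Win F G Gt B ω H e T c) : 0 < T := by
  have he := w.e_gt
  obtain ⟨y, hy, hy2⟩ := w.e1
  have h1 : y ∈ F := by
    have := hy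
    rw [w.hG] at this
    exact this.1
  have h2 := w.T2 y h1
  linarith

theorem Win.vol_Xp1 (w : Win F G Gt B ω H e T c) {q A U : ℝ} (hq0 : 0 ≤ q) (hqT : q ≤ T)
    (hq : A + gam e ω c * q ≤ sec F (1 - T + q))
    (h1 : (8 / 9) * T * wL e c ≤ A) (h2 : (8 / 9) * T * wL e c ≤ A + gam e ω c * T)
    (h3 : wL e c < A) (h4 : wL e c < A + gam e ω c * T)
    (hU : IsU T ω (wL e c) (gam e ω c) A U) : vol3 (Xp1 F B T) ≤ U := by
  have hT := w.T_pos
  have hwl := w.wL_ge
  have hω := w.ω0
  have hX : MeasurableSet (Xp1 F B T) := by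
    have : Xp1 F B T = Xs F B ∩ ({p | 1 + 2 * p.2 - p.2 * T < p.1.2} ∩ {p | p.1.2 ≤ 1 + 2 * p.2}) := rfl
    rw [this]
    refine w.xs_meas.inter ((measurableSet_lt ?_ ?_).inter (measurableSet_le ?_ ?_)) <;> fun_prop
  rcases hU with hU | ⟨hg, hU⟩
  · -- first bound
    set wl := wL e c with hwldef
    set g := gam e ω c with hgdef
    have hb0 : 0 < A - wl := by linarith
    have hb1 : 0 < A + g * T - wl := by linarith
    have hU0 : 0 ≤ U := by
      rw [hU]
      have : 0 ≤ wl := by linarith
      positivity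
    refine ENNReal.toReal_le_of_le_ofReal hU0 ?_
    let R : Set (ℝ × ℝ) := {p | 0 < p.1 ∧ 1 + 2 * p.1 - p.1 * T < p.2 ∧ p.2 ≤ 1 + 2 * p.1}
    have hR : MeasurableSet R := by
      have : R = {p | 0 < p.1} ∩ ({p | 1 + 2 * p.1 - p.1 * T < p.2} ∩ {p | p.2 ≤ 1 + 2 * p.1}) := rfl
      rw [this]
      refine (measurableSet_lt ?_ ?_).inter ((measurableSet_lt ?_ ?_).inter (measurableSet_le ?_ ?_)) <;>
        fun_prop
    let φ : ℝ → ℝ → ENNReal := fun t u =>
      R.indicator (fun p : ℝ × ℝ => ENNReal.ofReal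
        ((1 + p.1) * wl - p.1 * A - g * (p.2 - (1 + 2 * p.1 - p.1 * T)))) (t, u)
    have hφ : Measurable (Function.uncurry φ) := by
      have : Function.uncurry φ = R.indicator (fun p : ℝ × ℝ => ENNReal.ofReal
        ((1 + p.1) * wl - p.1 * A - g * (p.2 - (1 + 2 * p.1 - p.1 * T)))) := by
        ext ⟨t, u⟩; rfl
      rw [this]
      exact Measurable.indicator (by fun_prop) hR
    have hbd : ∀ t u : ℝ, volume {x : ℝ | (((x, u), t) : P2 × ℝ) ∈ Xp1 F B T} ≤ φ t u := by
      intro t u
      by_cases hne : ∃ x : ℝ, (((x, u), t) : P2 × ℝ) ∈ Xp1 F B T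
      · obtain ⟨x, hx, hx1, hx2⟩ := hne
        have ht : 0 ≤ t := hx.2.1
        simp only at hx1 hx2
        have ht0 : 0 < t := by
          rcases eq_or_lt_of_le ht with h | h
          · subst h
            simp only [mul_zero, zero_mul, add_zero, sub_zero] at hx1 hx2
            linarith
          · exact h
        have hmem : ((t, u) : ℝ × ℝ) ∈ R := ⟨ht0, hx1, hx2⟩
        have hu : u = 1 + 2 * t - t * T + (u - (1 + 2 * t - t * T)) := by ring
        have hl := w.ell1 hq0 hqT hq h1 h2 ht (s := u - (1 + 2 * t - t * T)) (by linarith) (by linarith)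
          ⟨x, by rw [← hu]; exact hx⟩
        rw [← hu] at hl
        show _ ≤ R.indicator _ (t, u)
        rw [indicator_of_mem hmem]
        refine (measure_mono ?_).trans (w.sec_vol hl.1)
        intro x' hx'
        exact hx'.1
      · have : {x : ℝ | (((x, u), t) : P2 × ℝ) ∈ Xp1 F B T} = ∅ := by
          rw [eq_empty_iff_forall_notMem]
          intro x hx
          exact hne ⟨x, hx⟩
        rw [this, measure_empty]
        exact bot_le
    refine (volume_le_lintegral_sec hX φ hφ hbd).trans ?_
    have hin : ∀ t, ∫⁻ u, φ t u = (Ioi (0:ℝ)).indicator (fun t => ∫⁻ r in Ioc (0:ℝ) 1,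
        ENNReal.ofReal (t * T) * ENNReal.ofReal (wl - t * ((A - wl) + (A + g * T - wl - (A - wl)) * r))) t := by
      intro t
      by_cases ht : t ∈ Ioi (0:ℝ)
      · rw [indicator_of_mem ht]
        have ht' : 0 < t := ht
        have hκ : 0 < t * T := mul_pos ht' hT
        have e1 : ∫⁻ u, φ t u = ∫⁻ u in Ioc (1 + 2 * t - t * T) (1 + 2 * t - t * T + t * T),
            ENNReal.ofReal ((1 + t) * wl - t * A - g * (u - (1 + 2 * t - t * T))) := by
          rw [← lintegral_indicator measurableSet_Ioc]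
          refine lintegral_congr fun u => ?_
          show R.indicator _ (t, u) = _
          by_cases hm : ((t, u) : ℝ × ℝ) ∈ R
          · rw [indicator_of_mem hm, indicator_of_mem]
            exact ⟨hm.2.1, by have := hm.2.2; simp only at this; linarith⟩
          · rw [indicator_of_notMem hm, indicator_of_notMem]
            intro h5
            exact hm ⟨ht', h5.1, by have := h5.2; simp only; linarith⟩
        rw [e1, a7_lint_sub hκ (by fun_prop), ← lintegral_const_mul _ (by fun_prop)]
        refine lintegral_congr fun r => ?_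
        congr 2
        ring
      · rw [indicator_of_notMem ht]
        have : ∀ u, φ t u = 0 := by
          intro u
          show R.indicator _ (t, u) = 0
          rw [indicator_of_notMem]
          intro h5
          exact ht h5.1
        simp [this]
    rw [lintegral_congr hin, lintegral_indicator measurableSet_Ioi, lintegral_lintegral_swap (by
      apply Measurable.aemeasurable
      fun_prop)]
    have e2 : ∫⁻ r in Ioc (0:ℝ) 1, ∫⁻ t in Ioi (0:ℝ), ENNReal.ofReal (t * T) *
        ENNReal.ofReal (wl - t * ((A - wl) + (A + g * T - wl - (A - wl)) * r)) =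
        ∫⁻ r in Ioc (0:ℝ) 1, ENNReal.ofReal ((T * wl ^ 3 / 6) / ((A - wl) + (A + g * T - wl - (A - wl)) * r) ^ 2) := by
      refine setLIntegral_congr_fun measurableSet_Ioc fun r hr => ?_
      have hbr : 0 < (A - wl) + (A + g * T - wl - (A - wl)) * r := by
        have e3 : (A - wl) + (A + g * T - wl - (A - wl)) * r = (1 - r) * (A - wl) + r * (A + g * T - wl) := by
          ring
        rw [e3]
        have := mul_nonneg (sub_nonneg.2 hr.2) hb0.le
        have := mul_pos hr.1 hb1
        linarith
      rw [a7_lint_hT (by linarith) hbr hT.le]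
      congr 1
      field_simp
    rw [e2]
    have hpos : ∀ r ∈ Icc (0:ℝ) 1, 0 < (A - wl) + (A + g * T - wl - (A - wl)) * r := by
      intro r hr
      have e3 : (A - wl) + (A + g * T - wl - (A - wl)) * r = (1 - r) * (A - wl) + r * (A + g * T - wl) := by
        ring
      rw [e3]
      rcases eq_or_lt_of_le hr.1 with h | h
      · rw [← h]; linarith
      · have := mul_nonneg (sub_nonneg.2 hr.2) hb0.le
        have := mul_pos h hb1
        linarith
    have hwl0 : 0 ≤ wl := by linarith
    rw [a7_lint_Ioc zero_le_one, a7_int_inv hb0 hb1, hU]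
    · apply ENNReal.ofReal_le_ofReal
      apply le_of_eq
      field_simp
    · apply ContinuousOn.div continuousOn_const (by fun_prop)
      intro r hr
      exact pow_ne_zero 2 (hpos r hr).ne'
    · intro r hr
      have := hpos r hr
      positivity
  · -- second bound
    set wl := wL e c with hwldef
    set g := gam e ω c with hgdef
    have hA : 0 < A := by linarith
    have hk : 0 < A / T + g := by positivity
    have hb0 : 0 < A - wl := by linarith
    have hwl0 : 0 < wl := by linarith
    have hm0 : 0 ≤ wl / (A - wl) := by positivity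
    have e0 : 1 / (1 - wl / A) ^ 3 = (1 + wl / (A - wl)) ^ 3 := by
      have e1 : 1 - wl / A = (A - wl) / A := by field_simp
      have e2 : 1 + wl / (A - wl) = A / (A - wl) := by field_simp; ring
      rw [e1, e2]
      field_simp
    have hU0 : 0 ≤ U := by
      rw [hU, e0]
      have : (1:ℝ) ≤ (1 + wl / (A - wl)) ^ 3 := one_le_pow₀ (by linarith)
      have h5 : 0 ≤ ω ^ 2 / (6 * (A / T + g)) := by positivity
      exact mul_nonneg h5 (by linarith)
    refine ENNReal.toReal_le_of_le_ofReal hU0 ?_
    let R : Set (ℝ × ℝ) := {p | 0 < p.1 ∧ p.1 ≤ wl / (A - wl) ∧ 1 + 2 * p.1 - p.1 * T < p.2}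
    have hR : MeasurableSet R := by
      have : R = {p | 0 < p.1} ∩ ({p | p.1 ≤ wl / (A - wl)} ∩ {p | 1 + 2 * p.1 - p.1 * T < p.2}) := rfl
      rw [this]
      refine (measurableSet_lt ?_ ?_).inter ((measurableSet_le ?_ ?_).inter (measurableSet_lt ?_ ?_)) <;>
        fun_prop
    let φ : ℝ → ℝ → ENNReal := fun t u =>
      R.indicator (fun p : ℝ × ℝ => ENNReal.ofReal
        ((1 + p.1) * ω - (A / T + g) * (p.2 - (1 + 2 * p.1 - p.1 * T)))) (t, u)
    have hφ : Measurable (Function.uncurry φ) := by
      have : Function.uncurry φ = R.indicator (fun p : ℝ × ℝ => ENNReal.ofReal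
        ((1 + p.1) * ω - (A / T + g) * (p.2 - (1 + 2 * p.1 - p.1 * T)))) := by
        ext ⟨t, u⟩; rfl
      rw [this]
      exact Measurable.indicator (by fun_prop) hR
    have hbd : ∀ t u : ℝ, volume {x : ℝ | (((x, u), t) : P2 × ℝ) ∈ Xp1 F B T} ≤ φ t u := by
      intro t u
      by_cases hne : ∃ x : ℝ, (((x, u), t) : P2 × ℝ) ∈ Xp1 F B T
      · obtain ⟨x, hx, hx1, hx2⟩ := hne
        have ht : 0 ≤ t := hx.2.1
        simp only at hx1 hx2
        have ht0 : 0 < t := by
          rcases eq_or_lt_of_le ht with h | h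
          · subst h
            simp only [mul_zero, zero_mul, add_zero, sub_zero] at hx1 hx2
            linarith
          · exact h
        have hu : u = 1 + 2 * t - t * T + (u - (1 + 2 * t - t * T)) := by ring
        have hl := w.ell2 hq0 hqT hq hg h1 h2 h3 ht (s := u - (1 + 2 * t - t * T)) (by linarith) (by linarith)
          ⟨x, by rw [← hu]; exact hx⟩
        rw [← hu] at hl
        have hmem : ((t, u) : ℝ × ℝ) ∈ R := by
          refine ⟨ht0, ?_, hx1⟩
          simp only
          rw [le_div_iff₀ hb0]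
          linarith [hl.2.2]
        show _ ≤ R.indicator _ (t, u)
        rw [indicator_of_mem hmem]
        refine (measure_mono ?_).trans (w.sec_vol hl.1)
        intro x' hx'
        exact hx'.1
      · have : {x : ℝ | (((x, u), t) : P2 × ℝ) ∈ Xp1 F B T} = ∅ := by
          rw [eq_empty_iff_forall_notMem]
          intro x hx
          exact hne ⟨x, hx⟩
        rw [this, measure_empty]
        exact bot_le
    refine (volume_le_lintegral_sec hX φ hφ hbd).trans ?_
    have hin : ∀ t, ∫⁻ u, φ t u = (Ioc (0:ℝ) (wl / (A - wl))).indicator (fun t =>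
        ENNReal.ofReal (((1 + t) * ω) ^ 2 / (2 * (A / T + g)))) t := by
      intro t
      by_cases ht : t ∈ Ioc (0:ℝ) (wl / (A - wl))
      · rw [indicator_of_mem ht]
        have ht' : 0 < t := ht.1
        have e1 : ∫⁻ u, φ t u = ∫⁻ u in Ioi (1 + 2 * t - t * T),
            ENNReal.ofReal ((1 + t) * ω - (A / T + g) * (u - (1 + 2 * t - t * T))) := by
          rw [← lintegral_indicator measurableSet_Ioi]
          refine lintegral_congr fun u => ?_
          show R.indicator _ (t, u) = _
          by_cases hm : ((t, u) : ℝ × ℝ) ∈ R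
          · rw [indicator_of_mem hm, indicator_of_mem]
            exact hm.2.2
          · rw [indicator_of_notMem hm, indicator_of_notMem]
            intro h5
            exact hm ⟨ht', ht.2, h5⟩
        rw [e1, a7_lint_tri (by positivity) hk]
      · rw [indicator_of_notMem ht]
        have : ∀ u, φ t u = 0 := by
          intro u
          show R.indicator _ (t, u) = 0
          rw [indicator_of_notMem]
          intro h5
          exact ht ⟨h5.1, h5.2.1⟩
        simp [this]
    rw [lintegral_congr hin, lintegral_indicator measurableSet_Ioc, a7_lint_Ioc hm0 (by fun_prop)]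
    · apply ENNReal.ofReal_le_ofReal
      apply le_of_eq
      have h6 : ∀ t ∈ uIcc 0 (wl / (A - wl)), HasDerivAt (fun t => ω ^ 2 / (6 * (A / T + g)) * (1 + t) ^ 3)
          (((1 + t) * ω) ^ 2 / (2 * (A / T + g))) t := by
        intro t _
        have h7 : HasDerivAt (fun t => ω ^ 2 / (6 * (A / T + g)) * (1 + t) ^ 3)
            (ω ^ 2 / (6 * (A / T + g)) * (((3 : ℕ) : ℝ) * (1 + t) ^ (3 - 1) * 1)) t :=
          (((hasDerivAt_id t).const_add 1).pow 3).const_mul _
        convert h7 using 1
        push_cast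
        field_simp
        ring
      rw [intervalIntegral.integral_eq_sub_of_hasDerivAt h6 (by
        apply Continuous.intervalIntegrable; fun_prop), hU, e0]
      ring
    · intro t ht
      have := ht.1
      positivity

end Pool.Agent.helper15.PB
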