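import Pool.Agent.helper15.PB.Defs2
import Pool.Agent.helper15.PB.A5b
import Pool.Agent.helper15.PB.A7a

/-! # Planar theorem behind MP_0069fb_gt: module A7d, the cap (helper6) -/

set_option autoImplicit false

open MeasureTheory Set
open scoped Pointwise

namespace Pool.Agent.helper15.PB

variable {F G Gt : Set P2} {B : Set (P2 × ℝ)} {ω H e T c : ℝ}

private theorem sec_fin_a7d {K : Set P2} (hK : IsCompact K) (u : ℝ) :
    volume {x : ℝ | ((x, u) : P2) ∈ K} ≠ ⊤ := by
  have : {x : ℝ | ((x, u) : P2) ∈ K} ⊆ Prod.fst '' K := fun x hx => ⟨_, hx, rfl⟩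
  exact ((measure_mono this).trans_lt ((hK.image continuous_fst).measure_lt_top)).ne

private theorem sec_slice_le (cF : IsCompact F) {h v : ℝ} (hh : 0 ≤ h) :
    sec (slice F B h) ((1 + 2 * h) * v) ≤ (1 + 2 * h) * sec F v := by
  have hr0 : 0 < 1 + 2 * h := by positivity
  unfold sec
  have hsub : {x : ℝ | ((x, (1 + 2 * h) * v) : P2) ∈ slice F B h} ⊆
      (1 + 2 * h) • {x : ℝ | ((x, v) : P2) ∈ F} := by
    rintro x ⟨_, _, z, hz, hxz⟩
    have h1 : x = (1 + 2 * h) * z.1 := by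
      have := congrArg Prod.fst hxz
      simpa using this
    have h2 : (1 + 2 * h) * v = (1 + 2 * h) * z.2 := by
      have := congrArg Prod.snd hxz
      simpa using this
    have h3 : v = z.2 := mul_left_cancel₀ hr0.ne' h2
    refine ⟨z.1, ?_, by simp [h1]⟩
    show ((z.1, v) : P2) ∈ F
    rw [h3]
    exact hz
  have hle : volume {x : ℝ | ((x, (1 + 2 * h) * v) : P2) ∈ slice F B h} ≤
      ENNReal.ofReal (1 + 2 * h) * volume {x : ℝ | ((x, v) : P2) ∈ F} := by
    refine (measure_mono hsub).trans ?_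
    rw [Measure.addHaar_smul]
    simp [abs_of_pos hr0]
  have hfin : ENNReal.ofReal (1 + 2 * h) * volume {x : ℝ | ((x, v) : P2) ∈ F} ≠ ⊤ :=
    ENNReal.mul_ne_top ENNReal.ofReal_ne_top (sec_fin_a7d cF v)
  have := ENNReal.toReal_mono hfin hle
  rwa [ENNReal.toReal_mul, ENNReal.toReal_ofReal hr0.le] at this

/-- cap section bounds -/
theorem Win.ellcap (w : Win F G Gt B ω H e T c) {q A : ℝ} (hq0 : 0 ≤ q) (hqT : q ≤ T)
    (hq : A + gam e ω c * q ≤ sec F (1 - T + q)) {h σ : ℝ} (hh : 0 ≤ h) (hσ : 0 < σ)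
    (hne : ∃ x : ℝ, ((x, (1 + 2 * h) * (1 + σ)) : P2) ∈ slice F B h) :
    σ ≤ H ∧ H * sec (slice F B h) ((1 + 2 * h) * (1 + σ)) ≤ (1 + 2 * h) * ω * (H - σ) ∧
    sec (slice F B h) ((1 + 2 * h) * (1 + σ)) ≤ ω * (1 - Rst T ω H (gam e ω c) A * h) ∧
    h * Rst T ω H (gam e ω c) A ≤ 1 := by
  have hr0 : 0 < 1 + 2 * h := by positivity
  have hω := w.ω0
  have hσH : σ ≤ H := by
    obtain ⟨x, _, _, z, hz, hxz⟩ := hne
    have h2 : (1 + 2 * h) * (1 + σ) = (1 + 2 * h) * z.2 := by
      have := congrArg Prod.snd hxz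
      simpa using this
    have h3 : 1 + σ = z.2 := mul_left_cancel₀ hr0.ne' h2
    have := w.top z hz
    linarith
  have hH : 0 < H := lt_of_lt_of_le hσ hσH
  have hsec := sec_slice_le (B := B) (v := 1 + σ) w.cF hh
  have hw := w.wedge (1 + σ) (by linarith)
  have hII : H * sec (slice F B h) ((1 + 2 * h) * (1 + σ)) ≤ (1 + 2 * h) * ω * (H - σ) := by
    have h1 : H * sec (slice F B h) ((1 + 2 * h) * (1 + σ)) ≤ H * ((1 + 2 * h) * sec F (1 + σ)) :=
      mul_le_mul_of_nonneg_left hsec hH.le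
    have h2 : (1 + 2 * h) * (H * sec F (1 + σ)) ≤ (1 + 2 * h) * (ω * (1 + H - (1 + σ))) :=
      mul_le_mul_of_nonneg_left hw hr0.le
    nlinarith [h1, h2]
  -- the section inequality
  obtain ⟨hlev, hin⟩ := w.slice_ineq hh hq0 hqT hne
  have hh1 : 0 < 1 + h := by linarith
  have hlv : ((1 + 2 * h) * (1 + σ) - h * (1 - T + q)) / (1 + h) =
      1 + ((1 + 2 * h) * σ + h * (T - q)) / (1 + h) := by
    field_simp
    ring
  have hpos : 0 ≤ ((1 + 2 * h) * σ + h * (T - q)) / (1 + h) := by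
    have : 0 ≤ T - q := by linarith
    positivity
  have hga := w.gt_above (u := ((1 + 2 * h) * (1 + σ) - h * (1 - T + q)) / (1 + h))
    (by rw [hlv]; linarith) hlev
  have hI : sec (slice F B h) ((1 + 2 * h) * (1 + σ)) ≤
      (1 + h) * ω - h * (A + gam e ω c * T) - gam e ω c * (1 + 2 * h) * σ := by
    have h1 : (1 + h) * sec Gt (((1 + 2 * h) * (1 + σ) - h * (1 - T + q)) / (1 + h)) ≤
        (1 + h) * (ω + gam e ω c * (1 - ((1 + 2 * h) * (1 + σ) - h * (1 - T + q)) / (1 + h))) :=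
      mul_le_mul_of_nonneg_left hga hh1.le
    have h2 : (1 + h) * (ω + gam e ω c * (1 - ((1 + 2 * h) * (1 + σ) - h * (1 - T + q)) / (1 + h))) =
        (1 + h) * ω - gam e ω c * ((1 + 2 * h) * σ + h * (T - q)) := by
      rw [hlv]
      field_simp
      ring
    have h3 : h * (A + gam e ω c * q) ≤ h * sec F (1 - T + q) :=
      mul_le_mul_of_nonneg_left hq hh
    rw [h2] at h1
    nlinarith [h1, h3, hin]
  set ℓ := sec (slice F B h) ((1 + 2 * h) * (1 + σ)) with hℓ
  set γ := gam e ω c with hγ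
  have hm0 : 0 ≤ max 0 (-γ) := le_max_left _ _
  have hm1 : -γ ≤ max 0 (-γ) := le_max_right _ _
  set m := max 0 (-γ) with hm
  have hden : 0 < ω + m * H := by positivity
  have hθ : theta ω H γ = m * H / (ω + m * H) := rfl
  have hθ1 : 1 - theta ω H γ = ω / (ω + m * H) := by
    rw [hθ]; field_simp; ring
  have hI' : ℓ ≤ (1 + h) * ω - h * (A + γ * T) + m * ((1 + 2 * h) * σ) := by
    have h0 : 0 ≤ (1 + 2 * h) * σ := by positivity
    have := mul_le_mul_of_nonneg_right hm1 h0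
    nlinarith [this, hI]
  have hIII : ℓ ≤ ω * (1 - Rst T ω H γ A * h) := by
    -- (ω + m H) ℓ ≤ ω (I') + m (II)
    have hcomb : (ω + m * H) * ℓ ≤
        ω * ((1 + h) * ω - h * (A + γ * T)) + m * H * ((1 + 2 * h) * ω) := by
      have h1 := mul_le_mul_of_nonneg_left hI' hω.le
      have h2 := mul_le_mul_of_nonneg_left hII hm0
      nlinarith [h1, h2]
    have hR : (ω + m * H) * (ω * (1 - Rst T ω H γ A * h)) =
        ω * ((1 + h) * ω - h * (A + γ * T)) + m * H * ((1 + 2 * h) * ω) := by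
      unfold Rst
      rw [hθ1, hθ]
      field_simp
      ring
    rw [← hR] at hcomb
    exact le_of_mul_le_mul_left hcomb hden
  refine ⟨hσH, hII, hIII, ?_⟩
  have h0 : 0 ≤ ℓ := ENNReal.toReal_nonneg
  have h1 : 0 ≤ ω * (1 - Rst T ω H γ A * h) := h0.trans hIII
  have h2 : 0 ≤ 1 - Rst T ω H γ A * h := by
    by_contra hcon
    push Not at hcon
    have := mul_neg_of_pos_of_neg hω hcon
    linarith
  linarith

theorem Win.cap_area (w : Win F G Gt B ω H e T c) {h : ℝ} (hh : 0 ≤ h) :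
    area {y | y ∈ slice F B h ∧ 1 + 2 * h < y.2} ≤ (1 + 2 * h) ^ 2 * c := by
  have hr0 : 0 < 1 + 2 * h := by positivity
  have hsub : {y | y ∈ slice F B h ∧ 1 + 2 * h < y.2} ⊆ (1 + 2 * h) • (G ∩ {y : P2 | 1 < y.2}) := by
    rintro y ⟨⟨hyB, _, z, hz, hyz⟩, hy⟩
    have hyz' : y = (1 + 2 * h) • z := hyz
    refine ⟨z, ⟨?_, ?_⟩, hyz'.symm⟩
    · rw [w.hG]
      refine ⟨hz, ?_⟩
      rw [w.hGt]
      show ((z, 0) : P2 × ℝ) ∈ B
      have hneg := w.neg z hz
      have hh1 : 0 < 1 + h := by linarith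
      have hc := w.vB hyB hneg (a := 1 / (1 + h)) (b := h / (1 + h)) (by positivity)
        (by positivity) (by field_simp)
      have he : (1 / (1 + h)) • ((y, h) : P2 × ℝ) + (h / (1 + h)) • ((-z, -1) : P2 × ℝ) = (z, 0) := by
        rw [hyz']
        ext
        · simp
          field_simp
          ring
        · simp
          field_simp
          ring
        · simp
          field_simp
          ring
      rw [he] at hc
      exact hc
    · show 1 < z.2
      have h2 : y.2 = (1 + 2 * h) * z.2 := by rw [hyz']; rfl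
      rw [h2] at hy
      by_contra hcon
      push Not at hcon
      have := mul_le_mul_of_nonneg_left hcon hr0.le
      linarith
  have cG : IsCompact G := by
    rw [w.hG, w.hGt]
    have hcl : IsClosed {y : P2 | ((y, 0) : P2 × ℝ) ∈ B} :=
      w.cB.isClosed.preimage (by fun_prop)
    exact w.cF.inter_right hcl
  have hfin : volume (G ∩ {y : P2 | 1 < y.2}) ≠ ⊤ :=
    ((measure_mono inter_subset_left).trans_lt cG.measure_lt_top).ne
  unfold area
  have hle : volume {y | y ∈ slice F B h ∧ 1 + 2 * h < y.2} ≤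
      ENNReal.ofReal ((1 + 2 * h) ^ 2) * volume (G ∩ {y : P2 | 1 < y.2}) := by
    refine (measure_mono hsub).trans ?_
    rw [Measure.addHaar_smul]
    have : Module.finrank ℝ P2 = 2 := by simp [P2]
    rw [this, abs_of_nonneg (by positivity)]
  have := ENNReal.toReal_mono (ENNReal.mul_ne_top ENNReal.ofReal_ne_top hfin) hle
  rw [ENNReal.toReal_mul, ENNReal.toReal_ofReal (by positivity)] at this
  rw [w.hc]
  exact this

end Pool.Agent.helper15.PB
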