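import Pool.Agent.helper15.PB.A7c
import Pool.Agent.helper15.PB.A7d

set_option autoImplicit false
open MeasureTheory Set
open scoped Pointwise

/-! # A7e: the volume of the cap part of `X⁺` (helper51) -/

namespace Pool.Agent.helper15.PB

variable {F G Gt : Set P2} {B : Set (P2 × ℝ)} {ω H e T c : ℝ}

theorem a7e_vol_slice {X : Set (P2 × ℝ)} (hX : MeasurableSet X) (ψ : ℝ → ENNReal)
    (h : ∀ t : ℝ, volume {y : P2 | ((y, t) : P2 × ℝ) ∈ X} ≤ ψ t) :
    volume X ≤ ∫⁻ t, ψ t := by
  have h1 : volume X = ∫⁻ t, volume ((fun y : P2 => ((y, t) : P2 × ℝ)) ⁻¹' X) := by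
    rw [show (volume : Measure (P2 × ℝ)) = (volume : Measure P2).prod (volume : Measure ℝ) from rfl,
      Measure.prod_apply_symm hX]
  rw [h1]
  exact lintegral_mono fun t => h t

theorem Win.xcap_meas (w : Win F G Gt B ω H e T c) : MeasurableSet (Xcap F B) := by
  have : Xcap F B = Xs F B ∩ {p | 1 + 2 * p.2 < p.1.2} := rfl
  rw [this]
  refine w.xs_meas.inter (measurableSet_lt ?_ ?_) <;> fun_prop

theorem Win.xcap_sigma {x u t : ℝ} (h : (((x, u), t) : P2 × ℝ) ∈ Xcap F B) :
    0 ≤ t ∧ 0 < u / (1 + 2 * t) - 1 ∧ (1 + 2 * t) * (1 + (u / (1 + 2 * t) - 1)) = u := by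
  have ht : 0 ≤ t := h.1.2.1
  have hu : 1 + 2 * t < u := h.2
  have ha : 0 < 1 + 2 * t := by linarith
  refine ⟨ht, ?_, ?_⟩
  · rw [sub_pos, one_lt_div ha]; exact hu
  · field_simp
    ring

theorem Win.cap_fin (w : Win F G Gt B ω H e T c) (h : ℝ) :
    volume {y : P2 | ((y, h) : P2 × ℝ) ∈ Xcap F B} ≠ ⊤ := by
  have h1 : IsCompact ((fun p : P2 × ℝ => p.1) '' B) := w.cB.image (by fun_prop)
  refine ne_top_of_le_ne_top h1.measure_lt_top.ne (measure_mono ?_)
  intro x hx
  exact ⟨(x, h), hx.1.1, rfl⟩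

theorem Win.vol_Xcap (w : Win F G Gt B ω H e T c) {q A V : ℝ} (hq0 : 0 ≤ q) (hqT : q ≤ T)
    (hq : A + gam e ω c * q ≤ sec F (1 - T + q))
    (h4 : wL e c < A + gam e ω c * T)
    (hV : IsCap T ω H c (gam e ω c) A V) : vol3 (Xcap F B) ≤ V := by
  have hω := w.ω0
  have hc := w.c_nonneg
  have hH := w.H0
  -- the slices
  have hsl : ∀ t : ℝ, 0 ≤ t → volume {y : P2 | ((y, t) : P2 × ℝ) ∈ Xcap F B} ≤
      ENNReal.ofReal ((1 + 2 * t) ^ 2 * c) := by
    intro t ht
    rw [← ENNReal.ofReal_toReal (w.cap_fin t)]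
    exact ENNReal.ofReal_le_ofReal (w.cap_area ht)
  have hneg : ∀ t : ℝ, t < 0 → {y : P2 | ((y, t) : P2 × ℝ) ∈ Xcap F B} = ∅ := by
    intro t ht
    rw [eq_empty_iff_forall_notMem]
    intro y hy
    have : 0 ≤ t := hy.1.2.1
    linarith
  set R := Rst T ω H (gam e ω c) A with hRdef
  have hcap : ∀ x u t : ℝ, (((x, u), t) : P2 × ℝ) ∈ Xcap F B →
      0 ≤ t ∧ 1 + 2 * t < u ∧ u ≤ (1 + 2 * t) * (1 + H) ∧
      H * sec (slice F B t) u ≤ ω * ((1 + 2 * t) * (1 + H) - u) ∧
      sec (slice F B t) u ≤ ω * (1 - R * t) ∧ t * R ≤ 1 := by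
    intro x u t hx
    obtain ⟨ht, hσ, he⟩ := Win.xcap_sigma hx
    have hl := w.ellcap hq0 hqT hq ht hσ ⟨x, by rw [he]; exact hx.1⟩
    rw [he] at hl
    have ha : 0 < 1 + 2 * t := by linarith
    refine ⟨ht, hx.2, ?_, ?_, hl.2.2.1, hl.2.2.2⟩
    · calc u = (1 + 2 * t) * (1 + (u / (1 + 2 * t) - 1)) := he.symm
        _ ≤ (1 + 2 * t) * (1 + H) := mul_le_mul_of_nonneg_left (by linarith [hl.1]) ha.le
    · calc H * sec (slice F B t) u ≤ (1 + 2 * t) * ω * (H - (u / (1 + 2 * t) - 1)) := hl.2.1
        _ = ω * ((1 + 2 * t) * (1 + H) - (1 + 2 * t) * (1 + (u / (1 + 2 * t) - 1))) := by ring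
        _ = ω * ((1 + 2 * t) * (1 + H) - u) := by rw [he]
  have hempty : H = 0 → Xcap F B = ∅ := by
    intro h0
    rw [eq_empty_iff_forall_notMem]
    rintro ⟨⟨x, u⟩, t⟩ hx
    have := hcap x u t hx
    rw [h0] at this
    linarith [this.2.1, this.2.2.1]
  unfold IsCap at hV
  rw [← hRdef] at hV
  rcases hV with ⟨h0, hV⟩ | ⟨hR, hV⟩ | ⟨hR, hV⟩
  · -- `V = 0`
    rw [hV]
    refine ENNReal.toReal_le_of_le_ofReal le_rfl ?_
    rw [ENNReal.ofReal_zero]
    rcases h0 with h0 | h0
    · rw [hempty h0, measure_empty]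
    · refine (a7e_vol_slice w.xcap_meas (fun _ => 0) ?_).trans (by simp)
      intro t
      rcases lt_or_ge t 0 with ht | ht
      · rw [hneg t ht, measure_empty]
      · refine (hsl t ht).trans ?_
        rw [h0, mul_zero, ENNReal.ofReal_zero]
  · -- bound (a)
    have hR' : 0 < 1 / R := by positivity
    have hV0 : 0 ≤ V := by
      rw [hV]
      have : (1:ℝ) ≤ (1 + 2 / R) ^ 3 := one_le_pow₀ (by
        have : 0 < 2 / R := by positivity
        linarith)
      have := mul_nonneg hc (sub_nonneg.2 this)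
      linarith
    refine ENNReal.toReal_le_of_le_ofReal hV0 ?_
    refine (a7e_vol_slice w.xcap_meas ((Ioc (-1:ℝ) (1 / R)).indicator fun t =>
      (Ici (0:ℝ)).indicator (fun t => ENNReal.ofReal ((1 + 2 * t) ^ 2 * c)) t) ?_).trans ?_
    · intro t
      rcases lt_or_ge t 0 with ht | ht
      · rw [hneg t ht, measure_empty]
        exact bot_le
      · by_cases ht2 : t ≤ 1 / R
        · rw [indicator_of_mem (show t ∈ Ioc (-1:ℝ) (1 / R) from ⟨by linarith, ht2⟩),
            indicator_of_mem (show t ∈ Ici (0:ℝ) from ht)]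
          exact hsl t ht
        · have : {y : P2 | ((y, t) : P2 × ℝ) ∈ Xcap F B} = ∅ := by
            rw [eq_empty_iff_forall_notMem]
            rintro ⟨x, u⟩ hy
            have h5 := (hcap x u t hy).2.2.2.2.2
            apply ht2
            rw [le_div_iff₀ hR]
            exact h5
          rw [this, measure_empty]
          exact bot_le
    · have e1 : ∫⁻ t, (Ioc (-1:ℝ) (1 / R)).indicator (fun t =>
          (Ici (0:ℝ)).indicator (fun t => ENNReal.ofReal ((1 + 2 * t) ^ 2 * c)) t) t =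
          ∫⁻ t in Ioc (0:ℝ) (1 / R), ENNReal.ofReal ((1 + 2 * t) ^ 2 * c) := by
        rw [← lintegral_indicator measurableSet_Ioc]
        refine lintegral_congr_ae ?_
        have h6 : ∀ᵐ t : ℝ, t ≠ 0 := by
          rw [ae_iff]
          simp
        filter_upwards [h6] with t ht
        by_cases h7 : t ∈ Ioc (0:ℝ) (1 / R)
        · rw [indicator_of_mem h7, indicator_of_mem (show t ∈ Ioc (-1:ℝ) (1 / R) from
            ⟨by linarith [h7.1], h7.2⟩), indicator_of_mem (show t ∈ Ici (0:ℝ) from h7.1.le)]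
        · rw [indicator_of_notMem h7]
          by_cases h8 : t ∈ Ioc (-1:ℝ) (1 / R)
          · rw [indicator_of_mem h8, indicator_of_notMem]
            intro h9
            have h10 : (0:ℝ) ≤ t := h9
            exact h7 ⟨lt_of_le_of_ne h10 (Ne.symm ht), h8.2⟩
          · rw [indicator_of_notMem h8]
      rw [e1, a7_lint_Ioc hR'.le (by fun_prop)]
      · apply ENNReal.ofReal_le_ofReal
        apply le_of_eq
        have h6 : ∀ t ∈ uIcc 0 (1 / R), HasDerivAt (fun t => c / 6 * (1 + 2 * t) ^ 3)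
            ((1 + 2 * t) ^ 2 * c) t := by
          intro t _
          have h7 : HasDerivAt (fun t => c / 6 * (1 + 2 * t) ^ 3)
              (c / 6 * (((3 : ℕ) : ℝ) * (1 + 2 * t) ^ (3 - 1) * (2 * 1))) t :=
            ((((hasDerivAt_id t).const_mul 2).const_add 1).pow 3).const_mul _
          convert h7 using 1
          push_cast
          ring
        rw [intervalIntegral.integral_eq_sub_of_hasDerivAt h6 (by
          apply Continuous.intervalIntegrable; fun_prop), hV]
        field_simp
        ring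
      · intro t _
        positivity
  · -- bound (b)
    rcases eq_or_lt_of_le hH with h0 | h0
    · rw [vol3, hempty h0.symm, measure_empty, ENNReal.toReal_zero, hV, ← h0]
      simp
    have hR' : 0 < 1 / R := by positivity
    have hV0 : 0 ≤ V := by rw [hV]; positivity
    refine ENNReal.toReal_le_of_le_ofReal hV0 ?_
    let R1 : Set (ℝ × ℝ) := {p | 0 ≤ p.1 ∧ p.1 ≤ 1 / R ∧ 1 + 2 * p.1 < p.2 ∧
      p.2 ≤ 1 + 2 * p.1 + H * (1 + 2 * p.1 - (1 - R * p.1))}
    let R2 : Set (ℝ × ℝ) := {p | 0 ≤ p.1 ∧ p.1 ≤ 1 / R ∧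
      1 + 2 * p.1 + H * (1 + 2 * p.1 - (1 - R * p.1)) < p.2 ∧ p.2 ≤ (1 + 2 * p.1) * (1 + H)}
    have hR1 : MeasurableSet R1 := by
      have : R1 = {p | 0 ≤ p.1} ∩ ({p | p.1 ≤ 1 / R} ∩ ({p | 1 + 2 * p.1 < p.2} ∩
        {p | p.2 ≤ 1 + 2 * p.1 + H * (1 + 2 * p.1 - (1 - R * p.1))})) := rfl
      rw [this]
      refine (measurableSet_le ?_ ?_).inter ((measurableSet_le ?_ ?_).inter
        ((measurableSet_lt ?_ ?_).inter (measurableSet_le ?_ ?_))) <;> fun_prop
    have hR2 : MeasurableSet R2 := by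
      have : R2 = {p | 0 ≤ p.1} ∩ ({p | p.1 ≤ 1 / R} ∩
        ({p | 1 + 2 * p.1 + H * (1 + 2 * p.1 - (1 - R * p.1)) < p.2} ∩
        {p | p.2 ≤ (1 + 2 * p.1) * (1 + H)})) := rfl
      rw [this]
      refine (measurableSet_le ?_ ?_).inter ((measurableSet_le ?_ ?_).inter
        ((measurableSet_lt ?_ ?_).inter (measurableSet_le ?_ ?_))) <;> fun_prop
    let φ1 : ℝ × ℝ → ENNReal := R1.indicator (fun p : ℝ × ℝ => ENNReal.ofReal (ω * (1 - R * p.1)))
    let φ2 : ℝ × ℝ → ENNReal := R2.indicator
      (fun p : ℝ × ℝ => ENNReal.ofReal (ω * ((1 + 2 * p.1) * (1 + H) - p.2) / H))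
    have hφ1 : Measurable φ1 := Measurable.indicator (by fun_prop) hR1
    have hφ2 : Measurable φ2 := Measurable.indicator (by fun_prop) hR2
    have hφ : Measurable (Function.uncurry fun t u : ℝ => φ1 (t, u) + φ2 (t, u)) := hφ1.add hφ2
    have hbd : ∀ t u : ℝ, volume {x : ℝ | (((x, u), t) : P2 × ℝ) ∈ Xcap F B} ≤ φ1 (t, u) + φ2 (t, u) := by
      intro t u
      by_cases hne : ∃ x : ℝ, (((x, u), t) : P2 × ℝ) ∈ Xcap F B
      · obtain ⟨x, hx⟩ := hne
        obtain ⟨ht, hu1, hu2, hs1, hs2, htR⟩ := hcap x u t hx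
        have htR' : t ≤ 1 / R := by rw [le_div_iff₀ hR]; exact htR
        have hsub : {x : ℝ | (((x, u), t) : P2 × ℝ) ∈ Xcap F B} ⊆
            {x : ℝ | ((x, u) : P2) ∈ slice F B t} := fun x' hx' => hx'.1
        by_cases hu3 : u ≤ 1 + 2 * t + H * (1 + 2 * t - (1 - R * t))
        · have hm : ((t, u) : ℝ × ℝ) ∈ R1 := ⟨ht, htR', hu1, hu3⟩
          have e1 : φ1 (t, u) = ENNReal.ofReal (ω * (1 - R * t)) := indicator_of_mem hm _
          rw [e1]
          exact ((measure_mono hsub).trans (w.sec_vol hs2)).trans le_self_add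
        · push Not at hu3
          have hm : ((t, u) : ℝ × ℝ) ∈ R2 := ⟨ht, htR', hu3, hu2⟩
          have e1 : φ2 (t, u) = ENNReal.ofReal (ω * ((1 + 2 * t) * (1 + H) - u) / H) :=
            indicator_of_mem hm _
          rw [e1]
          have hs3 : sec (slice F B t) u ≤ ω * ((1 + 2 * t) * (1 + H) - u) / H := by
            rw [le_div_iff₀ h0]
            linarith
          exact ((measure_mono hsub).trans (w.sec_vol hs3)).trans le_add_self
      · have : {x : ℝ | (((x, u), t) : P2 × ℝ) ∈ Xcap F B} = ∅ := by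
          rw [eq_empty_iff_forall_notMem]
          intro x hx
          exact hne ⟨x, hx⟩
        rw [this, measure_empty]
        exact bot_le
    refine (volume_le_lintegral_sec w.xcap_meas (fun t u => φ1 (t, u) + φ2 (t, u)) hφ hbd).trans ?_
    have hin : ∀ t, ∫⁻ u, (φ1 (t, u) + φ2 (t, u)) = (Icc (0:ℝ) (1 / R)).indicator (fun t =>
        ENNReal.ofReal (ω * H * ((1 - R * t) * (1 + 2 * t) - (1 - R * t) ^ 2 / 2))) t := by
      intro t
      by_cases ht : t ∈ Icc (0:ℝ) (1 / R)
      · rw [indicator_of_mem ht]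
        have ht0 : 0 ≤ t := ht.1
        have hy0 : 0 ≤ 1 - R * t := by
          have := ht.2
          rw [le_div_iff₀ hR] at this
          linarith
        have hy1 : 1 - R * t ≤ 1 := by
          have := mul_nonneg hR.le ht0
          linarith
        have hsum := lintegral_add_left (μ := (volume : Measure ℝ)) (f := fun u => φ1 (t, u))
          (hφ1.comp measurable_prodMk_left) (fun u => φ2 (t, u))
        rw [hsum]
        have e1 : ∫⁻ u, φ1 (t, u) = ENNReal.ofReal (ω * (1 - R * t) *
            (H * (1 + 2 * t - (1 - R * t)))) := by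
          have e2 : ∫⁻ u, φ1 (t, u) = ∫⁻ u in Ioc (1 + 2 * t) (1 + 2 * t + H * (1 + 2 * t - (1 - R * t))),
              ENNReal.ofReal (ω * (1 - R * t)) := by
            rw [← lintegral_indicator measurableSet_Ioc]
            refine lintegral_congr fun u => ?_
            by_cases hm : ((t, u) : ℝ × ℝ) ∈ R1
            · have e3 : φ1 (t, u) = ENNReal.ofReal (ω * (1 - R * t)) := indicator_of_mem hm _
              rw [e3, indicator_of_mem]
              exact ⟨hm.2.2.1, hm.2.2.2⟩
            · have e3 : φ1 (t, u) = 0 := indicator_of_notMem hm _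
              rw [e3, indicator_of_notMem]
              intro h5
              exact hm ⟨ht0, ht.2, h5.1, h5.2⟩
          rw [e2, setLIntegral_const, Real.volume_Ioc, ← ENNReal.ofReal_mul (mul_nonneg hω.le hy0)]
          congr 1
          ring
        have e2 : ∫⁻ u, φ2 (t, u) = ENNReal.ofReal (ω * H * (1 - R * t) ^ 2 / 2) := by
          have e3 : ∫⁻ u, φ2 (t, u) = ∫⁻ u in Ioc (1 + 2 * t + H * (1 + 2 * t - (1 - R * t)))
              ((1 + 2 * t) * (1 + H)), ENNReal.ofReal (ω * ((1 + 2 * t) * (1 + H) - u) / H) := by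
            rw [← lintegral_indicator measurableSet_Ioc]
            refine lintegral_congr fun u => ?_
            by_cases hm : ((t, u) : ℝ × ℝ) ∈ R2
            · have e3 : φ2 (t, u) = ENNReal.ofReal (ω * ((1 + 2 * t) * (1 + H) - u) / H) :=
                indicator_of_mem hm _
              rw [e3, indicator_of_mem]
              exact ⟨hm.2.2.1, hm.2.2.2⟩
            · have e3 : φ2 (t, u) = 0 := indicator_of_notMem hm _
              rw [e3, indicator_of_notMem]
              intro h5
              exact hm ⟨ht0, ht.2, h5.1, h5.2⟩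
          have hle : 1 + 2 * t + H * (1 + 2 * t - (1 - R * t)) ≤ (1 + 2 * t) * (1 + H) := by
            have := mul_nonneg h0.le hy0
            linarith
          rw [e3, a7_lint_Ioc hle (by fun_prop)]
          · congr 1
            have h6 : ∀ u ∈ uIcc (1 + 2 * t + H * (1 + 2 * t - (1 - R * t))) ((1 + 2 * t) * (1 + H)),
                HasDerivAt (fun u => -(ω / (2 * H)) * ((1 + 2 * t) * (1 + H) - u) ^ 2)
                (ω * ((1 + 2 * t) * (1 + H) - u) / H) u := by
              intro u _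
              have h7 : HasDerivAt (fun u => -(ω / (2 * H)) * ((1 + 2 * t) * (1 + H) - u) ^ 2)
                  (-(ω / (2 * H)) * (((2 : ℕ) : ℝ) * ((1 + 2 * t) * (1 + H) - u) ^ (2 - 1) * (-1))) u :=
                (((hasDerivAt_id u).const_sub _).pow 2).const_mul _
              convert h7 using 1
              push_cast
              field_simp
            rw [intervalIntegral.integral_eq_sub_of_hasDerivAt h6 (by
              apply Continuous.intervalIntegrable; fun_prop)]
            field_simp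
            ring
          · intro u hu
            have := hu.2
            have h8 : 0 ≤ (1 + 2 * t) * (1 + H) - u := by linarith
            positivity
        rw [e1, e2, ← ENNReal.ofReal_add]
        · congr 1
          ring
        · have : 0 ≤ 1 + 2 * t - (1 - R * t) := by linarith
          positivity
        · positivity
      · rw [indicator_of_notMem ht]
        have h5 : ∀ u, φ1 (t, u) + φ2 (t, u) = 0 := by
          intro u
          have e3 : φ1 (t, u) = 0 := indicator_of_notMem (fun h => ht ⟨h.1, h.2.1⟩) _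
          have e4 : φ2 (t, u) = 0 := indicator_of_notMem (fun h => ht ⟨h.1, h.2.1⟩) _
          rw [e3, e4, add_zero]
        simp [h5]
    rw [lintegral_congr hin, lintegral_indicator measurableSet_Icc, ← Measure.restrict_congr_set Ioc_ae_eq_Icc,
      a7_lint_Ioc hR'.le (by fun_prop)]
    · apply ENNReal.ofReal_le_ofReal
      apply le_of_eq
      have h6 : ∀ t ∈ uIcc 0 (1 / R), HasDerivAt
          (fun t => ω * H * (t / 2 + t ^ 2 - (2 * R + R ^ 2 / 2) * t ^ 3 / 3))
          (ω * H * ((1 - R * t) * (1 + 2 * t) - (1 - R * t) ^ 2 / 2)) t := by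
        intro t _
        have h7 : HasDerivAt (fun t => ω * H * (t / 2 + t ^ 2 - (2 * R + R ^ 2 / 2) * t ^ 3 / 3))
            (ω * H * (1 / 2 + ((2 : ℕ) : ℝ) * t ^ (2 - 1) -
              (2 * R + R ^ 2 / 2) * (((3 : ℕ) : ℝ) * t ^ (3 - 1)) / 3)) t :=
          ((((hasDerivAt_id t).div_const 2).add (hasDerivAt_pow 2 t)).sub
            (((hasDerivAt_pow 3 t).const_mul _).div_const 3)).const_mul _
        convert h7 using 1
        push_cast
        ring
      rw [intervalIntegral.integral_eq_sub_of_hasDerivAt h6 (by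
        apply Continuous.intervalIntegrable; fun_prop), hV]
      field_simp
      ring
    · intro t ht
      have hy0 : 0 ≤ 1 - R * t := by
        have := ht.2
        rw [le_div_iff₀ hR] at this
        linarith
      have hy1 : 1 - R * t ≤ 1 := by
        have := mul_nonneg hR.le ht.1
        linarith
      have h8 : 0 ≤ (1 - R * t) * (1 + 2 * t) - (1 - R * t) ^ 2 / 2 := by
        have h9 : 0 ≤ (1 - R * t) * ((1 + 2 * t) - (1 - R * t) / 2) :=
          mul_nonneg hy0 (by linarith [ht.1])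
        linarith
      have := mul_nonneg (mul_nonneg hω.le h0.le) h8
      linarith

end Pool.Agent.helper15.PB
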