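import Mathlib
import Pool.Agent.helper15.PB.NumDefs
import Pool.Agent.helper93.NU.Sound
import Pool.Agent.helper93.NU.Data

/-!
# MP_0069fb_gt: the final numerical inequality (helper93)

Proof: `Pool.Agent.helper93.NU` (monotonicity of the path constants in each variable, interval branch and bound
with a certificate of 607 splits checked by the kernel over the rationals, the corner `(3/2,3,0)` by hand).
-/

set_option autoImplicit false

namespace Pool.Agent.helper15.PB

theorem num {e T ω H c : ℝ} (k : NK e T ω H c) : ECond e T ω H ∨ SCond e T ω H c := by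
  have h1 := k.e0
  have h2 := k.eT
  have h3 := k.T3
  have h4 := k.ω0
  have h5 := k.H0
  have h6 := k.H1
  have h7 := k.c0
  have h8 := k.cH
  have h9 := Pool.Agent.helper93.NU.w_le k
  have h10 : ω * H ≤ 2 / 3 * (1 / 3) := mul_le_mul h9 h6 h5 (by norm_num)
  refine Pool.Agent.helper93.NU.sound Pool.Agent.helper93.NU.tree _ _ _ _ _ _ _ _
    Pool.Agent.helper93.NU.tree_ok k ?_ ?_ ?_ ?_ ?_ ?_ ?_ ?_ <;> norm_num <;> linarith

end Pool.Agent.helper15.PB
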