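import Pool.Agent.helper15.PB.Defs2
import Pool.Agent.helper15.PB.A4b
import Pool.Agent.helper15.PB.A4c
import Pool.Agent.helper15.PB.A5b
import Pool.Agent.helper15.PB.A6b
import Pool.Agent.helper15.PB.A6c
import Pool.Agent.helper15.PB.A7a
import Pool.Agent.helper15.PB.A7c
import Pool.Agent.helper15.PB.A7e
import Pool.Agent.helper15.PB.Num

/-! # Planar theorem behind MP_0069fb_gt: module A8, one class (helper6) -/

set_option autoImplicit false

open MeasureTheory Set
open scoped Pointwise

namespace Pool.Agent.helper15.PB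

variable {F G Gt : Set P2} {B : Set (P2 × ℝ)} {ω H e T c : ℝ}

private theorem dot01_a8 (y : P2) : dot (0, 1) y = y.2 := by simp [dot]

theorem Win.path_of_isC (w : Win F G Gt B ω H e T c) {C : ℝ} (hC : IsC e T ω H C) :
    PathIneq F G (0, 1) C := by
  have k := w.nk
  have hT : 0 < T := by have := k.e0; have := k.eT; linarith
  rcases hC with h | ⟨h2, h⟩ | h
  · rw [h]; exact w.path_C3 hT le_rfl
  · rw [h]; exact w.path_C3 (by norm_num) h2
  · rw [h]; exact w.path_CB

theorem Win.out (w : Win F G Gt B ω H e T c) : OutE F G Gt (0, 1) ∨ OutS F G B (0, 1) := by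
  have k := w.nk
  have he : 0 < e := by have := k.e0; linarith
  have hω := w.ω0
  rcases num k with hE | hS
  · left
    obtain ⟨hpos, C, ε, hC, hε, hε8, hεC, hineq⟩ := hE
    have hc2 := k.cH
    have hpos2 : 0 < 1 - c - e * ω := by linarith
    have hg : 0 < gam e ω c := by
      unfold gam
      positivity
    have hε0 : 0 ≤ ε := by rw [hε]; positivity
    refine ⟨ε, C, hε0, hε8, hineq, hεC, ?_, w.path_of_isC hC⟩
    refine (w.area_tip hg).trans ?_
    rw [hε]
    have h1 : ω ^ 2 / (2 * gam e ω c) = ω ^ 2 * e ^ 2 / (4 * (1 - c - e * ω)) := by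
      unfold gam
      field_simp
      ring
    rw [h1]
    apply div_le_div_of_nonneg_left (by positivity) (by positivity)
    linarith
  · right
    obtain ⟨C, A, U, V, hC, hC2, hA, h1, h2, h3, h4, hU, hV, hfin⟩ := hS
    obtain ⟨q, hq0, hqT, hq⟩ := w.long_chord hA
    have hv1 := w.vol_Xp1 hq0 hqT hq h1 h2 h3 h4 hU
    have hv2 := w.vol_Xcap hq0 hqT hq h4 hV
    have hf1 : volume (Xp1 F B T) ≠ ⊤ :=
      ((measure_mono (fun p hp => hp.1.1)).trans_lt w.cB.measure_lt_top).ne
    have hf2 : volume (Xcap F B) ≠ ⊤ :=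
      ((measure_mono (fun p hp => hp.1.1)).trans_lt w.cB.measure_lt_top).ne
    have hle : vol3 (Xp F B (0, 1)) ≤ U + V := by
      have h5 : volume (Xp F B (0, 1)) ≤ volume (Xp1 F B T) + volume (Xcap F B) :=
        (measure_mono w.Xp_sub).trans (measure_union_le _ _)
      have h6 := ENNReal.toReal_mono (ENNReal.add_ne_top.2 ⟨hf1, hf2⟩) h5
      rw [ENNReal.toReal_add hf1 hf2] at h6
      unfold vol3 at *
      linarith
    have h0 : 0 ≤ vol3 (Xp F B (0, 1)) := ENNReal.toReal_nonneg
    exact ⟨U + V, C, h0.trans hle, hC2, hfin, hle, w.path_of_isC hC⟩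

end Pool.Agent.helper15.PB
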