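import Pool.Agent.helper15.PB.Defs2

/-! # B1: the centroid is an interior point; radial projection onto the boundary of `F` -/

set_option autoImplicit false
open MeasureTheory Set
open scoped Pointwise

namespace Pool.Agent.helper15.PB

variable {F G Gt : Set P2} {B : Set (P2 × ℝ)} {ω H e T c : ℝ}

/-- A continuous functional on the plane is a `dot`. -/
theorem clm_eq_dot (f : P2 →L[ℝ] ℝ) (y : P2) : f y = dot (f (1, 0), f (0, 1)) y := by
  have h : y = y.1 • ((1, 0) : P2) + y.2 • ((0, 1) : P2) := by
    ext <;> simp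
  conv_lhs => rw [h]
  rw [map_add, map_smul, map_smul]
  simp only [dot, smul_eq_mul]
  ring

theorem integrableOn_fst {K : Set P2} (hK : IsCompact K) :
    IntegrableOn (fun y : P2 => y.1) K volume :=
  (continuous_fst.continuousOn).integrableOn_compact hK

theorem integrableOn_snd {K : Set P2} (hK : IsCompact K) :
    IntegrableOn (fun y : P2 => y.2) K volume :=
  (continuous_snd.continuousOn).integrableOn_compact hK

theorem integral_dot {K : Set P2} (hK : IsCompact K) (m : P2) :
    ∫ y in K, dot m y = m.1 * (∫ y in K, y.1) + m.2 * ∫ y in K, y.2 := by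
  simp only [dot]
  rw [integral_add ((integrableOn_fst hK).const_mul _) ((integrableOn_snd hK).const_mul _),
    integral_const_mul, integral_const_mul]

/-- the centroid of a compact convex set of positive area is an interior point -/
theorem zero_mem_nhds_of_centroid {K : Set P2} (hK : IsCompact K) (hv : Convex ℝ K)
    (h1 : ∫ y in K, y.1 = 0) (h2 : ∫ y in K, y.2 = 0) (hpos : 0 < area K) : K ∈ nhds (0 : P2) := by
  have hvol : volume K ≠ 0 := by
    intro h
    rw [area, h] at hpos
    simp at hpos
  have hint : (interior K).Nonempty := by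
    by_contra hne
    rw [not_nonempty_iff_eq_empty] at hne
    have hfr : frontier K = K := by
      rw [hK.isClosed.frontier_eq, hne]
      simp
    exact hvol (by rw [← hfr]; exact hv.addHaar_frontier volume)
  rw [← mem_interior_iff_mem_nhds]
  by_contra h0
  obtain ⟨f, hf⟩ := geometric_hahn_banach_open_point hv.interior isOpen_interior h0
  simp only [map_zero] at hf
  have hfK : ∀ a ∈ K, f a ≤ 0 := by
    have hsub : K ⊆ closure (interior K) := by
      rw [hv.closure_interior_eq_closure_of_nonempty_interior hint]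
      exact subset_closure
    intro a ha
    exact closure_minimal (fun x hx => (hf x hx).le) (isClosed_Iic.preimage f.continuous)
      (hsub ha)
  have hi : IntegrableOn (fun y => -f y) K volume :=
    (f.continuous.neg.continuousOn).integrableOn_compact hK
  have hint0 : ∫ y in K, -f y = 0 := by
    rw [integral_neg]
    have : ∫ y in K, f y = ∫ y in K, dot (f (1, 0), f (0, 1)) y :=
      integral_congr_ae (Filter.Eventually.of_forall fun y => clm_eq_dot f y)
    rw [this, integral_dot hK, h1, h2]
    simp
  have hnn : 0 ≤ᵐ[volume.restrict K] fun y => -f y :=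
    (ae_restrict_iff' hK.measurableSet).2 (Filter.Eventually.of_forall fun y hy => by
      simpa using hfK y hy)
  rw [setIntegral_eq_zero_iff_of_nonneg_ae hnn hi] at hint0
  have h3 : volume (interior K) = 0 := by
    have h4 := (ae_restrict_iff' hK.measurableSet).1 hint0
    refine measure_mono_null ?_ h4
    intro y hy
    simp only [mem_compl_iff, mem_ofPred_eq, Pi.zero_apply, not_forall]
    refine ⟨interior_subset hy, ?_⟩
    have := hf y hy
    intro h5
    linarith
  exact (isOpen_interior.measure_pos volume hint).ne' h3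

theorem Body.cGt (b : Body F G Gt B) : IsCompact Gt := by
  rw [b.hGt]
  have hcl : IsClosed {y : P2 | ((y, 0) : P2 × ℝ) ∈ B} :=
    b.cB.isClosed.preimage (by fun_prop : Continuous fun y : P2 => ((y, 0) : P2 × ℝ))
  refine (b.cB.image continuous_fst).of_isClosed_subset hcl ?_
  intro y hy
  exact ⟨(y, 0), hy, rfl⟩

theorem Body.vGt (b : Body F G Gt B) : Convex ℝ Gt := by
  rw [b.hGt]
  intro x hx y hy s t hs ht hst
  have := b.vB hx hy hs ht hst
  simpa using this

theorem Body.cG (b : Body F G Gt B) : IsCompact G := by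
  rw [b.hG]
  exact b.cF.inter b.cGt

theorem Body.vG (b : Body F G Gt B) : Convex ℝ G := by
  rw [b.hG]
  exact b.vF.inter b.vGt

theorem Body.zero_mem_nhds_F (b : Body F G Gt B) : F ∈ nhds (0 : P2) :=
  zero_mem_nhds_of_centroid b.cF b.vF b.F01 b.F02 (by linarith [b.F4])

theorem Body.zero_mem_nhds_G (b : Body F G Gt B) : G ∈ nhds (0 : P2) :=
  zero_mem_nhds_of_centroid b.cG b.vG b.G01 b.G02 (by linarith [b.G1])

/-- a boundary point of `F` has a supporting functional -/
theorem exists_sup {F : Set P2} (hF : Convex ℝ F) (h0 : F ∈ nhds (0 : P2)) {R : P2}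
    (hR : R ∉ interior F) : ∃ m : P2, Sup F m ∧ 1 ≤ dot m R := by
  have hint : (interior F).Nonempty := ⟨0, mem_interior_iff_mem_nhds.2 h0⟩
  obtain ⟨f, hf⟩ := geometric_hahn_banach_open_point hF.interior isOpen_interior hR
  have hR0 : 0 < f R := by
    have := hf 0 (mem_interior_iff_mem_nhds.2 h0)
    simpa using this
  have hfF : ∀ a ∈ F, f a ≤ f R := by
    have hsub : F ⊆ closure (interior F) := by
      rw [hF.closure_interior_eq_closure_of_nonempty_interior hint]
      exact subset_closure
    intro a ha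
    exact closure_minimal (fun x hx => (hf x hx).le) (isClosed_Iic.preimage f.continuous)
      (hsub ha)
  refine ⟨(f (1, 0) / f R, f (0, 1) / f R), ?_, ?_⟩
  · intro y hy
    have h1 := hfF y hy
    rw [clm_eq_dot f y] at h1
    have h2 : dot (f (1, 0) / f R, f (0, 1) / f R) y = dot (f (1, 0), f (0, 1)) y / f R := by
      simp only [dot]; ring
    rw [h2, div_le_one hR0]
    exact h1
  · have h2 : dot (f (1, 0) / f R, f (0, 1) / f R) R = dot (f (1, 0), f (0, 1)) R / f R := by
      simp only [dot]; ring
    rw [h2, ← clm_eq_dot, div_self hR0.ne']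

/-- radial projection -/
theorem Body.exists_contact (b : Body F G Gt B) {z : P2} (hz : z ∈ Gt) (hzF : z ∉ F) :
    ∃ (R m : P2) (θ : ℝ), 1 < θ ∧ z = θ • R ∧ Contact F Gt R m := by
  have h0 := b.zero_mem_nhds_F
  set θ := gauge F z with hθ
  have hθ1 : 1 < θ := by
    by_contra h
    rw [not_lt, gauge_le_one_iff_mem_closure b.vF h0, b.cF.isClosed.closure_eq] at h
    exact hzF h
  have hθ0 : 0 < θ := by linarith
  have hg : gauge F (θ⁻¹ • z) = 1 := by
    rw [gauge_smul_of_nonneg (inv_nonneg.2 hθ0.le), ← hθ, smul_eq_mul, inv_mul_cancel₀ hθ0.ne']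
  have hRF : θ⁻¹ • z ∈ F := by
    have := (gauge_le_one_iff_mem_closure b.vF h0).1 hg.le
    rwa [b.cF.isClosed.closure_eq] at this
  have hRint : θ⁻¹ • z ∉ interior F := by
    rw [← gauge_lt_one_iff_mem_interior b.vF h0, hg]
    exact lt_irrefl _
  have h0G : (0 : P2) ∈ Gt := by
    have := mem_of_mem_nhds b.zero_mem_nhds_G
    rw [b.hG] at this
    exact this.2
  have hRG : θ⁻¹ • z ∈ Gt :=
    b.vGt.smul_mem_of_zero_mem h0G hz ⟨(inv_pos.2 hθ0).le, inv_le_one_of_one_le₀ hθ1.le⟩
  obtain ⟨m, hm, hmR⟩ := exists_sup b.vF h0 hRint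
  refine ⟨θ⁻¹ • z, m, θ, hθ1, ?_, hRF, hRG, hm, le_antisymm (hm _ hRF) hmR⟩
  rw [smul_smul, mul_inv_cancel₀ hθ0.ne', one_smul]

end Pool.Agent.helper15.PB
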