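import Pool.Agent.helper15.PB.Defs2
import Pool.Agent.helper15.PB.A1a
import Pool.Agent.helper15.PB.A1b
import Pool.Agent.helper15.PB.A5a
import Pool.Agent.helper15.PB.A6a

/-! # Planar theorem behind MP_0069fb_gt: module B2 (helper6) -/

set_option autoImplicit false

open MeasureTheory Set
open scoped Pointwise

namespace Pool.Agent.helper15.PB

variable {F G Gt : Set P2} {B : Set (P2 × ℝ)}

/-! ### integrability -/

private theorem int_sec_b2 {K : Set P2} (hK : IsCompact K) : Integrable (sec K) := by
  obtain ⟨M, hM⟩ := sec_bound hK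
  obtain ⟨R, hR, hR0⟩ := sec_bdd_support hK
  have h1 : IntegrableOn (sec K) (Icc (-R) R) := by
    refine Measure.integrableOn_of_bounded (M := M) (by simp) (measurable_sec hK).aestronglyMeasurable ?_
    refine Filter.Eventually.of_forall fun u => ?_
    rw [Real.norm_of_nonneg (show 0 ≤ sec K u from ENNReal.toReal_nonneg)]
    exact hM u
  refine (integrableOn_iff_integrable_of_support_subset ?_).1 h1
  intro u hu
  by_contra hcon
  apply hu
  apply hR0
  simp only [mem_Icc, not_and_or, not_le] at hcon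
  rcases hcon with h | h
  · rw [abs_of_neg (by linarith)]; linarith
  · rw [abs_of_pos (by linarith)]; linarith

private theorem int_usec_b2 {K : Set P2} (hK : IsCompact K) : Integrable (fun u => u * sec K u) := by
  obtain ⟨M, hM⟩ := sec_bound hK
  obtain ⟨R, hR, hR0⟩ := sec_bdd_support hK
  have h1 : IntegrableOn (fun u => u * sec K u) (Icc (-R) R) := by
    refine Measure.integrableOn_of_bounded (M := R * M) (by simp)
      (measurable_id.mul (measurable_sec hK)).aestronglyMeasurable ?_
    refine (ae_restrict_mem measurableSet_Icc).mono fun u hu => ?_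
    rw [Real.norm_eq_abs, abs_mul, abs_of_nonneg (show 0 ≤ sec K u from ENNReal.toReal_nonneg)]
    have h2 : |u| ≤ R := abs_le.2 hu
    have h3 : 0 ≤ sec K u := ENNReal.toReal_nonneg
    exact mul_le_mul h2 (hM u) h3 hR.le
  refine (integrableOn_iff_integrable_of_support_subset ?_).1 h1
  intro u hu
  by_contra hcon
  apply hu
  have : sec K u = 0 := by
    apply hR0
    simp only [mem_Icc, not_and_or, not_le] at hcon
    rcases hcon with h | h
    · rw [abs_of_neg (by linarith)]; linarith
    · rw [abs_of_pos (by linarith)]; linarith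
  simp [this]

private theorem snd_lower {K : Set P2} (cK : IsCompact K) {a : ℝ} (h : ∀ y ∈ K, a ≤ y.2) :
    a * area K ≤ ∫ y in K, y.2 := by
  have hi : IntegrableOn (fun y : P2 => y.2) K := continuous_snd.continuousOn.integrableOn_compact cK
  have hc : IntegrableOn (fun _ : P2 => a) K := integrableOn_const cK.measure_lt_top.ne
  have := setIntegral_mono_on hc hi cK.measurableSet h
  rw [setIntegral_const] at this
  simpa [area, Measure.real, mul_comm] using this

private theorem snd_upper {K : Set P2} (cK : IsCompact K) {a : ℝ} (h : ∀ y ∈ K, y.2 ≤ a) :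
    ∫ y in K, y.2 ≤ a * area K := by
  have hi : IntegrableOn (fun y : P2 => y.2) K := continuous_snd.continuousOn.integrableOn_compact cK
  have hc : IntegrableOn (fun _ : P2 => a) K := integrableOn_const cK.measure_lt_top.ne
  have := setIntegral_mono_on hi hc cK.measurableSet h
  rw [setIntegral_const] at this
  simpa [area, Measure.real, mul_comm] using this

private theorem level_mem {K : Set P2} (vK : Convex ℝ K) {p r : P2} (hp : p ∈ K) (hr : r ∈ K)
    {u : ℝ} (h1 : p.2 ≤ u) (h2 : u ≤ r.2) : ∃ x, ((x, u) : P2) ∈ K := by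
  rcases eq_or_lt_of_le (h1.trans h2) with h | h
  · refine ⟨p.1, ?_⟩
    have : u = p.2 := le_antisymm (by linarith) h1
    rw [this]; exact hp
  · have hd : 0 < r.2 - p.2 := by linarith
    have := vK hp hr (a := (r.2 - u) / (r.2 - p.2)) (b := (u - p.2) / (r.2 - p.2))
      (div_nonneg (by linarith) hd.le) (div_nonneg (by linarith) hd.le)
      (by field_simp; ring)
    refine ⟨(((r.2 - u) / (r.2 - p.2)) • p + ((u - p.2) / (r.2 - p.2)) • r).1, ?_⟩
    convert this using 1
    ext
    · rfl
    · simp
      field_simp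
      ring

/-- planar body with centroid on the axis: a section at height one is at most `2/3` of the area -/
private theorem secOne {K : Set P2} (cK : IsCompact K) (vK : Convex ℝ K) (hA : area K = 1)
    (h0 : ∫ y in K, y.2 = 0) (hne : ∃ x, ((x, 1) : P2) ∈ K) : sec K 1 ≤ 2 / 3 := by
  obtain ⟨x1, hx1⟩ := hne
  obtain ⟨p, hp, hpmin⟩ := cK.exists_isMinOn ⟨_, hx1⟩ continuous_snd.continuousOn
  have hpm : ∀ y ∈ K, p.2 ≤ y.2 := fun y hy => hpmin hy
  have hp0 : p.2 ≤ 0 := by
    have := snd_lower cK hpm
    rw [h0, hA] at this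
    linarith
  obtain ⟨e, he⟩ : ∃ e, e = 1 - p.2 := ⟨_, rfl⟩
  have he1 : 1 ≤ e := by linarith
  have hlev : ∀ x ∈ Icc (0:ℝ) e, (1 - x) ∈ {u | ∃ x, ((x, u) : P2) ∈ K} := by
    intro x hx
    exact level_mem vK hp hx1 (by linarith [hx.2]) (by simp; exact hx.1)
  have hsc := sec_concave cK vK
  have hconc : ConcaveOn ℝ (Icc 0 e) (fun x => sec K (1 - x)) := by
    refine ⟨convex_Icc _ _, fun x hx y hy a b ha hb hab => ?_⟩
    have := hsc.2 (hlev x hx) (hlev y hy) ha hb hab
    have he2 : a • (1 - x) + b • (1 - y) = 1 - (a • x + b • y) := by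
      simp only [smul_eq_mul]; nlinarith
    rw [he2] at this
    exact this
  have hint := int_sec_b2 cK
  have hG := lemma_G (g := fun x => sec K (1 - x)) (e := e) (d := 0) (by linarith) le_rfl (by linarith)
    hconc (hint.comp_sub_left 1).integrableOn
  simp only [sub_zero, mul_zero, zero_mul, add_zero] at hG
  have hsub : ∫ x in (0:ℝ)..e, (4 * e - 6 * x) * sec K (1 - x) =
      ∫ u in (1 - e)..1, (4 * e - 6 * (1 - u)) * sec K u := by
    have := intervalIntegral.integral_comp_sub_left
      (f := fun u => (4 * e - 6 * (1 - u)) * sec K u) (a := 0) (b := e) 1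
    simp only [sub_zero, sub_sub_cancel] at this
    exact this
  have hfi : Integrable (fun u => (4 * e - 6 * (1 - u)) * sec K u) := by
    have h1 := (hint.const_mul (4 * e - 6)).add ((int_usec_b2 cK).const_mul 6)
    refine h1.congr (Filter.Eventually.of_forall fun u => ?_)
    simp only [Pi.add_apply]
    ring
  have htot : ∫ u, (4 * e - 6 * (1 - u)) * sec K u = 4 * e - 6 := by
    have h1 : (fun u => (4 * e - 6 * (1 - u)) * sec K u) =
        fun u => (4 * e - 6) * sec K u + 6 * (u * sec K u) := by
      funext u; ring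
    rw [h1, integral_add (hint.const_mul _) ((int_usec_b2 cK).const_mul _), integral_const_mul,
      integral_const_mul, ← area_eq cK, ← integral_snd cK, h0, hA]
    ring
  have hle : ∫ u in (1 - e)..1, (4 * e - 6 * (1 - u)) * sec K u ≤ 4 * e - 6 := by
    rw [intervalIntegral.integral_of_le (by linarith), ← integral_Icc_eq_integral_Ioc]
    rw [← htot, ← integral_add_compl measurableSet_Icc hfi]
    have : 0 ≤ ∫ u in (Icc (1 - e) 1)ᶜ, (4 * e - 6 * (1 - u)) * sec K u := by
      refine setIntegral_nonneg measurableSet_Icc.compl fun u hu => ?_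
      by_cases hu1 : 1 < u
      · apply mul_nonneg
        · nlinarith
        · exact ENNReal.toReal_nonneg
      · have hu2 : u < 1 - e := by
          by_contra hcon
          push Not at hcon hu1
          exact hu ⟨hcon, hu1⟩
        have : sec K u = 0 := by
          apply sec_eq_zero_of_empty
          intro x hx
          have := hpm _ hx
          simp only at this
          linarith
        simp [this]
    linarith
  rw [hsub] at hG
  have hfin : e ^ 2 * sec K 1 ≤ 4 * e - 6 := hG.trans hle
  have he2 : 0 < e ^ 2 := by positivity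
  have : e ^ 2 * sec K 1 ≤ e ^ 2 * (2 / 3) := by nlinarith [sq_nonneg (e - 3)]
  exact le_of_mul_le_mul_left this he2

/-- planar body with centroid on the axis, below height one: it lies above `-2` -/
private theorem belowOne {K : Set P2} (cK : IsCompact K) (vK : Convex ℝ K) (hA : 0 < area K)
    (h0 : ∫ y in K, y.2 = 0) (h1 : ∀ y ∈ K, y.2 ≤ 1) : ∀ y ∈ K, -2 ≤ y.2 := by
  intro y0 hy0
  obtain ⟨p, hp, hpmin⟩ := cK.exists_isMinOn ⟨_, hy0⟩ continuous_snd.continuousOn
  obtain ⟨r, hr, hrmax⟩ := cK.exists_isMaxOn ⟨_, hy0⟩ continuous_snd.continuousOn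
  have hpm : ∀ y ∈ K, p.2 ≤ y.2 := fun y hy => hpmin hy
  have hrm : ∀ y ∈ K, y.2 ≤ r.2 := fun y hy => hrmax hy
  refine le_trans ?_ (hpm y0 hy0)
  by_contra hcon
  push Not at hcon
  have hr0 : 0 ≤ r.2 := by
    have := snd_upper cK hrm
    rw [h0] at this
    by_contra hc
    push Not at hc
    nlinarith
  obtain ⟨a, ha⟩ : ∃ a, a = -p.2 := ⟨_, rfl⟩
  have hlev : ∀ q ∈ Icc (0:ℝ) (3 * (2 * (a + r.2) / 3) / 2), (q - a) ∈ {u | ∃ x, ((x, u) : P2) ∈ K} := by
    intro q hq
    exact level_mem vK hp hr (by linarith [hq.1]) (by linarith [hq.2])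
  have hsc := sec_concave cK vK
  have hconc : ConcaveOn ℝ (Icc 0 (3 * (2 * (a + r.2) / 3) / 2)) (fun q => sec K (q - a)) := by
    refine ⟨convex_Icc _ _, fun x hx y hy s t hs ht hst => ?_⟩
    have := hsc.2 (hlev x hx) (hlev y hy) hs ht hst
    have he2 : s • (x - a) + t • (y - a) = (s • x + t • y) - a := by
      simp only [smul_eq_mul]; nlinarith
    rw [he2] at this
    exact this
  have hint := int_sec_b2 cK
  have hL := lemma_A (φ := fun q => sec K (q - a)) (μ := 2 * (a + r.2) / 3) (by linarith)
    hconc (hint.comp_sub_right a).integrableOn ENNReal.toReal_nonneg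
  have hb : 3 * (2 * (a + r.2) / 3) / 2 = a + r.2 := by ring
  rw [hb] at hL
  have hsub : ∫ q in (0:ℝ)..(a + r.2), (q - 2 * (a + r.2) / 3) * sec K (q - a) =
      ∫ u in (-a)..r.2, (u + a - 2 * (a + r.2) / 3) * sec K u := by
    have := intervalIntegral.integral_comp_sub_right
      (f := fun u => (u + a - 2 * (a + r.2) / 3) * sec K u) (a := 0) (b := a + r.2) a
    simp only [zero_sub, sub_add_cancel, add_sub_cancel_left] at this
    exact this
  have hfi : Integrable (fun u => (u + a - 2 * (a + r.2) / 3) * sec K u) := by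
    have h1 := (hint.const_mul (a - 2 * (a + r.2) / 3)).add (int_usec_b2 cK)
    refine h1.congr (Filter.Eventually.of_forall fun u => ?_)
    simp only [Pi.add_apply]
    ring
  have htot : ∫ u, (u + a - 2 * (a + r.2) / 3) * sec K u = (a - 2 * (a + r.2) / 3) * area K := by
    have h1 : (fun u => (u + a - 2 * (a + r.2) / 3) * sec K u) =
        fun u => (a - 2 * (a + r.2) / 3) * sec K u + u * sec K u := by
      funext u; ring
    rw [h1, integral_add (hint.const_mul _) (int_usec_b2 cK), integral_const_mul,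
      ← area_eq cK, ← integral_snd cK, h0]
    ring
  have heq : ∫ u in (-a)..r.2, (u + a - 2 * (a + r.2) / 3) * sec K u =
      (a - 2 * (a + r.2) / 3) * area K := by
    rw [intervalIntegral.integral_of_le (by linarith), ← integral_Icc_eq_integral_Ioc]
    rw [← htot, ← integral_add_compl (μ := volume) (s := Icc (-a) r.2) measurableSet_Icc hfi]
    have : ∫ u in (Icc (-a) r.2)ᶜ, (u + a - 2 * (a + r.2) / 3) * sec K u = 0 := by
      refine setIntegral_eq_zero_of_forall_eq_zero fun u hu => ?_
      have : sec K u = 0 := by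
        apply sec_eq_zero_of_empty
        intro x hx
        apply hu
        have h2 := hpm _ hx
        have h3 := hrm _ hx
        simp only at h2 h3
        exact ⟨by linarith, h3⟩
      simp [this]
    rw [this, add_zero]
  rw [hsub, heq] at hL
  have h2 : a - 2 * (a + r.2) / 3 ≤ 0 := by
    by_contra hc
    push Not at hc
    have := mul_pos hc hA
    linarith
  have h3 := h1 r hr
  linarith

/-! ### change of coordinates -/

/-- the linear map `y ↦ (m·y, n·y)` -/
private noncomputable def MM (m n : P2) : P2 →ₗ[ℝ] P2 :=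
  Matrix.toLin (Module.Basis.finTwoProd ℝ) (Module.Basis.finTwoProd ℝ) !![m.1, m.2; n.1, n.2]

private theorem MM_apply (m n y : P2) : MM m n y = (dot m y, dot n y) := by
  simp [MM, Matrix.toLin_finTwoProd_apply, dot]

private theorem MM_det (m n : P2) : LinearMap.det (MM m n) = det m n := by
  rw [MM, LinearMap.det_toLin, Matrix.det_fin_two]
  simp [det]

private theorem MM_map {m n : P2} (h : det m n ≠ 0) :
    Measure.map (MM m n) volume = ENNReal.ofReal |(det m n)⁻¹| • (volume : Measure P2) := by
  have := Measure.map_linearMap_addHaar_eq_smul_addHaar (volume : Measure P2) (f := MM m n)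
    (by rw [MM_det]; exact h)
  rwa [MM_det] at this

private theorem MM_cont (m n : P2) : Continuous (MM m n) :=
  LinearMap.continuous_of_finiteDimensional _

private theorem MM_inj {m n : P2} (h : det m n ≠ 0) : Function.Injective (MM m n) := by
  intro x y hxy
  rw [MM_apply, MM_apply, Prod.mk.injEq] at hxy
  obtain ⟨h1, h2⟩ := hxy
  simp only [dot, det] at h1 h2 h
  have h3 : (m.1 * n.2 - m.2 * n.1) * (x.1 - y.1) = 0 := by linear_combination n.2 * h1 - m.2 * h2
  have h4 : (m.1 * n.2 - m.2 * n.1) * (x.2 - y.2) = 0 := by linear_combination m.1 * h2 - n.1 * h1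
  have h5 := (mul_eq_zero.1 h3).resolve_left h
  have h6 := (mul_eq_zero.1 h4).resolve_left h
  ext
  · linarith
  · linarith

private theorem MM_emb {m n : P2} (h : det m n ≠ 0) : MeasurableEmbedding (MM m n) :=
  (MM_cont m n).measurableEmbedding (MM_inj h)

private theorem MM_mp {m n : P2} (h : |det m n| = 1) :
    MeasurePreserving (MM m n) (volume : Measure P2) volume := by
  have h0 : det m n ≠ 0 := by intro h0; simp [h0] at h
  refine ⟨(MM_cont m n).measurable, ?_⟩
  rw [MM_map h0, abs_inv, h]
  simp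

private theorem MM_area {m n : P2} (h : |det m n| = 1) (K : Set P2) :
    area (MM m n '' K) = area K := by
  have h0 : det m n ≠ 0 := by intro h0; simp [h0] at h
  unfold area
  congr 1
  have := (MM_mp h).measure_preimage_emb (MM_emb h0) (MM m n '' K)
  rw [(MM_inj h0).preimage_image] at this
  exact this.symm

private theorem MM_snd {m n : P2} (h : |det m n| = 1) (K : Set P2) :
    ∫ y in MM m n '' K, y.2 = ∫ y in K, dot n y := by
  have h0 : det m n ≠ 0 := by intro h0; simp [h0] at h
  rw [(MM_mp h).setIntegral_image_emb (MM_emb h0)]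
  simp only [MM_apply]

private theorem int_dot {K : Set P2} (cK : IsCompact K) (n : P2) :
    ∫ y in K, dot n y = n.1 * (∫ y in K, y.1) + n.2 * (∫ y in K, y.2) := by
  have h1 : IntegrableOn (fun y : P2 => y.1) K := continuous_fst.continuousOn.integrableOn_compact cK
  have h2 : IntegrableOn (fun y : P2 => y.2) K := continuous_snd.continuousOn.integrableOn_compact cK
  unfold dot
  rw [integral_add (h1.const_mul _) (h2.const_mul _), integral_const_mul, integral_const_mul]

private theorem cG_b2 (b : Body F G Gt B) : IsCompact G := by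
  rw [b.hG, b.hGt]
  exact b.cF.inter_right (b.cB.isClosed.preimage (by fun_prop))

private theorem vG_b2 (b : Body F G Gt B) : Convex ℝ G := by
  rw [b.hG, b.hGt]
  refine b.vF.inter ?_
  intro x hx y hy s t hs ht hst
  have := b.vB hx hy hs ht hst
  simpa using this

private theorem det_le_aux (b : Body F G Gt B) {P Q : P2} (hP : P ∈ G) (hQ : Q ∈ G)
    (hd : 0 < det P Q) : det P Q ≤ 2 / 3 := by
  -- functional with value 1 at P and Q
  obtain ⟨m, hm⟩ : ∃ m : P2, m = ((Q.2 - P.2) / det P Q, (P.1 - Q.1) / det P Q) := ⟨_, rfl⟩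
  have hmP : dot m P = 1 := by
    rw [hm]; simp only [dot]
    have : det P Q ≠ 0 := hd.ne'
    field_simp
    simp only [det]; ring
  have hmQ : dot m Q = 1 := by
    rw [hm]; simp only [dot]
    have : det P Q ≠ 0 := hd.ne'
    field_simp
    simp only [det]; ring
  have hdet : det (-P.2, P.1) m = -1 := by
    have : det (-P.2, P.1) m = - dot m P := by simp only [det, dot]; ring
    rw [this, hmP]
  have habs : |det (-P.2, P.1) m| = 1 := by rw [hdet]; norm_num
  have hLP : MM (-P.2, P.1) m P = (0, 1) := by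
    rw [MM_apply, hmP]
    congr 1
    simp only [dot]; ring
  have hLQ : MM (-P.2, P.1) m Q = (det P Q, 1) := by
    rw [MM_apply, hmQ]
    congr 1
    simp only [dot, det]; ring
  have cG := cG_b2 b
  have vG := vG_b2 b
  have cK : IsCompact (MM (-P.2, P.1) m '' G) := cG.image (MM_cont _ _)
  have vK : Convex ℝ (MM (-P.2, P.1) m '' G) := vG.linear_image _
  have h1 : area (MM (-P.2, P.1) m '' G) = 1 := by rw [MM_area habs, b.G1]
  have h2 : ∫ y in MM (-P.2, P.1) m '' G, y.2 = 0 := by
    rw [MM_snd habs, int_dot cG, b.G01, b.G02]; ring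
  have hPm : ((0, 1) : P2) ∈ MM (-P.2, P.1) m '' G := ⟨P, hP, hLP⟩
  have hQm : ((det P Q, 1) : P2) ∈ MM (-P.2, P.1) m '' G := ⟨Q, hQ, hLQ⟩
  have h3 := secOne cK vK h1 h2 ⟨0, hPm⟩
  refine le_trans ?_ h3
  have hfin : volume {x : ℝ | ((x, 1) : P2) ∈ MM (-P.2, P.1) m '' G} ≠ ⊤ := by
    have : {x : ℝ | ((x, 1) : P2) ∈ MM (-P.2, P.1) m '' G} ⊆ Prod.fst '' (MM (-P.2, P.1) m '' G) :=
      fun x hx => ⟨_, hx, rfl⟩
    exact ((measure_mono this).trans_lt ((cK.image continuous_fst).measure_lt_top)).ne
  have hsub : Icc (0:ℝ) (det P Q) ⊆ {x : ℝ | ((x, 1) : P2) ∈ MM (-P.2, P.1) m '' G} := by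
    intro x hx
    have := vK hPm hQm (a := 1 - x / det P Q) (b := x / det P Q)
      (by rw [sub_nonneg, div_le_one hd]; exact hx.2) (div_nonneg hx.1 hd.le) (by ring)
    have he : (1 - x / det P Q) • ((0, 1) : P2) + (x / det P Q) • ((det P Q, 1) : P2) = (x, 1) := by
      ext
      · simp
        field_simp
      · simp
    rw [he] at this
    exact this
  have := ENNReal.toReal_mono hfin (measure_mono hsub)
  rw [Real.volume_Icc, sub_zero, ENNReal.toReal_ofReal hd.le] at this
  exact this

/-- Lemma T -/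
theorem Body.det_le (b : Body F G Gt B) {P Q : P2} (hP : P ∈ G) (hQ : Q ∈ G) :
    |det P Q| ≤ 2 / 3 := by
  rcases lt_trichotomy (det P Q) 0 with h | h | h
  · rw [abs_of_neg h]
    have h2 : det Q P = - det P Q := by simp only [det]; ring
    rw [← h2]
    exact det_le_aux b hQ hP (by rw [h2]; linarith)
  · rw [h]; norm_num
  · rw [abs_of_pos h]
    exact det_le_aux b hP hQ h

theorem Body.sup_ge (b : Body F G Gt B) {m : P2} (hm : Sup F m) {y : P2} (hy : y ∈ F) :
    -2 ≤ dot m y := by
  by_cases hm0 : m.1 ^ 2 + m.2 ^ 2 = 0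
  · have h1 : m.1 = 0 := by nlinarith [sq_nonneg m.1, sq_nonneg m.2]
    have h2 : m.2 = 0 := by nlinarith [sq_nonneg m.1, sq_nonneg m.2]
    simp [dot, h1, h2]
  obtain ⟨P, hPdef⟩ : ∃ P : P2, P = (m.1 / (m.1 ^ 2 + m.2 ^ 2), m.2 / (m.1 ^ 2 + m.2 ^ 2)) := ⟨_, rfl⟩
  have hmP : dot m P = 1 := by
    rw [hPdef]; simp only [dot]
    field_simp
  have hdet : det (-P.2, P.1) m = -1 := by
    have : det (-P.2, P.1) m = - dot m P := by simp only [det, dot]; ring
    rw [this, hmP]
  have habs : |det (-P.2, P.1) m| = 1 := by rw [hdet]; norm_num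
  have cK : IsCompact (MM (-P.2, P.1) m '' F) := b.cF.image (MM_cont _ _)
  have vK : Convex ℝ (MM (-P.2, P.1) m '' F) := b.vF.linear_image _
  have h1 : 0 < area (MM (-P.2, P.1) m '' F) := by
    rw [MM_area habs]; have := b.F4; linarith
  have h2 : ∫ y in MM (-P.2, P.1) m '' F, y.2 = 0 := by
    rw [MM_snd habs, int_dot b.cF, b.F01, b.F02]; ring
  have h3 : ∀ y ∈ MM (-P.2, P.1) m '' F, y.2 ≤ 1 := by
    rintro _ ⟨y, hy, rfl⟩
    rw [MM_apply]
    exact hm y hy
  have := belowOne cK vK h1 h2 h3 _ ⟨y, hy, rfl⟩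
  rw [MM_apply] at this
  exact this

/-! ### Lemma Qd -/

private noncomputable def psi (v : P2) : ℝ :=
  (Icc (-2:ℝ) 1 ×ˢ Icc (-2:ℝ) 1).indicator (fun v : P2 => max (1 + v.1 + v.2) 0) v

private theorem inner_psi {x : ℝ} (hx : x ∈ Icc (-2:ℝ) 1) :
    ∫ y in Icc (-2:ℝ) 1, max (1 + x + y) 0 = (2 + x) ^ 2 / 2 := by
  rw [integral_Icc_eq_integral_Ioc, ← intervalIntegral.integral_of_le (by norm_num)]
  have hc : Continuous (fun y : ℝ => max (1 + x + y) 0) := by fun_prop
  rw [← intervalIntegral.integral_add_adjacent_intervals (b := -1 - x)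
    (hc.intervalIntegrable _ _) (hc.intervalIntegrable _ _)]
  have h1 : ∫ y in (-2:ℝ)..(-1 - x), max (1 + x + y) 0 = 0 := by
    rw [intervalIntegral.integral_congr (g := fun _ => (0:ℝ))]
    · simp
    · intro y hy
      rw [uIcc_of_le (by linarith [hx.2])] at hy
      simp only
      exact max_eq_right (by linarith [hy.2])
  have h2 : ∫ y in (-1 - x)..(1:ℝ), max (1 + x + y) 0 = ∫ y in (-1 - x)..(1:ℝ), ((1 + x) + y) := by
    apply intervalIntegral.integral_congr
    intro y hy
    rw [uIcc_of_le (by linarith [hx.1])] at hy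
    simp only
    exact max_eq_left (by linarith [hy.1])
  rw [h1, h2, intervalIntegral.integral_add (by simp) (by simp)]
  simp
  ring

private theorem psi_integral : ∫ v : P2, psi v = 9 / 2 := by
  unfold psi
  rw [integral_indicator (measurableSet_Icc.prod measurableSet_Icc)]
  have hc : Continuous (fun v : P2 => max (1 + v.1 + v.2) 0) := by fun_prop
  have hi : IntegrableOn (fun v : P2 => max (1 + v.1 + v.2) 0) (Icc (-2:ℝ) 1 ×ˢ Icc (-2:ℝ) 1)
      ((volume : Measure ℝ).prod volume) :=
    hc.continuousOn.integrableOn_compact (isCompact_Icc.prod isCompact_Icc)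
  have : ∫ v in Icc (-2:ℝ) 1 ×ˢ Icc (-2:ℝ) 1, max (1 + v.1 + v.2) 0 ∂((volume : Measure ℝ).prod volume) =
      ∫ x in Icc (-2:ℝ) 1, ∫ y in Icc (-2:ℝ) 1, max (1 + x + y) 0 :=
    setIntegral_prod _ hi
  rw [← Measure.volume_eq_prod] at this
  rw [this, setIntegral_congr_fun (g := fun x => (2 + x) ^ 2 / 2) measurableSet_Icc
    (fun x hx => inner_psi hx), integral_Icc_eq_integral_Ioc,
    ← intervalIntegral.integral_of_le (by norm_num)]
  have h3 : ∀ x ∈ uIcc (-2:ℝ) 1, HasDerivAt (fun x : ℝ => (2 + x) ^ 3 / 6) ((2 + x) ^ 2 / 2) x := by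
    intro x _
    have := (((hasDerivAt_id' x).const_add 2).fun_pow 3).div_const 6
    refine this.congr_deriv ?_
    norm_num
    ring
  rw [intervalIntegral.integral_eq_sub_of_hasDerivAt h3
    ((by fun_prop : Continuous fun x : ℝ => (2 + x) ^ 2 / 2).intervalIntegrable _ _)]
  norm_num

private theorem psi_int : Integrable psi := by
  unfold psi
  have hc : Continuous (fun v : P2 => max (1 + v.1 + v.2) 0) := by fun_prop
  exact (hc.continuousOn.integrableOn_compact (isCompact_Icc.prod isCompact_Icc)).integrable_indicator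
    (measurableSet_Icc.prod measurableSet_Icc)

private theorem psi_nonneg (v : P2) : 0 ≤ psi v := by
  unfold psi
  exact indicator_nonneg (fun _ _ => le_max_right _ _) _

/-- Lemma Qd -/
theorem Body.det_sup_le (b : Body F G Gt B) {m n : P2} (hm : Sup F m) (hn : Sup F n) :
    area F * |det m n| ≤ 9 / 2 := by
  by_cases hd : det m n = 0
  · rw [hd]; norm_num
  have habs : 0 < |det m n| := abs_pos.2 hd
  have hcomp : ∫ y : P2, psi (MM m n y) = |(det m n)⁻¹| * (9 / 2) := by
    have h1 := (MM_emb hd).integral_map (μ := volume) psi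
    rw [MM_map hd, integral_smul_measure, psi_integral, ENNReal.toReal_ofReal (abs_nonneg _)] at h1
    rw [← h1, smul_eq_mul]
  have hci : Integrable (fun y : P2 => psi (MM m n y)) := by
    have h1 : Integrable psi (Measure.map (MM m n) volume) := by
      rw [MM_map hd]
      exact psi_int.smul_measure ENNReal.ofReal_ne_top
    exact (MM_emb hd).integrable_map_iff.1 h1
  have hi1 : IntegrableOn (fun y : P2 => dot m y) F :=
    (by unfold dot; fun_prop : Continuous fun y : P2 => dot m y).continuousOn.integrableOn_compact b.cF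
  have hi2 : IntegrableOn (fun y : P2 => dot n y) F :=
    (by unfold dot; fun_prop : Continuous fun y : P2 => dot n y).continuousOn.integrableOn_compact b.cF
  have hc : IntegrableOn (fun _ : P2 => (1:ℝ)) F := integrableOn_const b.cF.measure_lt_top.ne
  have hA : ∫ y in F, (1 + dot m y + dot n y) = area F := by
    have h12 : IntegrableOn (fun y : P2 => 1 + dot m y) F := hc.add hi1
    rw [integral_add h12 hi2, integral_add hc hi1, int_dot b.cF, int_dot b.cF, b.F01, b.F02,
      setIntegral_const]
    simp [area, Measure.real]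
  have hle : ∫ y in F, (1 + dot m y + dot n y) ≤ ∫ y in F, psi (MM m n y) := by
    refine setIntegral_mono_on ((hc.add hi1).add hi2) hci.integrableOn b.cF.measurableSet ?_
    intro y hy
    rw [MM_apply]
    unfold psi
    rw [indicator_of_mem]
    · exact le_max_left _ _
    · exact ⟨⟨b.sup_ge hm hy, hm y hy⟩, ⟨b.sup_ge hn hy, hn y hy⟩⟩
  have hle2 : ∫ y in F, psi (MM m n y) ≤ ∫ y, psi (MM m n y) :=
    setIntegral_le_integral hci (Filter.Eventually.of_forall fun y => psi_nonneg _)
  rw [hA] at hle
  have h := hle.trans hle2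
  rw [hcomp, abs_inv] at h
  calc area F * |det m n| ≤ (|det m n|⁻¹ * (9 / 2)) * |det m n| :=
        mul_le_mul_of_nonneg_right h habs.le
    _ = 9 / 2 := by field_simp

end Pool.Agent.helper15.PB
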