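import Pool.Agent.helper15.PB.B2

/-! # Module PB-B3: Lemma D and the sign lemma (helper22) -/

set_option autoImplicit false
open MeasureTheory Set
open scoped Pointwise

namespace Pool.Agent.helper15.PB

variable {F G Gt : Set P2} {B : Set (P2 × ℝ)} {ω H e T c : ℝ}

/-- Lemma D -/
theorem Body.lemma_D (b : Body F G Gt B) {P m Q n : P2} (h1 : Contact F Gt P m) (h2 : Contact F Gt Q n) :
    1 / 4 < dot n P * dot m Q := by
  obtain ⟨hPF, hPG, hm, hmP⟩ := h1
  obtain ⟨hQF, hQG, hn, hnQ⟩ := h2
  have hP : P ∈ G := by rw [b.hG]; exact ⟨hPF, hPG⟩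
  have hQ : Q ∈ G := by rw [b.hG]; exact ⟨hQF, hQG⟩
  have e1 := b.det_le hP hQ
  have e2 := b.det_sup_le hm hn
  have e3 := b.F4
  have e4 : det m n * det P Q = 1 - dot n P * dot m Q := by
    have : det m n * det P Q = dot m P * dot n Q - dot m Q * dot n P := by
      simp only [det, dot]; ring
    rw [this, hmP, hnQ]; ring
  have e5 : |det m n| < 9 / 8 := by
    have h0 := abs_nonneg (det m n)
    by_contra h
    push Not at h
    nlinarith
  have e6 : |det m n| * |det P Q| < 3 / 4 := by
    have h0 := abs_nonneg (det m n)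
    have h0' := abs_nonneg (det P Q)
    nlinarith
  rw [← abs_mul, e4] at e6
  have := (abs_lt.1 e6).2
  linarith

/-- the sign lemma -/
theorem Body.sign (b : Body F G Gt B) {P m Q n R k : P2} (h1 : Contact F Gt P m)
    (h2 : Contact F Gt Q n) (h3 : Contact F Gt R k) : 0 < dot m Q * dot n R * dot k P := by
  have p := b.lemma_D h1 h2
  have q := b.lemma_D h1 h3
  have r := b.lemma_D h2 h3
  have hmP := h1.2.2.2
  have hnQ := h2.2.2.2
  have hkR := h3.2.2.2
  have hdet : 1 + dot m Q * dot n R * dot k P + dot m R * dot n P * dot k Q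
      - dot n P * dot m Q - dot k P * dot m R - dot k Q * dot n R = 0 := by
    have : dot m P * dot n Q * dot k R + dot m Q * dot n R * dot k P + dot m R * dot n P * dot k Q
      - dot n P * dot m Q * dot k R - dot k P * dot m R * dot n Q - dot k Q * dot n R * dot m P = 0 := by
      simp only [dot]; ring
    rw [hmP, hnQ, hkR] at this
    linarith
  set s := dot m Q * dot n R * dot k P with hs
  set s' := dot m R * dot n P * dot k Q with hs'
  have hss : s * s' = (dot n P * dot m Q) * (dot k P * dot m R) * (dot k Q * dot n R) := by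
    rw [hs, hs']; ring
  have h64 : 1 / 64 < s * s' := by
    rw [hss]
    have h16 : 1 / 16 < (dot n P * dot m Q) * (dot k P * dot m R) := by nlinarith
    nlinarith
  have hsum : -(1 / 4) < s + s' := by linarith
  by_contra hneg
  push Not at hneg
  have hs0 : s < 0 := by
    rcases hneg.lt_or_eq with h | h
    · exact h
    · rw [h] at h64; norm_num at h64
  have hs0' : s' < 0 := by
    by_contra h
    push Not at h
    nlinarith
  nlinarith [sq_nonneg (s - s')]

end Pool.Agent.helper15.PB
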