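import Pool.Agent.helper15.PB.B1
import Pool.Agent.helper15.PB.B3

/-! # MP_0069fb_gt, planar half, module B4a: angular extremes of a class of contacts -/

set_option autoImplicit false
open MeasureTheory Set
open scoped Pointwise

namespace Pool.Agent.helper15.PB

variable {F G Gt : Set P2} {B : Set (P2 × ℝ)} {ω H e T c : ℝ}

/-- the basic planar identity -/
theorem dot_det_identity_b4 (m R x y : P2) :
    dot m R * det x y = dot m x * det R y - dot m y * det R x := by
  simp only [dot, det]; ring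

theorem Body.isCompact_Gt_b4 (b : Body F G Gt B) : IsCompact Gt := by
  rw [b.hGt]
  have h1 : IsClosed {y : P2 | ((y, 0) : P2 × ℝ) ∈ B} :=
    b.cB.isClosed.preimage (by fun_prop : Continuous fun y : P2 => ((y, 0) : P2 × ℝ))
  refine (b.cB.image continuous_fst).of_isClosed_subset h1 ?_
  intro y hy
  exact ⟨(y, 0), hy, rfl⟩

theorem Body.convex_Gt_b4 (b : Body F G Gt B) : Convex ℝ Gt := by
  rw [b.hGt]
  intro x hx y hy a c ha hc hac
  have := b.vB hx hy ha hc hac
  simpa [Prod.smul_mk] using this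

theorem Body.zero_mem_F_b4 (b : Body F G Gt B) : (0 : P2) ∈ F := mem_of_mem_nhds b.zero_mem_nhds_F

theorem Body.zero_mem_G_b4 (b : Body F G Gt B) : (0 : P2) ∈ G := mem_of_mem_nhds b.zero_mem_nhds_G

/-- a box around the origin inside a neighbourhood -/
theorem exists_box_b4 {K : Set P2} (hK : K ∈ nhds (0 : P2)) :
    ∃ r : ℝ, 0 < r ∧ ∀ x : P2, |x.1| ≤ r → |x.2| ≤ r → x ∈ K := by
  obtain ⟨ε, hε, h⟩ := Metric.mem_nhds_iff.1 hK
  refine ⟨ε / 2, by positivity, fun x h1 h2 => h ?_⟩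
  rw [mem_ball_zero_iff, Prod.norm_def]
  simp only [Real.norm_eq_abs]
  exact (max_le h1 h2).trans_lt (by linarith)

/-- supporting functionals are bounded -/
theorem Body.sup_bounded_b4 (b : Body F G Gt B) :
    ∃ M : ℝ, ∀ k : P2, Sup F k → |k.1| ≤ M ∧ |k.2| ≤ M := by
  obtain ⟨r, hr, h⟩ := exists_box_b4 b.zero_mem_nhds_F
  refine ⟨1 / r, fun k hk => ?_⟩
  have e1 := hk (r, 0) (h _ (by simp [abs_of_pos hr]) (by simp [hr.le]))
  have e2 := hk (-r, 0) (h _ (by simp [abs_of_pos hr]) (by simp [hr.le]))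
  have e3 := hk (0, r) (h _ (by simp [hr.le]) (by simp [abs_of_pos hr]))
  have e4 := hk (0, -r) (h _ (by simp [hr.le]) (by simp [abs_of_pos hr]))
  simp only [dot] at e1 e2 e3 e4
  constructor
  · rw [abs_le]
    constructor
    · rw [neg_le, le_div_iff₀ hr]; linarith
    · rw [le_div_iff₀ hr]; linarith
  · rw [abs_le]
    constructor
    · rw [neg_le, le_div_iff₀ hr]; linarith
    · rw [le_div_iff₀ hr]; linarith

/-- The set of contacts in the class of `(R1,m1)`. -/
def clsSet_b4 (F Gt : Set P2) (m1 : P2) : Set (P2 × P2) :=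
  {p | Contact F Gt p.1 p.2 ∧ 1 / 4 ≤ dot m1 p.1}

theorem Body.isCompact_clsSet_b4 (b : Body F G Gt B) (m1 : P2) : IsCompact (clsSet_b4 F Gt m1) := by
  obtain ⟨M, hM⟩ := b.sup_bounded_b4
  have hc : IsClosed (clsSet_b4 F Gt m1) := by
    have e : clsSet_b4 F Gt m1 = {p : P2 × P2 | p.1 ∈ F} ∩ {p | p.1 ∈ Gt} ∩
        (⋂ y ∈ F, {p : P2 × P2 | dot p.2 y ≤ 1}) ∩ {p | dot p.2 p.1 = 1} ∩
        {p | 1 / 4 ≤ dot m1 p.1} := by
      ext p
      simp only [clsSet_b4, Contact, Sup, mem_ofPred_eq, mem_inter_iff, mem_iInter]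
      tauto
    rw [e]
    refine ((((b.cF.isClosed.preimage continuous_fst).inter
      (b.isCompact_Gt_b4.isClosed.preimage continuous_fst)).inter ?_).inter ?_).inter ?_
    · refine isClosed_biInter fun y _ => ?_
      exact isClosed_le (by unfold dot; fun_prop) continuous_const
    · exact isClosed_eq (by unfold dot; fun_prop) continuous_const
    · exact isClosed_le continuous_const (by unfold dot; fun_prop)
  refine (b.cF.prod (isCompact_Icc (a := ((-M, -M) : P2)) (b := ((M, M) : P2)))).of_isClosed_subset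
    hc ?_
  rintro ⟨R, k⟩ ⟨⟨h1, h2, h3, h4⟩, h5⟩
  obtain ⟨e1, e2⟩ := hM k h3
  rw [abs_le] at e1 e2
  refine ⟨h1, ?_⟩
  rw [mem_Icc, Prod.le_def, Prod.le_def]
  exact ⟨⟨e1.1, e2.1⟩, ⟨e1.2, e2.2⟩⟩

/-- a contact of the class has `m1 · R > 1/4` -/
theorem Body.quarter_lt_b4 (b : Body F G Gt B) {R1 m1 R k : P2} (h1 : Contact F Gt R1 m1)
    (h : Contact F Gt R k) (hp : 0 < dot m1 R) : 1 / 4 < dot m1 R := by
  have h2 := b.lemma_D h1 h
  have h3 : dot k R1 ≤ 1 := h.2.2.1 R1 h1.1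
  have h4 : 0 < dot k R1 := by
    by_contra hneg
    push Not at hneg
    have := mul_nonpos_of_nonpos_of_nonneg hneg hp.le
    linarith
  nlinarith

theorem dot_smul_b4 (m x : P2) (a : ℝ) : dot m (a • x) = a * dot m x := by
  simp only [dot, Prod.smul_fst, Prod.smul_snd, smul_eq_mul]; ring

theorem dot_add_b4 (m x y : P2) : dot m (x + y) = dot m x + dot m y := by
  simp only [dot, Prod.fst_add, Prod.snd_add]; ring

theorem det_smul_right_b4 (x y : P2) (a : ℝ) : det x (a • y) = a * det x y := by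
  simp only [det, Prod.smul_fst, Prod.smul_snd, smul_eq_mul]; ring

theorem det_smul_left_b4 (x y : P2) (a : ℝ) : det (a • x) y = a * det x y := by
  simp only [det, Prod.smul_fst, Prod.smul_snd, smul_eq_mul]; ring

theorem det_add_right_b4 (x y z : P2) : det x (y + z) = det x y + det x z := by
  simp only [det, Prod.fst_add, Prod.snd_add]; ring

theorem det_self_b4 (x : P2) : det x x = 0 := by
  simp only [det]; ring

/-- B4a: angular extremes of a class -/
theorem Body.exists_extremes (b : Body F G Gt B) {R1 m1 : P2} (h1 : Contact F Gt R1 m1)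
    {z : P2} (hz : z ∈ Gt) (hzF : z ∉ F) (hz1 : 0 < dot m1 z) :
    ∃ P Q mj mk : P2, Contact F Gt P mj ∧ Contact F Gt Q mk ∧ 0 < dot m1 P ∧ 0 < dot m1 Q ∧
      0 < det P Q ∧ ∀ R k : P2, Contact F Gt R k → 0 < dot m1 R → 0 ≤ det P R ∧ 0 ≤ det R Q := by
  have hm1 : dot m1 R1 = 1 := h1.2.2.2
  set φ : P2 × P2 → ℝ := fun p => det R1 p.1 / dot m1 p.1 with hφ
  have hpos : ∀ p ∈ clsSet_b4 F Gt m1, 0 < dot m1 p.1 := fun p hp => by
    have := hp.2; linarith
  have hcont : ContinuousOn φ (clsSet_b4 F Gt m1) := by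
    apply ContinuousOn.div
    · unfold det; fun_prop
    · unfold dot; fun_prop
    · intro p hp; exact (hpos p hp).ne'
  have hne : (clsSet_b4 F Gt m1).Nonempty := ⟨(R1, m1), h1, by simp only [hm1]; norm_num⟩
  obtain ⟨⟨P, mj⟩, hP, hPmin⟩ := (b.isCompact_clsSet_b4 m1).exists_isMinOn hne hcont
  obtain ⟨⟨Q, mk⟩, hQ, hQmax⟩ := (b.isCompact_clsSet_b4 m1).exists_isMaxOn hne hcont
  have hPp : 0 < dot m1 P := hpos _ hP
  have hQp : 0 < dot m1 Q := hpos _ hQ
  -- determinant in terms of the quotients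
  have key : ∀ x y : P2, 0 < dot m1 x → 0 < dot m1 y →
      det x y = dot m1 x * dot m1 y * (det R1 y / dot m1 y - det R1 x / dot m1 x) := by
    intro x y hx hy
    have := dot_det_identity_b4 m1 R1 x y
    rw [hm1, one_mul] at this
    rw [this]
    field_simp
  have hext : ∀ R k : P2, Contact F Gt R k → 0 < dot m1 R → 0 ≤ det P R ∧ 0 ≤ det R Q := by
    intro R k hR hRp
    have hmem : (R, k) ∈ clsSet_b4 F Gt m1 := ⟨hR, (b.quarter_lt_b4 h1 hR hRp).le⟩
    have e1 : φ (P, mj) ≤ φ (R, k) := hPmin hmem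
    have e2 : φ (R, k) ≤ φ (Q, mk) := hQmax hmem
    simp only [hφ] at e1 e2
    constructor
    · rw [key P R hPp hRp]
      exact mul_nonneg (mul_pos hPp hRp).le (by linarith)
    · rw [key R Q hRp hQp]
      exact mul_nonneg (mul_pos hRp hQp).le (by linarith)
  refine ⟨P, Q, mj, mk, hP.1, hQ.1, hPp, hQp, ?_, hext⟩
  -- two different directions in the class
  obtain ⟨R, m, θ, hθ, hzR, hR⟩ := b.exists_contact hz hzF
  have hz0 : z ≠ 0 := fun h => hzF (h ▸ b.zero_mem_F_b4)
  -- a small vector independent of `z`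
  obtain ⟨r, hr, hbox⟩ := exists_box_b4 b.zero_mem_nhds_G
  obtain ⟨w, hwG, hw⟩ : ∃ w : P2, w ∈ Gt ∧ det z w ≠ 0 := by
    have hGG : G ⊆ Gt := by rw [b.hG]; exact inter_subset_right
    by_cases h : z.1 = 0
    · have h2 : z.2 ≠ 0 := fun h2 => hz0 (Prod.ext h h2)
      refine ⟨(r, 0), hGG (hbox _ (by simp [abs_of_pos hr]) (by simp [hr.le])), ?_⟩
      simp only [det, mul_zero, zero_sub, neg_ne_zero]
      exact mul_ne_zero h2 hr.ne'
    · refine ⟨(0, r), hGG (hbox _ (by simp [hr.le]) (by simp [abs_of_pos hr])), ?_⟩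
      simp only [det, mul_zero, sub_zero]
      exact mul_ne_zero h hr.ne'
  -- the perturbed point
  have hcl : ∀ᶠ ε in nhdsWithin (0 : ℝ) (Ioi 0), (1 - ε) • z + ε • w ∉ F ∧
      0 < dot m1 ((1 - ε) • z + ε • w) := by
    have hc1 : Continuous fun ε : ℝ => (1 - ε) • z + ε • w := by fun_prop
    have e1 : ∀ᶠ ε in nhds (0 : ℝ), (1 - ε) • z + ε • w ∈ Fᶜ := by
      apply hc1.continuousAt.eventually
      apply b.cF.isClosed.isOpen_compl.mem_nhds
      simpa using hzF
    have hc2 : Continuous fun ε : ℝ => dot m1 ((1 - ε) • z + ε • w) := by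
      unfold dot; fun_prop
    have e2 : ∀ᶠ ε in nhds (0 : ℝ), 0 < dot m1 ((1 - ε) • z + ε • w) := by
      apply hc2.continuousAt.eventually
      apply isOpen_Ioi.mem_nhds
      simpa using hz1
    exact ((e1.and e2).filter_mono nhdsWithin_le_nhds).mono fun ε h => ⟨h.1, h.2⟩
  have hsm : ∀ᶠ ε in nhdsWithin (0 : ℝ) (Ioi 0), 0 < ε ∧ ε < 1 := by
    have := Ioo_mem_nhdsGT (show (0:ℝ) < 1 by norm_num)
    filter_upwards [this] with ε hε using hε
  obtain ⟨ε, ⟨hεF, hεp⟩, hε0, hε1⟩ := (hcl.and hsm).exists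
  set z' : P2 := (1 - ε) • z + ε • w with hz'
  have hz'G : z' ∈ Gt := b.convex_Gt_b4 hz hwG (by linarith) hε0.le (by ring)
  obtain ⟨R', m', θ', hθ', hzR', hR'⟩ := b.exists_contact hz'G hεF
  have hRp : 0 < dot m1 R := by
    rw [hzR, dot_smul_b4] at hz1
    exact (pos_iff_pos_of_mul_pos hz1).1 (by linarith)
  have hRp' : 0 < dot m1 R' := by
    rw [hzR', dot_smul_b4] at hεp
    exact (pos_iff_pos_of_mul_pos hεp).1 (by linarith)
  have hdet : det R R' ≠ 0 := by
    intro h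
    have e1 : det z z' = θ * θ' * det R R' := by
      rw [hzR', det_smul_right_b4, hzR, det_smul_left_b4]; ring
    have e2 : det z z' = ε * det z w := by
      rw [hz', det_add_right_b4, det_smul_right_b4, det_smul_right_b4, det_self_b4]; ring
    rw [h, mul_zero] at e1
    rw [e1] at e2
    rcases mul_eq_zero.1 e2.symm with h | h
    · linarith
    · exact hw h
  -- conclude
  have hq0 : φ (P, mj) < φ (Q, mk) := by
    have hmR : (R, m) ∈ clsSet_b4 F Gt m1 := ⟨hR, (b.quarter_lt_b4 h1 hR hRp).le⟩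
    have hmR' : (R', m') ∈ clsSet_b4 F Gt m1 := ⟨hR', (b.quarter_lt_b4 h1 hR' hRp').le⟩
    have a1 : φ (P, mj) ≤ φ (R, m) := hPmin hmR
    have a2 : φ (R, m) ≤ φ (Q, mk) := hQmax hmR
    have a3 : φ (P, mj) ≤ φ (R', m') := hPmin hmR'
    have a4 : φ (R', m') ≤ φ (Q, mk) := hQmax hmR'
    have hne' : φ (R, m) ≠ φ (R', m') := by
      intro h
      apply hdet
      rw [key R R' hRp hRp']
      simp only [hφ] at h
      rw [h, sub_self, mul_zero]
    rcases lt_or_gt_of_ne hne' with h | h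
    · linarith
    · linarith
  rw [key P Q hPp hQp]
  simp only [hφ] at hq0
  exact mul_pos (mul_pos hPp hQp) (by linarith)

end Pool.Agent.helper15.PB
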