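import Pool.Agent.helper15.PB.B4a

/-! # MP_0069fb_gt, planar half, module B4b: the chord of a class of contacts -/

set_option autoImplicit false
open MeasureTheory Set
open scoped Pointwise

namespace Pool.Agent.helper15.PB

variable {F G Gt : Set P2} {B : Set (P2 × ℝ)} {ω H e T c : ℝ}

/-- every vector in the basis `P, Q` -/
theorem det_basis_b4 (P Q y : P2) (h : det P Q ≠ 0) :
    y = (det y Q / det P Q) • P + (det P y / det P Q) • Q := by
  ext
  · simp only [Prod.fst_add, Prod.smul_fst, smul_eq_mul]
    field_simp
    simp only [det]; ring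
  · simp only [Prod.snd_add, Prod.smul_snd, smul_eq_mul]
    field_simp
    simp only [det]; ring

/-- same class: `m1 · R` and `k · R1` have the same sign -/
theorem Body.pos_symm_b4 (b : Body F G Gt B) {R1 m1 R k : P2} (h1 : Contact F Gt R1 m1)
    (h : Contact F Gt R k) (hp : 0 < dot m1 R) : 0 < dot k R1 := by
  have h2 := b.lemma_D h1 h
  by_contra hneg
  push Not at hneg
  have := mul_nonpos_of_nonpos_of_nonneg hneg hp.le
  linarith

/-- transitivity of the class relation -/
theorem Body.pos_trans_b4 (b : Body F G Gt B) {R1 m1 P mj R k : P2} (h1 : Contact F Gt R1 m1)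
    (hP : Contact F Gt P mj) (hR : Contact F Gt R k) (hp : 0 < dot m1 P) (hq : 0 < dot mj R) :
    0 < dot m1 R := by
  have h2 := b.sign h1 hP hR
  have h3 : 0 < dot k R1 := by
    by_contra hneg
    push Not at hneg
    have := mul_nonpos_of_nonneg_of_nonpos (mul_pos hp hq).le hneg
    linarith
  exact b.pos_symm_b4 hR h1 h3

theorem dot_add_left_b4 (m n x : P2) (a c : ℝ) :
    dot (a • m + c • n) x = a * dot m x + c * dot n x := by
  simp only [dot, Prod.smul_fst, Prod.smul_snd, Prod.fst_add, Prod.snd_add, smul_eq_mul]; ring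

/-- algebra: the chord functional of two contacts of the same class -/
theorem exists_combination_b4 {a c : ℝ} (ha : 0 < a) (hc : 0 < c) (ha1 : a ≤ 1) (hc1 : c ≤ 1)
    (hac : 1 / 4 < a * c) : ∃ α β H : ℝ, 0 ≤ H ∧ H ≤ 1 / 3 ∧ 0 ≤ α ∧ 0 ≤ β ∧ α + β = 1 + H ∧
      α + β * a = 1 ∧ α * c + β = 1 := by
  by_cases h1 : c = 1
  · exact ⟨1, 0, 0, le_refl _, by norm_num, by norm_num, le_refl _, by norm_num,
      by ring, by rw [h1]; ring⟩
  by_cases h2 : a = 1
  · exact ⟨0, 1, 0, le_refl _, by norm_num, le_refl _, by norm_num, by norm_num,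
      by rw [h2]; ring, by ring⟩
  have ha2 : a < 1 := lt_of_le_of_ne ha1 h2
  have hc2 : c < 1 := lt_of_le_of_ne hc1 h1
  have hd : 0 < 1 - a * c := by nlinarith
  refine ⟨(1 - a) / (1 - a * c), (1 - c) / (1 - a * c), (1 - a) * (1 - c) / (1 - a * c),
    ?_, ?_, ?_, ?_, ?_, ?_, ?_⟩
  · exact div_nonneg (mul_nonneg (by linarith) (by linarith)) hd.le
  · rw [div_le_iff₀ hd]
    -- `3 (a + c) ≥ 2 + 4 a c`
    have hkey : 2 + 4 * (a * c) ≤ 3 * (a + c) := by
      apply le_of_sq_le_sq _ (by positivity)
      nlinarith [mul_nonneg (show (0:ℝ) ≤ 4 * (a * c) - 1 by linarith) hd.le, sq_nonneg (a - c)]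
    nlinarith
  · exact div_nonneg (by linarith) hd.le
  · exact div_nonneg (by linarith) hd.le
  · field_simp; ring
  · field_simp; ring
  · field_simp; ring

/-- B4b: the chord of a class -/
theorem Body.exists_chord (b : Body F G Gt B) {R1 m1 : P2} (h1 : Contact F Gt R1 m1)
    {z : P2} (hz : z ∈ Gt) (hzF : z ∉ F) (hz1 : 0 < dot m1 z) :
    ∃ (m P Q mj mk : P2) (α β H : ℝ), Chord F Gt R1 m1 m P Q mj mk α β H := by
  obtain ⟨P, Q, mj, mk, hP, hQ, hPp, hQp, hPQ, hext⟩ := b.exists_extremes h1 hz hzF hz1
  have hPk : dot mk P ≤ 1 := hQ.2.2.1 P hP.1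
  have hQj : dot mj Q ≤ 1 := hP.2.2.1 Q hQ.1
  have hjP : dot mj P = 1 := hP.2.2.2
  have hkQ : dot mk Q = 1 := hQ.2.2.2
  have hD := b.lemma_D hP hQ
  have hPR : 0 < dot mj R1 := b.pos_symm_b4 h1 hP hPp
  have hQR : 0 < dot mk R1 := b.pos_symm_b4 h1 hQ hQp
  have hjQ : 0 < dot mj Q := by
    have h2 := b.sign h1 hP hQ
    by_contra hneg
    push Not at hneg
    have e1 := mul_nonpos_of_nonneg_of_nonpos hPp.le hneg
    have e2 := mul_nonpos_of_nonpos_of_nonneg e1 hQR.le
    linarith
  have hkP : 0 < dot mk P := by
    by_contra hneg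
    push Not at hneg
    have := mul_nonpos_of_nonpos_of_nonneg hneg hjQ.le
    linarith
  obtain ⟨α, β, H, H0, H1, α0, β0, hαβ, e1, e2⟩ := exists_combination_b4 hkP hjQ hPk hQj hD
  set m : P2 := α • mj + β • mk with hm
  have hmP : dot m P = 1 := by rw [hm, dot_add_left_b4, hjP, mul_one]; exact e1
  have hmQ : dot m Q = 1 := by rw [hm, dot_add_left_b4, hkQ, mul_one]; exact e2
  -- a point of `Gt` on the line beyond `P` or `Q` gives a contact outside the cone
  have beyond : ∀ (S n : P2) (w : P2), Contact F Gt S n → 0 < dot m1 S → w ∈ Gt → 1 ≤ dot n w →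
      0 ≤ det P w ∧ 0 ≤ det w Q := by
    intro S n w hS hSp hw hnw
    by_cases hwF : w ∈ F
    · have hnw1 : dot n w = 1 := le_antisymm (hS.2.2.1 w hwF) hnw
      have hcon : Contact F Gt w n := ⟨hwF, hw, hS.2.2.1, hnw1⟩
      exact hext w n hcon (b.pos_trans_b4 h1 hS hcon hSp (by rw [hnw1]; norm_num))
    · obtain ⟨R, k, θ, hθ, hwR, hR⟩ := b.exists_contact hw hwF
      have hθ0 : 0 < θ := by linarith
      have hnR : 0 < dot n R := by
        rw [hwR, dot_smul_b4] at hnw
        by_contra hneg
        push Not at hneg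
        have := mul_nonpos_of_nonneg_of_nonpos hθ0.le hneg
        linarith
      have h3 := hext R k hR (b.pos_trans_b4 h1 hS hR hSp hnR)
      rw [hwR, det_smul_right_b4, det_smul_left_b4]
      exact ⟨mul_nonneg hθ0.le h3.1, mul_nonneg hθ0.le h3.2⟩
  refine ⟨m, P, Q, mj, mk, α, β, H, ?_⟩
  exact
    { PF := hP.1
      PG := hP.2.1
      QF := hQ.1
      QG := hQ.2.1
      mP := hmP
      mQ := hmQ
      dPQ := hPQ
      win := by
        intro w hw hmw
        set s := det w Q / det P Q with hs
        set t := det P w / det P Q with ht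
        have hw2 : w = s • P + t • Q := det_basis_b4 P Q w hPQ.ne'
        have hst : s + t = 1 := by
          have := hmw
          rw [hw2, dot_add_b4, dot_smul_b4, dot_smul_b4, hmP, hmQ] at this
          linarith
        have hs1 : s = 1 - t := by linarith
        refine ⟨t, ?_, ?_, by rw [← hs1]; exact hw2⟩
        · by_contra hneg
          push Not at hneg
          have h3 : 1 ≤ dot mj w := by
            rw [hw2, dot_add_b4, dot_smul_b4, dot_smul_b4, hjP]
            nlinarith
          have h4 := (beyond P mj w hP hPp hw h3).1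
          have h5 : 0 ≤ t := div_nonneg h4 hPQ.le
          linarith
        · by_contra hneg
          push Not at hneg
          have h3 : 1 ≤ dot mk w := by
            rw [hw2, dot_add_b4, dot_smul_b4, dot_smul_b4, hkQ]
            nlinarith
          have h4 := (beyond Q mk w hQ hQp hw h3).2
          have h5 : 0 ≤ s := div_nonneg h4 hPQ.le
          linarith
      H0 := H0
      H1 := H1
      sj := hP.2.2.1
      sk := hQ.2.2.1
      α0 := α0
      β0 := β0
      αβ := hαβ
      hm := hm
      jP := fun _ => hjP
      kQ := fun _ => hkQ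
      side := by
        intro w hw hwF hwp
        obtain ⟨R, k, θ, hθ, hwR, hR⟩ := b.exists_contact hw hwF
        have hθ0 : 0 < θ := by linarith
        have hRp : 0 < dot m1 R := by
          rw [hwR, dot_smul_b4] at hwp
          exact (pos_iff_pos_of_mul_pos hwp).1 hθ0
        obtain ⟨h3, h4⟩ := hext R k hR hRp
        set s := det R Q / det P Q with hs
        set t := det P R / det P Q with ht
        have hs0 : 0 ≤ s := div_nonneg h4 hPQ.le
        have ht0 : 0 ≤ t := div_nonneg h3 hPQ.le
        have hR2 : R = s • P + t • Q := det_basis_b4 P Q R hPQ.ne'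
        have hkR : dot k R = 1 := hR.2.2.2
        have hk1 : dot k P ≤ 1 := hR.2.2.1 P hP.1
        have hk2 : dot k Q ≤ 1 := hR.2.2.1 Q hQ.1
        have hst : 1 ≤ s + t := by
          have := hkR
          rw [hR2, dot_add_b4, dot_smul_b4, dot_smul_b4] at this
          nlinarith
        have hmR : dot m R = s + t := by
          rw [hR2, dot_add_b4, dot_smul_b4, dot_smul_b4, hmP, hmQ]; ring
        rw [hwR, dot_smul_b4, hmR]
        nlinarith
      other := by
        intro w hw hwF hwn
        obtain ⟨R, k, θ, hθ, hwR, hR⟩ := b.exists_contact hw hwF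
        have hθ0 : 0 < θ := by linarith
        have hRn : dot m1 R < 0 := by
          rw [hwR, dot_smul_b4] at hwn
          by_contra hneg
          push Not at hneg
          have := mul_nonneg hθ0.le hneg
          linarith
        -- the generic estimate
        have est : ∀ (S n : P2), Contact F Gt S n → 0 < dot m1 S → dot n R < -(1 / 8) := by
          intro S n hS hSp
          have hnR : dot n R < 0 := by
            by_contra hneg
            push Not at hneg
            rcases hneg.lt_or_eq with h | h
            · have := b.pos_trans_b4 h1 hS hR hSp h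
              linarith
            · have := b.lemma_D hS hR
              rw [← h, mul_zero] at this
              linarith
          have h5 := b.lemma_D hS hR
          have h6 : -2 ≤ dot k S := b.sup_ge hR.2.2.1 hS.1
          nlinarith
        have h7 := est P mj hP hPp
        have h8 := est Q mk hQ hQp
        have h9 : dot m R ≤ -(1 / 8) := by
          rw [hm, dot_add_left_b4]
          nlinarith
        rw [hwR, dot_smul_b4]
        nlinarith
      ne := by
        intro w hw hwF h0
        obtain ⟨R, k, θ, hθ, hwR, hR⟩ := b.exists_contact hw hwF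
        have hθ0 : 0 < θ := by linarith
        rw [hwR, dot_smul_b4] at h0
        have h2 : dot m1 R = 0 := by
          rcases mul_eq_zero.1 h0 with h | h
          · linarith
          · exact h
        have := b.lemma_D h1 hR
        rw [h2, mul_zero] at this
        linarith }

end Pool.Agent.helper15.PB
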