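import Pool.Agent.helper15.PB.Defs2

/-!
# Planar theorem behind MP_0069fb_gt: linear changes of coordinates of determinant `±1`
-/

set_option autoImplicit false
open MeasureTheory Set
open scoped Pointwise

namespace Pool.Agent.helper15.PB

/-- the linear map `L y = (det P y, m·y)` -/
noncomputable def Llin (m P : P2) : P2 →ₗ[ℝ] P2 :=
  Matrix.toLin (Module.Basis.finTwoProd ℝ) (Module.Basis.finTwoProd ℝ) !![-P.2, P.1; m.1, m.2]

theorem Llin_apply (m P y : P2) : Llin m P y = (det P y, dot m y) := by
  unfold Llin det dot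
  rw [Matrix.toLin_finTwoProd_apply]
  refine Prod.ext ?_ ?_
  · simp only []
    ring
  · rfl

theorem Llin_coe (m P : P2) : ⇑(Llin m P) = fun y : P2 => ((det P y, dot m y) : P2) :=
  funext fun y => Llin_apply m P y

theorem det_Llin (m P : P2) (h : dot m P = 1) : LinearMap.det (Llin m P) = -1 := by
  unfold Llin
  rw [LinearMap.det_toLin, Matrix.det_fin_two_of]
  unfold dot at h
  linarith

/-- `L y = (det P y, m·y)` as a linear equivalence -/
noncomputable def Leqv (m P : P2) (h : dot m P = 1) : P2 ≃ₗ[ℝ] P2 where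
  toFun y := (det P y, dot m y)
  map_add' x y := by
    simp only [det, dot, Prod.fst_add, Prod.snd_add, Prod.mk_add_mk]
    refine Prod.ext ?_ ?_ <;> simp only [] <;> ring
  map_smul' c x := by
    simp only [det, dot, Prod.smul_fst, Prod.smul_snd, smul_eq_mul, RingHom.id_apply,
      Prod.smul_mk]
    refine Prod.ext ?_ ?_ <;> simp only [] <;> ring
  invFun z := z.2 • P + z.1 • ((-m.2, m.1) : P2)
  left_inv y := by
    simp only [dot] at h
    simp only [det, dot, Prod.smul_mk, smul_eq_mul]
    refine Prod.ext ?_ ?_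
    · simp only [Prod.fst_add, Prod.smul_fst, smul_eq_mul]
      linear_combination y.1 * h
    · simp only [Prod.snd_add, Prod.smul_snd, smul_eq_mul]
      linear_combination y.2 * h
  right_inv z := by
    simp only [dot] at h
    simp only [det, dot, Prod.fst_add, Prod.snd_add, Prod.smul_fst, Prod.smul_snd, smul_eq_mul,
      Prod.smul_mk]
    refine Prod.ext ?_ ?_
    · simp only []
      linear_combination z.1 * h
    · simp only []
      linear_combination z.2 * h

@[simp] theorem Leqv_apply (m P : P2) (h : dot m P = 1) (y : P2) :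
    Leqv m P h y = (det P y, dot m y) := rfl

@[simp] theorem Leqv_symm_apply (m P : P2) (h : dot m P = 1) (z : P2) :
    (Leqv m P h).symm z = z.2 • P + z.1 • ((-m.2, m.1) : P2) := rfl

theorem Leqv_P (m P : P2) (h : dot m P = 1) : Leqv m P h P = (0, 1) := by
  rw [Leqv_apply, h]
  unfold det
  rw [mul_comm P.1 P.2, sub_self]

theorem Leqv_coe (m P : P2) (h : dot m P = 1) :
    ⇑(Leqv m P h) = fun y : P2 => ((det P y, dot m y) : P2) := rfl

theorem continuous_L (m P : P2) : Continuous fun y : P2 => ((det P y, dot m y) : P2) := by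
  unfold det dot
  fun_prop

theorem isCompact_L (m P : P2) {K : Set P2} (hK : IsCompact K) :
    IsCompact ((fun y : P2 => ((det P y, dot m y) : P2)) '' K) :=
  hK.image (continuous_L m P)

theorem convex_L (m P : P2) {K : Set P2} (hK : Convex ℝ K) :
    Convex ℝ ((fun y : P2 => ((det P y, dot m y) : P2)) '' K) := by
  have := hK.linear_image (Llin m P)
  rwa [Llin_coe] at this

theorem continuous_L3 (m P : P2) :
    Continuous fun p : P2 × ℝ => (((det P p.1, dot m p.1), p.2) : P2 × ℝ) := by
  unfold det dot
  fun_prop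

theorem isCompact_L3 (m P : P2) {X : Set (P2 × ℝ)} (hX : IsCompact X) :
    IsCompact ((fun p : P2 × ℝ => (((det P p.1, dot m p.1), p.2) : P2 × ℝ)) '' X) :=
  hX.image (continuous_L3 m P)

theorem L3_coe (m P : P2) : ⇑((Llin m P).prodMap (LinearMap.id : ℝ →ₗ[ℝ] ℝ)) =
    fun p : P2 × ℝ => (((det P p.1, dot m p.1), p.2) : P2 × ℝ) := by
  funext p
  rw [LinearMap.prodMap_apply, Llin_apply, LinearMap.id_apply]

theorem convex_L3 (m P : P2) {X : Set (P2 × ℝ)} (hX : Convex ℝ X) :
    Convex ℝ ((fun p : P2 × ℝ => (((det P p.1, dot m p.1), p.2) : P2 × ℝ)) '' X) := by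
  have := hX.linear_image ((Llin m P).prodMap (LinearMap.id : ℝ →ₗ[ℝ] ℝ))
  rwa [L3_coe] at this

/-- B5a: area-preserving linear change of coordinates `L y = (det P y, m·y)` with `m·P = 1`. -/
theorem measure_L (m P : P2) (h : dot m P = 1) (K : Set P2) :
    volume ((fun y : P2 => ((det P y, dot m y) : P2)) '' K) = volume K := by
  rw [← Llin_coe, Measure.addHaar_image_linearMap, det_Llin m P h, abs_neg, abs_one,
    ENNReal.ofReal_one, one_mul]

theorem measure_L3 (m P : P2) (h : dot m P = 1) (X : Set (P2 × ℝ)) :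
    volume ((fun p : P2 × ℝ => (((det P p.1, dot m p.1), p.2) : P2 × ℝ)) '' X) = volume X := by
  have : (volume : Measure (P2 × ℝ)).IsAddHaarMeasure := by
    rw [Measure.volume_eq_prod]
    infer_instance
  rw [← L3_coe, Measure.addHaar_image_linearMap, LinearMap.det_prodMap, det_Llin m P h,
    LinearMap.det_id, mul_one, abs_neg, abs_one, ENNReal.ofReal_one, one_mul]

theorem area_L (m P : P2) (h : dot m P = 1) (K : Set P2) :
    area ((fun y : P2 => ((det P y, dot m y) : P2)) '' K) = area K := by
  unfold area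
  rw [measure_L m P h]

theorem vol3_L3 (m P : P2) (h : dot m P = 1) (X : Set (P2 × ℝ)) :
    vol3 ((fun p : P2 × ℝ => (((det P p.1, dot m p.1), p.2) : P2 × ℝ)) '' X) = vol3 X := by
  unfold vol3
  rw [measure_L3 m P h]

theorem measurePreserving_L (m P : P2) (h : dot m P = 1) :
    MeasurePreserving (fun y : P2 => ((det P y, dot m y) : P2)) volume volume := by
  refine ⟨(continuous_L m P).measurable, ?_⟩
  rw [← Llin_coe, Measure.map_linearMap_addHaar_eq_smul_addHaar]
  · rw [det_Llin m P h]
    norm_num
  · rw [det_Llin m P h]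
    norm_num

theorem measurableEmbedding_L (m P : P2) (h : dot m P = 1) :
    MeasurableEmbedding (fun y : P2 => ((det P y, dot m y) : P2)) := by
  have := (Leqv m P h).toContinuousLinearEquiv.toHomeomorph.measurableEmbedding
  exact this

/-- transfer of set integrals -/
theorem integral_L (m P : P2) (h : dot m P = 1) (K : Set P2) (φ : P2 → ℝ) :
    ∫ y in (fun y : P2 => ((det P y, dot m y) : P2)) '' K, φ y =
      ∫ y in K, φ (det P y, dot m y) :=
  (measurePreserving_L m P h).setIntegral_image_emb (measurableEmbedding_L m P h) φ K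

theorem B5a_integrableOn_fst {K : Set P2} (hK : IsCompact K) : IntegrableOn (fun y : P2 => y.1) K :=
  continuous_fst.continuousOn.integrableOn_compact hK

theorem B5a_integrableOn_snd {K : Set P2} (hK : IsCompact K) : IntegrableOn (fun y : P2 => y.2) K :=
  continuous_snd.continuousOn.integrableOn_compact hK

theorem B5a_integral_dot {K : Set P2} (hK : IsCompact K) (m : P2) :
    ∫ y in K, dot m y = m.1 * (∫ y in K, y.1) + m.2 * (∫ y in K, y.2) := by
  unfold dot
  have h1 : ∫ y in K, (m.1 * y.1 + m.2 * y.2) =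
      (∫ y in K, m.1 * y.1) + ∫ y in K, m.2 * y.2 :=
    integral_add ((B5a_integrableOn_fst hK).const_mul _) ((B5a_integrableOn_snd hK).const_mul _)
  rw [h1, integral_const_mul, integral_const_mul]

/-- if the centroid of `K` is `0`, so is that of its image -/
theorem integral_L_snd (m P : P2) (h : dot m P = 1) {K : Set P2} (hK : IsCompact K)
    (h1 : ∫ y in K, y.1 = 0) (h2 : ∫ y in K, y.2 = 0) :
    ∫ y in (fun y : P2 => ((det P y, dot m y) : P2)) '' K, y.2 = 0 := by
  rw [integral_L m P h]
  simp only []
  rw [B5a_integral_dot hK, h1, h2, mul_zero, mul_zero, add_zero]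

end Pool.Agent.helper15.PB
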