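import Pool.Agent.helper15.PB.B5bCore
import Pool.Agent.helper15.PB.A8

/-!
# Planar theorem behind MP_0069fb_gt: from a chord to the output of the one-class analysis
-/

set_option autoImplicit false
open MeasureTheory Set
open scoped Pointwise

namespace Pool.Agent.helper15.PB

variable {F G Gt : Set P2} {B : Set (P2 × ℝ)} {ω H e T c : ℝ}

theorem Body.out_of_chord (b : Body F G Gt B) {R1 m1 m P Q mj mk : P2} {α β H : ℝ}
    (h : Chord F Gt R1 m1 m P Q mj mk α β H) : OutE F G Gt m ∨ OutS F G B m :=
  b.out_of_chord_core (fun _ _ _ _ _ _ _ _ _ w => w.out) h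

end Pool.Agent.helper15.PB
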