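import Pool.Agent.helper15.PB.Defs2
import Pool.Agent.helper15.PB.B5a

/-!
# Planar theorem behind MP_0069fb_gt: from a chord to the output of the one-class analysis (core: `Win.out` as a hypothesis)
-/

set_option autoImplicit false
open MeasureTheory Set
open scoped Pointwise

namespace Pool.Agent.helper15.PB

variable {F G Gt : Set P2} {B : Set (P2 × ℝ)} {ω H e T c : ℝ}

/-- the change of coordinates -/
noncomputable def B5b_L (m P : P2) (y : P2) : P2 := (det P y, dot m y)

noncomputable def B5b_L3 (m P : P2) (p : P2 × ℝ) : P2 × ℝ := ((det P p.1, dot m p.1), p.2)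

theorem B5b_L_snd (m P y : P2) : (B5b_L m P y).2 = dot m y := rfl

theorem B5b_inj (m P : P2) (h : dot m P = 1) : Function.Injective (B5b_L m P) := by
  intro x y hxy
  exact (Leqv m P h).injective hxy

theorem B5b_smul (m P : P2) (t : ℝ) (y : P2) : B5b_L m P (t • y) = t • B5b_L m P y := by
  unfold B5b_L det dot
  ext <;> simp <;> ring

theorem B5b_add (m P : P2) (x y : P2) : B5b_L m P (x + y) = B5b_L m P x + B5b_L m P y := by
  unfold B5b_L det dot
  ext <;> simp <;> ring

theorem B5b_sub (m P : P2) (x y : P2) : B5b_L m P (x - y) = B5b_L m P x - B5b_L m P y := by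
  unfold B5b_L det dot
  ext <;> simp <;> ring

theorem B5b_neg (m P : P2) (x : P2) : B5b_L m P (-x) = -B5b_L m P x := by
  unfold B5b_L det dot
  ext <;> simp <;> ring

theorem B5b_dot (m P y : P2) : dot (0, 1) (B5b_L m P y) = dot m y := by
  simp [B5b_L, dot]

theorem B5b_mem (m P : P2) (h : dot m P = 1) {K : Set P2} {y : P2} :
    B5b_L m P y ∈ B5b_L m P '' K ↔ y ∈ K :=
  (B5b_inj m P h).mem_set_image

theorem B5b_inj3 (m P : P2) (h : dot m P = 1) : Function.Injective (B5b_L3 m P) := by
  rintro ⟨x, s⟩ ⟨y, t⟩ hxy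
  simp only [B5b_L3, Prod.mk.injEq] at hxy
  have : x = y := B5b_inj m P h (by simp only [B5b_L]; exact Prod.ext hxy.1.1 hxy.1.2)
  rw [this, hxy.2]

theorem B5b_mem3 (m P : P2) (h : dot m P = 1) {K : Set (P2 × ℝ)} {y : P2} {t : ℝ} :
    ((B5b_L m P y, t) : P2 × ℝ) ∈ B5b_L3 m P '' K ↔ ((y, t) : P2 × ℝ) ∈ K := by
  have : ((B5b_L m P y, t) : P2 × ℝ) = B5b_L3 m P (y, t) := rfl
  rw [this]
  exact (B5b_inj3 m P h).mem_set_image

theorem B5b_surj (m P : P2) (h : dot m P = 1) (z : P2) : ∃ y, B5b_L m P y = z :=
  ⟨(Leqv m P h).symm z, (Leqv m P h).apply_symm_apply z⟩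

theorem B5b_surj3 (m P : P2) (h : dot m P = 1) (z : P2 × ℝ) : ∃ y, B5b_L3 m P y = z := by
  obtain ⟨y, hy⟩ := B5b_surj m P h z.1
  exact ⟨(y, z.2), by rw [← Prod.mk.eta (p := z), ← hy]; rfl⟩

/-- image of the set `Xs` -/
theorem B5b_Xs (m P : P2) (h : dot m P = 1) (F : Set P2) (B : Set (P2 × ℝ)) :
    Xs (B5b_L m P '' F) (B5b_L3 m P '' B) = B5b_L3 m P '' Xs F B := by
  ext p
  obtain ⟨q, rfl⟩ := B5b_surj3 m P h p
  obtain ⟨y, t⟩ := q
  rw [(B5b_inj3 m P h).mem_set_image]
  simp only [Xs, mem_ofPred_eq, (B5b_inj3 m P h).mem_set_image]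
  constructor
  · rintro ⟨h1, h2, z, ⟨w, hw, rfl⟩, hz⟩
    refine ⟨h1, h2, w, hw, ?_⟩
    apply B5b_inj m P h
    rw [B5b_smul]
    exact hz
  · rintro ⟨h1, h2, w, hw, hz⟩
    refine ⟨h1, h2, B5b_L m P w, ⟨w, hw, rfl⟩, ?_⟩
    rw [← B5b_smul]
    change B5b_L m P y = B5b_L m P ((1 + 2 * t) • w)
    exact congrArg (B5b_L m P) hz

theorem B5b_Xp (m P : P2) (h : dot m P = 1) (F : Set P2) (B : Set (P2 × ℝ)) :
    Xp (B5b_L m P '' F) (B5b_L3 m P '' B) (0, 1) = B5b_L3 m P '' Xp F B m := by
  ext p
  obtain ⟨q, rfl⟩ := B5b_surj3 m P h p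
  obtain ⟨x, t⟩ := q
  rw [(B5b_inj3 m P h).mem_set_image]
  simp only [Xp, mem_ofPred_eq, B5b_Xs m P h, (B5b_inj3 m P h).mem_set_image]
  refine and_congr_right fun _ => ?_
  constructor
  · rintro ⟨z, ⟨w, hw, rfl⟩, hz⟩
    refine ⟨w, hw, ?_⟩
    have : (B5b_L3 m P (x, t)).1 - (B5b_L3 m P (x, t)).2 • B5b_L m P w = B5b_L m P (x - t • w) := by
      rw [B5b_sub, B5b_smul]; rfl
    rw [this, B5b_dot] at hz
    exact hz
  · rintro ⟨w, hw, hz⟩
    refine ⟨B5b_L m P w, ⟨w, hw, rfl⟩, ?_⟩
    have : (B5b_L3 m P (x, t)).1 - (B5b_L3 m P (x, t)).2 • B5b_L m P w = B5b_L m P (x - t • w) := by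
      rw [B5b_sub, B5b_smul]; rfl
    rw [this, B5b_dot]
    exact hz

theorem B5b_inter (m P : P2) (h : dot m P = 1) (G : Set P2) :
    B5b_L m P '' G ∩ {y | 1 < dot (0, 1) y} = B5b_L m P '' (G ∩ {y | 1 < dot m y}) := by
  ext z
  obtain ⟨y, rfl⟩ := B5b_surj m P h z
  simp only [mem_inter_iff, B5b_mem m P h, mem_ofPred_eq, B5b_dot]

theorem B5b_path (m P : P2) (h : dot m P = 1) {F G : Set P2} {C : ℝ}
    (hp : PathIneq (B5b_L m P '' F) (B5b_L m P '' G) (0, 1) C) : PathIneq F G m C := by
  intro Y Z t ht hY hYc hZ hZc hZn hYZ hGY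
  have key := hp (B5b_L m P '' Y) (B5b_L m P '' Z) t ht (convex_L m P hY) (isCompact_L m P hYc)
    (convex_L m P hZ) (isCompact_L m P hZc) (hZn.image _) ?_ ?_
  · rw [B5b_inter m P h] at key
    have a1 : area (B5b_L m P '' Y) = area Y := area_L m P h Y
    have a2 : area (B5b_L m P '' Z) = area Z := area_L m P h Z
    have a3 : area (B5b_L m P '' (G ∩ {y | 1 < dot m y})) = area (G ∩ {y | 1 < dot m y}) :=
      area_L m P h _
    rw [a1, a2, a3] at key
    exact key
  · rintro _ ⟨z, hz, rfl⟩ _ ⟨y, hy, rfl⟩
    obtain ⟨w, hw, hzw⟩ := hYZ z hz y hy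
    refine ⟨B5b_L m P w, ⟨w, hw, rfl⟩, ?_⟩
    rw [← B5b_smul, ← B5b_smul, ← B5b_sub, hzw]
  · rintro _ ⟨y, hy, rfl⟩ hy1
    rw [B5b_dot] at hy1
    exact ⟨y, hGY y hy hy1, rfl⟩

theorem B5b_cramer (P Q k y : P2) :
    det P Q * dot k y = det y Q * dot k P + det P y * dot k Q := by
  unfold det dot
  ring

theorem Body.out_of_chord_core
    (hout : ∀ (F G Gt : Set P2) (B : Set (P2 × ℝ)) (ω H e T c : ℝ), Win F G Gt B ω H e T c →
      OutE F G Gt (0, 1) ∨ OutS F G B (0, 1))
    (b : Body F G Gt B) {R1 m1 m P Q mj mk : P2} {α β H : ℝ}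
    (h : Chord F Gt R1 m1 m P Q mj mk α β H) : OutE F G Gt m ∨ OutS F G B m := by
  have hm := h.mP
  have cGt : IsCompact Gt := by
    rw [b.hGt]
    have hcl : IsClosed {y : P2 | ((y, 0) : P2 × ℝ) ∈ B} :=
      b.cB.isClosed.preimage (by fun_prop : Continuous fun y : P2 => ((y, 0) : P2 × ℝ))
    refine (b.cB.image continuous_fst).of_isClosed_subset hcl ?_
    intro y hy
    exact ⟨(y, 0), hy, rfl⟩
  have cG : IsCompact G := by
    rw [b.hG]
    exact b.cF.inter cGt
  have vGt : Convex ℝ Gt := by
    rw [b.hGt]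
    intro x hx y hy s t hs ht hst
    have := b.vB hx hy hs ht hst
    simpa using this
  have hGn : G.Nonempty := by
    by_contra hne
    rw [not_nonempty_iff_eq_empty] at hne
    have := b.G1
    rw [hne] at this
    simp [area] at this
  have hFn : F.Nonempty := by
    obtain ⟨y, hy⟩ := hGn
    rw [b.hG] at hy
    exact ⟨y, hy.1⟩
  have hcont : Continuous fun y : P2 => dot m y := by
    unfold dot
    fun_prop
  obtain ⟨yG, hyG, hminG⟩ := cG.exists_isMinOn hGn hcont.continuousOn
  obtain ⟨yF, hyF, hminF⟩ := b.cF.exists_isMinOn hFn hcont.continuousOn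
  have hdet : ∀ k y : P2, det P Q * dot k y = det y Q * dot k P + det P y * dot k Q :=
    fun k y => B5b_cramer P Q k y
  have w : Win (B5b_L m P '' F) (B5b_L m P '' G) (B5b_L m P '' Gt) (B5b_L3 m P '' B) (det P Q) H
      (1 - dot m yG) (1 - dot m yF) (area (B5b_L m P '' G ∩ {y | 1 < y.2})) := by
    refine ⟨isCompact_L m P b.cF, convex_L m P b.vF, isCompact_L3 m P b.cB, convex_L3 m P b.vB,
      ?_, ?_, ?_, integral_L_snd m P hm b.cF b.F01 b.F02, integral_L_snd m P hm cG b.G01 b.G02,
      ?_, ?_, h.dPQ, h.H0, h.H1, ?_, ?_, ?_, ?_, ?_, ?_, ?_, ?_, ?_, rfl⟩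
    · rintro _ ⟨y, hy, rfl⟩
      rw [← B5b_neg, B5b_mem3 m P hm]
      exact b.neg y hy
    · ext z
      obtain ⟨y, rfl⟩ := B5b_surj m P hm z
      rw [B5b_mem m P hm, mem_ofPred_eq, B5b_mem3 m P hm]
      conv_lhs => rw [b.hGt]
      rfl
    · rw [b.hG]
      exact image_inter (B5b_inj m P hm)
    · exact (area_L m P hm G).trans b.G1
    · have : area (B5b_L m P '' F) = area F := area_L m P hm F
      rw [this]
      exact b.F4
    · -- win
      intro x
      constructor
      · rintro ⟨z, hz, hzx⟩
        have h1 : dot m z = 1 := congrArg Prod.snd hzx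
        have h2 : det P z = x := congrArg Prod.fst hzx
        obtain ⟨t, ht0, ht1, hzt⟩ := h.win z hz h1
        have h3 : det P z = t * det P Q := by
          rw [hzt]
          simp only [det, Prod.fst_add, Prod.snd_add, Prod.smul_fst, Prod.smul_snd, smul_eq_mul]
          ring
        rw [← h2, h3]
        have := h.dPQ
        constructor
        · positivity
        · nlinarith
      · rintro ⟨hx0, hx1⟩
        have hd := h.dPQ
        refine ⟨(1 - x / det P Q) • P + (x / det P Q) • Q, ?_, ?_⟩
        · refine vGt h.PG h.QG ?_ (by positivity) (by ring)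
          rw [sub_nonneg, div_le_one hd]
          exact hx1
        · refine Prod.ext ?_ ?_
          · change det P _ = x
            have : det P ((1 - x / det P Q) • P + (x / det P Q) • Q) = (x / det P Q) * det P Q := by
              simp only [det, Prod.fst_add, Prod.snd_add, Prod.smul_fst, Prod.smul_snd, smul_eq_mul]
              ring
            rw [this, div_mul_cancel₀ x hd.ne']
          · change dot m _ = 1
            have : dot m ((1 - x / det P Q) • P + (x / det P Q) • Q) =
                (1 - x / det P Q) * dot m P + (x / det P Q) * dot m Q := by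
              simp only [dot, Prod.fst_add, Prod.snd_add, Prod.smul_fst, Prod.smul_snd, smul_eq_mul]
              ring
            rw [this, h.mP, h.mQ]
            ring
    · -- winF
      intro x hx0 hx1
      have hd := h.dPQ
      refine ⟨(1 - x / det P Q) • P + (x / det P Q) • Q, ?_, ?_⟩
      · refine b.vF h.PF h.QF ?_ (by positivity) (by ring)
        rw [sub_nonneg, div_le_one hd]
        exact hx1
      · refine Prod.ext ?_ ?_
        · change det P _ = x
          have : det P ((1 - x / det P Q) • P + (x / det P Q) • Q) = (x / det P Q) * det P Q := by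
            simp only [det, Prod.fst_add, Prod.snd_add, Prod.smul_fst, Prod.smul_snd, smul_eq_mul]
            ring
          rw [this, div_mul_cancel₀ x hd.ne']
        · change dot m _ = 1
          have : dot m ((1 - x / det P Q) • P + (x / det P Q) • Q) =
              (1 - x / det P Q) * dot m P + (x / det P Q) * dot m Q := by
            simp only [dot, Prod.fst_add, Prod.snd_add, Prod.smul_fst, Prod.smul_snd, smul_eq_mul]
            ring
          rw [this, h.mP, h.mQ]
          ring
    · -- top
      rintro _ ⟨y, hy, rfl⟩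
      change dot m y ≤ 1 + H
      have h1 : dot m y = α * dot mj y + β * dot mk y := by
        rw [h.hm]
        simp only [dot, Prod.fst_add, Prod.snd_add, Prod.smul_fst, Prod.smul_snd, smul_eq_mul]
        ring
      have h2 := h.sj y hy
      have h3 := h.sk y hy
      have := h.αβ
      rw [h1]
      nlinarith [h.α0, h.β0, mul_le_mul_of_nonneg_left h2 h.α0, mul_le_mul_of_nonneg_left h3 h.β0]
    · -- wedge
      intro u hu
      rcases h.H0.eq_or_lt with hH | hH
      · rw [← hH]
        have : 0 ≤ 1 + 0 - u := by rw [← hH] at hu; linarith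
        have h1 := h.dPQ
        rw [zero_mul]
        positivity
      · have hd := h.dPQ
        have hjP := h.jP hH
        have hkQ := h.kQ hH
        have e1 : α * (1 - dot mj Q) = H := by
          have h1 : dot m Q = α * dot mj Q + β * dot mk Q := by
            rw [h.hm]
            simp only [dot, Prod.fst_add, Prod.snd_add, Prod.smul_fst, Prod.smul_snd, smul_eq_mul]
            ring
          rw [h.mQ, hkQ] at h1
          have := h.αβ
          linarith
        have e2 : β * (1 - dot mk P) = H := by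
          have h1 : dot m P = α * dot mj P + β * dot mk P := by
            rw [h.hm]
            simp only [dot, Prod.fst_add, Prod.snd_add, Prod.smul_fst, Prod.smul_snd, smul_eq_mul]
            ring
          rw [h.mP, hjP] at h1
          have := h.αβ
          linarith
        have hsub : {x : ℝ | ((x, u) : P2) ∈ B5b_L m P '' F} ⊆
            Icc (det P Q * α * (u - 1) / H) (det P Q * (β * (1 - u) + H * u) / H) := by
          rintro x ⟨y, hy, hyx⟩
          have hu' : dot m y = u := congrArg Prod.snd hyx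
          have hx' : det P y = x := congrArg Prod.fst hyx
          have c0 := hdet m y
          have c1 := hdet mj y
          have c2 := hdet mk y
          rw [h.mP, h.mQ, mul_one, mul_one, hu', hx'] at c0
          rw [hjP, hx'] at c1
          rw [hkQ, hx'] at c2
          have s1 := h.sj y hy
          have s2 := h.sk y hy
          have t1 : det P Q * α * (dot mj y) ≤ det P Q * α * 1 :=
            mul_le_mul_of_nonneg_left s1 (mul_nonneg hd.le h.α0)
          have t2 : det P Q * β * (dot mk y) ≤ det P Q * β * 1 :=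
            mul_le_mul_of_nonneg_left s2 (mul_nonneg hd.le h.β0)
          constructor
          · rw [div_le_iff₀ hH]
            have e3 : det P Q * α * (dot mj y) = α * (det P Q * u) - x * (α * (1 - dot mj Q)) := by
              have : det P Q * α * (dot mj y) = α * (det P Q * dot mj y) := by ring
              rw [this, c1, c0]; ring
            rw [e1] at e3
            nlinarith
          · rw [le_div_iff₀ hH]
            have e4 : det P Q * β * (dot mk y) =
                β * (det P Q * u) - (det P Q * u - x) * (β * (1 - dot mk P)) := by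
              have : det P Q * β * (dot mk y) = β * (det P Q * dot mk y) := by ring
              rw [this, c2, c0]; ring
            rw [e2] at e4
            nlinarith
        have hle : sec (B5b_L m P '' F) u ≤
            det P Q * (β * (1 - u) + H * u) / H - det P Q * α * (u - 1) / H ∨ 
            sec (B5b_L m P '' F) u ≤ 0 := by
          rcases le_total (det P Q * α * (u - 1) / H) (det P Q * (β * (1 - u) + H * u) / H) with hc | hc
          · left
            unfold sec
            refine ENNReal.toReal_le_of_le_ofReal (by linarith) ?_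
            refine (measure_mono hsub).trans ?_
            rw [Real.volume_Icc]
          · right
            unfold sec
            refine ENNReal.toReal_le_of_le_ofReal le_rfl ?_
            refine (measure_mono hsub).trans ?_
            rw [Real.volume_Icc]
            exact ENNReal.ofReal_le_ofReal (by linarith)
        rcases hle with hle | hle
        · have : H * sec (B5b_L m P '' F) u ≤
              H * (det P Q * (β * (1 - u) + H * u) / H - det P Q * α * (u - 1) / H) :=
            mul_le_mul_of_nonneg_left hle hH.le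
          refine this.trans (le_of_eq ?_)
          have hαβ := h.αβ
          field_simp
          have : β = 1 + H - α := by linarith
          rw [this]
          ring
        · have h1 : H * sec (B5b_L m P '' F) u ≤ 0 := mul_nonpos_of_nonneg_of_nonpos hH.le hle
          refine h1.trans ?_
          exact mul_nonneg hd.le (by linarith)
    · -- gap
      rintro _ ⟨z, hz, rfl⟩ h1 h2
      rw [B5b_mem m P hm]
      change -(1 / 8) ≤ dot m z at h1
      change dot m z ≤ 1 at h2
      by_contra hzF
      rcases lt_trichotomy (dot m1 z) 0 with h3 | h3 | h3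
      · have := h.other z hz hzF h3
        linarith
      · exact h.ne z hz hzF h3
      · have := h.side z hz hzF h3
        linarith
    · exact ⟨B5b_L m P yG, ⟨yG, hyG, rfl⟩, by rw [B5b_L_snd]; ring⟩
    · rintro _ ⟨y, hy, rfl⟩
      rw [B5b_L_snd]
      have := hminG hy
      simp only [mem_ofPred_eq] at this
      linarith
    · exact ⟨B5b_L m P yF, ⟨yF, hyF, rfl⟩, by rw [B5b_L_snd]; ring⟩
    · rintro _ ⟨y, hy, rfl⟩
      rw [B5b_L_snd]
      have := hminF hy
      simp only [mem_ofPred_eq] at this
      linarith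
  rcases hout _ _ _ _ _ _ _ _ _ w with ⟨ε, C, h1, h2, h3, h4, h5, h6⟩ | ⟨U, C, h1, h2, h3, h4, h5⟩
  · left
    refine ⟨ε, C, h1, h2, h3, h4, ?_, B5b_path m P hm h6⟩
    rw [B5b_inter m P hm] at h5
    have : area (B5b_L m P '' (Gt ∩ {y | 1 < dot m y})) = area (Gt ∩ {y | 1 < dot m y}) :=
      area_L m P hm _
    rwa [this] at h5
  · right
    refine ⟨U, C, h1, h2, h3, ?_, B5b_path m P hm h5⟩
    rw [B5b_Xp m P hm] at h4
    have : vol3 (B5b_L3 m P '' Xp F B m) = vol3 (Xp F B m) := vol3_L3 m P hm _
    rwa [this] at h4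

end Pool.Agent.helper15.PB
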