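import Pool.Agent.helper15.PB.Defs2

/-! # Module PB-B8a: volume bound from a slice inequality (helper22) -/

set_option autoImplicit false

open MeasureTheory Set

namespace Pool.Agent.helper15.PB

theorem Body.vol_le_of_ineq {X : Set (P2 × ℝ)} (hX : IsCompact X) (hX0 : ∀ p ∈ X, 0 ≤ p.2)
    {y k : ℝ} (hy : 0 < y) (hk : 0 < k)
    (h : ∀ h : ℝ, 0 ≤ h → ({z : P2 | ((z, h) : P2 × ℝ) ∈ X}).Nonempty →
      Real.sqrt (y * area {z : P2 | ((z, h) : P2 × ℝ) ∈ X}) + h * k ≤ y) :
    vol3 X ≤ y ^ 2 / (3 * k) := by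
  have hm : MeasurableSet X := hX.measurableSet
  have h1 : volume X = ∫⁻ t : ℝ, volume {z : P2 | ((z, t) : P2 × ℝ) ∈ X} := by
    rw [Measure.volume_eq_prod, Measure.prod_apply_symm hm]
    rfl
  have hfin : ∀ t : ℝ, volume {z : P2 | ((z, t) : P2 × ℝ) ∈ X} < ⊤ := by
    intro t
    refine lt_of_le_of_lt (measure_mono ?_) (hX.image continuous_fst).measure_lt_top
    intro z hz
    exact ⟨(z, t), hz, rfl⟩
  have hb : ∀ t : ℝ, volume {z : P2 | ((z, t) : P2 × ℝ) ∈ X} ≤
      (Set.Icc (0 : ℝ) (y / k)).indicator (fun t : ℝ => ENNReal.ofReal ((y - t * k) ^ 2 / y)) t := by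
    intro t
    rcases Set.eq_empty_or_nonempty {z : P2 | ((z, t) : P2 × ℝ) ∈ X} with he | hne
    · rw [he]; simp
    · have ht0 : 0 ≤ t := by
        obtain ⟨z, hz⟩ := hne
        exact hX0 _ hz
      have h2 := h t ht0 hne
      have h3 : t * k ≤ y := by
        have := Real.sqrt_nonneg (y * area {z : P2 | ((z, t) : P2 × ℝ) ∈ X})
        linarith
      have ht1 : t ≤ y / k := by
        rw [le_div_iff₀ hk]; exact h3
      rw [Set.indicator_of_mem (show t ∈ Set.Icc (0 : ℝ) (y / k) from ⟨ht0, ht1⟩)]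
      rw [ENNReal.le_ofReal_iff_toReal_le (hfin t).ne (by positivity)]
      have ha : 0 ≤ area {z : P2 | ((z, t) : P2 × ℝ) ∈ X} := ENNReal.toReal_nonneg
      have h4 : Real.sqrt (y * area {z : P2 | ((z, t) : P2 × ℝ) ∈ X}) ≤ y - t * k := by linarith
      have h5 : y * area {z : P2 | ((z, t) : P2 × ℝ) ∈ X} ≤ (y - t * k) ^ 2 := by
        rw [Real.sqrt_le_left (by linarith)] at h4
        exact h4
      change area {z : P2 | ((z, t) : P2 × ℝ) ∈ X} ≤ _
      rw [le_div_iff₀ hy]
      linarith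
  have hyk : 0 ≤ y / k := by positivity
  have hcont : Continuous (fun t : ℝ => (y - t * k) ^ 2 / y) := by fun_prop
  have hint : IntegrableOn (fun t : ℝ => (y - t * k) ^ 2 / y) (Set.Icc (0 : ℝ) (y / k)) :=
    hcont.continuousOn.integrableOn_Icc
  have h6 : ∫⁻ t : ℝ, (Set.Icc (0 : ℝ) (y / k)).indicator
      (fun t : ℝ => ENNReal.ofReal ((y - t * k) ^ 2 / y)) t =
      ENNReal.ofReal (∫ t in Set.Icc (0 : ℝ) (y / k), (y - t * k) ^ 2 / y) := by
    rw [lintegral_indicator measurableSet_Icc,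
      ofReal_integral_eq_lintegral_ofReal hint
        (Filter.Eventually.of_forall fun t => by positivity)]
  have h7 : ∫ t in Set.Icc (0 : ℝ) (y / k), (y - t * k) ^ 2 / y = y ^ 2 / (3 * k) := by
    rw [integral_Icc_eq_integral_Ioc, ← intervalIntegral.integral_of_le hyk]
    have hderiv : ∀ t ∈ Set.uIcc (0 : ℝ) (y / k),
        HasDerivAt (fun t : ℝ => -(y - t * k) ^ 3 / (3 * k * y)) ((y - t * k) ^ 2 / y) t := by
      intro t _
      have h8 : HasDerivAt (fun t : ℝ => y - t * k) (-k) t := by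
        simpa using ((hasDerivAt_id t).mul_const k).const_sub y
      have h9 := ((h8.pow 3).neg).div_const (3 * k * y)
      refine h9.congr_deriv ?_
      simp only [Nat.cast_ofNat, Nat.add_one_sub_one]
      field_simp
    rw [intervalIntegral.integral_eq_sub_of_hasDerivAt hderiv
      (hcont.intervalIntegrable _ _)]
    have h10 : y - y / k * k = 0 := by field_simp; ring
    rw [h10]
    field_simp
    ring
  have h8 : volume X ≤ ENNReal.ofReal (y ^ 2 / (3 * k)) := by
    rw [h1, ← h7, ← h6]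
    exact lintegral_mono hb
  unfold vol3
  exact ENNReal.toReal_le_of_le_ofReal (by positivity) h8

end Pool.Agent.helper15.PB
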