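import Pool.Agent.helper15.PB.A2
import Pool.Agent.helper15.PB.B1
import Pool.Agent.helper15.PB.B8a
import Pool.Agent.helper15.PB.B3
import Pool.Agent.helper15.PB.B4b
import Pool.Agent.helper15.PB.B5b

/-! # Assembly of the planar theorem (module B8b, helper45) -/

set_option autoImplicit false
open MeasureTheory Set
open scoped Pointwise Topology

namespace Pool.Agent.helper15.PB

variable {F G Gt : Set P2} {B : Set (P2 × ℝ)}

/-! ### linear algebra -/

theorem b8_dot_comb (m x y : P2) (a b : ℝ) : dot m (a • x + b • y) = a * dot m x + b * dot m y := by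
  simp only [dot, Prod.fst_add, Prod.snd_add, Prod.smul_fst, Prod.smul_snd, smul_eq_mul]; ring

theorem b8_dot_smul (m x : P2) (a : ℝ) : dot m (a • x) = a * dot m x := by
  simp only [dot, Prod.smul_fst, Prod.smul_snd, smul_eq_mul]; ring

theorem b8_dot_sub (m x y : P2) (a : ℝ) : dot m (x - a • y) = dot m x - a * dot m y := by
  simp only [dot, Prod.fst_sub, Prod.snd_sub, Prod.smul_fst, Prod.smul_snd, smul_eq_mul]; ring

theorem b8_dot_cont (m : P2) : Continuous (dot m) := by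
  unfold dot; fun_prop

theorem b8_closed_le (m : P2) (a : ℝ) : IsClosed {y : P2 | dot m y ≤ a} :=
  isClosed_le (b8_dot_cont m) continuous_const

theorem b8_open_gt (m : P2) (a : ℝ) : IsOpen {y : P2 | a < dot m y} :=
  isOpen_lt continuous_const (b8_dot_cont m)

theorem b8_convex_le (m : P2) (a : ℝ) : Convex ℝ {y : P2 | dot m y ≤ a} := by
  intro x hx y hy s t hs ht hst
  show dot m (s • x + t • y) ≤ a
  rw [b8_dot_comb]
  have hx' : dot m x ≤ a := hx
  have hy' : dot m y ≤ a := hy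
  have h1 := mul_le_mul_of_nonneg_left hx' hs
  have h2 := mul_le_mul_of_nonneg_left hy' ht
  have h3 : s * a + t * a = a := by rw [← add_mul, hst, one_mul]
  linarith

/-! ### the bodies -/

theorem Body.b8_cGt (b : Body F G Gt B) : IsCompact Gt := by
  rw [b.hGt]
  have hc : Topology.IsClosedEmbedding (fun y : P2 => ((y, (0:ℝ)) : P2 × ℝ)) := by
    refine Topology.IsClosedEmbedding.of_continuous_injective_isClosedMap (by fun_prop) ?_ ?_
    · intro x y hxy; exact (Prod.mk.inj hxy).1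
    · intro s hs
      have : (fun y : P2 => ((y, (0:ℝ)) : P2 × ℝ)) '' s = s ×ˢ ({0} : Set ℝ) := by
        ext ⟨x, t⟩
        simp only [mem_image, Prod.mk.injEq, mem_prod, mem_singleton_iff]
        constructor
        · rintro ⟨y, hy, rfl, rfl⟩; exact ⟨hy, rfl⟩
        · rintro ⟨h1, rfl⟩; exact ⟨x, h1, rfl, rfl⟩
      rw [this]
      exact hs.prod isClosed_singleton
  exact hc.isCompact_preimage b.cB

theorem Body.b8_vGt (b : Body F G Gt B) : Convex ℝ Gt := by
  rw [b.hGt]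
  intro x hx y hy s t hs ht hst
  have := b.vB hx hy hs ht hst
  show ((s • x + t • y, (0:ℝ)) : P2 × ℝ) ∈ B
  convert this using 1
  simp

theorem Body.b8_cG (b : Body F G Gt B) : IsCompact G := by
  rw [b.hG]; exact b.cF.inter b.b8_cGt

theorem Body.b8_vG (b : Body F G Gt B) : Convex ℝ G := by
  rw [b.hG]; exact b.vF.inter b.b8_vGt

theorem Body.b8_Fne (b : Body F G Gt B) : F.Nonempty := by
  by_contra h
  rw [not_nonempty_iff_eq_empty] at h
  have := b.F4
  rw [h] at this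
  simp [area] at this
  linarith

/-- key inclusion -/
theorem Body.b8_KI (b : Body F G Gt B) {x y : P2} {h : ℝ} (hx : ((x, h) : P2 × ℝ) ∈ Xs F B)
    (hy : y ∈ F) : ∃ w ∈ Gt, x - h • y = (1 + h) • w := by
  have hh : 0 ≤ h := hx.2.1
  have h1 : (0:ℝ) < 1 + h := by linarith
  refine ⟨(1 + h)⁻¹ • (x - h • y), ?_, ?_⟩
  · rw [b.hGt]
    show (((1 + h)⁻¹ • (x - h • y), (0:ℝ)) : P2 × ℝ) ∈ B
    have hinv : 0 ≤ (1 + h)⁻¹ := inv_nonneg.mpr h1.le
    have := b.vB hx.1 (b.neg y hy) hinv (mul_nonneg hinv hh)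
      (by field_simp)
    convert this using 1
    ext
    · simp only [Prod.smul_mk, Prod.mk_add_mk, Prod.smul_fst, Prod.fst_sub, smul_eq_mul, Prod.fst_add,
        Prod.fst_neg]; ring
    · simp only [Prod.smul_mk, Prod.mk_add_mk, Prod.smul_snd, Prod.snd_sub, smul_eq_mul, Prod.snd_add,
        Prod.snd_neg]; ring
    · simp only [Prod.smul_mk, Prod.mk_add_mk, smul_eq_mul]; ring
  · rw [smul_smul, mul_inv_cancel₀ h1.ne', one_smul]

/-- the part of `X` not removed by the functionals of `S` -/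
def Xmi (F : Set P2) (B : Set (P2 × ℝ)) (S : Set P2) : Set (P2 × ℝ) :=
  {p | p ∈ Xs F B ∧ ∀ m ∈ S, ∀ y ∈ F, dot m (p.1 - p.2 • y) ≤ 1 + p.2}

theorem b8_Xs_compact (cF : IsCompact F) (cB : IsCompact B) : IsCompact (Xs F B) := by
  have hcl : IsClosed ({p : P2 × ℝ | 0 ≤ p.2} ∩ (fun p : P2 × ℝ => (1 + 2 * p.2)⁻¹ • p.1) ⁻¹' F) := by
    refine ContinuousOn.preimage_isClosed_of_isClosed ?_ ?_ cF.isClosed
    · have hc : Continuous (fun p : P2 × ℝ => (1 + 2 * p.2 : ℝ)) := by fun_prop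
      have hc2 : ContinuousOn (fun p : P2 × ℝ => ((1 + 2 * p.2 : ℝ))⁻¹) {p : P2 × ℝ | 0 ≤ p.2} := by
        refine ContinuousOn.inv₀ hc.continuousOn ?_
        intro p hp
        have : (0:ℝ) ≤ p.2 := hp
        positivity
      exact hc2.smul continuous_fst.continuousOn
    · exact isClosed_le continuous_const continuous_snd
  have : Xs F B = B ∩ ({p : P2 × ℝ | 0 ≤ p.2} ∩ (fun p : P2 × ℝ => (1 + 2 * p.2)⁻¹ • p.1) ⁻¹' F) := by
    ext p
    constructor
    · rintro ⟨h1, h2, y, hy, h3⟩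
      refine ⟨h1, h2, ?_⟩
      show (1 + 2 * p.2)⁻¹ • p.1 ∈ F
      have : (1 + 2 * p.2) ≠ 0 := by positivity
      rw [h3, smul_smul, inv_mul_cancel₀ this, one_smul]
      exact hy
    · rintro ⟨h1, h2, h3⟩
      have h2' : (0:ℝ) ≤ p.2 := h2
      refine ⟨h1, h2, _, h3, ?_⟩
      have : (1 + 2 * p.2) ≠ 0 := by positivity
      show p.1 = (1 + 2 * p.2) • ((1 + 2 * p.2)⁻¹ • p.1)
      rw [smul_smul, mul_inv_cancel₀ this, one_smul]
  rw [this]
  exact cB.inter_right hcl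

theorem b8_Xmi_compact (cF : IsCompact F) (cB : IsCompact B) (S : Set P2) : IsCompact (Xmi F B S) := by
  have : Xmi F B S = Xs F B ∩ ⋂ m ∈ S, ⋂ y ∈ F, {p : P2 × ℝ | dot m (p.1 - p.2 • y) ≤ 1 + p.2} := by
    ext p
    simp only [Xmi, mem_ofPred_eq, mem_inter_iff, mem_iInter]
  rw [this]
  refine (b8_Xs_compact cF cB).inter_right ?_
  refine isClosed_biInter fun m _ => isClosed_biInter fun y _ => ?_
  refine isClosed_le ((b8_dot_cont m).comp (by fun_prop)) (by fun_prop)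

theorem Body.b8_slice_convex (b : Body F G Gt B) (S : Set P2) (h : ℝ) :
    Convex ℝ {z : P2 | ((z, h) : P2 × ℝ) ∈ Xmi F B S} := by
  intro x hx y hy s t hs ht hst
  obtain ⟨⟨hx1, hx2, x', hx', hx3⟩, hx4⟩ := hx
  obtain ⟨⟨hy1, hy2, y', hy', hy3⟩, hy4⟩ := hy
  refine ⟨⟨?_, hx2, s • x' + t • y', b.vF hx' hy' hs ht hst, ?_⟩, ?_⟩
  · have := b.vB hx1 hy1 hs ht hst
    convert this using 1
    ext
    · simp
    · simp
    · simp only [Prod.smul_mk, Prod.mk_add_mk, smul_eq_mul]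
      rw [← add_mul, hst, one_mul]
  · simp only at hx3 hy3 ⊢
    rw [hx3, hy3, smul_add, smul_smul, smul_smul, smul_smul, smul_smul, mul_comm s, mul_comm t]
  · intro m hm w hw
    have h1 := hx4 m hm w hw
    have h2 := hy4 m hm w hw
    simp only at h1 h2 ⊢
    rw [b8_dot_sub] at h1 h2 ⊢
    rw [b8_dot_comb]
    have e1 := mul_le_mul_of_nonneg_left h1 hs
    have e2 := mul_le_mul_of_nonneg_left h2 ht
    have e3 : s * (1 + h) + t * (1 + h) = 1 + h := by rw [← add_mul, hst, one_mul]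
    have e4 : s * (h * dot m w) + t * (h * dot m w) = h * dot m w := by rw [← add_mul, hst, one_mul]
    nlinarith

theorem b8_slice_compact (cF : IsCompact F) (cB : IsCompact B) (S : Set P2) (h : ℝ) :
    IsCompact {z : P2 | ((z, h) : P2 × ℝ) ∈ Xmi F B S} := by
  have hc : Topology.IsClosedEmbedding (fun y : P2 => ((y, h) : P2 × ℝ)) := by
    refine Topology.IsClosedEmbedding.of_continuous_injective_isClosedMap (by fun_prop) ?_ ?_
    · intro x y hxy; exact (Prod.mk.inj hxy).1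
    · intro s hs
      have : (fun y : P2 => ((y, h) : P2 × ℝ)) '' s = s ×ˢ ({h} : Set ℝ) := by
        ext ⟨x, t⟩
        simp only [mem_image, Prod.mk.injEq, mem_prod, mem_singleton_iff]
        constructor
        · rintro ⟨y, hy, rfl, rfl⟩; exact ⟨hy, rfl⟩
        · rintro ⟨h1, rfl⟩; exact ⟨x, h1, rfl, rfl⟩
      rw [this]
      exact hs.prod isClosed_singleton
  exact hc.isCompact_preimage (b8_Xmi_compact cF cB S)

theorem Body.b8_KI' (b : Body F G Gt B) {S : Set P2} {x y : P2} {h : ℝ} (hx : ((x, h) : P2 × ℝ) ∈ Xmi F B S)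
    (hy : y ∈ F) : ∃ w ∈ Gt, (∀ m ∈ S, dot m w ≤ 1) ∧ x - h • y = (1 + h) • w := by
  obtain ⟨w, hw, he⟩ := b.b8_KI hx.1 hy
  have hh : 0 ≤ h := hx.1.2.1
  refine ⟨w, hw, ?_, he⟩
  intro m hm
  have := hx.2 m hm y hy
  simp only at this
  rw [he, b8_dot_smul] at this
  have h1 : (0:ℝ) < 1 + h := by linarith
  by_contra hc
  push Not at hc
  nlinarith

/-- the use of a path inequality on a slice -/
theorem Body.b8_use (b : Body F G Gt B) {S : Set P2} {m : P2} {C : ℝ} (hp : PathIneq F G m C) {Y : Set P2}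
    (hYv : Convex ℝ Y) (hYc : IsCompact Y) (hY1 : ∀ w ∈ Gt, (∀ m ∈ S, dot m w ≤ 1) → w ∈ Y)
    (hY2 : ∀ y ∈ G, dot m y ≤ 1 → y ∈ Y) {h : ℝ} (hh : 0 ≤ h)
    (hne : ({z : P2 | ((z, h) : P2 × ℝ) ∈ Xmi F B S}).Nonempty) :
    Real.sqrt (area Y * area {z : P2 | ((z, h) : P2 × ℝ) ∈ Xmi F B S})
      + h * (C - area (G ∩ {y | 1 < dot m y}) - area Y) ≤ area Y := by
  have := hp Y {z : P2 | ((z, h) : P2 × ℝ) ∈ Xmi F B S} h hh hYv hYc (b.b8_slice_convex S h)
    (b8_slice_compact b.cF b.cB S h) hne (by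
      intro z hz y hy
      obtain ⟨w, hw, hw2, hw3⟩ := b.b8_KI' hz hy
      exact ⟨w, hY1 w hw hw2, hw3⟩) hY2
  nlinarith

theorem Body.b8_areaY_pos (b : Body F G Gt B) {m : P2} {Y : Set P2} (hYc : IsCompact Y)
    (hY2 : ∀ y ∈ G, dot m y ≤ 1 → y ∈ Y) : 0 < area Y := by
  have hn : Y ∈ nhds (0 : P2) := by
    have h1 : {y : P2 | dot m y < 1} ∈ nhds (0 : P2) := by
      refine (isOpen_lt (b8_dot_cont m) continuous_const).mem_nhds ?_
      show dot m 0 < 1
      simp [dot]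
    filter_upwards [b.zero_mem_nhds_G, h1] with y hy1 hy2
    exact hY2 y hy1 (le_of_lt hy2)
  exact ENNReal.toReal_pos (Measure.measure_pos_of_mem_nhds volume hn).ne' hYc.measure_lt_top.ne

/-- two path inequalities for the same test body, averaged; with one functional take both equal -/
theorem Body.b8_vol2 (b : Body F G Gt B) {S : Set P2} {m m' : P2} {C C' : ℝ} (hp : PathIneq F G m C)
    (hp' : PathIneq F G m' C') {Y : Set P2}
    (hYv : Convex ℝ Y) (hYc : IsCompact Y) (hY1 : ∀ w ∈ Gt, (∀ m ∈ S, dot m w ≤ 1) → w ∈ Y)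
    (hY2 : ∀ y ∈ G, dot m y ≤ 1 → y ∈ Y) (hY2' : ∀ y ∈ G, dot m' y ≤ 1 → y ∈ Y) {a k : ℝ}
    (ha : area Y ≤ a) (hk0 : 0 < k)
    (hk : k ≤ (C + C') / 2 - (area (G ∩ {y | 1 < dot m y}) + area (G ∩ {y | 1 < dot m' y})) / 2 - area Y) :
    vol3 (Xmi F B S) ≤ a ^ 2 / (3 * k) := by
  have hpos := b.b8_areaY_pos hYc hY2
  refine (Body.vol_le_of_ineq (b8_Xmi_compact b.cF b.cB S) (fun p hp => hp.1.2.1) hpos hk0 ?_).trans ?_
  · intro h hh hne
    have h1 := b.b8_use hp hYv hYc hY1 hY2 hh hne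
    have h2 := b.b8_use hp' hYv hYc hY1 hY2' hh hne
    have h3 := mul_le_mul_of_nonneg_left hk hh
    linarith
  · gcongr

theorem Body.b8_vol1 (b : Body F G Gt B) {S : Set P2} {m : P2} {C : ℝ} (hp : PathIneq F G m C) {Y : Set P2}
    (hYv : Convex ℝ Y) (hYc : IsCompact Y) (hY1 : ∀ w ∈ Gt, (∀ m ∈ S, dot m w ≤ 1) → w ∈ Y)
    (hY2 : ∀ y ∈ G, dot m y ≤ 1 → y ∈ Y) {δ : ℝ}
    (ha : area Y ≤ 1 - area (G ∩ {y | 1 < dot m y}) + δ) (hC : 0 < C - 1 - δ) :
    vol3 (Xmi F B S) ≤ (1 + δ) ^ 2 / (3 * (C - 1 - δ)) := by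
  have hc : 0 ≤ area (G ∩ {y | 1 < dot m y}) := ENNReal.toReal_nonneg
  refine b.b8_vol2 hp hp hYv hYc hY1 hY2 hY2 (a := 1 + δ) (by linarith) hC (by linarith)

/-! ### areas -/

theorem b8_area_union {K L : Set P2} (hK : MeasurableSet K) (hd : Disjoint L K) (hKf : volume K ≠ ⊤)
    (hLf : volume L ≠ ⊤) : area (L ∪ K) = area L + area K := by
  unfold area
  rw [measure_union hd hK, ENNReal.toReal_add hLf hKf]

theorem b8_area_split {K : Set P2} (hK : IsCompact K) {A : Set P2} (hA : MeasurableSet A) :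
    area K = area (K ∩ A) + area (K \ A) := by
  unfold area
  rw [← ENNReal.toReal_add, measure_inter_add_sdiff K hA]
  · exact ((measure_mono inter_subset_left).trans_lt hK.measure_lt_top).ne
  · exact ((measure_mono sdiff_subset).trans_lt hK.measure_lt_top).ne

theorem b8_area_mono {K L : Set P2} (hL : volume L ≠ ⊤) (h : K ⊆ L) : area K ≤ area L :=
  ENNReal.toReal_mono hL (measure_mono h)

theorem Body.b8_area_le (b : Body F G Gt B) (m : P2) :
    area (G ∩ {y | dot m y ≤ 1}) = 1 - area (G ∩ {y | 1 < dot m y}) := by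
  have h := b8_area_split b.b8_cG (b8_open_gt m 1).measurableSet
  have e : G \ {y | 1 < dot m y} = G ∩ {y | dot m y ≤ 1} := by
    ext y; simp [not_lt]
  rw [e, b.G1] at h
  linarith

/-- the part of `Gt` outside `F` lying above the chord -/
theorem Body.b8_area_out (b : Body F G Gt B) (m : P2) :
    area ((Gt \ F) ∩ {y | 1 < dot m y}) = area (Gt ∩ {y | 1 < dot m y}) - area (G ∩ {y | 1 < dot m y}) := by
  have hm := (b8_open_gt m 1).measurableSet
  have hG : MeasurableSet G := b.b8_cG.isClosed.measurableSet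
  have hGt : MeasurableSet Gt := b.b8_cGt.isClosed.measurableSet
  have hF : MeasurableSet F := b.cF.isClosed.measurableSet
  have e : Gt ∩ {y | 1 < dot m y} = ((Gt \ F) ∩ {y | 1 < dot m y}) ∪ (G ∩ {y | 1 < dot m y}) := by
    ext y
    rw [b.hG]
    simp only [mem_inter_iff, mem_union, mem_sdiff, mem_ofPred_eq]
    tauto
  have hfin : volume Gt < ⊤ := b.b8_cGt.measure_lt_top
  rw [e, b8_area_union (hG.inter hm)]
  · ring
  · rw [disjoint_left]
    intro y hy hy2
    have : y ∈ F := by have := hy2.1; rw [b.hG] at this; exact this.1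
    exact hy.1.2 this
  · refine ((measure_mono ?_).trans_lt hfin).ne
    intro y hy
    have := hy.1; rw [b.hG] at this; exact this.2
  · refine ((measure_mono ?_).trans_lt hfin).ne
    intro y hy
    exact hy.1.1

/-! ### volumes -/

theorem b8_vol_mono {X X' : Set (P2 × ℝ)} (hX' : volume X' ≠ ⊤) (h : X ⊆ X') : vol3 X ≤ vol3 X' :=
  ENNReal.toReal_mono hX' (measure_mono h)

theorem b8_vol_union {X X' : Set (P2 × ℝ)} (hX : volume X ≠ ⊤) (hX' : volume X' ≠ ⊤) :
    vol3 (X ∪ X') ≤ vol3 X + vol3 X' := by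
  unfold vol3
  rw [← ENNReal.toReal_add hX hX']
  exact ENNReal.toReal_mono (ENNReal.add_ne_top.mpr ⟨hX, hX'⟩) (measure_union_le X X')

theorem Body.b8_Xs_fin (b : Body F G Gt B) : volume (Xs F B) < ⊤ := (b8_Xs_compact b.cF b.cB).measure_lt_top

theorem Body.b8_Xp_fin (b : Body F G Gt B) (m : P2) : volume (Xp F B m) ≠ ⊤ :=
  ((measure_mono (fun _ hp => hp.1)).trans_lt b.b8_Xs_fin).ne

theorem Body.b8_Xm_fin (b : Body F G Gt B) (S : Set P2) : volume (Xmi F B S) ≠ ⊤ :=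
  ((measure_mono (fun _ hp => hp.1)).trans_lt b.b8_Xs_fin).ne

theorem b8_Xmi_empty : Xmi F B ∅ = Xs F B := by
  ext p; simp [Xmi]

theorem Body.b8_vol_split (b : Body F G Gt B) (m : P2) :
    vol3 (Xs F B) ≤ vol3 (Xmi F B {m}) + vol3 (Xp F B m) := by
  refine le_trans (b8_vol_mono ?_ ?_) (b8_vol_union (b.b8_Xm_fin _) (b.b8_Xp_fin m))
  · exact (measure_union_lt_top (b.b8_Xm_fin {m}).lt_top (b.b8_Xp_fin m).lt_top).ne
  · intro p hp
    by_cases h : ∃ y ∈ F, 1 + p.2 < dot m (p.1 - p.2 • y)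
    · right; exact ⟨hp, h⟩
    · left
      push Not at h
      refine ⟨hp, ?_⟩
      intro m' hm' y hy
      rw [mem_singleton_iff] at hm'
      rw [hm']; exact h y hy

theorem Body.b8_vol_split2 (b : Body F G Gt B) (m m' : P2) :
    vol3 (Xs F B) ≤ vol3 (Xmi F B {m, m'}) + vol3 (Xp F B m) + vol3 (Xp F B m') := by
  have h1 : vol3 (Xs F B) ≤ vol3 ((Xmi F B {m, m'} ∪ Xp F B m) ∪ Xp F B m') := by
    refine b8_vol_mono ?_ ?_
    · exact (measure_union_lt_top (measure_union_lt_top (b.b8_Xm_fin {m, m'}).lt_top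
        (b.b8_Xp_fin m).lt_top) (b.b8_Xp_fin m').lt_top).ne
    · intro p hp
      by_cases h : ∃ y ∈ F, 1 + p.2 < dot m (p.1 - p.2 • y)
      · left; right; exact ⟨hp, h⟩
      · by_cases h' : ∃ y ∈ F, 1 + p.2 < dot m' (p.1 - p.2 • y)
        · right; exact ⟨hp, h'⟩
        · left; left
          push Not at h h'
          refine ⟨hp, ?_⟩
          intro k hk y hy
          rcases hk with rfl | hk
          · exact h y hy
          · rw [mem_singleton_iff] at hk; rw [hk]; exact h' y hy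
  have h2 := b8_vol_union (X := Xmi F B {m, m'} ∪ Xp F B m) (X' := Xp F B m')
    (measure_union_lt_top (b.b8_Xm_fin {m, m'}).lt_top (b.b8_Xp_fin m).lt_top).ne (b.b8_Xp_fin m')
  have h3 := b8_vol_union (b.b8_Xm_fin {m, m'}) (b.b8_Xp_fin m)
  linarith

/-! ### numerical inequalities -/

theorem b8_num_S {U C : ℝ} (hU : 0 ≤ U) (hC : 2.05 ≤ C) (h : (1 / 6) / (C - 1) + U ≤ 1 / 6) :
    (1 + 0) ^ 2 / (3 * (C - 1 - 0)) + U ≤ 1 / 3 := by
  have h1 : (0:ℝ) < C - 1 := by norm_num at hC ⊢; linarith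
  have e : (1 + 0 : ℝ) ^ 2 / (3 * (C - 1 - 0)) = 2 * ((1 / 6) / (C - 1)) := by
    rw [add_zero, sub_zero, one_pow, one_div, mul_inv, div_div, div_eq_mul_inv, mul_inv]; ring
  rw [e]; linarith

theorem b8_num_E {ε C : ℝ}
    (h : (1 + ε) ^ 2 ≤ (1 - 3.3 * ε) * (C - 1 - ε)) (hC : 1 + ε < C) :
    (1 + ε) ^ 2 / (3 * (C - 1 - ε)) ≤ (1 / 3) * (1 - 3.3 * ε) := by
  have h1 : (0:ℝ) < C - 1 - ε := by linarith
  rw [div_le_iff₀ (by positivity)]
  nlinarith

theorem b8_num_SE {ε C : ℝ} (h8 : ε ≤ 0.08) (h0 : 0 ≤ ε) (hC : 2.05 ≤ C) :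
    (1 + ε) ^ 2 / (3 * (C - 1 - ε)) ≤ (1 / 3) * (1 / (C - 1) + 3.3 * ε) := by
  norm_num at h8 hC
  have h1 : (0:ℝ) < C - 1 - ε := by linarith
  have h2 : (0:ℝ) < C - 1 := by linarith
  rw [div_le_iff₀ (by positivity)]
  have e : (1 / 3) * (1 / (C - 1) + 3.3 * ε) * (3 * (C - 1 - ε))
      = (1 + 3.3 * ε * (C - 1)) * (C - 1 - ε) / (C - 1) := by
    field_simp
  rw [e, le_div_iff₀ h2]
  have hD1 : 21 / 20 ≤ C - 1 := by linarith
  clear e
  generalize C - 1 = D at hD1 h1 h2 ⊢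
  nlinarith [mul_nonneg h0 (sub_nonneg.mpr hD1), mul_nonneg (mul_nonneg h0 (sub_nonneg.mpr hD1)) (sub_nonneg.mpr hD1),
    mul_nonneg h0 (sub_nonneg.mpr h8), mul_nonneg (mul_nonneg h0 (sub_nonneg.mpr hD1)) (sub_nonneg.mpr h8)]

theorem b8_num_E2 {ε k : ℝ} (h8 : ε ≤ 0.08) (h0 : 0 ≤ ε)
    (h : (1 + ε) ^ 2 ≤ (1 - 3.3 * ε) * k) : 1 + 5.3 * ε + 6.6 * ε ^ 2 ≤ k := by
  norm_num at h8
  have h1 : (0:ℝ) < 1 - 3.3 * ε := by norm_num; linarith
  by_contra hc
  push Not at hc
  have h2 := mul_lt_mul_of_pos_left hc h1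
  have h3 : (1 - 3.3 * ε) * (1 + 5.3 * ε + 6.6 * ε ^ 2) ≤ (1 + ε) ^ 2 := by
    nlinarith [pow_nonneg h0 2, pow_nonneg h0 3]
  linarith

/-! ### the case without contacts -/

theorem Body.b8_case0 (b : Body F G Gt B) (h : ∀ z ∈ Gt, z ∈ F) : vol3 (Xs F B) ≤ 1 / 3 := by
  have hGt : Gt = G := by
    rw [b.hG]; ext z; exact ⟨fun hz => ⟨h z hz, hz⟩, fun hz => hz.2⟩
  have hG1 : area Gt = 1 := by rw [hGt]; exact b.G1
  have := Body.vol_le_of_ineq (X := Xs F B) (b8_Xs_compact b.cF b.cB) (fun p hp => hp.2.1)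
    (y := 1) (k := 1) one_pos one_pos ?_
  · norm_num at this ⊢; exact this
  · intro t ht hne
    have e : {z : P2 | ((z, t) : P2 × ℝ) ∈ Xs F B} = {z : P2 | ((z, t) : P2 × ℝ) ∈ Xmi F B ∅} := by
      rw [b8_Xmi_empty]
    rw [e] at hne ⊢
    have hcv := b.b8_slice_convex ∅ t
    have hcc := b8_slice_compact b.cF b.cB ∅ t
    set Z : Set P2 := {z : P2 | ((z, t) : P2 × ℝ) ∈ Xmi F B ∅} with hZ
    have h1t : (0:ℝ) < 1 + t := by linarith
    have hbm := bm2 (K := Z) (L := (-t) • F) (M := (1 + t) • Gt) hcc (b.cF.smul _) (b.b8_cGt.smul _)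
      hcv (b.vF.smul _) hne (b.b8_Fne.smul_set) (by
        intro x hx y hy
        obtain ⟨w, hw, rfl⟩ := mem_smul_set.mp hy
        obtain ⟨v, hv, hv1, hv2⟩ := b.b8_KI' hx hw
        rw [mem_smul_set]
        refine ⟨v, hv, ?_⟩
        rw [← hv2, neg_smul, sub_eq_add_neg])
    have ha1 : area ((-t) • F) = t ^ 2 * area F := by
      unfold area
      rw [Measure.addHaar_smul]
      simp [abs_of_nonneg ht]
      left; positivity
    have ha2 : area ((1 + t) • Gt) = (1 + t) ^ 2 := by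
      have h2 : area ((1 + t) • Gt) = (1 + t) ^ 2 * area Gt := by
        unfold area
        rw [Measure.addHaar_smul]
        simp [abs_of_pos h1t]
        left; positivity
      rw [h2, hG1, mul_one]
    rw [ha1, ha2] at hbm
    have hF := b.F4
    have hs : 2 * t ≤ Real.sqrt (t ^ 2 * area F) := by
      apply Real.le_sqrt_of_sq_le
      nlinarith [sq_nonneg t]
    have hZ0 := Real.sqrt_nonneg (area Z)
    have h3 : Real.sqrt (area Z) + Real.sqrt (t ^ 2 * area F) ≤ 1 + t := by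
      by_contra hc
      push Not at hc
      nlinarith
    rw [one_mul, mul_one]
    linarith

/-! ### one class -/

theorem Body.b8_single (b : Body F G Gt B) {m : P2} (hcl : ∀ z ∈ Gt, z ∉ F → 1 < dot m z)
    (ho : OutE F G Gt m ∨ OutS F G B m) : vol3 (Xs F B) ≤ 1 / 3 := by
  rcases ho with ⟨ε, C, h0, h8, hn, hC, ha, hp⟩ | ⟨U, C, hU, hC, hn, hv, hp⟩
  · have hg : area (Gt ∩ {y | dot m y ≤ 1}) ≤ 1 - area (G ∩ {y | 1 < dot m y}) := by
      rw [← b.b8_area_le m]
      refine b8_area_mono ?_ ?_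
      · exact ((measure_mono inter_subset_left).trans_lt b.b8_cG.measure_lt_top).ne
      · rintro y ⟨hy1, hy2⟩
        refine ⟨?_, hy2⟩
        rw [b.hG]
        by_contra hc
        have : y ∉ F := fun hF => hc ⟨hF, hy1⟩
        exact absurd (hcl y hy1 this) (not_lt.mpr hy2)
    have hs := b8_area_split b.b8_cGt (b8_open_gt m 1).measurableSet
    have e : Gt \ {y | 1 < dot m y} = Gt ∩ {y | dot m y ≤ 1} := by
      ext y; simp [not_lt]
    rw [e] at hs
    have h1 := b.b8_vol1 (S := ∅) hp b.b8_vGt b.b8_cGt (fun w hw _ => hw)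
      (fun y hy _ => by rw [b.hG] at hy; exact hy.2) (δ := ε) (by linarith) (by linarith)
    have h2 := b8_num_E hn hC
    rw [b8_Xmi_empty] at h1
    norm_num at h2 ⊢
    linarith
  · have h1 := b.b8_vol1 (S := {m}) hp (Y := G ∩ {y | dot m y ≤ 1}) (b.b8_vG.inter (b8_convex_le m 1))
      (b.b8_cG.inter_right (b8_closed_le m 1)) (fun w hw hS => by
        have hm : dot m w ≤ 1 := hS m (mem_singleton m)
        refine ⟨?_, hm⟩
        rw [b.hG]
        by_contra hc
        have : w ∉ F := fun hF => hc ⟨hF, hw⟩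
        exact absurd (hcl w hw this) (not_lt.mpr hm)) (fun y hy h => ⟨hy, h⟩) (δ := 0)
      (by rw [b.b8_area_le m]; linarith) (by norm_num at hC ⊢; linarith)
    have h2 := b.b8_vol_split m
    have h3 := b8_num_S hU hC hn
    linarith

/-! ### two classes -/

structure TwoC (F Gt : Set P2) (m1 m2 u1 u2 : P2) : Prop where
  cls : ∀ z ∈ Gt, z ∉ F → (0 < dot m1 z ∧ dot m2 z < 0 ∧ 1 < dot u1 z ∧ dot u2 z < -(1 / 8)) ∨
    (dot m1 z < 0 ∧ 0 < dot m2 z ∧ dot u1 z < -(1 / 8) ∧ 1 < dot u2 z)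
  c1 : ∃ R, Contact F Gt R m1
  c2 : ∃ R, Contact F Gt R m2

theorem TwoC.symm {m1 m2 u1 u2 : P2} (t : TwoC F Gt m1 m2 u1 u2) : TwoC F Gt m2 m1 u2 u1 where
  cls := fun z hz hzF => by
    rcases t.cls z hz hzF with ⟨a, b, c, d⟩ | ⟨a, b, c, d⟩
    · exact Or.inr ⟨b, a, d, c⟩
    · exact Or.inl ⟨b, a, d, c⟩
  c1 := t.c2
  c2 := t.c1

theorem Body.b8_EE (b : Body F G Gt B) {m1 m2 u1 u2 : P2} (t : TwoC F Gt m1 m2 u1 u2)
    (h1 : OutE F G Gt u1) (h2 : OutE F G Gt u2) : vol3 (Xs F B) ≤ 1 / 3 := by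
  obtain ⟨ε, C, h0, h8, hn, hC, ha, hp⟩ := h1
  obtain ⟨ε', C', h0', h8', hn', hC', ha', hp'⟩ := h2
  have hs := b8_area_split b.b8_cGt b.cF.isClosed.measurableSet
  have e1 : Gt ∩ F = G := by rw [b.hG, inter_comm]
  rw [e1, b.G1] at hs
  have hu : area (Gt \ F) ≤ area ((Gt \ F) ∩ {y | 1 < dot u1 y}) + area ((Gt \ F) ∩ {y | 1 < dot u2 y}) := by
    have hfin : ∀ A : Set P2, volume ((Gt \ F) ∩ A) < ⊤ := fun A =>
      (measure_mono (fun y hy => hy.1.1)).trans_lt b.b8_cGt.measure_lt_top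
    unfold area
    rw [← ENNReal.toReal_add (hfin _).ne (hfin _).ne]
    refine ENNReal.toReal_mono (ENNReal.add_ne_top.mpr ⟨(hfin _).ne, (hfin _).ne⟩) ?_
    refine (measure_mono ?_).trans (measure_union_le _ _)
    intro y hy
    rcases t.cls y hy.1 hy.2 with h | h
    · exact Or.inl ⟨hy, h.2.2.1⟩
    · exact Or.inr ⟨hy, h.2.2.2⟩
  rw [b.b8_area_out, b.b8_area_out] at hu
  have hc1 : 0 ≤ area (G ∩ {y | 1 < dot u1 y}) := ENNReal.toReal_nonneg
  have hc2 : 0 ≤ area (G ∩ {y | 1 < dot u2 y}) := ENNReal.toReal_nonneg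
  have k1 := b8_num_E2 h8 h0 hn
  have k2 := b8_num_E2 h8' h0' hn'
  have hk : (1 + ε + ε') ^ 2 ≤ (C + C') / 2 - 1 - ε - ε' := by
    nlinarith [sq_nonneg (ε - ε')]
  have hk0 : 0 < (C + C') / 2 - 1 - ε - ε' := lt_of_lt_of_le (by positivity) hk
  have h := b.b8_vol2 (S := ∅) hp hp' b.b8_vGt b.b8_cGt (fun w hw _ => hw)
    (fun y hy _ => by rw [b.hG] at hy; exact hy.2) (fun y hy _ => by rw [b.hG] at hy; exact hy.2)
    (a := 1 + ε + ε') (k := (C + C') / 2 - 1 - ε - ε') (by linarith) hk0 (by linarith)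
  rw [b8_Xmi_empty] at h
  refine h.trans ?_
  rw [div_le_iff₀ (by positivity)]
  linarith

theorem Body.b8_SS (b : Body F G Gt B) {m1 m2 u1 u2 : P2} (t : TwoC F Gt m1 m2 u1 u2)
    (h1 : OutS F G B u1) (h2 : OutS F G B u2) : vol3 (Xs F B) ≤ 1 / 3 := by
  obtain ⟨U, C, hU, hC, hn, hv, hp⟩ := h1
  obtain ⟨U', C', hU', hC', hn', hv', hp'⟩ := h2
  have key : ∀ w ∈ Gt, (∀ m ∈ ({u1, u2} : Set P2), dot m w ≤ 1) → w ∈ G := by
    intro w hw hS
    have a1 : dot u1 w ≤ 1 := hS u1 (by simp)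
    have a2 : dot u2 w ≤ 1 := hS u2 (by simp)
    rw [b.hG]
    by_contra hc
    have : w ∉ F := fun hF => hc ⟨hF, hw⟩
    rcases t.cls w hw this with h | h
    · exact absurd h.2.2.1 (not_lt.mpr a1)
    · exact absurd h.2.2.2 (not_lt.mpr a2)
  have k1 := b.b8_vol1 (S := {u1, u2}) hp (Y := G ∩ {y | dot u1 y ≤ 1}) (b.b8_vG.inter (b8_convex_le u1 1))
      (b.b8_cG.inter_right (b8_closed_le u1 1)) (fun w hw hS => ⟨key w hw hS, hS u1 (by simp)⟩)
      (fun y hy h => ⟨hy, h⟩) (δ := 0) (by rw [b.b8_area_le u1]; linarith) (by norm_num at hC ⊢; linarith)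
  have k2 := b.b8_vol1 (S := {u1, u2}) hp' (Y := G ∩ {y | dot u2 y ≤ 1}) (b.b8_vG.inter (b8_convex_le u2 1))
      (b.b8_cG.inter_right (b8_closed_le u2 1)) (fun w hw hS => ⟨key w hw hS, hS u2 (by simp)⟩)
      (fun y hy h => ⟨hy, h⟩) (δ := 0) (by rw [b.b8_area_le u2]; linarith) (by norm_num at hC' ⊢; linarith)
  have k3 := b.b8_vol_split2 u1 u2
  have e : ∀ {D : ℝ}, 2.05 ≤ D → (1 + 0 : ℝ) ^ 2 / (3 * (D - 1 - 0)) = 2 * ((1 / 6) / (D - 1)) := by
    intro D hD
    rw [add_zero, sub_zero, one_pow, one_div, mul_inv, div_div, div_eq_mul_inv, mul_inv]; ring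
  rw [e hC] at k1
  rw [e hC'] at k2
  linarith

/-- the test body for the class 2 when class 1 is cut off -/
theorem Body.b8_SE (b : Body F G Gt B) {m1 m2 u1 u2 : P2} (t : TwoC F Gt m1 m2 u1 u2)
    (h1 : OutS F G B u1) (h2 : OutE F G Gt u2) : vol3 (Xs F B) ≤ 1 / 3 := by
  obtain ⟨U, C, hU, hC, hn, hv, hp⟩ := h1
  obtain ⟨ε, C', h0, h8, hn', hC', ha, hp'⟩ := h2
  have h8' : ε ≤ 2 / 25 := by norm_num at h8; exact h8
  have hC2 : 41 / 20 ≤ C := by norm_num at hC; exact hC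
  have hcG1 : 0 ≤ area (G ∩ {y | 1 < dot u1 y}) := ENNReal.toReal_nonneg
  have hcG2 : 0 ≤ area (G ∩ {y | 1 < dot u2 y}) := ENNReal.toReal_nonneg
  have hout := b.b8_area_out u2
  have hfin : ∀ A : Set P2, volume ((Gt \ F) ∩ A) < ⊤ := fun A =>
      (measure_mono (fun y hy => hy.1.1)).trans_lt b.b8_cGt.measure_lt_top
  -- test body 1
  have k1 : vol3 (Xmi F B {u1}) ≤ (1 + ε) ^ 2 / (3 * (C - 1 - ε)) := by
    refine b.b8_vol1 (S := {u1}) hp (Y := Gt ∩ {y | dot u1 y ≤ 1}) (b.b8_vGt.inter (b8_convex_le u1 1))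
      (b.b8_cGt.inter_right (b8_closed_le u1 1)) (fun w hw hS => ⟨hw, hS u1 (mem_singleton u1)⟩)
      (fun y hy h => ⟨by rw [b.hG] at hy; exact hy.2, h⟩) ?_ (by linarith)
    rw [← b.b8_area_le u1]
    have hs := b8_area_split (b.b8_cGt.inter_right (b8_closed_le u1 1)) b.cF.isClosed.measurableSet
    have e1 : Gt ∩ {y | dot u1 y ≤ 1} ∩ F = G ∩ {y | dot u1 y ≤ 1} := by
      rw [b.hG]; ext y; simp only [mem_inter_iff]; tauto
    have e2 : area ((Gt ∩ {y | dot u1 y ≤ 1}) \ F) ≤ area ((Gt \ F) ∩ {y | 1 < dot u2 y}) := by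
      refine b8_area_mono (hfin _).ne ?_
      rintro y ⟨⟨hy1, hy2⟩, hy3⟩
      have hy2' : dot u1 y ≤ 1 := hy2
      refine ⟨⟨hy1, hy3⟩, ?_⟩
      rcases t.cls y hy1 hy3 with h | h
      · exact absurd h.2.2.1 (not_lt.mpr hy2')
      · exact h.2.2.2
    rw [e1] at hs
    linarith
  -- test body 2
  have k2 : vol3 (Xmi F B {u1}) ≤ (1 + ε) ^ 2 / (3 * (C' - 1 - ε)) := by
    have hY : {z | z ∈ Gt ∧ ∀ R k : P2, Contact F Gt R k → 0 < dot m1 R → dot k z ≤ 1}
        = Gt ∩ ⋂ R : P2, ⋂ k : P2, ⋂ _ : Contact F Gt R k, ⋂ _ : 0 < dot m1 R, {z | dot k z ≤ 1} := by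
      ext z; simp only [mem_ofPred_eq, mem_inter_iff, mem_iInter]
    set Y : Set P2 := {z | z ∈ Gt ∧ ∀ R k : P2, Contact F Gt R k → 0 < dot m1 R → dot k z ≤ 1} with hYdef
    have hYv : Convex ℝ Y := by
      rw [hY]
      refine b.b8_vGt.inter ?_
      exact convex_iInter fun R => convex_iInter fun k => convex_iInter fun _ => convex_iInter fun _ =>
        b8_convex_le k 1
    have hYc : IsCompact Y := by
      rw [hY]
      refine b.b8_cGt.inter_right ?_
      exact isClosed_iInter fun R => isClosed_iInter fun k => isClosed_iInter fun _ =>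
        isClosed_iInter fun _ => b8_closed_le k 1
    refine b.b8_vol1 (S := {u1}) hp' (Y := Y) hYv hYc ?_ ?_ ?_ (by linarith)
    · intro w hw hS
      have hu : dot u1 w ≤ 1 := hS u1 (mem_singleton u1)
      refine ⟨hw, ?_⟩
      intro R k hR hm
      by_cases hwF : w ∈ F
      · exact hR.2.2.1 w hwF
      · rcases t.cls w hw hwF with h | h
        · exact absurd h.2.2.1 (not_lt.mpr hu)
        · obtain ⟨R', k', θ, hθ, hwe, hc'⟩ := b.exists_contact hw hwF
          obtain ⟨R1, hR1⟩ := t.c1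
          have s1 := b.sign hR1 hR hc'
          have s2 := b.lemma_D hR1 hc'
          have s3 : dot m1 R' < 0 := by
            have := h.1
            rw [hwe, b8_dot_smul] at this
            by_contra hcc
            push Not at hcc
            have := mul_nonneg (by linarith : (0:ℝ) ≤ θ) hcc
            linarith
          have s4 : dot k' R1 < 0 := by
            by_contra hcc
            push Not at hcc
            have := mul_nonpos_of_nonneg_of_nonpos hcc s3.le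
            linarith
          have s5 : dot k R' < 0 := by
            by_contra hcc
            push Not at hcc
            have := mul_nonpos_of_nonneg_of_nonpos (mul_nonneg hm.le hcc) s4.le
            linarith
          rw [hwe, b8_dot_smul]
          have := mul_neg_of_pos_of_neg (by linarith : (0:ℝ) < θ) s5
          linarith
    · intro y hy _
      rw [b.hG] at hy
      exact ⟨hy.2, fun R k hR _ => hR.2.2.1 y hy.1⟩
    · have hs := b8_area_split hYc b.cF.isClosed.measurableSet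
      have e1 : area (Y ∩ F) ≤ 1 := by
        rw [← b.G1]
        refine b8_area_mono b.b8_cG.measure_lt_top.ne ?_
        rintro y ⟨hy1, hy2⟩
        rw [b.hG]; exact ⟨hy2, hy1.1⟩
      have e2 : area (Y \ F) ≤ area ((Gt \ F) ∩ {y | 1 < dot u2 y}) := by
        refine b8_area_mono (hfin _).ne ?_
        rintro y ⟨⟨hy1, hy2⟩, hy3⟩
        refine ⟨⟨hy1, hy3⟩, ?_⟩
        rcases t.cls y hy1 hy3 with h | h
        · exfalso
          obtain ⟨R', k', θ, hθ, hwe, hc'⟩ := b.exists_contact hy1 hy3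
          have s3 : 0 < dot m1 R' := by
            have := h.1
            rw [hwe, b8_dot_smul] at this
            by_contra hcc
            push Not at hcc
            have := mul_nonpos_of_nonneg_of_nonpos (by linarith : (0:ℝ) ≤ θ) hcc
            linarith
          have s4 := hy2 R' k' hc' s3
          rw [hwe, b8_dot_smul, hc'.2.2.2] at s4
          linarith
        · exact h.2.2.2
      linarith
  have k3 := b.b8_vol_split u1
  have n1 := b8_num_SE h8 h0 hC
  have n2 := b8_num_E hn' hC'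
  have e : (1 / 6 : ℝ) / (C - 1) = (1 / 6) * (1 / (C - 1)) := by ring
  rw [e] at hn
  norm_num at n1 n2 hn ⊢
  linarith

/-- **Planar theorem** -/
theorem Body.planar (b : Body F G Gt B) : vol3 (Xs F B) ≤ 1 / 3 := by
  by_cases h0 : ∀ z ∈ Gt, z ∈ F
  · exact b.b8_case0 h0
  push Not at h0
  obtain ⟨z, hz, hzF⟩ := h0
  obtain ⟨R1, m1, θ, hθ, hze, hc1⟩ := b.exists_contact hz hzF
  have hm1 : 0 < dot m1 z := by
    rw [hze, b8_dot_smul, hc1.2.2.2]; linarith
  obtain ⟨u1, P, Q, mj, mk, α, β, H, ch⟩ := b.exists_chord hc1 hz hzF hm1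
  have ho := b.out_of_chord ch
  by_cases h2 : ∃ z ∈ Gt, z ∉ F ∧ dot m1 z < 0
  · obtain ⟨z', hz', hzF', hneg⟩ := h2
    obtain ⟨R2, m2, θ', hθ', hze', hc2⟩ := b.exists_contact hz' hzF'
    have hm2 : 0 < dot m2 z' := by
      rw [hze', b8_dot_smul, hc2.2.2.2]; linarith
    obtain ⟨u2, P', Q', mj', mk', α', β', H', ch'⟩ := b.exists_chord hc2 hz' hzF' hm2
    have ho' := b.out_of_chord ch'
    have h12 : dot m1 R2 < 0 := by
      rw [hze', b8_dot_smul] at hneg
      by_contra hcc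
      push Not at hcc
      have := mul_nonneg (by linarith : (0:ℝ) ≤ θ') hcc
      linarith
    have t : TwoC F Gt m1 m2 u1 u2 := by
      refine ⟨?_, ⟨R1, hc1⟩, ⟨R2, hc2⟩⟩
      intro w hw hwF
      obtain ⟨R, k, τ, hτ, hwe, hc3⟩ := b.exists_contact hw hwF
      have s := b.sign hc1 hc2 hc3
      have d := b.lemma_D hc1 hc3
      have hne1 := ch.ne w hw hwF
      have hτ0 : (0:ℝ) < τ := by linarith
      have ew1 : dot m1 w = τ * dot m1 R := by rw [hwe, b8_dot_smul]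
      have ew2 : dot m2 w = τ * dot m2 R := by rw [hwe, b8_dot_smul]
      rcases lt_or_gt_of_ne hne1 with hlt | hgt
      · -- class 2
        have r1 : dot m1 R < 0 := by
          by_contra hcc
          push Not at hcc
          have := mul_nonneg hτ0.le hcc
          linarith
        have r2 : dot k R1 < 0 := by
          by_contra hcc
          push Not at hcc
          have := mul_nonpos_of_nonneg_of_nonpos hcc r1.le
          linarith
        have r3 : 0 < dot m2 R := by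
          by_contra hcc
          push Not at hcc
          have h5 : 0 ≤ dot m1 R2 * dot m2 R := mul_nonneg_of_nonpos_of_nonpos h12.le hcc
          have := mul_nonpos_of_nonneg_of_nonpos h5 r2.le
          linarith
        have r4 : 0 < dot m2 w := by rw [ew2]; exact mul_pos hτ0 r3
        exact Or.inr ⟨hlt, r4, ch.other w hw hwF hlt, ch'.side w hw hwF r4⟩
      · have r1 : 0 < dot m1 R := by
          by_contra hcc
          push Not at hcc
          have := mul_nonpos_of_nonneg_of_nonpos hτ0.le hcc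
          linarith
        have r2 : 0 < dot k R1 := by
          by_contra hcc
          push Not at hcc
          have := mul_nonpos_of_nonpos_of_nonneg hcc r1.le
          linarith
        have r3 : dot m2 R < 0 := by
          by_contra hcc
          push Not at hcc
          have h5 : dot m1 R2 * dot m2 R ≤ 0 := mul_nonpos_of_nonpos_of_nonneg h12.le hcc
          have := mul_nonpos_of_nonpos_of_nonneg h5 r2.le
          linarith
        have r4 : dot m2 w < 0 := by rw [ew2]; exact mul_neg_of_pos_of_neg hτ0 r3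
        exact Or.inl ⟨hgt, r4, ch.side w hw hwF hgt, ch'.other w hw hwF r4⟩
    rcases ho with hE | hS
    · rcases ho' with hE' | hS'
      · exact b.b8_EE t hE hE'
      · exact b.b8_SE t.symm hS' hE
    · rcases ho' with hE' | hS'
      · exact b.b8_SE t hS hE'
      · exact b.b8_SS t hS hS'
  · push Not at h2
    refine b.b8_single (m := u1) ?_ ho
    intro w hw hwF
    have h3 := h2 w hw hwF
    exact ch.side w hw hwF (lt_of_le_of_ne h3 (ch.ne w hw hwF).symm)

end Pool.Agent.helper15.PB
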