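import Mathlib

/-!
# Planar theorem behind MP_0069fb_gt: definitions (helper15)

Everything here is plain planar convex geometry in `ℝ × ℝ` (Lebesgue measure = product measure).
-/

set_option autoImplicit false

open MeasureTheory Set
open scoped Pointwise

namespace Pool.Agent.helper15.PB

/-- the plane -/
abbrev P2 := ℝ × ℝ

/-- dot product of a functional `m` and a point `p` -/
def dot (m p : P2) : ℝ := m.1 * p.1 + m.2 * p.2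

/-- determinant -/
def det (p q : P2) : ℝ := p.1 * q.2 - p.2 * q.1

/-- area of a planar set, as a real number -/
noncomputable def area (K : Set P2) : ℝ := (volume K).toReal

/-- length of the horizontal section of `K` at level `u` -/
noncomputable def sec (K : Set P2) (u : ℝ) : ℝ := (volume {x : ℝ | (x, u) ∈ K}).toReal

/-- volume of a set in `ℝ² × ℝ`, as a real number -/
noncomputable def vol3 (X : Set (P2 × ℝ)) : ℝ := (volume X).toReal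

/-- `X = {(x,h) ∈ B : h ≥ 0, x ∈ (1+2h) F}` -/
def Xs (F : Set P2) (B : Set (P2 × ℝ)) : Set (P2 × ℝ) :=
  {p | p ∈ B ∧ 0 ≤ p.2 ∧ ∃ y ∈ F, p.1 = (1 + 2 * p.2) • y}

/-- `X⁺`: the part of `X` for which `(x - h y)/(1+h)` lies beyond the line `m = 1` for some `y ∈ F` -/
def Xp (F : Set P2) (B : Set (P2 × ℝ)) (m : P2) : Set (P2 × ℝ) :=
  {p | p ∈ Xs F B ∧ ∃ y ∈ F, 1 + p.2 < dot m (p.1 - p.2 • y)}

/-- The mixed-area inequality with constant `C` (for test bodies `Y ⊇ G ∩ {m ≤ 1}`). -/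
def PathIneq (F G : Set P2) (m : P2) (C : ℝ) : Prop :=
  ∀ (Y Z : Set P2) (h : ℝ), 0 ≤ h → Convex ℝ Y → IsCompact Y → Convex ℝ Z → IsCompact Z →
    Z.Nonempty → (∀ z ∈ Z, ∀ y ∈ F, ∃ w ∈ Y, z - h • y = (1 + h) • w) →
    (∀ y ∈ G, dot m y ≤ 1 → y ∈ Y) →
    Real.sqrt (area Y * area Z) + h * (C - area (G ∩ {y | 1 < dot m y})) ≤ (1 + h) * area Y

/-- output of the one-class analysis, small window -/
def OutE (F G Gt : Set P2) (m : P2) : Prop :=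
  ∃ ε C : ℝ, 0 ≤ ε ∧ ε ≤ 0.08 ∧ (1 + ε) ^ 2 ≤ (1 - 3.3 * ε) * (C - 1 - ε) ∧ 1 + ε < C ∧
    area (Gt ∩ {y | 1 < dot m y}) ≤ ε ∧ PathIneq F G m C

/-- output of the one-class analysis, larger window -/
def OutS (F G : Set P2) (B : Set (P2 × ℝ)) (m : P2) : Prop :=
  ∃ U C : ℝ, 0 ≤ U ∧ 2.05 ≤ C ∧ (1 / 6) / (C - 1) + U ≤ 1 / 6 ∧
    vol3 (Xp F B m) ≤ U ∧ PathIneq F G m C

/-- the common hypotheses of the planar theorem, normalised to `|G| = 1` -/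
structure Body (F G Gt : Set P2) (B : Set (P2 × ℝ)) : Prop where
  cF : IsCompact F
  vF : Convex ℝ F
  cB : IsCompact B
  vB : Convex ℝ B
  neg : ∀ y ∈ F, ((-y, -1) : P2 × ℝ) ∈ B
  hGt : Gt = {y | ((y, 0) : P2 × ℝ) ∈ B}
  hG : G = F ∩ Gt
  F01 : ∫ y in F, y.1 = 0
  F02 : ∫ y in F, y.2 = 0
  G01 : ∫ y in G, y.1 = 0
  G02 : ∫ y in G, y.2 = 0
  G1 : area G = 1
  F4 : 4 < area F

/-- normalised data of one active class: the chord of the class is `[0,ω] × {1}`, `u = y.2`. -/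
structure Win (F G Gt : Set P2) (B : Set (P2 × ℝ)) (ω H e T c : ℝ) : Prop where
  cF : IsCompact F
  vF : Convex ℝ F
  cB : IsCompact B
  vB : Convex ℝ B
  neg : ∀ y ∈ F, ((-y, -1) : P2 × ℝ) ∈ B
  hGt : Gt = {y | ((y, 0) : P2 × ℝ) ∈ B}
  hG : G = F ∩ Gt
  F02 : ∫ y in F, y.2 = 0
  G02 : ∫ y in G, y.2 = 0
  G1 : area G = 1
  F4 : 4 < area F
  ω0 : 0 < ω
  H0 : 0 ≤ H
  H1 : H ≤ 1 / 3
  /-- the chord -/
  win : ∀ x : ℝ, ((x, 1) : P2) ∈ Gt ↔ 0 ≤ x ∧ x ≤ ω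
  winF : ∀ x : ℝ, 0 ≤ x → x ≤ ω → ((x, 1) : P2) ∈ F
  top : ∀ y ∈ F, y.2 ≤ 1 + H
  wedge : ∀ u : ℝ, u ≤ 1 + H → H * sec F u ≤ ω * (1 + H - u)
  gap : ∀ y ∈ Gt, -(1 / 8) ≤ y.2 → y.2 ≤ 1 → y ∈ F
  /-- `e = 1 - min_G u` -/
  e1 : ∃ y ∈ G, y.2 = 1 - e
  e2 : ∀ y ∈ G, 1 - e ≤ y.2
  /-- `T = 1 - min_F u` -/
  T1 : ∃ y ∈ F, y.2 = 1 - T
  T2 : ∀ y ∈ F, 1 - T ≤ y.2
  /-- the part of `G` above the chord -/
  hc : c = area (G ∩ {y | 1 < y.2})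

end Pool.Agent.helper15.PB
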