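import Pool.Agent.helper15.PB.Defs
import Pool.Agent.helper15.PB.NumDefs

/-! # Planar theorem behind MP_0069fb_gt: more definitions (helper15) -/

set_option autoImplicit false

open MeasureTheory Set

namespace Pool.Agent.helper15.PB

/-- slice of `X` at height `h` -/
def slice (F : Set P2) (B : Set (P2 × ℝ)) (h : ℝ) : Set P2 := {y | ((y, h) : P2 × ℝ) ∈ Xs F B}

/-- the part of `X⁺` below the cap -/
def Xp1 (F : Set P2) (B : Set (P2 × ℝ)) (T : ℝ) : Set (P2 × ℝ) :=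
  {p | p ∈ Xs F B ∧ 1 + 2 * p.2 - p.2 * T < p.1.2 ∧ p.1.2 ≤ 1 + 2 * p.2}

/-- the cap part -/
def Xcap (F : Set P2) (B : Set (P2 × ℝ)) : Set (P2 × ℝ) :=
  {p | p ∈ Xs F B ∧ 1 + 2 * p.2 < p.1.2}

/-- `m ≤ 1` on `F` -/
def Sup (F : Set P2) (m : P2) : Prop := ∀ y ∈ F, dot m y ≤ 1

/-- `P` is a contact of `Gt` with the boundary of `F`, with supporting functional `m` -/
def Contact (F Gt : Set P2) (P m : P2) : Prop := P ∈ F ∧ P ∈ Gt ∧ Sup F m ∧ dot m P = 1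

/-- the chord of the class of `(R1,m1)` -/
structure Chord (F Gt : Set P2) (R1 m1 m P Q mj mk : P2) (α β H : ℝ) : Prop where
  PF : P ∈ F
  PG : P ∈ Gt
  QF : Q ∈ F
  QG : Q ∈ Gt
  mP : dot m P = 1
  mQ : dot m Q = 1
  dPQ : 0 < det P Q
  win : ∀ z ∈ Gt, dot m z = 1 → ∃ t : ℝ, 0 ≤ t ∧ t ≤ 1 ∧ z = (1 - t) • P + t • Q
  H0 : 0 ≤ H
  H1 : H ≤ 1 / 3
  sj : Sup F mj
  sk : Sup F mk
  α0 : 0 ≤ α
  β0 : 0 ≤ β
  αβ : α + β = 1 + H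
  hm : m = α • mj + β • mk
  jP : 0 < H → dot mj P = 1
  kQ : 0 < H → dot mk Q = 1
  side : ∀ z ∈ Gt, z ∉ F → 0 < dot m1 z → 1 < dot m z
  other : ∀ z ∈ Gt, z ∉ F → dot m1 z < 0 → dot m z < -(1 / 8)
  ne : ∀ z ∈ Gt, z ∉ F → dot m1 z ≠ 0

end Pool.Agent.helper15.PB
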