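import Pool.Agent.helper15.PB.E1Core
import Pool.Agent.helper15.PB.B8b

/-!
# Planar theorem behind MP_0069fb_gt: general scale
-/

set_option autoImplicit false
open MeasureTheory Set
open scoped Pointwise

namespace Pool.Agent.helper15.PB

/-- B8 bridge: general scale -/
theorem planar_general {F G Gt : Set P2} {B : Set (P2 × ℝ)} (cF : IsCompact F) (vF : Convex ℝ F)
    (cB : IsCompact B) (vB : Convex ℝ B) (neg : ∀ y ∈ F, ((-y, -1) : P2 × ℝ) ∈ B)
    (hGt : Gt = {y | ((y, 0) : P2 × ℝ) ∈ B}) (hG : G = F ∩ Gt)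
    (F01 : ∫ y in F, y.1 = 0) (F02 : ∫ y in F, y.2 = 0)
    (G01 : ∫ y in G, y.1 = 0) (G02 : ∫ y in G, y.2 = 0)
    (hpos : 0 < area G) (F4 : 4 * area G < area F) : vol3 (Xs F B) ≤ area G / 3 :=
  planar_general_core (fun _ _ _ _ b => b.planar) cF vF cB vB neg hGt hG F01 F02 G01 G02 hpos F4

end Pool.Agent.helper15.PB
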