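import Pool.Agent.helper15.PB.Defs2

/-!
# Planar theorem behind MP_0069fb_gt: general scale (core: `Body.planar` as a hypothesis)
-/

set_option autoImplicit false
open MeasureTheory Set
open scoped Pointwise

namespace Pool.Agent.helper15.PB

/-- the scaling map on `ℝ² × ℝ` -/
noncomputable def E1_S (s : ℝ) : (P2 × ℝ) →ₗ[ℝ] (P2 × ℝ) :=
  (s • (LinearMap.id : P2 →ₗ[ℝ] P2)).prodMap (LinearMap.id : ℝ →ₗ[ℝ] ℝ)

theorem E1_S_apply (s : ℝ) (p : P2 × ℝ) : E1_S s p = (s • p.1, p.2) := rfl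

theorem E1_S_det (s : ℝ) : LinearMap.det (E1_S s) = s ^ 2 := by
  unfold E1_S
  rw [LinearMap.det_prodMap, LinearMap.det_smul, LinearMap.det_id, LinearMap.det_id, mul_one,
    mul_one]
  simp

theorem E1_vol (s : ℝ) (X : Set (P2 × ℝ)) : vol3 (E1_S s '' X) = s ^ 2 * vol3 X := by
  have : (volume : Measure (P2 × ℝ)).IsAddHaarMeasure := by
    rw [Measure.volume_eq_prod]
    infer_instance
  unfold vol3
  rw [Measure.addHaar_image_linearMap, E1_S_det, ENNReal.toReal_mul,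
    ENNReal.toReal_ofReal (abs_nonneg _), abs_of_nonneg (sq_nonneg s)]

theorem E1_area (s : ℝ) (K : Set P2) : area (s • K) = s ^ 2 * area K := by
  unfold area
  rw [Measure.addHaar_smul, ENNReal.toReal_mul, ENNReal.toReal_ofReal (abs_nonneg _)]
  simp [Module.finrank_prod]

theorem E1_int {s : ℝ} (hs : 0 < s) (K : Set P2) (f : P2 → ℝ) (hf : ∀ y, f (s • y) = s * f y)
    (h : ∫ y in K, f y = 0) : ∫ y in s • K, f y = 0 := by
  have h1 := Measure.setIntegral_comp_smul (volume : Measure P2) f (R := s) (s := K) hs.ne'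
  have h2 : ∫ y in K, f (s • y) = 0 := by
    simp only [hf]
    rw [integral_const_mul, h, mul_zero]
  rw [h2] at h1
  have h3 : |(s ^ Module.finrank ℝ P2)⁻¹| ≠ 0 := by positivity
  have := h1.symm
  rw [smul_eq_mul, mul_eq_zero] at this
  exact this.resolve_left h3

/-- B8 bridge: general scale -/
theorem planar_general_core
    (hpl : ∀ (F G Gt : Set P2) (B : Set (P2 × ℝ)), Body F G Gt B → vol3 (Xs F B) ≤ 1 / 3)
    {F G Gt : Set P2} {B : Set (P2 × ℝ)} (cF : IsCompact F) (vF : Convex ℝ F)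
    (cB : IsCompact B) (vB : Convex ℝ B) (neg : ∀ y ∈ F, ((-y, -1) : P2 × ℝ) ∈ B)
    (hGt : Gt = {y | ((y, 0) : P2 × ℝ) ∈ B}) (hG : G = F ∩ Gt)
    (F01 : ∫ y in F, y.1 = 0) (F02 : ∫ y in F, y.2 = 0)
    (G01 : ∫ y in G, y.1 = 0) (G02 : ∫ y in G, y.2 = 0)
    (hpos : 0 < area G) (F4 : 4 * area G < area F) : vol3 (Xs F B) ≤ area G / 3 := by
  set a := area G with ha
  set s := (Real.sqrt a)⁻¹ with hs
  have hsq : 0 < Real.sqrt a := Real.sqrt_pos.2 hpos
  have hs0 : 0 < s := inv_pos.2 hsq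
  have hs2 : s ^ 2 * a = 1 := by
    rw [hs, inv_pow, Real.sq_sqrt hpos.le, inv_mul_cancel₀ hpos.ne']
  have hcont : Continuous (E1_S s) := by
    have : (E1_S s : P2 × ℝ → P2 × ℝ) = fun p => (s • p.1, p.2) := by
      funext p
      rfl
    rw [this]
    fun_prop
  have hinj : Function.Injective (E1_S s) := by
    rintro ⟨x, t⟩ ⟨y, r⟩ hxy
    simp only [E1_S_apply, Prod.mk.injEq] at hxy
    rw [smul_right_injective P2 hs0.ne' hxy.1, hxy.2]
  have hmem : ∀ (K : Set P2) (y : P2), s • y ∈ s • K ↔ y ∈ K := fun K y =>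
    smul_mem_smul_set_iff₀ hs0.ne' K y
  have hmem3 : ∀ (X : Set (P2 × ℝ)) (y : P2) (t : ℝ), ((s • y, t) : P2 × ℝ) ∈ E1_S s '' X ↔
      ((y, t) : P2 × ℝ) ∈ X := fun X y t =>
    hinj.mem_set_image (a := ((y, t) : P2 × ℝ))
  have hsurj : ∀ z : P2, ∃ y : P2, s • y = z := fun z => ⟨s⁻¹ • z, smul_inv_smul₀ hs0.ne' z⟩
  have b : Body (s • F) (s • G) (s • Gt) (E1_S s '' B) := by
    refine ⟨cF.smul s, vF.smul s, cB.image hcont, vB.linear_image _, ?_, ?_, ?_,
      E1_int hs0 F _ (fun y => rfl) F01, E1_int hs0 F _ (fun y => rfl) F02,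
      E1_int hs0 G _ (fun y => rfl) G01, E1_int hs0 G _ (fun y => rfl) G02, ?_, ?_⟩
    · rintro _ ⟨y, hy, rfl⟩
      have : -(s • y) = s • (-y) := (smul_neg s y).symm
      change ((-(s • y), -1) : P2 × ℝ) ∈ _
      rw [this, hmem3]
      exact neg y hy
    · ext z
      obtain ⟨y, rfl⟩ := hsurj z
      rw [hmem, mem_ofPred_eq, hmem3]
      conv_lhs => rw [hGt]
      rfl
    · rw [hG, smul_set_inter₀ hs0.ne']
    · rw [E1_area, ← ha]
      exact hs2
    · rw [E1_area]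
      nlinarith [pow_pos hs0 2]
  have hX : Xs (s • F) (E1_S s '' B) = E1_S s '' Xs F B := by
    ext p
    obtain ⟨z, t⟩ := p
    obtain ⟨y, rfl⟩ := hsurj z
    rw [hmem3]
    simp only [Xs, mem_ofPred_eq, hmem3]
    constructor
    · rintro ⟨h1, h2, _, ⟨w, hw, rfl⟩, hz⟩
      refine ⟨h1, h2, w, hw, ?_⟩
      apply smul_right_injective P2 hs0.ne'
      change s • y = s • (1 + 2 * t) • w
      rw [smul_comm]
      exact hz
    · rintro ⟨h1, h2, w, hw, hz⟩
      refine ⟨h1, h2, s • w, (hmem F w).2 hw, ?_⟩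
      rw [smul_comm, ← hz]
  have key := hpl _ _ _ _ b
  rw [hX, E1_vol] at key
  have hv : 0 ≤ vol3 (Xs F B) := ENNReal.toReal_nonneg
  have : a * (s ^ 2 * vol3 (Xs F B)) ≤ a * (1 / 3) := mul_le_mul_of_nonneg_left key hpos.le
  calc vol3 (Xs F B) = (s ^ 2 * a) * vol3 (Xs F B) := by rw [hs2, one_mul]
    _ = a * (s ^ 2 * vol3 (Xs F B)) := by ring
    _ ≤ a * (1 / 3) := this
    _ = a / 3 := by ring

end Pool.Agent.helper15.PB
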