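import Pool.Agent.helper15.PB.Defs2

/-! # PB-E2a: the bridge to the 3D reduction, from the statement of `planar_general` -/

set_option autoImplicit false
open MeasureTheory Set
open scoped Pointwise

namespace Pool.Agent.helper15.PB

/-- the statement of `planar_general` -/
def PlanarGeneral : Prop :=
  ∀ (F G Gt : Set P2) (B : Set (P2 × ℝ)), IsCompact F → Convex ℝ F →
    IsCompact B → Convex ℝ B → (∀ y ∈ F, ((-y, -1) : P2 × ℝ) ∈ B) →
    Gt = {y | ((y, 0) : P2 × ℝ) ∈ B} → G = F ∩ Gt →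
    ∫ y in F, y.1 = 0 → ∫ y in F, y.2 = 0 → ∫ y in G, y.1 = 0 → ∫ y in G, y.2 = 0 →
    0 < area G → 4 * area G < area F → vol3 (Xs F B) ≤ area G / 3

theorem E2_inner {ρ : ℝ} (hρ : 0 ≤ ρ) :
    ∫⁻ h in Icc 0 ρ, ENNReal.ofReal ((1 + 2 * h) ^ 2) =
      ENNReal.ofReal (((1 + 2 * ρ) ^ 3 - 1) / 6) := by
  have hc : Continuous fun h : ℝ => (1 + 2 * h) ^ 2 := by fun_prop
  rw [← ofReal_integral_eq_lintegral_ofReal]
  · congr 1
    rw [integral_Icc_eq_integral_Ioc, ← intervalIntegral.integral_of_le hρ]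
    have hd : ∀ x ∈ uIcc 0 ρ, HasDerivAt (fun h : ℝ => (1 + 2 * h) ^ 3 / 6) ((1 + 2 * x) ^ 2) x := by
      intro x _
      have h1 : HasDerivAt (fun h : ℝ => 1 + 2 * h) 2 x := by
        simpa using ((hasDerivAt_id x).const_mul 2).const_add 1
      have h2 := (h1.pow 3).div_const 6
      refine h2.congr_deriv ?_
      push_cast
      ring
    rw [intervalIntegral.integral_eq_sub_of_hasDerivAt hd (hc.intervalIntegrable _ _)]
    ring
  · exact (hc.continuousOn.integrableOn_compact isCompact_Icc)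
  · exact Filter.Eventually.of_forall fun h => sq_nonneg _

theorem E2_vol {G : Set P2} (hG : MeasurableSet G) {r : P2 → ℝ} (hr : Measurable r)
    (hr0 : ∀ y ∈ G, 0 ≤ r y) {X : Set (P2 × ℝ)}
    (hX : ∀ q : P2 × ℝ, q ∈ X ↔ 0 ≤ q.2 ∧ ∃ y ∈ G, q.2 ≤ r y ∧ q.1 = (1 + 2 * q.2) • y) :
    volume X = ∫⁻ y in G, ENNReal.ofReal (((1 + 2 * r y) ^ 3 - 1) / 6) := by
  set W : Set (P2 × ℝ) := {q | q.1 ∈ G ∧ 0 ≤ q.2 ∧ q.2 ≤ r q.1} with hW
  have hWm : MeasurableSet W := by
    refine (measurable_fst hG).inter ((measurableSet_le measurable_const measurable_snd).inter ?_)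
    exact measurableSet_le measurable_snd (hr.comp measurable_fst)
  have hXW : X = (fun q : P2 × ℝ => (((1 + 2 * q.2)⁻¹ • q.1, q.2) : P2 × ℝ)) ⁻¹' W := by
    ext q
    rw [hX]
    constructor
    · rintro ⟨h0, y, hy, hyr, hq⟩
      have hpos : (1 + 2 * q.2) ≠ 0 := by positivity
      have e : (1 + 2 * q.2)⁻¹ • q.1 = y := by rw [hq, smul_smul, inv_mul_cancel₀ hpos, one_smul]
      refine ⟨?_, h0, ?_⟩
      · show (1 + 2 * q.2)⁻¹ • q.1 ∈ G
        rw [e]; exact hy
      · show q.2 ≤ r ((1 + 2 * q.2)⁻¹ • q.1)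
        rw [e]; exact hyr
    · rintro ⟨h1, h0, h2⟩
      have h0' : 0 ≤ q.2 := h0
      have hpos : (1 + 2 * q.2) ≠ 0 := by positivity
      refine ⟨h0', _, h1, h2, ?_⟩
      rw [smul_smul, mul_inv_cancel₀ hpos, one_smul]
  have hmap : Measurable (fun q : P2 × ℝ => (((1 + 2 * q.2)⁻¹ • q.1, q.2) : P2 × ℝ)) := by
    fun_prop
  have hXm : MeasurableSet X := by rw [hXW]; exact hmap hWm
  have hslice : ∀ h : ℝ, volume ((fun x : P2 => (x, h)) ⁻¹' X) =
      ∫⁻ y : P2, W.indicator (fun q => ENNReal.ofReal ((1 + 2 * q.2) ^ 2)) (y, h) := by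
    intro h
    have hWh : MeasurableSet ((fun y : P2 => (y, h)) ⁻¹' W) := by
      have : Measurable (fun y : P2 => ((y, h) : P2 × ℝ)) := by fun_prop
      exact this hWm
    have e1 : (fun y : P2 => W.indicator (fun q : P2 × ℝ => ENNReal.ofReal ((1 + 2 * q.2) ^ 2))
        (y, h)) = ((fun y : P2 => (y, h)) ⁻¹' W).indicator
          (fun _ => ENNReal.ofReal ((1 + 2 * h) ^ 2)) := by
      funext y
      by_cases hy : (y, h) ∈ W
      · rw [indicator_of_mem hy, indicator_of_mem (show y ∈ (fun y : P2 => (y, h)) ⁻¹' W from hy)]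
      · rw [indicator_of_notMem hy,
          indicator_of_notMem (show y ∉ (fun y : P2 => (y, h)) ⁻¹' W from hy)]
    rw [e1, lintegral_indicator hWh, setLIntegral_const]
    by_cases h0 : 0 ≤ h
    · have hpos : (1 + 2 * h)⁻¹ ≠ 0 := by positivity
      have e2 : (fun x : P2 => (x, h)) ⁻¹' X =
          (fun x : P2 => (1 + 2 * h)⁻¹ • x) ⁻¹' ((fun y : P2 => (y, h)) ⁻¹' W) := by
        rw [hXW]; rfl
      rw [e2, Measure.addHaar_preimage_smul volume hpos]
      congr 2
      have : Module.finrank ℝ P2 = 2 := by simp [P2]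
      rw [this, inv_pow, inv_inv, abs_of_nonneg (by positivity)]
    · have e2 : (fun x : P2 => (x, h)) ⁻¹' X = ∅ := by
        ext x
        simp only [mem_preimage, mem_empty_iff_false, iff_false]
        intro hx
        exact h0 ((hX _).1 hx).1
      have e3 : (fun y : P2 => (y, h)) ⁻¹' W = ∅ := by
        ext x
        simp only [mem_preimage, mem_empty_iff_false, iff_false]
        intro hx
        exact h0 hx.2.1
      rw [e2, e3, measure_empty, mul_zero]
  have hmeas : Measurable (W.indicator (fun q : P2 × ℝ => ENNReal.ofReal ((1 + 2 * q.2) ^ 2))) :=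
    Measurable.indicator (by fun_prop) hWm
  have e0 : volume X = ∫⁻ h : ℝ, volume ((fun x : P2 => (x, h)) ⁻¹' X) := by
    rw [Measure.volume_eq_prod, Measure.prod_apply_symm hXm]
  rw [e0, lintegral_congr hslice]
  rw [lintegral_lintegral_swap (f := fun (h : ℝ) (y : P2) =>
    W.indicator (fun q => ENNReal.ofReal ((1 + 2 * q.2) ^ 2)) (y, h))]
  · rw [← lintegral_indicator hG]
    refine lintegral_congr fun y => ?_
    by_cases hy : y ∈ G
    · rw [indicator_of_mem hy, ← E2_inner (hr0 y hy), ← lintegral_indicator measurableSet_Icc]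
      refine lintegral_congr fun h => ?_
      by_cases hh : h ∈ Icc 0 (r y)
      · rw [indicator_of_mem hh, indicator_of_mem (show (y, h) ∈ W from ⟨hy, hh.1, hh.2⟩)]
      · rw [indicator_of_notMem hh,
          indicator_of_notMem (show (y, h) ∉ W from fun hw => hh ⟨hw.2.1, hw.2.2⟩)]
    · rw [indicator_of_notMem hy]
      have : ∀ h : ℝ, W.indicator (fun q : P2 × ℝ => ENNReal.ofReal ((1 + 2 * q.2) ^ 2)) (y, h) = 0 :=
        fun h => indicator_of_notMem (fun hw => hy hw.1) _
      rw [lintegral_congr this, lintegral_zero]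
  · refine Measurable.aemeasurable ?_
    have : (Function.uncurry fun (h : ℝ) (y : P2) =>
        W.indicator (fun q : P2 × ℝ => ENNReal.ofReal ((1 + 2 * q.2) ^ 2)) (y, h)) =
        (W.indicator (fun q : P2 × ℝ => ENNReal.ofReal ((1 + 2 * q.2) ^ 2))) ∘ Prod.swap := by
      funext q
      rfl
    rw [this]
    exact hmeas.comp measurable_swap

theorem E2_cont {ι : Type} [Fintype ι] [Nonempty ι] (p : ι → P2) (β : ι → ℝ)
    {Bf : P2 → ℝ} (hB : ∀ y, IsGreatest (Set.range fun k => β k + dot (p k) y) (Bf y)) :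
    Continuous Bf := by
  have : Bf = fun y => Finset.univ.sup' Finset.univ_nonempty (fun k => β k + dot (p k) y) := by
    funext y
    obtain ⟨⟨k, hk⟩, h2⟩ := hB y
    refine le_antisymm ?_ ?_
    · rw [← hk]
      exact Finset.le_sup' (fun k => β k + dot (p k) y) (Finset.mem_univ k)
    · refine Finset.sup'_le _ _ fun k _ => h2 ⟨k, rfl⟩
  rw [this]
  refine Continuous.finset_sup'_apply _ fun k _ => ?_
  unfold dot
  fun_prop

theorem E2_centered (HG : PlanarGeneral) {ι : Type} [Fintype ι] [Nonempty ι] {F G : Set P2}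
    (cF : IsCompact F) (vF : Convex ℝ F) (p : ι → P2) (β : ι → ℝ)
    (hb : ∀ y ∈ F, ∀ k, 0 ≤ β k + dot (p k) y)
    (Bf : P2 → ℝ) (hB : ∀ y, IsGreatest (Set.range fun k => β k + dot (p k) y) (Bf y))
    (hB2 : ∀ y ∈ F, 1 / 2 < Bf y)
    (hG : G = {y | y ∈ F ∧ Bf y ≤ 1})
    (F01 : ∫ y in F, y.1 = 0) (F02 : ∫ y in F, y.2 = 0)
    (G01 : ∫ y in G, y.1 = 0) (G02 : ∫ y in G, y.2 = 0)
    (hpos : 0 < area G) (h4 : 4 * area G < area F) :
    ∫ y in G, (1 / (2 * Bf y - 1) ^ 3) ≤ 3 * area G := by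
  have hcont := E2_cont p β hB
  have hFne : F.Nonempty := by
    by_contra hne
    rw [Set.not_nonempty_iff_eq_empty] at hne
    have : area F = 0 := by rw [hne]; simp [area]
    linarith
  -- bounds
  obtain ⟨R0, hR0⟩ := cF.isBounded.exists_norm_le
  have hR0' : 0 ≤ R0 := by
    obtain ⟨y, hy⟩ := hFne
    exact (norm_nonneg y).trans (hR0 y hy)
  obtain ⟨y0, hy0, hmin⟩ := cF.exists_isMinOn hFne hcont.continuousOn
  set δ : ℝ := 2 * Bf y0 - 1 with hδ
  have hδ0 : 0 < δ := by have := hB2 y0 hy0; rw [hδ]; linarith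
  have hδ1 : ∀ y ∈ F, δ ≤ 2 * Bf y - 1 := fun y hy => by
    have : Bf y0 ≤ Bf y := hmin hy
    rw [hδ]; linarith
  set M : ℝ := 1 / δ with hM
  have hM0 : 0 < M := by positivity
  set R : ℝ := (1 + 2 * M) * R0 with hR
  have hR0R : R0 ≤ R := by rw [hR]; nlinarith
  have hRpos : 0 ≤ R := hR0'.trans hR0R
  set B : Set (P2 × ℝ) := {q | -1 ≤ q.2 ∧ q.2 ≤ M ∧ (-R ≤ q.1.1 ∧ q.1.1 ≤ R) ∧
    (-R ≤ q.1.2 ∧ q.1.2 ≤ R) ∧ ∀ k, dot (p k) q.1 + β k * (1 + 2 * q.2) ≤ 1 + q.2} with hBd
  have hcomp : ∀ y ∈ F, (|y.1| ≤ R0 ∧ |y.2| ≤ R0) := fun y hy => by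
    have := hR0 y hy
    rw [Prod.norm_def, max_le_iff] at this
    exact this
  have hBle : ∀ y k, β k + dot (p k) y ≤ Bf y := fun y k => (hB y).2 ⟨k, rfl⟩
  have hBleM : ∀ y c, (∀ k, β k + dot (p k) y ≤ c) → Bf y ≤ c := fun y c h => by
    obtain ⟨k, hk⟩ := (hB y).1
    rw [← hk]; exact h k
  have cB : IsCompact B := by
    refine IsCompact.of_isClosed_subset
      ((isCompact_Icc (a := -R) (b := R)).prod (isCompact_Icc (a := -R) (b := R)) |>.prod
        (isCompact_Icc (a := -1) (b := M))) ?_ ?_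
    · have e : B = {q | -1 ≤ q.2} ∩ ({q | q.2 ≤ M} ∩ (({q | -R ≤ q.1.1} ∩ {q | q.1.1 ≤ R}) ∩
          (({q | -R ≤ q.1.2} ∩ {q | q.1.2 ≤ R}) ∩
            ⋂ k, {q : P2 × ℝ | dot (p k) q.1 + β k * (1 + 2 * q.2) ≤ 1 + q.2}))) := by
        ext q
        simp only [hBd, mem_inter_iff, mem_ofPred_eq, mem_iInter]
      rw [e]
      refine (isClosed_le (by fun_prop) (by fun_prop)).inter
        ((isClosed_le (by fun_prop) (by fun_prop)).inter
        (((isClosed_le (by fun_prop) (by fun_prop)).inter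
          (isClosed_le (by fun_prop) (by fun_prop))).inter
        (((isClosed_le (by fun_prop) (by fun_prop)).inter
          (isClosed_le (by fun_prop) (by fun_prop))).inter
          (isClosed_iInter fun k => isClosed_le ?_ (by fun_prop)))))
      unfold dot
      fun_prop
    · rintro ⟨⟨a, b⟩, c⟩ ⟨h1, h2, h3, h5, -⟩
      exact ⟨⟨⟨h3.1, h3.2⟩, ⟨h5.1, h5.2⟩⟩, ⟨h1, h2⟩⟩
  have vB : Convex ℝ B := by
    rintro ⟨⟨x1, x2⟩, x3⟩ ⟨a1, a2, ⟨a3, a4⟩, ⟨a5, a6⟩, a7⟩ ⟨⟨y1, y2⟩, y3⟩
      ⟨b1, b2, ⟨b3, b4⟩, ⟨b5, b6⟩, b7⟩ s t hs ht hst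
    simp only at a1 a2 a3 a4 a5 a6 a7 b1 b2 b3 b4 b5 b6 b7
    have ht' : t = 1 - s := by linarith
    refine ⟨?_, ?_, ⟨?_, ?_⟩, ⟨?_, ?_⟩, fun k => ?_⟩ <;>
      simp only [Prod.smul_mk, Prod.mk_add_mk, smul_eq_mul, dot] at *
    · nlinarith [mul_le_mul_of_nonneg_left a1 hs, mul_le_mul_of_nonneg_left b1 ht]
    · nlinarith [mul_le_mul_of_nonneg_left a2 hs, mul_le_mul_of_nonneg_left b2 ht]
    · nlinarith [mul_le_mul_of_nonneg_left a3 hs, mul_le_mul_of_nonneg_left b3 ht]
    · nlinarith [mul_le_mul_of_nonneg_left a4 hs, mul_le_mul_of_nonneg_left b4 ht]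
    · nlinarith [mul_le_mul_of_nonneg_left a5 hs, mul_le_mul_of_nonneg_left b5 ht]
    · nlinarith [mul_le_mul_of_nonneg_left a6 hs, mul_le_mul_of_nonneg_left b6 ht]
    · have e1 := mul_le_mul_of_nonneg_left (a7 k) hs
      have e2 := mul_le_mul_of_nonneg_left (b7 k) ht
      subst ht'
      linarith
  have neg : ∀ y ∈ F, ((-y, -1) : P2 × ℝ) ∈ B := by
    intro y hy
    obtain ⟨h1, h2⟩ := hcomp y hy
    rw [abs_le] at h1 h2
    refine ⟨le_rfl, by show (-1 : ℝ) ≤ M; linarith, ⟨?_, ?_⟩, ⟨?_, ?_⟩, fun k => ?_⟩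
    · show -R ≤ -y.1; linarith
    · show -y.1 ≤ R; linarith
    · show -R ≤ -y.2; linarith
    · show -y.2 ≤ R; linarith
    · have := hb y hy k
      simp only [dot, Prod.fst_neg, Prod.snd_neg] at this ⊢
      linarith
  have hGt : G = F ∩ {y | ((y, 0) : P2 × ℝ) ∈ B} := by
    ext y
    rw [hG]
    constructor
    · rintro ⟨hy, hle⟩
      obtain ⟨h1, h2⟩ := hcomp y hy
      rw [abs_le] at h1 h2
      refine ⟨hy, by show (-1 : ℝ) ≤ 0; linarith, hM0.le, ⟨?_, ?_⟩, ⟨?_, ?_⟩, fun k => ?_⟩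
      · show -R ≤ y.1; linarith
      · show y.1 ≤ R; linarith
      · show -R ≤ y.2; linarith
      · show y.2 ≤ R; linarith
      · have := hBle y k
        show dot (p k) y + β k * (1 + 2 * 0) ≤ 1 + 0
        linarith
    · rintro ⟨hy, -, -, -, -, hk⟩
      refine ⟨hy, hBleM y 1 fun k => ?_⟩
      have : dot (p k) y + β k * (1 + 2 * 0) ≤ 1 + 0 := hk k
      linarith
  have hGm : MeasurableSet G := by
    rw [hG]
    exact cF.measurableSet.inter (measurableSet_le hcont.measurable measurable_const)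
  have cG : IsCompact G := by
    rw [hG]
    exact cF.inter_right (isClosed_le hcont continuous_const)
  set r : P2 → ℝ := fun y => (1 - Bf y) / (2 * Bf y - 1) with hr
  have hrm : Measurable r := by
    have := hcont.measurable
    exact (measurable_const.sub this).div ((this.const_mul 2).sub measurable_const)
  have hD : ∀ y ∈ F, 0 < 2 * Bf y - 1 := fun y hy => by have := hB2 y hy; linarith
  have hr0 : ∀ y ∈ G, 0 ≤ r y := by
    intro y hy
    rw [hG] at hy
    exact div_nonneg (by linarith [hy.2]) (hD y hy.1).le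
  have hXs : ∀ q : P2 × ℝ, q ∈ Xs F B ↔
      0 ≤ q.2 ∧ ∃ y ∈ G, q.2 ≤ r y ∧ q.1 = (1 + 2 * q.2) • y := by
    rintro ⟨x, h⟩
    constructor
    · rintro ⟨hq, h0, y, hy, hxy⟩
      simp only at hq h0 hxy
      have hkey : (1 + 2 * h) * Bf y ≤ 1 + h := by
        obtain ⟨k, hk⟩ := (hB y).1
        have hk' : β k + dot (p k) y = Bf y := hk
        have h5 : dot (p k) x + β k * (1 + 2 * h) ≤ 1 + h := hq.2.2.2.2 k
        rw [hxy] at h5
        rw [← hk']
        simp only [dot, Prod.smul_fst, Prod.smul_snd, smul_eq_mul] at h5 ⊢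
        linarith
      have hle : h ≤ r y := by
        rw [hr]
        simp only
        rw [le_div_iff₀ (hD y hy)]
        linarith
      refine ⟨h0, y, ?_, hle, hxy⟩
      rw [hG]
      refine ⟨hy, ?_⟩
      have h6 : 0 ≤ h * (2 * Bf y - 1) := mul_nonneg h0 (hD y hy).le
      linarith
    · rintro ⟨h0, y, hy, hle, hxy⟩
      simp only at h0 hle hxy
      rw [hG] at hy
      obtain ⟨hyF, hy1⟩ := hy
      obtain ⟨h1, h2⟩ := hcomp y hyF
      have hDy := hD y hyF
      have hle' : h * (2 * Bf y - 1) ≤ 1 - Bf y := by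
        have := hle
        rw [hr] at this
        simp only at this
        rwa [le_div_iff₀ hDy] at this
      have hM' : h ≤ M := by
        rw [hM, le_div_iff₀ hδ0]
        have h7 := mul_le_mul_of_nonneg_left (hδ1 y hyF) h0
        have := hB2 y hyF
        linarith
      have hfac : 1 + 2 * h ≤ 1 + 2 * M := by linarith
      have hx1 : |x.1| ≤ R := by
        rw [hxy, Prod.smul_fst, smul_eq_mul, abs_mul, abs_of_nonneg (by positivity), hR]
        exact mul_le_mul hfac h1 (abs_nonneg _) (by positivity)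
      have hx2 : |x.2| ≤ R := by
        rw [hxy, Prod.smul_snd, smul_eq_mul, abs_mul, abs_of_nonneg (by positivity), hR]
        exact mul_le_mul hfac h2 (abs_nonneg _) (by positivity)
      refine ⟨⟨by show (-1 : ℝ) ≤ h; linarith, hM', abs_le.1 hx1, abs_le.1 hx2, fun k => ?_⟩, h0,
        y, hyF, hxy⟩
      have h8 := hBle y k
      show dot (p k) x + β k * (1 + 2 * h) ≤ 1 + h
      have h9 := mul_le_mul_of_nonneg_left h8 (show 0 ≤ 1 + 2 * h by positivity)
      rw [hxy]
      simp only [dot, Prod.smul_fst, Prod.smul_snd, smul_eq_mul] at h9 ⊢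
      linarith
  have hvol := HG F G _ B cF vF cB vB neg rfl hGt F01 F02 G01 G02 hpos h4
  have hv := E2_vol hGm hrm hr0 hXs
  -- the integrand
  have hcontr : ContinuousOn (fun y => 1 / (2 * Bf y - 1) ^ 3) G := by
    refine ContinuousOn.div continuousOn_const (by fun_prop) fun y hy => ?_
    rw [hG] at hy
    exact pow_ne_zero 3 (hD y hy.1).ne'
  have hint : IntegrableOn (fun y => 1 / (2 * Bf y - 1) ^ 3) G :=
    hcontr.integrableOn_compact cG
  have hEq : ∀ y ∈ G, ((1 + 2 * r y) ^ 3 - 1) / 6 = (1 / (2 * Bf y - 1) ^ 3 - 1) / 6 := by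
    intro y hy
    rw [hG] at hy
    have hDy := (hD y hy.1).ne'
    congr 2
    rw [hr]
    simp only
    rw [← one_div_pow]
    congr 1
    field_simp
    ring
  have hnn : ∀ y ∈ G, 0 ≤ ((1 + 2 * r y) ^ 3 - 1) / 6 := by
    intro y hy
    have h1 := hr0 y hy
    have : 1 ≤ (1 + 2 * r y) ^ 3 := one_le_pow₀ (by linarith)
    linarith
  have hvol3 : vol3 (Xs F B) = ∫ y in G, (1 / (2 * Bf y - 1) ^ 3 - 1) / 6 := by
    unfold vol3
    rw [hv, ← setIntegral_congr_fun hGm hEq]
    rw [integral_eq_lintegral_of_nonneg_ae]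
    · filter_upwards [ae_restrict_mem hGm] with y hy
      exact hnn y hy
    · have : Measurable fun y => ((1 + 2 * r y) ^ 3 - 1) / 6 := by fun_prop
      exact this.aestronglyMeasurable
  have hone : IntegrableOn (fun _ : P2 => (1 : ℝ)) G :=
    continuousOn_const.integrableOn_compact cG
  rw [hvol3, integral_div, integral_sub hint hone] at hvol
  have hA : ∫ _ in G, (1 : ℝ) = area G := by
    rw [setIntegral_const, smul_eq_mul, mul_one]
    rfl
  rw [hA] at hvol
  linarith

theorem planar_final_of (HG : PlanarGeneral) {ι : Type} [Fintype ι] [Nonempty ι] {F G : Set P2}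
    (cF : IsCompact F) (vF : Convex ℝ F)
    (p : ι → P2) (β : ι → ℝ)
    (hb : ∀ y ∈ F, ∀ k, 0 ≤ β k + dot (p k) y)
    (Bf : P2 → ℝ) (hB : ∀ y, IsGreatest (Set.range fun k => β k + dot (p k) y) (Bf y))
    (hB2 : ∀ y ∈ F, 1 / 2 < Bf y)
    (hG : G = {y | y ∈ F ∧ Bf y ≤ 1})
    (hc1 : area F * ∫ y in G, y.1 = area G * ∫ y in F, y.1)
    (hc2 : area F * ∫ y in G, y.2 = area G * ∫ y in F, y.2)
    (hpos : 0 < area G) (h4 : 4 * area G < area F) :
    ∫ y in G, (1 / (2 * Bf y - 1) ^ 3) ≤ 3 * area G := by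
  have hcont := E2_cont p β hB
  have cG : IsCompact G := by
    rw [hG]
    exact cF.inter_right (isClosed_le hcont continuous_const)
  have hFpos : 0 < area F := by linarith
  set c : P2 := ((∫ y in F, y.1) / area F, (∫ y in F, y.2) / area F) with hc
  -- translation
  have hτ : MeasurableEmbedding (fun y : P2 => y + c) := (MeasurableEquiv.addRight c).measurableEmbedding
  have hmp : MeasurePreserving (fun y : P2 => y + c) volume volume :=
    measurePreserving_add_right volume c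
  have harea : ∀ K : Set P2, area ((fun y : P2 => y + c) ⁻¹' K) = area K := fun K => by
    unfold area
    rw [measure_preimage_add_right]
  have hint : ∀ (K : Set P2) (φ : P2 → ℝ),
      ∫ y in (fun y : P2 => y + c) ⁻¹' K, φ (y + c) = ∫ y in K, φ y := fun K φ =>
    hmp.setIntegral_preimage_emb hτ φ K
  have hcK : ∀ K : Set P2, IsCompact K → IsCompact ((fun y : P2 => y + c) ⁻¹' K) := fun K hK =>
    (Homeomorph.addRight c).isCompact_preimage.2 hK
  have hfst : ∀ K : Set P2, IsCompact K → ∫ y in (fun y : P2 => y + c) ⁻¹' K, y.1 =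
      (∫ y in K, y.1) - area K * c.1 := by
    intro K hK
    have h1 := hint K (fun y => y.1 - c.1)
    have e1 : (fun y : P2 => (y + c).1 - c.1) = fun y => y.1 := by
      funext y
      simp
    rw [e1] at h1
    rw [h1, integral_sub (continuous_fst.continuousOn.integrableOn_compact hK)
      (continuousOn_const.integrableOn_compact hK), setIntegral_const, smul_eq_mul]
    rfl
  have hsnd : ∀ K : Set P2, IsCompact K → ∫ y in (fun y : P2 => y + c) ⁻¹' K, y.2 =
      (∫ y in K, y.2) - area K * c.2 := by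
    intro K hK
    have h1 := hint K (fun y => y.2 - c.2)
    have e1 : (fun y : P2 => (y + c).2 - c.2) = fun y => y.2 := by
      funext y
      simp
    rw [e1] at h1
    rw [h1, integral_sub (continuous_snd.continuousOn.integrableOn_compact hK)
      (continuousOn_const.integrableOn_compact hK), setIntegral_const, smul_eq_mul]
    rfl
  have hadd : ∀ k (y : P2), β k + dot (p k) (y + c) = (β k + dot (p k) c) + dot (p k) y := by
    intro k y
    simp only [dot, Prod.fst_add, Prod.snd_add]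
    ring
  have key := E2_centered HG (F := (fun y : P2 => y + c) ⁻¹' F) (G := (fun y : P2 => y + c) ⁻¹' G)
    (hcK F cF) (vF.translate_preimage_left c) p (fun k => β k + dot (p k) c)
    (fun y hy k => by rw [← hadd]; exact hb _ hy k)
    (fun y => Bf (y + c))
    (fun y => by
      have := hB (y + c)
      simp only [hadd] at this
      exact this)
    (fun y hy => hB2 _ hy)
    (by rw [hG]; rfl)
    (by
      rw [hfst F cF, hc]
      simp only
      rw [mul_div_cancel₀ _ hFpos.ne', sub_self])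
    (by
      rw [hsnd F cF, hc]
      simp only
      rw [mul_div_cancel₀ _ hFpos.ne', sub_self])
    (by
      rw [hfst G cG, hc]
      simp only
      have : ∫ y in G, y.1 = area G * ((∫ y in F, y.1) / area F) := by
        rw [mul_div_assoc', eq_div_iff hFpos.ne', ← hc1]
        ring
      rw [this, sub_self])
    (by
      rw [hsnd G cG, hc]
      simp only
      have : ∫ y in G, y.2 = area G * ((∫ y in F, y.2) / area F) := by
        rw [mul_div_assoc', eq_div_iff hFpos.ne', ← hc2]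
        ring
      rw [this, sub_self])
    (by rw [harea]; exact hpos) (by rw [harea, harea]; exact h4)
  rw [harea] at key
  rw [← hint G (fun y => 1 / (2 * Bf y - 1) ^ 3)]
  exact key

end Pool.Agent.helper15.PB
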